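import Pool.Agent.Lib.MP_1ad228_ntZC.CRoot
import Pool.Agent.Lib.MP_1ad228_ntZ.N2
import Pool.Agent.Lib.MP_1ad228_ntZ.CntY

/-!
LEAF CPair.  Slices and roots for one pair of points.  `c = cw r m a b`, `j = jw r a`, `D = Dd x y`, `D' = Dd (vtw b x) (vtw b y)`.
clsRoot: the class of `w` modulo `I` is one of at most `rt r I` roots (rtLeS), the class of `tw c w` modulo `J` one of at most `rt r J` roots; each pair of classes has at most `1 + Q * Q^c/(nI I nI J)` elements (class_up).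
sl_inv: `μ, μ' ∈ MS`: by sl_good `sl μ μ' = n2 ≥ 1` (`0 ∈ Box`), so there is `G0 ∈ Box` with the values `μ, μ'`; `G ↦ G + G0` is a bijection between the two fibres.
twr: for `w ∈ WS`: `(tw c w)^r = s^j * tw (a + r m b) (w^r)` (both are `s^(r c) w^r` in `K`, `r c = a + r m b + j`: cw_eq).
A1_le: `sl z z' ≤ n2` (sl_le).  If `sl z z' ≠ 0` there is `G` in the box with `ev G x = z`, `ev G y = z'`; modulo `D`: `y ≡ λ x` (`λ = lin u y`, `lin u x = 1`), so `z' ≡ λ^(r m) z`; modulo `D'` in `P`: `tw z' ≡ λ'^(r m) tw z` (tw_ev).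
For given `w1` (`z = w1^r`, `z' = w2^r`) this says `w2^r - α ∈ D`, `(tw c w2)^r - s^j β ∈ s^j D'` (twr), so clsRoot with `I = D`, `J = sJ j D'` gives at most `rt r D * rt r (sJ j D') * (1 + Q * Q^c / (nI D * nI (sJ j D')))` values `w2`, and `nI (sJ j D') ≥ nI D'`.
A2_le: for given `w1, μ, μ'` the same count for `w2` with `z = w1^r + μ`, `z' = w2^r + μ'` (`tw (z') = tw (w2^r) + tw μ'`).
A1_prp: `Prp x y`: `y = c x` with `c ∈ O` (as in prp_cnt), `sl z z' ≠ 0` implies `z' = c^(r m) z`; for given `w1` at most `r` roots `w2` of `X^r - c^(r m) w1^r` in the domain `O`; `sl ≤ n2 ≤ n1`.  A2_prp: for given `w1, μ, w2` at most one `μ'`; `#WS ≤ h c`.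
-/

namespace Pool.Agent.Lib.MP_1ad228_ntZ

open Classical

private theorem CPair_sum {R : Type} [CommRing R] {n : ℕ} {x y u : Vc n R} (hu : lin u x = 1)
    (i : Fin (n + 1)) : y i - lin u y * x i = ∑ j, u j * mn x y j i := by
  have h1 : y i = lin u x * y i := by rw [hu, one_mul]
  have h2 : ∑ j, u j * mn x y j i = lin u x * y i - lin u y * x i := by
    rw [Pool.Agent.Lib.MP_219881_nt.lin, Pool.Agent.Lib.MP_219881_nt.lin, Finset.sum_mul,
      Finset.sum_mul, ← Finset.sum_sub_distrib]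
    refine Finset.sum_congr rfl fun j _ => ?_
    rw [Pool.Agent.Lib.MP_219881_nt.mn]
    ring
  rw [h2, ← h1]

private theorem CPair_mn {R : Type} [CommRing R] {n : ℕ} (x y : Vc n R) (i j : Fin (n + 1)) :
    mn x y i j ∈ Dd x y :=
  Ideal.subset_span ⟨(i, j), rfl⟩

private theorem CPair_lam {R : Type} [CommRing R] {n : ℕ} {x y u : Vc n R} (hu : lin u x = 1)
    (i : Fin (n + 1)) : y i - lin u y * x i ∈ Dd x y := by
  rw [CPair_sum hu]
  exact Ideal.sum_mem _ fun j _ => Ideal.mul_mem_left _ _ (CPair_mn x y j i)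

private theorem CPair_prop {R : Type} [CommRing R] {n : ℕ} {x y u : Vc n R} (hu : lin u x = 1)
    (h : Prp x y) : y = fun i => lin u y * x i := by
  funext i
  have h1 := CPair_sum (y := y) hu i
  rw [Finset.sum_eq_zero fun j _ => by rw [h j i, mul_zero]] at h1
  exact sub_eq_zero.1 h1

private theorem CPair_evmod {R : Type} [CommRing R] {n d : ℕ} {I : Ideal R} {x y : Vc n R} {l : R}
    (h : ∀ i, y i - l * x i ∈ I) (G : Ten n d R) : ev G y - l ^ d * ev G x ∈ I := by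
  rw [← Ideal.Quotient.eq]
  have h1 : (fun i => Ideal.Quotient.mk I (y i)) =
      fun i => Ideal.Quotient.mk I l * Ideal.Quotient.mk I (x i) := by
    funext i
    rw [← map_mul]
    exact (Ideal.Quotient.eq).2 (h i)
  rw [← ev_map, h1, ev_scale, ev_map, map_mul, map_pow]

namespace TC
variable {K O P : Type} [Field K] [CommRing O] [IsDedekindDomain O] [Algebra O K]
  [IsFractionRing O K] [CommRing P] [IsDedekindDomain P] [Algebra P K]
  [IsFractionRing P K] (T : TC K O P)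

theorem clsRoot {r : ℕ} (hr : 1 ≤ r) (c : ℕ) {I : Ideal O} {J : Ideal P} (hI : I ≠ ⊥)
    (hJ : J ≠ ⊥) (α : O) (β : P) :
    (((T.H c).filter fun w => w ^ r - α ∈ I ∧ T.tw c w ^ r - β ∈ J).card : ℝ) ≤
      (rt r I : ℝ) * rt r J * (1 + T.Q * ((T.Q : ℝ) ^ c / ((nI I : ℝ) * nI J))) := by
  have hfI := T.finO I hI
  have hfJ := T.finP J hJ
  have := Fintype.ofFinite (O ⧸ I)
  have := Fintype.ofFinite (P ⧸ J)
  obtain ⟨B, hB⟩ : ∃ B : ℝ, B = 1 + T.Q * ((T.Q : ℝ) ^ c / ((nI I : ℝ) * nI J)) := ⟨_, rfl⟩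
  have hB0 : 0 ≤ B := by
    rw [hB]
    positivity
  obtain ⟨SI, hSI⟩ : ∃ S : Finset (O ⧸ I), S = Finset.univ.filter fun z =>
    z ^ r = Ideal.Quotient.mk I α := ⟨_, rfl⟩
  obtain ⟨SJ, hSJ⟩ : ∃ S : Finset (P ⧸ J), S = Finset.univ.filter fun z =>
    z ^ r = Ideal.Quotient.mk J β := ⟨_, rfl⟩
  have hI1 : (SI.card : ℝ) ≤ rt r I := by
    have h1 := rtLeS T.finO (r := r) hI (Ideal.Quotient.mk I α)
    rw [Nat.card_eq_fintype_card, Fintype.card_subtype] at h1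
    rw [hSI]
    exact_mod_cast h1
  have hJ1 : (SJ.card : ℝ) ≤ rt r J := by
    have h1 := rtLeS T.finP (r := r) hJ (Ideal.Quotient.mk J β)
    rw [Nat.card_eq_fintype_card, Fintype.card_subtype] at h1
    rw [hSJ]
    exact_mod_cast h1
  rw [← hB]
  have hsum := Finset.card_eq_sum_card_fiberwise
    (s := (T.H c).filter fun w => w ^ r - α ∈ I ∧ T.tw c w ^ r - β ∈ J) (t := SI ×ˢ SJ)
    (f := fun w => (Ideal.Quotient.mk I w, Ideal.Quotient.mk J (T.tw c w))) (by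
      intro w hw
      have hw' := (Finset.mem_filter.1 (Finset.mem_coe.1 hw)).2
      rw [Finset.mem_coe, Finset.mem_product, hSI, hSJ, Finset.mem_filter, Finset.mem_filter]
      refine ⟨⟨Finset.mem_univ _, ?_⟩, ⟨Finset.mem_univ _, ?_⟩⟩
      · rw [← map_pow]
        exact (Ideal.Quotient.eq).2 hw'.1
      · rw [← map_pow]
        exact (Ideal.Quotient.eq).2 hw'.2)
  rw [hsum]
  push_cast
  refine (Finset.sum_le_sum (g := fun _ => B) fun p _ => ?_).trans ?_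
  · obtain ⟨p1, p2⟩ := p
    obtain ⟨z1, rfl⟩ := Ideal.Quotient.mk_surjective p1
    obtain ⟨z2, rfl⟩ := Ideal.Quotient.mk_surjective p2
    rw [hB]
    refine le_trans ?_ (T.class_up c hI hJ z1 z2)
    have h1 : (((T.H c).filter fun w => w ^ r - α ∈ I ∧ T.tw c w ^ r - β ∈ J).filter fun w =>
        (Ideal.Quotient.mk I w, Ideal.Quotient.mk J (T.tw c w)) =
          (Ideal.Quotient.mk I z1, Ideal.Quotient.mk J z2)) ⊆
        (T.H c).filter fun z => z - z1 ∈ I ∧ T.tw c z - z2 ∈ J := by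
      intro w hw
      rw [Finset.mem_filter, Finset.mem_filter] at hw
      rw [Finset.mem_filter]
      have h2 := congrArg Prod.fst hw.2
      have h3 := congrArg Prod.snd hw.2
      exact ⟨hw.1.1, (Ideal.Quotient.eq).1 h2, (Ideal.Quotient.eq).1 h3⟩
    have h4 := Finset.card_le_card h1
    exact_mod_cast h4
  · rw [Finset.sum_const, Finset.card_product, nsmul_eq_mul]
    push_cast
    exact mul_le_mul_of_nonneg_right (mul_le_mul hI1 hJ1 (Nat.cast_nonneg _) (Nat.cast_nonneg _)) hB0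

theorem sl_inv {n b g a d w : ℕ} (hd : 2 ≤ d) {x y : Vc n O} (hx : x ∈ T.GG n b g)
    (hy : y ∈ T.GG n b g) (hxy : ¬ Prp x y) (ha : 2 * g + T.c1 ≤ a)
    (h1 : WD O w ≤ Dd x y) (h2 : WD P w ≤ Dd (T.vtw b x) (T.vtw b y)) {μ μ' : O}
    (hm : μ ∈ T.MS w (a + d * b)) (hm' : μ' ∈ T.MS w (a + d * b)) (z z' : O) :
    T.sl d a x y (z + μ) (z' + μ') = T.sl d a x y z z' := by
  have h3 := T.sl_good hd hx hy hxy ha h1 h2 hm hm'
  have h4 : 0 < T.sl d a x y μ μ' := by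
    rw [h3]
    refine Finset.card_pos.2 ⟨0, ?_⟩
    rw [Finset.mem_filter, T.mem_Box, ev_zero, ev_zero]
    exact ⟨fun _ => T.zero_mem_H a, rfl, rfl⟩
  obtain ⟨G0, hG0⟩ := Finset.card_pos.1 h4
  rw [Finset.mem_filter, T.mem_Box] at hG0
  obtain ⟨h5, h6, h7⟩ := hG0
  unfold sl
  refine Finset.card_bij' (fun G _ => G - G0) (fun G _ => G + G0) ?_ ?_ ?_ ?_
  · intro G hG
    rw [Finset.mem_filter, T.mem_Box] at hG ⊢
    refine ⟨fun i => T.sub_mem_H (hG.1 i) (h5 i), ?_, ?_⟩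
    · rw [ev_sub, hG.2.1, h6, add_sub_cancel_right]
    · rw [ev_sub, hG.2.2, h7, add_sub_cancel_right]
  · intro G hG
    rw [Finset.mem_filter, T.mem_Box] at hG ⊢
    refine ⟨fun i => T.add_mem_H (hG.1 i) (h5 i), ?_, ?_⟩
    · rw [ev_add, hG.2.1, h6]
    · rw [ev_add, hG.2.2, h7]
  · intro G _
    exact sub_add_cancel G G0
  · intro G _
    exact add_sub_cancel_right G G0

private theorem CPair_WS {r m a b : ℕ} {w : O} (hw : w ∈ T.WS r m a b) :
    w ∈ T.H (cw r m a b) ∧ w ^ r ∈ T.H (a + r * m * b) := by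
  unfold WS at hw
  exact Finset.mem_filter.1 hw

theorem twr {r m a b : ℕ} (hr : 1 ≤ r) {w : O} (hw : w ∈ T.WS r m a b) :
    T.tw (cw r m a b) w ^ r = T.s ^ jw r a * T.tw (a + r * m * b) (w ^ r) := by
  obtain ⟨h1, h2⟩ := T.CPair_WS hw
  apply IsFractionRing.injective P K
  rw [map_pow, map_mul, map_pow, T.tw_spec h1, T.tw_spec h2, mul_pow, ← pow_mul,
    Nat.mul_comm (cw r m a b) r, cw_eq hr m a b, pow_add _ (a + r * m * b) (jw r a), map_pow]
  ring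

private theorem CPair_sJ (j : ℕ) {J : Ideal P} (hJ : J ≠ ⊥) : T.sJ j J ≠ ⊥ ∧ nI J ≤ nI (T.sJ j J) := by
  have h1 : Ideal.span {T.s} ≠ ⊥ := fun h => T.s_ne' (Ideal.span_singleton_eq_bot.1 h)
  have h2 : Ideal.span {T.s} ^ j ≠ ⊥ := pow_ne_zero j h1
  have h3 : T.sJ j J ≠ ⊥ := mul_ne_zero h2 hJ
  exact ⟨h3, nI_mono T.finP h3 Ideal.mul_le_right⟩

private theorem CPair_sJ_mem {j : ℕ} {J : Ideal P} {z : P} (h : z ∈ J) : T.s ^ j * z ∈ T.sJ j J :=
  Ideal.mul_mem_mul (Ideal.pow_mem_pow (Ideal.mem_span_singleton_self T.s) j) h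

/-- The bound for the number of roots. -/
private noncomputable def CPair_B (r m : ℕ) {n : ℕ} (a b : ℕ) (x y : Vc n O) : ℝ :=
  T.rD r (jw r a) b x y * (1 + T.Q * ((T.Q : ℝ) ^ cw r m a b / T.nD b x y))

private theorem CPair_B0 (r m : ℕ) {n : ℕ} (a b : ℕ) (x y : Vc n O) : 0 ≤ T.CPair_B r m a b x y := by
  unfold CPair_B rD
  positivity

/-- Number of the values `w2` with a nonempty slice. -/
private theorem CPair_cnt {r m n a b g : ℕ} (hr : 1 ≤ r) {x y : Vc n O}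
    (hx : x ∈ T.GG n b g) (hy : y ∈ T.GG n b g) (hxy : ¬ Prp x y) (z : O) {μ : O}
    (hμ : μ ∈ T.H (a + r * m * b)) :
    (((T.WS r m a b).filter fun w2 => T.sl (r * m) a x y z (w2 ^ r + μ) ≠ 0).card : ℝ) ≤
      T.CPair_B r m a b x y := by
  obtain ⟨hxV, ⟨u, hu⟩, ⟨u', hu'⟩, _⟩ := T.mem_GG.1 hx
  obtain ⟨hyV, _, _, _⟩ := T.mem_GG.1 hy
  obtain ⟨hD, hD'⟩ := T.Dd_ne hxV hyV hxy
  obtain ⟨hJ, hJ2⟩ := T.CPair_sJ (jw r a) hD'
  have h1 := T.clsRoot hr (cw r m a b) hD hJ (lin u y ^ (r * m) * z - μ)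
    (T.s ^ jw r a * (lin u' (T.vtw b y) ^ (r * m) * T.tw (a + r * m * b) z -
      T.tw (a + r * m * b) μ))
  have hsub : ((T.WS r m a b).filter fun w2 => T.sl (r * m) a x y z (w2 ^ r + μ) ≠ 0) ⊆
      (T.H (cw r m a b)).filter fun w => w ^ r - (lin u y ^ (r * m) * z - μ) ∈ Dd x y ∧
        T.tw (cw r m a b) w ^ r - (T.s ^ jw r a * (lin u' (T.vtw b y) ^ (r * m) *
          T.tw (a + r * m * b) z - T.tw (a + r * m * b) μ)) ∈
          T.sJ (jw r a) (Dd (T.vtw b x) (T.vtw b y)) := by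
    intro w hw
    rw [Finset.mem_filter] at hw
    obtain ⟨hw1, hw2⟩ := hw
    obtain ⟨hw3, hw4⟩ := T.CPair_WS hw1
    obtain ⟨G, hG⟩ := Finset.card_pos.1 (Nat.pos_of_ne_zero hw2)
    rw [Finset.mem_filter] at hG
    obtain ⟨hG1, hG2, hG3⟩ := hG
    rw [Finset.mem_filter]
    refine ⟨hw3, ?_, ?_⟩
    · have h2 := CPair_evmod (CPair_lam (y := y) hu) G
      rw [hG2, hG3] at h2
      have h3 : w ^ r - (lin u y ^ (r * m) * z - μ) = w ^ r + μ - lin u y ^ (r * m) * z := by ring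
      rw [h3]
      exact h2
    · have h2 := CPair_evmod (CPair_lam (y := T.vtw b y) hu') (T.ttw a G)
      rw [← T.tw_ev hG1 hxV, ← T.tw_ev hG1 hyV, hG2, hG3, T.tw_add hw4 hμ] at h2
      have h3 := T.CPair_sJ_mem (j := jw r a) h2
      rw [T.twr hr hw1]
      have h4 : T.s ^ jw r a * T.tw (a + r * m * b) (w ^ r) -
          (T.s ^ jw r a * (lin u' (T.vtw b y) ^ (r * m) * T.tw (a + r * m * b) z -
            T.tw (a + r * m * b) μ)) =
          T.s ^ jw r a * (T.tw (a + r * m * b) (w ^ r) + T.tw (a + r * m * b) μ -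
            lin u' (T.vtw b y) ^ (r * m) * T.tw (a + r * m * b) z) := by ring
      rw [h4]
      exact h3
  refine (Nat.cast_le.2 (Finset.card_le_card hsub)).trans (h1.trans ?_)
  unfold CPair_B rD nD
  have h3 : 0 < nI (Dd x y) := nI_pos T.finO hD
  have h4 : 0 < nI (Dd (T.vtw b x) (T.vtw b y)) := nI_pos T.finP hD'
  have h5 : (0 : ℝ) < nI (Dd x y) := by exact_mod_cast h3
  have h6 : (0 : ℝ) < nI (Dd (T.vtw b x) (T.vtw b y)) := by exact_mod_cast h4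
  have h7 : (nI (Dd (T.vtw b x) (T.vtw b y)) : ℝ) ≤
      nI (T.sJ (jw r a) (Dd (T.vtw b x) (T.vtw b y))) := by exact_mod_cast hJ2
  refine mul_le_mul_of_nonneg_left ?_ (by positivity)
  refine add_le_add le_rfl (mul_le_mul_of_nonneg_left ?_ (Nat.cast_nonneg _))
  push_cast
  refine div_le_div_of_nonneg_left (by positivity) (by positivity) ?_
  exact mul_le_mul_of_nonneg_left h7 h5.le

/-- Sum of the slices over `w2`. -/
private theorem CPair_row {r m n a b : ℕ} {x y : Vc n O} (z : O) (f : O → O) (B N : ℝ)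
    (hN : 0 ≤ N) (hB : (((T.WS r m a b).filter fun w2 =>
      T.sl (r * m) a x y z (f w2) ≠ 0).card : ℝ) ≤ B)
    (hs : ∀ w2, (T.sl (r * m) a x y z (f w2) : ℝ) ≤ N) :
    ∑ w2 ∈ T.WS r m a b, (T.sl (r * m) a x y z (f w2) : ℝ) ≤ N * B := by
  rw [← Finset.sum_filter_add_sum_filter_not (T.WS r m a b)
    (fun w2 => T.sl (r * m) a x y z (f w2) ≠ 0)]
  have h1 : ∑ w2 ∈ (T.WS r m a b).filter (fun w2 => ¬ T.sl (r * m) a x y z (f w2) ≠ 0),
      (T.sl (r * m) a x y z (f w2) : ℝ) = 0 := by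
    refine Finset.sum_eq_zero fun w hw => ?_
    rw [Finset.mem_filter, not_not] at hw
    rw [hw.2, Nat.cast_zero]
  rw [h1, add_zero]
  refine (Finset.sum_le_sum (g := fun _ => N) fun w _ => hs w).trans ?_
  rw [Finset.sum_const, nsmul_eq_mul, mul_comm]
  exact mul_le_mul_of_nonneg_left hB hN

private theorem CPair_WS_card (r m a b : ℕ) :
    ((T.WS r m a b).card : ℝ) ≤ T.h (cw r m a b) := by
  have h1 : (T.WS r m a b).card ≤ (T.H (cw r m a b)).card := Finset.card_filter_le _ _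
  exact_mod_cast h1

private theorem CPair_MS_pos (w c : ℕ) : (0 : ℝ) < (T.MS w c).card := by
  have h1 : 0 < (T.MS w c).card := by
    refine Finset.card_pos.2 ⟨0, ?_⟩
    refine T.mem_M.2 ⟨T.zero_mem_H c, Ideal.zero_mem _, ?_⟩
    rw [T.tw_zero]
    exact Ideal.zero_mem _
  exact_mod_cast h1

private theorem CPair_sl_n2 {n : ℕ} (d a : ℕ) (x y : Vc n O) (z z' : O) :
    (T.sl d a x y z z' : ℝ) ≤ T.n2 d x y a := by
  exact_mod_cast T.sl_le d a x y z z'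

private theorem CPair_sl_n1 {n : ℕ} (d a : ℕ) (x y : Vc n O) (z z' : O) :
    (T.sl d a x y z z' : ℝ) ≤ T.n1 d x a := by
  exact_mod_cast (T.sl_le d a x y z z').trans (T.n2_le_n1 d x y)

/-- The value at `y` when `y` is a multiple of `x`. -/
private theorem CPair_val {n b g d a : ℕ} {x y : Vc n O} (hx : x ∈ T.GG n b g) (hxy : Prp x y) :
    ∃ l : O, ∀ z z' : O, T.sl d a x y z z' ≠ 0 → z' = l ^ d * z := by
  obtain ⟨_, ⟨u, hu⟩, _, _⟩ := T.mem_GG.1 hx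
  refine ⟨lin u y, fun z z' h => ?_⟩
  obtain ⟨G, hG⟩ := Finset.card_pos.1 (Nat.pos_of_ne_zero h)
  rw [Finset.mem_filter] at hG
  obtain ⟨_, hG2, hG3⟩ := hG
  rw [← hG2, ← hG3, ← ev_scale, ← CPair_prop hu hxy]

theorem A1_le {r m n a b g : ℕ} (hr : 1 ≤ r) (hm : 1 ≤ m) {x y : Vc n O} (hx : x ∈ T.GG n b g)
    (hy : y ∈ T.GG n b g) (hxy : ¬ Prp x y) :
    T.A1 r m a b x y ≤ (T.n2 (r * m) x y a : ℝ) * T.h (cw r m a b) *
      (T.rD r (jw r a) b x y * (1 + T.Q * ((T.Q : ℝ) ^ cw r m a b / T.nD b x y))) := by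
  show _ ≤ (T.n2 (r * m) x y a : ℝ) * T.h (cw r m a b) * T.CPair_B r m a b x y
  have hB0 := T.CPair_B0 r m a b x y
  have h1 : ∀ w1 ∈ T.WS r m a b, ∑ w2 ∈ T.WS r m a b,
      (T.sl (r * m) a x y (w1 ^ r) (w2 ^ r) : ℝ) ≤
      (T.n2 (r * m) x y a : ℝ) * T.CPair_B r m a b x y := by
    intro w1 _
    refine T.CPair_row (w1 ^ r) (fun w2 => w2 ^ r) _ _ (Nat.cast_nonneg _) ?_
      fun w2 => T.CPair_sl_n2 _ _ _ _ _ _
    have h2 := T.CPair_cnt (m := m) (a := a) hr hx hy hxy (w1 ^ r) (T.zero_mem_H _)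
    simp only [add_zero] at h2
    exact h2
  unfold A1
  refine (Finset.sum_le_sum h1).trans ?_
  rw [Finset.sum_const, nsmul_eq_mul]
  have h3 := mul_le_mul_of_nonneg_right (T.CPair_WS_card r m a b)
    (mul_nonneg (Nat.cast_nonneg (α := ℝ) (T.n2 (r * m) x y a)) hB0)
  refine h3.trans (le_of_eq ?_)
  ring

theorem A2_le {r m n a b g w : ℕ} (hr : 1 ≤ r) (hm : 1 ≤ m) {x y : Vc n O}
    (hx : x ∈ T.GG n b g) (hy : y ∈ T.GG n b g) (hxy : ¬ Prp x y) :
    T.A2 r m a b w x y ≤ (T.n2 (r * m) x y a : ℝ) * T.h (cw r m a b) *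
      (T.rD r (jw r a) b x y * (1 + T.Q * ((T.Q : ℝ) ^ cw r m a b / T.nD b x y))) := by
  show _ ≤ (T.n2 (r * m) x y a : ℝ) * T.h (cw r m a b) * T.CPair_B r m a b x y
  have hB0 := T.CPair_B0 r m a b x y
  have hM := T.CPair_MS_pos w (a + r * m * b)
  have h1 : ∀ w1 ∈ T.WS r m a b, ∑ w2 ∈ T.WS r m a b, ∑ μ ∈ T.MS w (a + r * m * b),
      ∑ μ' ∈ T.MS w (a + r * m * b), (T.sl (r * m) a x y (w1 ^ r + μ) (w2 ^ r + μ') : ℝ) ≤
      ((T.MS w (a + r * m * b)).card : ℝ) * (((T.MS w (a + r * m * b)).card : ℝ) *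
        ((T.n2 (r * m) x y a : ℝ) * T.CPair_B r m a b x y)) := by
    intro w1 _
    rw [Finset.sum_comm]
    refine (Finset.sum_le_sum (g := fun _ => ((T.MS w (a + r * m * b)).card : ℝ) *
        ((T.n2 (r * m) x y a : ℝ) * T.CPair_B r m a b x y)) fun μ _ => ?_).trans ?_
    · rw [Finset.sum_comm]
      refine (Finset.sum_le_sum (g := fun _ =>
        (T.n2 (r * m) x y a : ℝ) * T.CPair_B r m a b x y) fun μ' hμ' => ?_).trans ?_
      · exact T.CPair_row (w1 ^ r + μ) (fun w2 => w2 ^ r + μ') _ _ (Nat.cast_nonneg _)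
          (T.CPair_cnt hr hx hy hxy (w1 ^ r + μ) (T.mem_M.1 hμ').1)
          fun w2 => T.CPair_sl_n2 _ _ _ _ _ _
      · rw [Finset.sum_const, nsmul_eq_mul]
    · rw [Finset.sum_const, nsmul_eq_mul]
  unfold A2
  obtain ⟨M, hMe⟩ : ∃ M : ℝ, M = ((T.MS w (a + r * m * b)).card : ℝ) := ⟨_, rfl⟩
  rw [← hMe] at h1 hM ⊢
  have h2 := (Finset.sum_le_sum h1)
  rw [Finset.sum_const, nsmul_eq_mul] at h2
  have h3 : 0 ≤ M * (M * ((T.n2 (r * m) x y a : ℝ) * T.CPair_B r m a b x y)) := by positivity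
  have h4 := h2.trans (mul_le_mul_of_nonneg_right (T.CPair_WS_card r m a b) h3)
  refine (mul_le_mul_of_nonneg_left h4 (by positivity)).trans (le_of_eq ?_)
  field_simp

theorem A1_prp {r m n a b g : ℕ} (hr : 1 ≤ r) {x y : Vc n O} (hx : x ∈ T.GG n b g)
    (hy : y ∈ T.GG n b g) (hxy : Prp x y) :
    T.A1 r m a b x y ≤ (T.n1 (r * m) x a : ℝ) * (r * T.h (cw r m a b)) := by
  obtain ⟨l, hl⟩ := T.CPair_val (d := r * m) (a := a) hx hxy
  have h1 : ∀ w1 ∈ T.WS r m a b, ∑ w2 ∈ T.WS r m a b,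
      (T.sl (r * m) a x y (w1 ^ r) (w2 ^ r) : ℝ) ≤ (T.n1 (r * m) x a : ℝ) * r := by
    intro w1 _
    refine T.CPair_row (w1 ^ r) (fun w2 => w2 ^ r) _ _ (Nat.cast_nonneg _) ?_
      fun w2 => T.CPair_sl_n1 _ _ _ _ _ _
    have h2 : ((T.WS r m a b).filter fun w2 => T.sl (r * m) a x y (w1 ^ r) (w2 ^ r) ≠ 0) ⊆
        (Polynomial.nthRoots r (l ^ (r * m) * w1 ^ r)).toFinset := by
      intro w2 hw2
      rw [Finset.mem_filter] at hw2
      rw [Multiset.mem_toFinset, Polynomial.mem_nthRoots hr]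
      exact hl _ _ hw2.2
    have h3 := (Finset.card_le_card h2).trans ((Multiset.toFinset_card_le _).trans
      (Polynomial.card_nthRoots r (l ^ (r * m) * w1 ^ r)))
    exact_mod_cast h3
  unfold A1
  refine (Finset.sum_le_sum h1).trans ?_
  rw [Finset.sum_const, nsmul_eq_mul]
  have h3 := mul_le_mul_of_nonneg_right (T.CPair_WS_card r m a b)
    (mul_nonneg (Nat.cast_nonneg (α := ℝ) (T.n1 (r * m) x a)) (Nat.cast_nonneg (α := ℝ) r))
  refine h3.trans (le_of_eq ?_)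
  ring

theorem A2_prp {r m n a b g w : ℕ} (hr : 1 ≤ r) {x y : Vc n O} (hx : x ∈ T.GG n b g)
    (hy : y ∈ T.GG n b g) (hxy : Prp x y) :
    T.A2 r m a b w x y ≤ (T.n1 (r * m) x a : ℝ) *
      ((T.h (cw r m a b) : ℝ) ^ 2 / ((T.MS w (a + r * m * b)).card : ℝ)) := by
  obtain ⟨l, hl⟩ := T.CPair_val (d := r * m) (a := a) hx hxy
  have hM := T.CPair_MS_pos w (a + r * m * b)
  have h0 : ∀ z z' : O, ∑ μ' ∈ T.MS w (a + r * m * b),
      (T.sl (r * m) a x y z (z' + μ') : ℝ) ≤ T.n1 (r * m) x a := by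
    intro z z'
    have h1 : ∀ μ' ∈ T.MS w (a + r * m * b), μ' ≠ l ^ (r * m) * z - z' →
        (T.sl (r * m) a x y z (z' + μ') : ℝ) = 0 := by
      intro μ' _ h2
      by_contra h3
      have h4 : T.sl (r * m) a x y z (z' + μ') ≠ 0 := fun h => h3 (by rw [h, Nat.cast_zero])
      have h5 := hl _ _ h4
      exact h2 (by rw [← h5, add_sub_cancel_left])
    by_cases h6 : l ^ (r * m) * z - z' ∈ T.MS w (a + r * m * b)
    · rw [Finset.sum_eq_single_of_mem _ h6 h1]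
      exact T.CPair_sl_n1 _ _ _ _ _ _
    · rw [Finset.sum_eq_zero fun μ' hμ' => h1 μ' hμ' fun h => h6 (by rw [← h]; exact hμ')]
      exact Nat.cast_nonneg _
  unfold A2
  obtain ⟨M, hMe⟩ : ∃ M : ℝ, M = ((T.MS w (a + r * m * b)).card : ℝ) := ⟨_, rfl⟩
  rw [← hMe] at hM ⊢
  have h1 : ∑ w1 ∈ T.WS r m a b, ∑ w2 ∈ T.WS r m a b, ∑ μ ∈ T.MS w (a + r * m * b),
      ∑ μ' ∈ T.MS w (a + r * m * b), (T.sl (r * m) a x y (w1 ^ r + μ) (w2 ^ r + μ') : ℝ) ≤
      ((T.WS r m a b).card : ℝ) * (((T.WS r m a b).card : ℝ) * (M * T.n1 (r * m) x a)) := by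
    rw [← nsmul_eq_mul, ← nsmul_eq_mul, hMe, ← nsmul_eq_mul]
    refine Finset.sum_le_card_nsmul _ _ _ fun w1 _ => ?_
    refine Finset.sum_le_card_nsmul _ _ _ fun w2 _ => ?_
    refine Finset.sum_le_card_nsmul _ _ _ fun μ _ => ?_
    exact h0 _ _
  have h2 := T.CPair_WS_card r m a b
  have h3 : ((T.WS r m a b).card : ℝ) * (((T.WS r m a b).card : ℝ) * (M * T.n1 (r * m) x a)) ≤
      (T.h (cw r m a b) : ℝ) * ((T.h (cw r m a b) : ℝ) * (M * T.n1 (r * m) x a)) := by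
    gcongr
  refine (mul_le_mul_of_nonneg_left (h1.trans h3) (by positivity)).trans (le_of_eq ?_)
  field_simp

end TC

end Pool.Agent.Lib.MP_1ad228_ntZ
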