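import Pool.Agent.Lib.MP_1ad228_ntZC.CEul
import Pool.Agent.Lib.MP_1ad228_ntZ.PairSum

/-!
LEAF CSum.  Pair sums with the weight `rD`.  Models: Beta.lean, Alpha.lean, PairSum.lean of Lib/MP_1ad228_ntZ.
`f(y) = nD * rD * (1 + Q * Q^c / nD) = rD * nD + Q^(c+1) rD`.  Group by `p = (I, J) = (Dd x y, Dd twists)`, `N = nI I * nI J`; `rD = rt r I * rt r (sJ j J)`.
The map `J ↦ sJ j J` is injective with `nI (sJ j J) = Q^j nI J`, `j ≤ r`, so every bound of CEul for sums of `rt r I * rt r J * N^γ` holds for `rt r I * rt r (sJ j J) * N^γ` up to a constant depending on `r`, `γ` (apply it to the image pairs `(I, sJ j J)`).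
betaC: (w < N ≤ Q^b) at most `(2Q)^(n+1) Q^(b(n+1))/N^n` values `y` for given `p` (cntY), `n ≥ 2`: `N * N^(-n) ≤ N^(-1)`, `N^(-n) ≤ N^(-2)`; rtUpTo with `γ = -1`, `X = Q^b`: `≤ C Q^(b/4)`; rtTailP: `≤ C (w+1)^(-3/4)`.
alphaC: (N > Q^b) at most `C Q^(g n)` values `y` for given `p` and `N ≤ Q^(g+b)` (proof of alpha in Alpha.lean; use its private lemmas by copying); rtUpTo with `γ = 1` (`X^(9/4)`) and `γ = 0` (`X^(5/4)`), `X = Q^(g+b)`.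
psBadC: bad pairs have `w < nD` (bad_gt).  psAllC: `w = 0`.
-/

namespace Pool.Agent.Lib.MP_1ad228_ntZ

open Classical

section field
variable {F : Type*} [Field F]

/-- The linear functional `u ↦ lin u y`. -/
private noncomputable def CSum_al_fun {n : ℕ} (y : Vc n F) : Vc n F →ₗ[F] F where
  toFun u := lin u y
  map_add' u v := lin_add u v y
  map_smul' c u := by
    rw [lin_smul]
    rfl

/-- `n` independent vectors orthogonal to a nonzero vector span its orthogonal complement. -/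
private theorem CSum_al_span {n : ℕ} (x : Vc n F) (hx : x ≠ 0) (f : Fin n → Vc n F)
    (hf : LinearIndependent F f) (h0 : ∀ s, lin (f s) x = 0) (u : Vc n F)
    (hu : lin u x = 0) : u ∈ Submodule.span F (Set.range f) := by
  have hker : ∀ s, f s ∈ LinearMap.ker (CSum_al_fun x) := by
    intro s
    rw [LinearMap.mem_ker]
    exact h0 s
  have hne : CSum_al_fun x ≠ 0 := by
    intro h
    apply hx
    funext i
    have h4 : CSum_al_fun x (Pi.single i 1) = 0 := by rw [h]; rfl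
    change lin (Pi.single i 1) x = 0 at h4
    rw [lin_single] at h4
    exact h4
  have hrange : Module.finrank F (LinearMap.range (CSum_al_fun x)) = 1 := by
    have : LinearMap.range (CSum_al_fun x) = ⊤ :=
      LinearMap.range_eq_top.mpr (LinearMap.surjective hne)
    rw [this]
    simp
  have hdim : Module.finrank F (LinearMap.ker (CSum_al_fun x)) = n := by
    have := LinearMap.finrank_range_add_finrank_ker (CSum_al_fun x)
    rw [hrange] at this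
    simp at this
    omega
  have hle : Submodule.span F (Set.range f) ≤ LinearMap.ker (CSum_al_fun x) := by
    rw [Submodule.span_le]
    rintro _ ⟨s, rfl⟩
    exact hker s
  have heq : Submodule.span F (Set.range f) = LinearMap.ker (CSum_al_fun x) := by
    apply Submodule.eq_of_le_of_finrank_eq hle
    rw [hdim, finrank_span_eq_card hf]
    simp
  rw [heq, LinearMap.mem_ker]
  exact hu

/-- A vector orthogonal to the `f s` is proportional to `x`. -/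
private theorem CSum_al_prop {n : ℕ} (x z : Vc n F) (hx : x ≠ 0) (f : Fin n → Vc n F)
    (hf : LinearIndependent F f) (h0 : ∀ s, lin (f s) x = 0) (hz : ∀ s, lin (f s) z = 0)
    (o j : Fin (n + 1)) : x o * z j = x j * z o := by
  obtain ⟨u, hu⟩ : ∃ u : Vc n F, u = (x o) • (Pi.single j 1 : Vc n F) -
      (x j) • (Pi.single o 1 : Vc n F) := ⟨_, rfl⟩
  have hlin : ∀ w : Vc n F, lin u w = x o * w j - x j * w o := by
    intro w
    rw [hu, lin_sub, lin_smul, lin_smul, lin_single, lin_single]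
  have h1 : lin u x = 0 := by
    rw [hlin]
    ring
  have h2 : u ∈ LinearMap.ker (CSum_al_fun z) := by
    have h3 : Submodule.span F (Set.range f) ≤ LinearMap.ker (CSum_al_fun z) := by
      rw [Submodule.span_le]
      rintro _ ⟨s, rfl⟩
      exact hz s
    exact h3 (CSum_al_span x hx f hf h0 u h1)
  have h3 : lin u z = 0 := h2
  rw [hlin, sub_eq_zero] at h3
  exact h3

end field

section frac

/-- The map to the fraction field on vectors. -/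
private noncomputable def CSum_al_map (O K : Type) [CommRing O] [IsDomain O] [Field K]
    [Algebra O K] (n : ℕ) : Vc n O →ₗ[O] Vc n K where
  toFun x := fun i => algebraMap O K (x i)
  map_add' x y := by
    funext i
    simp
  map_smul' c x := by
    funext i
    simp [Algebra.smul_def]

private theorem CSum_al_propO {O : Type} (K : Type) [CommRing O] [IsDomain O] [Field K]
    [Algebra O K] [IsFractionRing O K] {n : ℕ} (x z : Vc n O) (hx : x ≠ 0) (f : Fin n → Vc n O)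
    (hf : LinearIndependent O f) (h0 : ∀ s, lin (f s) x = 0) (hz : ∀ s, lin (f s) z = 0)
    (o j : Fin (n + 1)) : x o * z j = x j * z o := by
  have hinj := IsFractionRing.injective O K
  have hli : LinearIndependent K (fun s => CSum_al_map O K n (f s)) := by
    have hk : LinearMap.ker (CSum_al_map O K n) = ⊥ := by
      rw [LinearMap.ker_eq_bot]
      intro a b hab
      funext i
      exact hinj (congrFun hab i)
    have h1 : LinearIndependent O (CSum_al_map O K n ∘ f) := hf.map' (CSum_al_map O K n) hk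
    exact (LinearIndependent.iff_fractionRing O K).mp h1
  have hl : ∀ u w : Vc n O, lin (CSum_al_map O K n u) (CSum_al_map O K n w) =
      algebraMap O K (lin u w) := by
    intro u w
    simp only [Pool.Agent.Lib.MP_219881_nt.lin, map_sum, map_mul]
    rfl
  have h1 := CSum_al_prop (CSum_al_map O K n x) (CSum_al_map O K n z) (by
    intro h
    apply hx
    funext i
    have h2 := congrFun h i
    have h3 : algebraMap O K (x i) = 0 := h2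
    exact (map_eq_zero_iff _ hinj).1 h3) (fun s => CSum_al_map O K n (f s)) hli
    (fun s => by rw [hl, h0 s, map_zero]) (fun s => by rw [hl, hz s, map_zero]) o j
  apply hinj
  rw [map_mul, map_mul]
  exact h1

end frac

section ring
variable {R : Type} [CommRing R]

private theorem CSum_al_mn {n : ℕ} (x y : Vc n R) (i j : Fin (n + 1)) : mn x y i j ∈ Dd x y :=
  Ideal.subset_span ⟨(i, j), rfl⟩

private theorem CSum_al_lam {n : ℕ} {x y : Vc n R} (hx : Uni x) (I : Ideal R)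
    (h : ∀ i j, mn x y i j ∈ I) : ∃ l : R, ∀ j, y j - l * x j ∈ I := by
  obtain ⟨u, hu⟩ := hx
  refine ⟨lin u y, fun j => ?_⟩
  have h1 : y j - lin u y * x j = ∑ i, u i * mn x y i j := by
    have h2 : y j = y j * lin u x := by rw [hu, mul_one]
    have h3 : y j * lin u x - lin u y * x j = ∑ i, u i * mn x y i j := by
      simp only [Pool.Agent.Lib.MP_219881_nt.lin, Finset.mul_sum, Finset.sum_mul,
        ← Finset.sum_sub_distrib, Pool.Agent.Lib.MP_219881_nt.mn]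
      exact Finset.sum_congr rfl fun i _ => by ring
    rw [← h3, ← h2]
  rw [h1]
  exact Ideal.sum_mem _ fun i _ => Ideal.mul_mem_left _ _ (h i j)

private theorem CSum_al_dvd {n : ℕ} (x y : Vc n R) (hx : Uni x) (f : Vc n R) (h0 : lin f x = 0) :
    lin f y ∈ Dd x y := by
  obtain ⟨l, hl⟩ := CSum_al_lam hx (Dd x y) (CSum_al_mn x y)
  have h2 : lin f y = ∑ j, f j * (y j - l * x j) := by
    have h3 : ∑ j, f j * (y j - l * x j) = lin f y - l * lin f x := by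
      simp only [Pool.Agent.Lib.MP_219881_nt.lin, Finset.mul_sum, ← Finset.sum_sub_distrib]
      refine Finset.sum_congr rfl fun j _ => ?_
      ring
    rw [h3, h0, mul_zero, sub_zero]
  rw [h2]
  exact Ideal.sum_mem _ fun j _ => Ideal.mul_mem_left _ _ (hl j)

private theorem CSum_al_mul {n : ℕ} {x z u : Vc n R} (hu : lin u x = 1)
    (h : ∀ i j, x i * z j = x j * z i) (j : Fin (n + 1)) : z j = lin u z * x j := by
  have h2 : z j * lin u x = lin u z * x j := by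
    simp only [Pool.Agent.Lib.MP_219881_nt.lin, Finset.mul_sum, Finset.sum_mul]
    refine Finset.sum_congr rfl fun i _ => ?_
    linear_combination u i * h i j
  rwa [hu, mul_one] at h2

end ring

namespace TC
variable {K O P : Type} [Field K] [CommRing O] [IsDedekindDomain O] [Algebra O K]
  [IsFractionRing O K] [CommRing P] [IsDedekindDomain P] [Algebra P K]
  [IsFractionRing P K] (T : TC K O P)

omit [IsDedekindDomain O] [IsFractionRing O K] [IsDedekindDomain P] [IsFractionRing P K] in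
private theorem CSum_al_GG {n b g : ℕ} {x : Vc n O} (hx : x ∈ T.GG n b g) :
    x ∈ T.VB n b ∧ Uni x ∧ Uni (T.vtw b x) ∧ T.Good g x := by
  unfold GG at hx
  exact Finset.mem_filter.1 hx

private theorem CSum_al_ne {n : ℕ} {x : Vc n O} (hx : Uni x) : ∃ j, x j ≠ 0 := by
  obtain ⟨u, hu⟩ := hx
  by_contra hcon
  push Not at hcon
  have h1 : lin u x = 0 := by
    simp only [Pool.Agent.Lib.MP_219881_nt.lin]
    refine Finset.sum_eq_zero fun i _ => ?_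
    rw [hcon i, mul_zero]
  rw [h1] at hu
  exact zero_ne_one hu

/-- The values of the linear forms lie in `M`. -/
private theorem CSum_al_memM {n b g : ℕ} {x y f : Vc n O} (hx : x ∈ T.GG n b g)
    (hy : y ∈ T.GG n b g) (hf : f ∈ T.VB n g) (h0 : lin f x = 0) :
    lin f y ∈ T.M (g + b) (Dd x y) (Dd (T.vtw b x) (T.vtw b y)) := by
  obtain ⟨hx0, hx1, hx2, -⟩ := T.CSum_al_GG hx
  obtain ⟨hy0, -, -, -⟩ := T.CSum_al_GG hy
  rw [T.mem_M]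
  refine ⟨T.lin_mem hf hy0, CSum_al_dvd x y hx1 f h0, ?_⟩
  rw [T.tw_lin hf hy0]
  refine CSum_al_dvd _ _ hx2 _ ?_
  rw [← T.tw_lin hf hx0, h0, T.tw_zero]

/-- Two points with the same values of the linear forms. -/
private theorem CSum_al_fib {n b g : ℕ} {x y y' : Vc n O} (hx : x ∈ T.GG n b g)
    (hy : y ∈ T.GG n b g) (hy' : y' ∈ T.GG n b g) (f : Fin n → Vc n O)
    (hf : LinearIndependent O f) (h0 : ∀ s, lin (f s) x = 0)
    (he : ∀ s, lin (f s) y = lin (f s) y') :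
    ∃ c : O, c ∈ T.H 0 ∧ ∀ j, y j = y' j + c * x j := by
  obtain ⟨hx0, hx1, hx2, -⟩ := T.CSum_al_GG hx
  obtain ⟨hy0, -, -, -⟩ := T.CSum_al_GG hy
  obtain ⟨hy0', -, -, -⟩ := T.CSum_al_GG hy'
  obtain ⟨j0, hj0⟩ := CSum_al_ne hx1
  have hxne : x ≠ 0 := fun h => hj0 (congrFun h j0)
  obtain ⟨z, hz⟩ : ∃ z : Vc n O, z = y - y' := ⟨_, rfl⟩
  have hz0 : ∀ s, lin (f s) z = 0 := by
    intro s
    rw [hz, lin_sub_right, he s, sub_self]
  have hzH : ∀ j, z j ∈ T.H b := by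
    intro j
    rw [hz]
    exact T.sub_mem_H (T.mem_VB.1 hy0 j) (T.mem_VB.1 hy0' j)
  have hxH := T.mem_VB.1 hx0
  have hp : ∀ i j, x i * z j = x j * z i := fun i j => CSum_al_propO K x z hxne f hf h0 hz0 i j
  have hp' : ∀ i j, T.vtw b x i * T.vtw b z j = T.vtw b x j * T.vtw b z i := by
    intro i j
    show T.tw b (x i) * T.tw b (z j) = T.tw b (x j) * T.tw b (z i)
    rw [← T.tw_mul (hxH i) (hzH j), ← T.tw_mul (hxH j) (hzH i), hp i j]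
  obtain ⟨u, hu⟩ := hx1
  obtain ⟨u', hu'⟩ := hx2
  have h1 := CSum_al_mul hu hp
  have h2 := CSum_al_mul hu' hp'
  refine ⟨lin u z, ?_, fun j => ?_⟩
  · have h3 : algebraMap P K (lin u' (T.vtw b z)) =
        algebraMap P K T.s ^ 0 * algebraMap O K (lin u z) := by
      rw [pow_zero, one_mul]
      have h4 : algebraMap P K (T.tw b (z j0)) =
          algebraMap P K (lin u' (T.vtw b z)) * algebraMap P K (T.tw b (x j0)) := by
        rw [← map_mul]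
        exact congrArg _ (h2 j0)
      rw [T.tw_spec (hzH j0), T.tw_spec (hxH j0), h1 j0, map_mul] at h4
      have h5 : algebraMap P K T.s ^ b ≠ 0 := pow_ne_zero _ T.s_ne
      have h6 : algebraMap O K (x j0) ≠ 0 := by
        intro h
        exact hj0 ((map_eq_zero_iff _ (IsFractionRing.injective O K)).1 h)
      have h7 : (algebraMap P K T.s ^ b * algebraMap O K (x j0)) ≠ 0 := mul_ne_zero h5 h6
      apply mul_right_cancel₀ h7
      rw [← h4]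
      ring
    exact (T.tw_eq h3).1
  · rw [← h1 j, hz, Pi.sub_apply]
    ring

omit [IsDedekindDomain P] [IsFractionRing P K] in
/-- Some linear form does not vanish. -/
private theorem CSum_al_some {n b g : ℕ} {x y : Vc n O} (hx : x ∈ T.GG n b g)
    (hxy : ¬ Prp x y) (f : Fin n → Vc n O)
    (hf : LinearIndependent O f) (h0 : ∀ s, lin (f s) x = 0) : ∃ s, lin (f s) y ≠ 0 := by
  obtain ⟨hx0, hx1, hx2, -⟩ := T.CSum_al_GG hx
  obtain ⟨j0, hj0⟩ := CSum_al_ne hx1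
  have hxne : x ≠ 0 := fun h => hj0 (congrFun h j0)
  by_contra hcon
  push Not at hcon
  apply hxy
  intro i j
  have h1 := CSum_al_propO K x y hxne f hf h0 hcon i j
  show x i * y j - x j * y i = 0
  rw [h1, sub_self]

/-- The number of points with given pair of ideals. -/
private theorem CSum_al_cell {n b g : ℕ} {x : Vc n O} (hx : x ∈ T.GG n b g) {I : Ideal O}
    {J : Ideal P} (hI : I ≠ ⊥) (hJ : J ≠ ⊥) (hN : T.Q ^ b < nI I * nI J) :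
    (((T.GG n b g).filter fun y => Dd x y = I ∧ Dd (T.vtw b x) (T.vtw b y) = J).card : ℝ) ≤
      T.h 0 * (2 * (T.Q : ℝ) * (T.Q : ℝ) ^ g) ^ n := by
  obtain ⟨hx0, hx1, hx2, f, hf, h0, hfH⟩ := T.CSum_al_GG hx
  have hfV : ∀ s, f s ∈ T.VB n g := fun s => T.mem_VB.2 fun j => hfH s j
  obtain ⟨Z, hZ⟩ : ∃ Z, Z = (T.GG n b g).filter fun y =>
    Dd x y = I ∧ Dd (T.vtw b x) (T.vtw b y) = J := ⟨_, rfl⟩
  have hcard : Z.card ≤ (T.H 0).card *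
      (Fintype.piFinset fun _ : Fin n => T.M (g + b) I J).card := by
    refine Finset.card_le_mul_card_image_of_maps_to (f := fun y s => lin (f s) y) ?_ _ ?_
    · intro y hy
      rw [hZ] at hy
      obtain ⟨hyG, hyI, hyJ⟩ := Finset.mem_filter.1 hy
      refine Fintype.mem_piFinset.2 fun s => ?_
      have h1 := T.CSum_al_memM hx hyG (hfV s) (h0 s)
      rw [hyI, hyJ] at h1
      exact h1
    · intro v _
      rcases (Z.filter fun y => (fun s => lin (f s) y) = v).eq_empty_or_nonempty with hem | ⟨y', hy'⟩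
      · rw [hem]
        exact Nat.zero_le _
      · obtain ⟨hy'Z, hy'b⟩ := Finset.mem_filter.1 hy'
        have hsub : (Z.filter fun y => (fun s => lin (f s) y) = v) ⊆
            (T.H 0).image fun c => fun l => y' l + c * x l := by
          intro y hy
          obtain ⟨hyZ, hyb⟩ := Finset.mem_filter.1 hy
          have he : ∀ s, lin (f s) y = lin (f s) y' := fun s => congrFun (hyb.trans hy'b.symm) s
          rw [hZ] at hyZ hy'Z
          obtain ⟨c, hc, hcy⟩ := T.CSum_al_fib hx (Finset.mem_filter.1 hyZ).1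
            (Finset.mem_filter.1 hy'Z).1 f hf h0 he
          refine Finset.mem_image.2 ⟨c, hc, ?_⟩
          funext l
          exact (hcy l).symm
        exact (Finset.card_le_card hsub).trans Finset.card_image_le
  have hQ1 : (1 : ℝ) ≤ T.Q := by
    have := T.two_le
    exact_mod_cast (by omega : 1 ≤ T.Q)
  have hN' : (T.Q : ℝ) ^ b < (nI I : ℝ) * nI J := by exact_mod_cast hN
  have hN0 : (0 : ℝ) < (nI I : ℝ) * nI J := lt_of_le_of_lt (by positivity) hN'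
  have hM : ((T.M (g + b) I J).card : ℝ) ≤ 2 * (T.Q : ℝ) * (T.Q : ℝ) ^ g := by
    refine (T.M_up (g + b) hI hJ).trans ?_
    have h1 : (T.Q : ℝ) ^ (g + b) / ((nI I : ℝ) * nI J) ≤ (T.Q : ℝ) ^ g := by
      rw [div_le_iff₀ hN0, pow_add]
      exact mul_le_mul_of_nonneg_left hN'.le (by positivity)
    have h2 : (1 : ℝ) ≤ (T.Q : ℝ) * (T.Q : ℝ) ^ g :=
      one_le_mul_of_one_le_of_one_le hQ1 (one_le_pow₀ hQ1)
    have h3 : (T.Q : ℝ) * ((T.Q : ℝ) ^ (g + b) / ((nI I : ℝ) * nI J)) ≤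
        (T.Q : ℝ) * (T.Q : ℝ) ^ g := mul_le_mul_of_nonneg_left h1 (by linarith)
    linarith
  have hpi : ((Fintype.piFinset fun _ : Fin n => T.M (g + b) I J).card : ℝ) ≤
      (2 * (T.Q : ℝ) * (T.Q : ℝ) ^ g) ^ n := by
    rw [Fintype.card_piFinset, Nat.cast_prod, Finset.prod_const, Finset.card_univ,
      Fintype.card_fin]
    exact pow_le_pow_left₀ (Nat.cast_nonneg _) hM n
  rw [← hZ]
  calc (Z.card : ℝ) ≤ ((T.H 0).card : ℝ) *
        ((Fintype.piFinset fun _ : Fin n => T.M (g + b) I J).card : ℝ) := by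
        exact_mod_cast hcard
    _ ≤ T.h 0 * (2 * (T.Q : ℝ) * (T.Q : ℝ) ^ g) ^ n :=
        mul_le_mul_of_nonneg_left hpi (Nat.cast_nonneg _)


/-! The weighted sums. -/

private theorem CSum_s_ne (j : ℕ) : (Ideal.span {T.s} : Ideal P) ^ j ≠ ⊥ := by
  have hs0 : Ideal.span {T.s} ≠ ⊥ := fun h => T.s_ne' (Ideal.span_singleton_eq_bot.1 h)
  rw [← Ideal.zero_eq_bot] at hs0 ⊢
  exact pow_ne_zero _ hs0

private theorem CSum_sJ_ne (j : ℕ) {J : Ideal P} (hJ : J ≠ ⊥) : T.sJ j J ≠ ⊥ := by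
  have h1 := T.CSum_s_ne j
  unfold sJ
  rw [← Ideal.zero_eq_bot] at h1 hJ ⊢
  exact mul_ne_zero h1 hJ

private theorem CSum_nI_sJ (j : ℕ) {J : Ideal P} (hJ : J ≠ ⊥) :
    (nI (T.sJ j J) : ℝ) = (T.Q : ℝ) ^ j * nI J := by
  have hs0 : Ideal.span {T.s} ≠ ⊥ := fun h => T.s_ne' (Ideal.span_singleton_eq_bot.1 h)
  unfold sJ
  rw [nI_mul T.finP (T.CSum_s_ne j) hJ, nI_pow T.finP hs0, T.nrm_s]
  push_cast
  rfl

private theorem CSum_sJ_inj (j : ℕ) : Function.Injective (fun J : Ideal P => T.sJ j J) := by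
  intro J J' h
  have h1 := T.CSum_s_ne j
  rw [← Ideal.zero_eq_bot] at h1
  exact mul_left_cancel₀ h1 h

/-- The weight. -/
private noncomputable def CSum_w (r j : ℕ) (p : Ideal O × Ideal P) : ℝ :=
  (rt r p.1 : ℝ) * rt r (T.sJ j p.2)

private theorem CSum_w_nonneg (r j : ℕ) (p : Ideal O × Ideal P) : 0 ≤ T.CSum_w r j p := by
  unfold CSum_w
  positivity

private theorem CSum_one_le : (1 : ℝ) ≤ T.Q := by
  have := T.two_le
  exact_mod_cast (by omega : 1 ≤ T.Q)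

private theorem CSum_upTo [Infinite O] [Infinite P] (r : ℕ) (hr : 1 ≤ r) (γ : ℝ)
    (hγ : -(5 / 4) ≤ γ) : ∃ C : ℝ, 1 ≤ C ∧ ∀ X : ℝ, 1 ≤ X → ∀ j : ℕ, j ≤ r →
    ∀ S : Finset (Ideal O × Ideal P),
    (∀ p ∈ S, p.1 ≠ ⊥ ∧ p.2 ≠ ⊥ ∧ (nI p.1 : ℝ) * nI p.2 ≤ X) →
    ∑ p ∈ S, T.CSum_w r j p * ((nI p.1 : ℝ) * nI p.2) ^ γ ≤ C * X ^ (γ + 5 / 4) := by
  obtain ⟨C, hC, h⟩ := T.rtUpTo r hr γ hγ
  have hQ := T.CSum_one_le
  have hQ0 : (0 : ℝ) < T.Q := by linarith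
  have hQr : (1 : ℝ) ≤ ((T.Q : ℝ) ^ r) ^ (5 / 4 : ℝ) :=
    Real.one_le_rpow (one_le_pow₀ hQ) (by norm_num)
  refine ⟨((T.Q : ℝ) ^ r) ^ (5 / 4 : ℝ) * C, one_le_mul_of_one_le_of_one_le hQr hC, ?_⟩
  intro X hX j hj S hS
  have hX0 : 0 < X := by linarith
  have hQj0 : (0 : ℝ) < (T.Q : ℝ) ^ j := pow_pos hQ0 j
  have hQj1 : (1 : ℝ) ≤ (T.Q : ℝ) ^ j := one_le_pow₀ hQ
  have hinj : Set.InjOn (fun p : Ideal O × Ideal P => (p.1, T.sJ j p.2)) S := by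
    intro p _ p' _ hp
    have hp2 : (p.1, T.sJ j p.2) = (p'.1, T.sJ j p'.2) := hp
    obtain ⟨h1, h2⟩ := Prod.mk.inj hp2
    exact Prod.ext h1 (T.CSum_sJ_inj j h2)
  have h1 := h ((T.Q : ℝ) ^ j * X) (one_le_mul_of_one_le_of_one_le hQj1 hX)
    (S.image fun p => (p.1, T.sJ j p.2)) (by
      intro p hp
      obtain ⟨p', hp', rfl⟩ := Finset.mem_image.1 hp
      obtain ⟨e1, e2, e3⟩ := hS p' hp'
      refine ⟨e1, T.CSum_sJ_ne j e2, ?_⟩
      show (nI p'.1 : ℝ) * nI (T.sJ j p'.2) ≤ _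
      rw [T.CSum_nI_sJ j e2]
      calc (nI p'.1 : ℝ) * ((T.Q : ℝ) ^ j * nI p'.2) = (T.Q : ℝ) ^ j * ((nI p'.1 : ℝ) * nI p'.2) := by
            ring
        _ ≤ (T.Q : ℝ) ^ j * X := mul_le_mul_of_nonneg_left e3 hQj0.le)
  rw [Finset.sum_image hinj] at h1
  have h2 : ∀ p ∈ S, T.CSum_w r j p * ((nI p.1 : ℝ) * nI p.2) ^ γ = ((T.Q : ℝ) ^ j) ^ (-γ) *
      ((rt r p.1 : ℝ) * rt r (T.sJ j p.2) * ((nI p.1 : ℝ) * nI (T.sJ j p.2)) ^ γ) := by
    intro p hp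
    obtain ⟨e1, e2, e3⟩ := hS p hp
    rw [T.CSum_nI_sJ j e2]
    have e4 : (nI p.1 : ℝ) * ((T.Q : ℝ) ^ j * nI p.2) = (T.Q : ℝ) ^ j * ((nI p.1 : ℝ) * nI p.2) := by
      ring
    have e5 : (0 : ℝ) ≤ (nI p.1 : ℝ) * nI p.2 := by positivity
    rw [e4, Real.mul_rpow hQj0.le e5]
    have e6 : ((T.Q : ℝ) ^ j) ^ (-γ) * ((T.Q : ℝ) ^ j) ^ γ = 1 := by
      rw [← Real.rpow_add hQj0, neg_add_cancel, Real.rpow_zero]
    unfold CSum_w
    calc (rt r p.1 : ℝ) * rt r (T.sJ j p.2) * ((nI p.1 : ℝ) * nI p.2) ^ γ =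
        (((T.Q : ℝ) ^ j) ^ (-γ) * ((T.Q : ℝ) ^ j) ^ γ) *
        ((rt r p.1 : ℝ) * rt r (T.sJ j p.2) * ((nI p.1 : ℝ) * nI p.2) ^ γ) := by rw [e6, one_mul]
      _ = _ := by ring
  rw [Finset.sum_congr rfl h2, ← Finset.mul_sum]
  have h3 : 0 ≤ ((T.Q : ℝ) ^ j) ^ (-γ) := Real.rpow_nonneg hQj0.le _
  have h4 : ((T.Q : ℝ) ^ j) ^ (-γ) * (C * ((T.Q : ℝ) ^ j * X) ^ (γ + 5 / 4)) =
      ((T.Q : ℝ) ^ j) ^ (5 / 4 : ℝ) * C * X ^ (γ + 5 / 4) := by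
    rw [Real.mul_rpow hQj0.le hX0.le]
    have e7 : ((T.Q : ℝ) ^ j) ^ (5 / 4 : ℝ) = ((T.Q : ℝ) ^ j) ^ (-γ) * ((T.Q : ℝ) ^ j) ^ (γ + 5 / 4) := by
      rw [← Real.rpow_add hQj0]
      congr 1
      ring
    rw [e7]
    ring
  calc ((T.Q : ℝ) ^ j) ^ (-γ) * ∑ p ∈ S, ((rt r p.1 : ℝ) * rt r (T.sJ j p.2) *
        ((nI p.1 : ℝ) * nI (T.sJ j p.2)) ^ γ)
      ≤ ((T.Q : ℝ) ^ j) ^ (-γ) * (C * ((T.Q : ℝ) ^ j * X) ^ (γ + 5 / 4)) :=
        mul_le_mul_of_nonneg_left h1 h3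
    _ = ((T.Q : ℝ) ^ j) ^ (5 / 4 : ℝ) * C * X ^ (γ + 5 / 4) := h4
    _ ≤ ((T.Q : ℝ) ^ r) ^ (5 / 4 : ℝ) * C * X ^ (γ + 5 / 4) := by
        refine mul_le_mul_of_nonneg_right (mul_le_mul_of_nonneg_right ?_ (by linarith))
          (Real.rpow_nonneg hX0.le _)
        exact Real.rpow_le_rpow hQj0.le (pow_le_pow_right₀ hQ hj) (by norm_num)

private theorem CSum_tail [Infinite O] [Infinite P] (r : ℕ) (hr : 1 ≤ r) : ∃ C : ℝ, 1 ≤ C ∧
    ∀ j : ℕ, j ≤ r → ∀ (w : ℕ) (S : Finset (Ideal O × Ideal P)),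
    (∀ p ∈ S, p.1 ≠ ⊥ ∧ p.2 ≠ ⊥ ∧ (w : ℝ) < (nI p.1 : ℝ) * nI p.2) →
    ∑ p ∈ S, T.CSum_w r j p / ((nI p.1 : ℝ) * nI p.2) ^ 2 ≤
      C * ((w : ℝ) + 1) ^ (-(3 / 4) : ℝ) := by
  obtain ⟨C, hC, h⟩ := T.rtTailP r hr
  have hQ := T.CSum_one_le
  have hQ0 : (0 : ℝ) < T.Q := by linarith
  refine ⟨(T.Q : ℝ) ^ (2 * r) * C, one_le_mul_of_one_le_of_one_le (one_le_pow₀ hQ) hC, ?_⟩
  intro j hj w S hS
  have hQj0 : (0 : ℝ) < (T.Q : ℝ) ^ j := pow_pos hQ0 j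
  have hQj1 : (1 : ℝ) ≤ (T.Q : ℝ) ^ j := one_le_pow₀ hQ
  have hinj : Set.InjOn (fun p : Ideal O × Ideal P => (p.1, T.sJ j p.2)) S := by
    intro p _ p' _ hp
    have hp2 : (p.1, T.sJ j p.2) = (p'.1, T.sJ j p'.2) := hp
    obtain ⟨h1, h2⟩ := Prod.mk.inj hp2
    exact Prod.ext h1 (T.CSum_sJ_inj j h2)
  have h1 := h w (S.image fun p => (p.1, T.sJ j p.2)) (by
      intro p hp
      obtain ⟨p', hp', rfl⟩ := Finset.mem_image.1 hp
      obtain ⟨e1, e2, e3⟩ := hS p' hp'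
      refine ⟨e1, T.CSum_sJ_ne j e2, ?_⟩
      show (w : ℝ) < (nI p'.1 : ℝ) * nI (T.sJ j p'.2)
      rw [T.CSum_nI_sJ j e2]
      refine lt_of_lt_of_le e3 ?_
      have e5 : (0 : ℝ) ≤ (nI p'.1 : ℝ) * nI p'.2 := by positivity
      calc (nI p'.1 : ℝ) * nI p'.2 = 1 * ((nI p'.1 : ℝ) * nI p'.2) := (one_mul _).symm
        _ ≤ (T.Q : ℝ) ^ j * ((nI p'.1 : ℝ) * nI p'.2) := mul_le_mul_of_nonneg_right hQj1 e5
        _ = (nI p'.1 : ℝ) * ((T.Q : ℝ) ^ j * nI p'.2) := by ring)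
  rw [Finset.sum_image hinj] at h1
  have h2 : ∀ p ∈ S, T.CSum_w r j p / ((nI p.1 : ℝ) * nI p.2) ^ 2 = ((T.Q : ℝ) ^ j) ^ 2 *
      ((rt r p.1 : ℝ) * rt r (T.sJ j p.2) / ((nI p.1 : ℝ) * nI (T.sJ j p.2)) ^ 2) := by
    intro p hp
    obtain ⟨e1, e2, e3⟩ := hS p hp
    rw [T.CSum_nI_sJ j e2]
    have e5 : (0 : ℝ) < (nI p.1 : ℝ) * nI p.2 := lt_of_le_of_lt (Nat.cast_nonneg w) e3
    have e6 : (nI p.1 : ℝ) ≠ 0 := left_ne_zero_of_mul e5.ne'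
    have e7 : (nI p.2 : ℝ) ≠ 0 := right_ne_zero_of_mul e5.ne'
    unfold CSum_w
    field_simp
  rw [Finset.sum_congr rfl h2, ← Finset.mul_sum]
  have h5 : (0 : ℝ) ≤ C * ((w : ℝ) + 1) ^ (-(3 / 4) : ℝ) := by positivity
  calc ((T.Q : ℝ) ^ j) ^ 2 * ∑ p ∈ S, ((rt r p.1 : ℝ) * rt r (T.sJ j p.2) /
        ((nI p.1 : ℝ) * nI (T.sJ j p.2)) ^ 2)
      ≤ ((T.Q : ℝ) ^ j) ^ 2 * (C * ((w : ℝ) + 1) ^ (-(3 / 4) : ℝ)) :=
        mul_le_mul_of_nonneg_left h1 (by positivity)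
    _ ≤ (T.Q : ℝ) ^ (2 * r) * (C * ((w : ℝ) + 1) ^ (-(3 / 4) : ℝ)) := by
        refine mul_le_mul_of_nonneg_right ?_ h5
        rw [← pow_mul]
        exact pow_le_pow_right₀ hQ (by omega)
    _ = (T.Q : ℝ) ^ (2 * r) * C * ((w : ℝ) + 1) ^ (-(3 / 4) : ℝ) := by ring

end TC

namespace TC
variable {K O P : Type} [Field K] [CommRing O] [IsDedekindDomain O] [Algebra O K]
  [IsFractionRing O K] [CommRing P] [IsDedekindDomain P] [Algebra P K]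
  [IsFractionRing P K] (T : TC K O P)

/-- The summand. -/
noncomputable def fC (r j c : ℕ) {n : ℕ} (b : ℕ) (x y : Vc n O) : ℝ :=
  (T.nD b x y : ℝ) * (T.rD r j b x y * (1 + T.Q * ((T.Q : ℝ) ^ c / T.nD b x y)))

/-- Grouping by the pair of ideals. -/
private theorem CSum_group {n b : ℕ} (r j c : ℕ) {x : Vc n O} (Y : Finset (Vc n O))
    (hx : x ∈ T.VB n b) (hY : ∀ y ∈ Y, y ∈ T.VB n b ∧ ¬ Prp x y)
    (B : Ideal O × Ideal P → ℝ)
    (hB : ∀ p ∈ Y.image (fun y => (Dd x y, Dd (T.vtw b x) (T.vtw b y))),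
      ((Y.filter fun y => (Dd x y, Dd (T.vtw b x) (T.vtw b y)) = p).card : ℝ) ≤ B p) :
    ∑ y ∈ Y, T.fC r j c b x y ≤
      ∑ p ∈ Y.image (fun y => (Dd x y, Dd (T.vtw b x) (T.vtw b y))),
        B p * (T.CSum_w r j p * ((nI p.1 : ℝ) * nI p.2) +
          (T.Q : ℝ) ^ (c + 1) * T.CSum_w r j p) := by
  rw [← Finset.sum_fiberwise_of_maps_to
    (g := fun y => (Dd x y, Dd (T.vtw b x) (T.vtw b y)))
    (t := Y.image (fun y => (Dd x y, Dd (T.vtw b x) (T.vtw b y))))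
    fun y hy => Finset.mem_image_of_mem _ hy]
  refine Finset.sum_le_sum fun p hp => ?_
  have hterm : ∀ y ∈ Y.filter (fun y => (Dd x y, Dd (T.vtw b x) (T.vtw b y)) = p),
      T.fC r j c b x y = T.CSum_w r j p * ((nI p.1 : ℝ) * nI p.2) +
          (T.Q : ℝ) ^ (c + 1) * T.CSum_w r j p := by
    intro y hy
    obtain ⟨hyY, hyp⟩ := Finset.mem_filter.1 hy
    obtain ⟨h1, h2⟩ := hY y hyY
    have h3 := T.nD_pos hx h1 h2
    have h4 : (T.nD b x y : ℝ) ≠ 0 := by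
      have : (0 : ℝ) < T.nD b x y := by exact_mod_cast h3
      exact this.ne'
    have h5 : (T.nD b x y : ℝ) = (nI p.1 : ℝ) * nI p.2 := by
      rw [← hyp]
      unfold nD
      push_cast
      rfl
    have h6 : T.rD r j b x y = T.CSum_w r j p := by
      rw [← hyp]
      rfl
    unfold fC
    rw [h6, ← h5, pow_succ]
    field_simp
  rw [Finset.sum_congr rfl hterm, Finset.sum_const, nsmul_eq_mul]
  refine mul_le_mul_of_nonneg_right (hB p hp) ?_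
  have h7 := T.CSum_w_nonneg r j p
  positivity

private theorem CSum_fC_nonneg {n : ℕ} (r j c b : ℕ) (x y : Vc n O) : 0 ≤ T.fC r j c b x y := by
  unfold fC rD
  positivity

private theorem CSum_beta [Infinite O] [Infinite P] (n r : ℕ) (hn : 2 ≤ n) (hr : 1 ≤ r) :
    ∃ C : ℝ, 1 ≤ C ∧ ∀ (b g w c j : ℕ), j ≤ r → ∀ x ∈ T.GG n b g,
    ∑ y ∈ (T.GG n b g).filter (fun y => ¬ Prp x y ∧ w < T.nD b x y ∧ T.nD b x y ≤ T.Q ^ b),
      T.fC r j c b x y ≤ C * ((T.Q : ℝ) ^ (b * (n + 1)) *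
          ((T.Q : ℝ) ^ ((b : ℝ) / 4) + (T.Q : ℝ) ^ c * ((w : ℝ) + 1) ^ (-(3 / 4) : ℝ))) := by
  obtain ⟨C1, hC1, hup⟩ := T.CSum_upTo r hr (-1) (by norm_num)
  obtain ⟨C2, hC2, htail⟩ := T.CSum_tail r hr
  have hQ := T.CSum_one_le
  have hQ0 : (0 : ℝ) < T.Q := by linarith
  have hA2 : (1 : ℝ) ≤ (2 * (T.Q : ℝ)) ^ (n + 1) := one_le_pow₀ (by linarith)
  have hA20 : (0 : ℝ) ≤ (2 * (T.Q : ℝ)) ^ (n + 1) := by linarith
  have hQC : (1 : ℝ) ≤ T.Q * C2 := one_le_mul_of_one_le_of_one_le hQ hC2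
  refine ⟨(2 * (T.Q : ℝ)) ^ (n + 1) * (C1 + T.Q * C2),
    one_le_mul_of_one_le_of_one_le hA2 (by linarith), ?_⟩
  intro b g w c j hj x hx
  have hxm := T.CSum_al_GG hx
  obtain ⟨Y, hY⟩ : ∃ Y, Y = (T.GG n b g).filter (fun y => ¬ Prp x y ∧ w < T.nD b x y ∧
    T.nD b x y ≤ T.Q ^ b) := ⟨_, rfl⟩
  rw [← hY]
  have hYmem : ∀ y ∈ Y, y ∈ T.VB n b ∧ ¬ Prp x y ∧ w < T.nD b x y ∧ T.nD b x y ≤ T.Q ^ b := by
    intro y hy
    rw [hY, Finset.mem_filter] at hy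
    exact ⟨(T.CSum_al_GG hy.1).1, hy.2⟩
  obtain ⟨S, hS⟩ : ∃ S : Finset (Ideal O × Ideal P),
      S = Y.image fun y => (Dd x y, Dd (T.vtw b x) (T.vtw b y)) := ⟨_, rfl⟩
  have hfacts : ∀ p ∈ S, p.1 ≠ ⊥ ∧ p.2 ≠ ⊥ ∧ (w : ℝ) < (nI p.1 : ℝ) * nI p.2 ∧
      nI p.1 * nI p.2 ≤ T.Q ^ b ∧ 1 ≤ nI p.1 * nI p.2 := by
    intro p hp
    rw [hS] at hp
    obtain ⟨y, hy, rfl⟩ := Finset.mem_image.1 hp
    obtain ⟨h1, h2, h3, h4⟩ := hYmem y hy
    have h5 := T.nD_pos hxm.1 h1 h2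
    obtain ⟨hne1, hne2⟩ := T.Dd_ne hxm.1 h1 h2
    refine ⟨hne1, hne2, ?_, h4, h5⟩
    have h7 : w < nI (Dd x y) * nI (Dd (T.vtw b x) (T.vtw b y)) := h3
    exact_mod_cast h7
  obtain ⟨A, hA⟩ : ∃ A : ℝ, A = (2 * T.Q : ℝ) ^ (n + 1) * (T.Q : ℝ) ^ (b * (n + 1)) := ⟨_, rfl⟩
  have hA0 : 0 ≤ A := by
    rw [hA]
    positivity
  have hfib : ∀ p ∈ S, ((Y.filter fun y => (Dd x y, Dd (T.vtw b x) (T.vtw b y)) = p).card : ℝ) ≤
      A / ((nI p.1 : ℝ) * nI p.2) ^ n := by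
    intro p hp
    obtain ⟨hp1, hp2, hpw, hpQ, hp0⟩ := hfacts p hp
    have hsub : Y.filter (fun y => (Dd x y, Dd (T.vtw b x) (T.vtw b y)) = p) ⊆
        (T.VB n b).filter fun y => Dd x y ≤ p.1 ∧ Dd (T.vtw b x) (T.vtw b y) ≤ p.2 := by
      intro y hy
      obtain ⟨hyY, hyp⟩ := Finset.mem_filter.1 hy
      rw [Finset.mem_filter]
      refine ⟨(hYmem y hyY).1, ?_, ?_⟩
      · rw [← hyp]
      · rw [← hyp]
    have hcard := (Nat.cast_le (α := ℝ).2 (Finset.card_le_card hsub)).trans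
      (T.cntY n b hxm.1 hxm.2.1 hxm.2.2.1 hp1 hp2 hpQ)
    rw [hA]
    refine hcard.trans (le_of_eq ?_)
    ring
  have h1 := T.CSum_group r j c Y hxm.1 (fun y hy => ⟨(hYmem y hy).1, (hYmem y hy).2.1⟩)
    (fun p => A / ((nI p.1 : ℝ) * nI p.2) ^ n) (by rw [← hS]; exact hfib)
  rw [← hS] at h1
  have hQb : (1 : ℝ) ≤ (T.Q : ℝ) ^ b := one_le_pow₀ hQ
  have h2 := hup ((T.Q : ℝ) ^ b) hQb j hj S fun p hp => ⟨(hfacts p hp).1, (hfacts p hp).2.1, by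
    exact_mod_cast (hfacts p hp).2.2.2.1⟩
  have h3 := htail j hj w S fun p hp => ⟨(hfacts p hp).1, (hfacts p hp).2.1, (hfacts p hp).2.2.1⟩
  have h4 : ((T.Q : ℝ) ^ b) ^ ((-1 : ℝ) + 5 / 4) = (T.Q : ℝ) ^ ((b : ℝ) / 4) := by
    rw [← Real.rpow_natCast, ← Real.rpow_mul hQ0.le]
    congr 1
    ring
  rw [h4] at h2
  have hQc : (0 : ℝ) ≤ A * (T.Q : ℝ) ^ (c + 1) := by positivity
  calc ∑ y ∈ Y, T.fC r j c b x y
      ≤ ∑ p ∈ S, A / ((nI p.1 : ℝ) * nI p.2) ^ n *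
        (T.CSum_w r j p * ((nI p.1 : ℝ) * nI p.2) + (T.Q : ℝ) ^ (c + 1) * T.CSum_w r j p) := h1
    _ ≤ ∑ p ∈ S, (A * (T.CSum_w r j p * ((nI p.1 : ℝ) * nI p.2) ^ (-1 : ℝ)) +
        A * (T.Q : ℝ) ^ (c + 1) * (T.CSum_w r j p / ((nI p.1 : ℝ) * nI p.2) ^ 2)) := by
        refine Finset.sum_le_sum fun p hp => ?_
        obtain ⟨hp1, hp2, hpw, hpQ, hp0⟩ := hfacts p hp
        obtain ⟨N, hN⟩ : ∃ N : ℝ, N = (nI p.1 : ℝ) * nI p.2 := ⟨_, rfl⟩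
        have hN1 : 1 ≤ N := by
          rw [hN]
          exact_mod_cast hp0
        have hN0 : 0 < N := by linarith
        rw [← hN]
        have hw := T.CSum_w_nonneg r j p
        have e1 : 1 / N ^ n ≤ 1 / N ^ 2 :=
          one_div_le_one_div_of_le (pow_pos hN0 2) (pow_le_pow_right₀ hN1 hn)
        have e2 : A / N ^ n * (T.CSum_w r j p * N + (T.Q : ℝ) ^ (c + 1) * T.CSum_w r j p) =
            1 / N ^ n * (A * (T.CSum_w r j p * N + (T.Q : ℝ) ^ (c + 1) * T.CSum_w r j p)) := by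
          ring
        have e3 : 0 ≤ A * (T.CSum_w r j p * N + (T.Q : ℝ) ^ (c + 1) * T.CSum_w r j p) := by
          positivity
        rw [e2, Real.rpow_neg_one]
        refine (mul_le_mul_of_nonneg_right e1 e3).trans (le_of_eq ?_)
        field_simp
    _ = A * (∑ p ∈ S, T.CSum_w r j p * ((nI p.1 : ℝ) * nI p.2) ^ (-1 : ℝ)) +
        A * (T.Q : ℝ) ^ (c + 1) * ∑ p ∈ S, T.CSum_w r j p / ((nI p.1 : ℝ) * nI p.2) ^ 2 := by
        rw [Finset.sum_add_distrib, Finset.mul_sum, Finset.mul_sum]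
    _ ≤ A * (C1 * (T.Q : ℝ) ^ ((b : ℝ) / 4)) +
        A * (T.Q : ℝ) ^ (c + 1) * (C2 * ((w : ℝ) + 1) ^ (-(3 / 4) : ℝ)) :=
        add_le_add (mul_le_mul_of_nonneg_left h2 hA0) (mul_le_mul_of_nonneg_left h3 hQc)
    _ ≤ (2 * (T.Q : ℝ)) ^ (n + 1) * (C1 + T.Q * C2) * ((T.Q : ℝ) ^ (b * (n + 1)) *
          ((T.Q : ℝ) ^ ((b : ℝ) / 4) + (T.Q : ℝ) ^ c * ((w : ℝ) + 1) ^ (-(3 / 4) : ℝ))) := by
        rw [hA]
        obtain ⟨u, hu⟩ : ∃ u : ℝ, u = (T.Q : ℝ) ^ ((b : ℝ) / 4) := ⟨_, rfl⟩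
        obtain ⟨v, hv⟩ : ∃ v : ℝ, v = ((w : ℝ) + 1) ^ (-(3 / 4) : ℝ) := ⟨_, rfl⟩
        have hu0 : 0 ≤ u := by
          rw [hu]
          exact Real.rpow_nonneg hQ0.le _
        have hv0 : 0 ≤ v := by
          rw [hv]
          exact Real.rpow_nonneg (by positivity) _
        rw [← hu, ← hv, pow_succ (T.Q : ℝ) c]
        have f1 : 0 ≤ (2 * (T.Q : ℝ)) ^ (n + 1) * (T.Q : ℝ) ^ (b * (n + 1)) *
            (T.Q * C2 * u + C1 * ((T.Q : ℝ) ^ c * v)) := by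
          have : 0 ≤ C1 := by linarith
          have : 0 ≤ C2 := by linarith
          positivity
        have f2 : (2 * (T.Q : ℝ)) ^ (n + 1) * (C1 + T.Q * C2) * ((T.Q : ℝ) ^ (b * (n + 1)) *
            (u + (T.Q : ℝ) ^ c * v)) = (2 * (T.Q : ℝ)) ^ (n + 1) * (T.Q : ℝ) ^ (b * (n + 1)) *
              (C1 * u) + (2 * (T.Q : ℝ)) ^ (n + 1) * (T.Q : ℝ) ^ (b * (n + 1)) *
              ((T.Q : ℝ) ^ c * T.Q) * (C2 * v) + (2 * (T.Q : ℝ)) ^ (n + 1) *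
              (T.Q : ℝ) ^ (b * (n + 1)) * (T.Q * C2 * u + C1 * ((T.Q : ℝ) ^ c * v)) := by
          ring
        rw [f2]
        linarith

private theorem CSum_alpha [Infinite O] [Infinite P] (n r : ℕ) (hr : 1 ≤ r) :
    ∃ C : ℝ, 1 ≤ C ∧ ∀ (b g c j : ℕ), j ≤ r → ∀ x ∈ T.GG n b g,
    ∑ y ∈ (T.GG n b g).filter (fun y => ¬ Prp x y ∧ T.Q ^ b < T.nD b x y),
      T.fC r j c b x y ≤ C * ((T.Q : ℝ) ^ (g * n) * ((T.Q : ℝ) ^ (9 / 4 * ((g : ℝ) + b)) +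
          (T.Q : ℝ) ^ c * (T.Q : ℝ) ^ (5 / 4 * ((g : ℝ) + b)))) := by
  obtain ⟨C1, hC1, hup1⟩ := T.CSum_upTo r hr 1 (by norm_num)
  obtain ⟨C2, hC2, hup2⟩ := T.CSum_upTo r hr 0 (by norm_num)
  have hQ := T.CSum_one_le
  have hQ0 : (0 : ℝ) < T.Q := by linarith
  have hh : (1 : ℝ) ≤ T.h 0 := by exact_mod_cast T.h_pos 0
  have hA2 : (1 : ℝ) ≤ (2 * (T.Q : ℝ)) ^ n := one_le_pow₀ (by linarith)
  have hQC : (1 : ℝ) ≤ T.Q * C2 := one_le_mul_of_one_le_of_one_le hQ hC2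
  refine ⟨(T.h 0 * (2 * (T.Q : ℝ)) ^ n) * (C1 + T.Q * C2),
    one_le_mul_of_one_le_of_one_le (one_le_mul_of_one_le_of_one_le hh hA2) (by linarith), ?_⟩
  intro b g c j hj x hx
  obtain ⟨hx0, hx1, hx2, f, hf, h0, hfH⟩ := T.CSum_al_GG hx
  have hfV : ∀ s, f s ∈ T.VB n g := fun s => T.mem_VB.2 fun j => hfH s j
  obtain ⟨Y, hY⟩ : ∃ Y, Y = (T.GG n b g).filter (fun y => ¬ Prp x y ∧ T.Q ^ b < T.nD b x y) :=
    ⟨_, rfl⟩
  rw [← hY]
  have hnorm : ∀ y ∈ Y, T.nD b x y ≤ T.Q ^ (g + b) := by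
    intro y hy
    rw [hY] at hy
    obtain ⟨hyG, hp, hd⟩ := Finset.mem_filter.1 hy
    obtain ⟨s, hs⟩ := T.CSum_al_some hx hp f hf h0
    by_contra hcon
    push Not at hcon
    exact hs (T.M_zero hcon (T.CSum_al_memM hx hyG (hfV s) (h0 s)))
  obtain ⟨S, hS⟩ : ∃ S : Finset (Ideal O × Ideal P),
      S = Y.image fun y => (Dd x y, Dd (T.vtw b x) (T.vtw b y)) := ⟨_, rfl⟩
  have hYmem : ∀ y ∈ Y, y ∈ T.VB n b ∧ ¬ Prp x y := by
    intro y hy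
    rw [hY] at hy
    obtain ⟨hyG, hp, hd⟩ := Finset.mem_filter.1 hy
    exact ⟨(T.CSum_al_GG hyG).1, hp⟩
  have hSmem : ∀ p ∈ S, p.1 ≠ ⊥ ∧ p.2 ≠ ⊥ ∧ T.Q ^ b < nI p.1 * nI p.2 ∧
      nI p.1 * nI p.2 ≤ T.Q ^ (g + b) := by
    intro p hp
    rw [hS] at hp
    obtain ⟨y, hy, rfl⟩ := Finset.mem_image.1 hp
    have hn := hnorm y hy
    rw [hY] at hy
    obtain ⟨hyG, hp, hd⟩ := Finset.mem_filter.1 hy
    obtain ⟨hy0, -, -, -⟩ := T.CSum_al_GG hyG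
    obtain ⟨h1, h2⟩ := T.Dd_ne hx0 hy0 hp
    exact ⟨h1, h2, hd, hn⟩
  obtain ⟨A, hA⟩ : ∃ A : ℝ, A = T.h 0 * (2 * (T.Q : ℝ) * (T.Q : ℝ) ^ g) ^ n := ⟨_, rfl⟩
  have hA0 : 0 ≤ A := by
    rw [hA]
    positivity
  have hfib : ∀ p ∈ S, ((Y.filter fun y => (Dd x y, Dd (T.vtw b x) (T.vtw b y)) = p).card : ℝ) ≤
      A := by
    intro p hp
    obtain ⟨h2, h3, h4, -⟩ := hSmem p hp
    rw [hA]
    refine le_trans ?_ (T.CSum_al_cell hx h2 h3 h4)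
    have h5 : (Y.filter fun y => (Dd x y, Dd (T.vtw b x) (T.vtw b y)) = p) ⊆
        (T.GG n b g).filter fun y => Dd x y = p.1 ∧ Dd (T.vtw b x) (T.vtw b y) = p.2 := by
      intro y hy
      obtain ⟨hy1, hy2⟩ := Finset.mem_filter.1 hy
      rw [hY] at hy1
      exact Finset.mem_filter.2 ⟨(Finset.mem_filter.1 hy1).1, congrArg Prod.fst hy2,
        congrArg Prod.snd hy2⟩
    exact_mod_cast Finset.card_le_card h5
  have h1 := T.CSum_group r j c Y hx0 hYmem (fun _ => A) (by rw [← hS]; exact hfib)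
  rw [← hS] at h1
  have hX : (1 : ℝ) ≤ (T.Q : ℝ) ^ (g + b) := one_le_pow₀ hQ
  have h2 := hup1 ((T.Q : ℝ) ^ (g + b)) hX j hj S fun p hp => ⟨(hSmem p hp).1, (hSmem p hp).2.1, by
    exact_mod_cast (hSmem p hp).2.2.2⟩
  have h3 := hup2 ((T.Q : ℝ) ^ (g + b)) hX j hj S fun p hp => ⟨(hSmem p hp).1, (hSmem p hp).2.1, by
    exact_mod_cast (hSmem p hp).2.2.2⟩
  have h4 : ((T.Q : ℝ) ^ (g + b)) ^ ((1 : ℝ) + 5 / 4) = (T.Q : ℝ) ^ (9 / 4 * ((g : ℝ) + b)) := by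
    rw [← Real.rpow_natCast, ← Real.rpow_mul hQ0.le]
    congr 1
    push_cast
    ring
  have h5 : ((T.Q : ℝ) ^ (g + b)) ^ ((0 : ℝ) + 5 / 4) = (T.Q : ℝ) ^ (5 / 4 * ((g : ℝ) + b)) := by
    rw [← Real.rpow_natCast, ← Real.rpow_mul hQ0.le]
    congr 1
    push_cast
    ring
  rw [h4] at h2
  rw [h5] at h3
  simp only [Real.rpow_one] at h2
  simp only [Real.rpow_zero, mul_one] at h3
  have hQc : (0 : ℝ) ≤ A * (T.Q : ℝ) ^ (c + 1) := by positivity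
  calc ∑ y ∈ Y, T.fC r j c b x y
      ≤ ∑ p ∈ S, A * (T.CSum_w r j p * ((nI p.1 : ℝ) * nI p.2) +
        (T.Q : ℝ) ^ (c + 1) * T.CSum_w r j p) := h1
    _ = A * (∑ p ∈ S, T.CSum_w r j p * ((nI p.1 : ℝ) * nI p.2)) +
        A * (T.Q : ℝ) ^ (c + 1) * ∑ p ∈ S, T.CSum_w r j p := by
        rw [Finset.mul_sum, Finset.mul_sum, ← Finset.sum_add_distrib]
        refine Finset.sum_congr rfl fun p _ => ?_
        ring
    _ ≤ A * (C1 * (T.Q : ℝ) ^ (9 / 4 * ((g : ℝ) + b))) +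
        A * (T.Q : ℝ) ^ (c + 1) * (C2 * (T.Q : ℝ) ^ (5 / 4 * ((g : ℝ) + b))) :=
        add_le_add (mul_le_mul_of_nonneg_left h2 hA0) (mul_le_mul_of_nonneg_left h3 hQc)
    _ ≤ T.h 0 * (2 * (T.Q : ℝ)) ^ n * (C1 + T.Q * C2) * ((T.Q : ℝ) ^ (g * n) *
          ((T.Q : ℝ) ^ (9 / 4 * ((g : ℝ) + b)) +
          (T.Q : ℝ) ^ c * (T.Q : ℝ) ^ (5 / 4 * ((g : ℝ) + b)))) := by
        rw [hA]
        obtain ⟨u, hu⟩ : ∃ u : ℝ, u = (T.Q : ℝ) ^ (9 / 4 * ((g : ℝ) + b)) := ⟨_, rfl⟩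
        obtain ⟨v, hv⟩ : ∃ v : ℝ, v = (T.Q : ℝ) ^ (5 / 4 * ((g : ℝ) + b)) := ⟨_, rfl⟩
        have hu0 : 0 ≤ u := by
          rw [hu]
          exact Real.rpow_nonneg hQ0.le _
        have hv0 : 0 ≤ v := by
          rw [hv]
          exact Real.rpow_nonneg hQ0.le _
        rw [← hu, ← hv, pow_succ (T.Q : ℝ) c, mul_pow (2 * (T.Q : ℝ)), ← pow_mul]
        have f1 : 0 ≤ (T.h 0 : ℝ) * (2 * (T.Q : ℝ)) ^ n * (T.Q : ℝ) ^ (g * n) *
            (T.Q * C2 * u + C1 * ((T.Q : ℝ) ^ c * v)) := by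
          have : 0 ≤ C1 := by linarith
          have : 0 ≤ C2 := by linarith
          positivity
        have f2 : (T.h 0 : ℝ) * (2 * (T.Q : ℝ)) ^ n * (C1 + T.Q * C2) * ((T.Q : ℝ) ^ (g * n) *
            (u + (T.Q : ℝ) ^ c * v)) = (T.h 0 : ℝ) * ((2 * (T.Q : ℝ)) ^ n * (T.Q : ℝ) ^ (g * n)) *
              (C1 * u) + (T.h 0 : ℝ) * ((2 * (T.Q : ℝ)) ^ n * (T.Q : ℝ) ^ (g * n)) *
              ((T.Q : ℝ) ^ c * T.Q) * (C2 * v) + (T.h 0 : ℝ) * (2 * (T.Q : ℝ)) ^ n *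
              (T.Q : ℝ) ^ (g * n) * (T.Q * C2 * u + C1 * ((T.Q : ℝ) ^ c * v)) := by
          ring
        rw [f2]
        linarith

private theorem CSum_gen {n b g w : ℕ} (r j c : ℕ) {x : Vc n O} (S : Vc n O → Prop) [DecidablePred S]
    (hS : ∀ y ∈ T.GG n b g, S y → ¬ Prp x y ∧ w < T.nD b x y) :
    ∑ y ∈ (T.GG n b g).filter S, T.fC r j c b x y ≤
      ∑ y ∈ (T.GG n b g).filter (fun y => ¬ Prp x y ∧ w < T.nD b x y ∧ T.nD b x y ≤ T.Q ^ b),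
        T.fC r j c b x y +
      ∑ y ∈ (T.GG n b g).filter (fun y => ¬ Prp x y ∧ T.Q ^ b < T.nD b x y),
        T.fC r j c b x y := by
  have hd : Disjoint
      ((T.GG n b g).filter (fun y => ¬ Prp x y ∧ w < T.nD b x y ∧ T.nD b x y ≤ T.Q ^ b))
      ((T.GG n b g).filter (fun y => ¬ Prp x y ∧ T.Q ^ b < T.nD b x y)) := by
    rw [Finset.disjoint_filter]
    intro y _ h1 h2
    exact absurd h2.2 (not_lt.mpr h1.2.2)
  rw [← Finset.sum_union hd]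
  refine Finset.sum_le_sum_of_subset_of_nonneg ?_ fun y _ _ => T.CSum_fC_nonneg r j c b x y
  intro y hy
  rw [Finset.mem_filter] at hy
  rw [Finset.mem_union, Finset.mem_filter, Finset.mem_filter]
  obtain ⟨h1, h2⟩ := hS y hy.1 hy.2
  rcases le_or_gt (T.nD b x y) (T.Q ^ b) with h | h
  · exact Or.inl ⟨hy.1, h1, h2, h⟩
  · exact Or.inr ⟨hy.1, h1, h⟩

theorem psBadC [Infinite O] [Infinite P] (n r : ℕ) (hn : 2 ≤ n) (hr : 1 ≤ r) : ∃ C : ℝ, 1 ≤ C ∧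
    ∀ (b g w c j : ℕ), j ≤ r → ∀ x ∈ T.GG n b g,
    ∑ y ∈ (T.GG n b g).filter (fun y => ¬ Prp x y ∧
        ¬ (WD O w ≤ Dd x y ∧ WD P w ≤ Dd (T.vtw b x) (T.vtw b y))), T.fC r j c b x y ≤
      C * ((T.Q : ℝ) ^ (b * (n + 1)) *
          ((T.Q : ℝ) ^ ((b : ℝ) / 4) + (T.Q : ℝ) ^ c * ((w : ℝ) + 1) ^ (-(3 / 4) : ℝ)) +
        (T.Q : ℝ) ^ (g * n) * ((T.Q : ℝ) ^ (9 / 4 * ((g : ℝ) + b)) +
          (T.Q : ℝ) ^ c * (T.Q : ℝ) ^ (5 / 4 * ((g : ℝ) + b)))) := by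
  obtain ⟨Cb, hCb, hb⟩ := T.CSum_beta n r hn hr
  obtain ⟨Ca, hCa, ha⟩ := T.CSum_alpha n r hr
  refine ⟨Cb + Ca, by linarith, fun b g w c j hj x hx => ?_⟩
  have h1 := T.CSum_gen (w := w) (x := x) (b := b) (g := g) r j c
    (fun y => ¬ Prp x y ∧ ¬ (WD O w ≤ Dd x y ∧ WD P w ≤ Dd (T.vtw b x) (T.vtw b y)))
    fun y hy h => ⟨h.1, T.bad_gt (T.CSum_al_GG hx).1 (T.CSum_al_GG hy).1 h.1 h.2⟩
  have h2 := hb b g w c j hj x hx
  have h3 := ha b g c j hj x hx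
  obtain ⟨u, hu⟩ : ∃ u : ℝ, u = (T.Q : ℝ) ^ (b * (n + 1)) *
          ((T.Q : ℝ) ^ ((b : ℝ) / 4) + (T.Q : ℝ) ^ c * ((w : ℝ) + 1) ^ (-(3 / 4) : ℝ)) := ⟨_, rfl⟩
  obtain ⟨v, hv⟩ : ∃ v : ℝ, v = (T.Q : ℝ) ^ (g * n) * ((T.Q : ℝ) ^ (9 / 4 * ((g : ℝ) + b)) +
          (T.Q : ℝ) ^ c * (T.Q : ℝ) ^ (5 / 4 * ((g : ℝ) + b))) := ⟨_, rfl⟩
  have hQ0 : (0 : ℝ) ≤ T.Q := Nat.cast_nonneg _
  have hu0 : 0 ≤ u := by
    rw [hu]
    have e1 := Real.rpow_nonneg hQ0 ((b : ℝ) / 4)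
    have e2 := Real.rpow_nonneg (by positivity : (0 : ℝ) ≤ (w : ℝ) + 1) (-(3 / 4) : ℝ)
    positivity
  have hv0 : 0 ≤ v := by
    rw [hv]
    have e1 := Real.rpow_nonneg hQ0 (9 / 4 * ((g : ℝ) + b))
    have e2 := Real.rpow_nonneg hQ0 (5 / 4 * ((g : ℝ) + b))
    positivity
  rw [← hu] at h2 ⊢
  rw [← hv] at h3 ⊢
  have h6 : 0 ≤ Ca * u := mul_nonneg (by linarith) hu0
  have h7 : 0 ≤ Cb * v := mul_nonneg (by linarith) hv0
  have h8 : (Cb + Ca) * (u + v) = Cb * u + Ca * u + (Cb * v + Ca * v) := by ring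
  rw [h8]
  linarith

theorem psAllC [Infinite O] [Infinite P] (n r : ℕ) (hn : 2 ≤ n) (hr : 1 ≤ r) : ∃ C : ℝ, 1 ≤ C ∧
    ∀ (b g c j : ℕ), j ≤ r → ∀ x ∈ T.GG n b g,
    ∑ y ∈ (T.GG n b g).filter (fun y => ¬ Prp x y), T.fC r j c b x y ≤
      C * ((T.Q : ℝ) ^ (b * (n + 1)) * ((T.Q : ℝ) ^ ((b : ℝ) / 4) + (T.Q : ℝ) ^ c) +
        (T.Q : ℝ) ^ (g * n) * ((T.Q : ℝ) ^ (9 / 4 * ((g : ℝ) + b)) +
          (T.Q : ℝ) ^ c * (T.Q : ℝ) ^ (5 / 4 * ((g : ℝ) + b)))) := by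
  obtain ⟨Cb, hCb, hb⟩ := T.CSum_beta n r hn hr
  obtain ⟨Ca, hCa, ha⟩ := T.CSum_alpha n r hr
  refine ⟨Cb + Ca, by linarith, fun b g c j hj x hx => ?_⟩
  have h1 := T.CSum_gen (w := 0) (x := x) (b := b) (g := g) r j c
    (fun y => ¬ Prp x y)
    fun y hy hp => ⟨hp, T.nD_pos (T.CSum_al_GG hx).1 (T.CSum_al_GG hy).1 hp⟩
  have h2 := hb b g 0 c j hj x hx
  have h3 := ha b g c j hj x hx
  rw [Nat.cast_zero, zero_add, Real.one_rpow, mul_one] at h2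
  obtain ⟨u, hu⟩ : ∃ u : ℝ, u = (T.Q : ℝ) ^ (b * (n + 1)) *
          ((T.Q : ℝ) ^ ((b : ℝ) / 4) + (T.Q : ℝ) ^ c) := ⟨_, rfl⟩
  obtain ⟨v, hv⟩ : ∃ v : ℝ, v = (T.Q : ℝ) ^ (g * n) * ((T.Q : ℝ) ^ (9 / 4 * ((g : ℝ) + b)) +
          (T.Q : ℝ) ^ c * (T.Q : ℝ) ^ (5 / 4 * ((g : ℝ) + b))) := ⟨_, rfl⟩
  have hQ0 : (0 : ℝ) ≤ T.Q := Nat.cast_nonneg _
  have hu0 : 0 ≤ u := by
    rw [hu]
    have e1 := Real.rpow_nonneg hQ0 ((b : ℝ) / 4)
    positivity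
  have hv0 : 0 ≤ v := by
    rw [hv]
    have e1 := Real.rpow_nonneg hQ0 (9 / 4 * ((g : ℝ) + b))
    have e2 := Real.rpow_nonneg hQ0 (5 / 4 * ((g : ℝ) + b))
    positivity
  rw [← hu] at h2 ⊢
  rw [← hv] at h3 ⊢
  have h6 : 0 ≤ Ca * u := mul_nonneg (by linarith) hu0
  have h7 : 0 ≤ Cb * v := mul_nonneg (by linarith) hv0
  have h8 : (Cb + Ca) * (u + v) = Cb * u + Ca * u + (Cb * v + Ca * v) := by ring
  rw [h8]
  linarith

end TC

end Pool.Agent.Lib.MP_1ad228_ntZ
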