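import Pool.Agent.Lib.MP_1ad228_ntZC.CVar
import Pool.Agent.Lib.MP_1ad228_ntZC.CPair
import Pool.Agent.Lib.MP_1ad228_ntZC.CSum

/-!
LEAF CTot.  The variance and the second moment, total.
Notation `c = cw r m a b`, `h = T.h (a + r m b)`, `V = T.h a ^ ((n+1)^(r m)) = #Box`.
`n1 = V/h` (n1_eq), `n2 ≤ V nD/h^2` (n2_le), prp_cnt: at most `h 0` proportional `y`; #GG ≤ `T.h b ^ (n+1) ≤ (Q^(b+1))^(n+1)`; `#MS = h / NW` (card_M; hypothesis `C1 NW ≤ Q^(a + r m b)`).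
varTotC: varBoundC (sl_inv), A1_le + A2_le ≤ 2 n2 h(c) (rD (1 + ..)), psBadC.  momTotC: the second moment of `NnC` is `∑_{x, y} A1`.
-/

namespace Pool.Agent.Lib.MP_1ad228_ntZ

open Classical

namespace TC
variable {K O P : Type} [Field K] [CommRing O] [IsDedekindDomain O] [Algebra O K]
  [IsFractionRing O K] [CommRing P] [IsDedekindDomain P] [Algebra P K]
  [IsFractionRing P K] (T : TC K O P)

/-- The bracket of the bad pairs, divided by `Q^(b (n+1)) Q^c`. -/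
noncomputable def brC (n r m a b g w : ℕ) : ℝ :=
  (T.Q : ℝ) ^ ((b : ℝ) / 4 - (cw r m a b : ℝ)) + ((w : ℝ) + 1) ^ (-(3 / 4) : ℝ) +
    (T.Q : ℝ) ^ ((g : ℝ) * n + 9 / 4 * ((g : ℝ) + b) - b * (n + 1) - (cw r m a b : ℝ)) +
    (T.Q : ℝ) ^ ((g : ℝ) * n + 5 / 4 * ((g : ℝ) + b) - b * (n + 1))

/-! ### the bracket -/

omit [IsDedekindDomain O] [IsFractionRing O K] [IsDedekindDomain P] [IsFractionRing P K] in
private theorem CTot_Q : (2 : ℝ) ≤ T.Q := by exact_mod_cast T.two_le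

private theorem CTot_C0 : (1 : ℝ) ≤ T.C0 := by exact_mod_cast T.C0_pos

omit [IsDedekindDomain O] [IsFractionRing O K] [IsDedekindDomain P] [IsFractionRing P K] in
private theorem CTot_br_nonneg (n r m a b g w : ℕ) : 0 ≤ T.brC n r m a b g w := by
  have hQ : (0 : ℝ) < T.Q := by linarith [T.CTot_Q]
  unfold brC
  positivity

omit [IsDedekindDomain O] [IsFractionRing O K] [IsDedekindDomain P] [IsFractionRing P K] in
/-- the right side of the pair sums -/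
private theorem CTot_br (n r m a b g w : ℕ) :
    (T.Q : ℝ) ^ (b * (n + 1)) *
          ((T.Q : ℝ) ^ ((b : ℝ) / 4) + (T.Q : ℝ) ^ cw r m a b * ((w : ℝ) + 1) ^ (-(3 / 4) : ℝ)) +
        (T.Q : ℝ) ^ (g * n) * ((T.Q : ℝ) ^ (9 / 4 * ((g : ℝ) + b)) +
          (T.Q : ℝ) ^ cw r m a b * (T.Q : ℝ) ^ (5 / 4 * ((g : ℝ) + b))) =
      (T.Q : ℝ) ^ (b * (n + 1)) * (T.Q : ℝ) ^ cw r m a b * T.brC n r m a b g w := by
  have hQ : (0 : ℝ) < T.Q := by linarith [T.CTot_Q]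
  have e1 : (T.Q : ℝ) ^ (b * (n + 1)) = (T.Q : ℝ) ^ ((b : ℝ) * (n + 1)) := by
    rw [← Real.rpow_natCast]
    congr 1
    push_cast
    ring
  have e2 : (T.Q : ℝ) ^ cw r m a b = (T.Q : ℝ) ^ ((cw r m a b : ℕ) : ℝ) := by
    rw [Real.rpow_natCast]
  have e3 : (T.Q : ℝ) ^ (g * n) = (T.Q : ℝ) ^ ((g : ℝ) * n) := by
    rw [← Real.rpow_natCast]
    congr 1
    push_cast
    ring
  unfold brC
  rw [Real.rpow_sub hQ, Real.rpow_sub hQ, Real.rpow_sub hQ, Real.rpow_sub hQ, Real.rpow_add hQ,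
    Real.rpow_add hQ, ← e1, ← e2, ← e3]
  have h1 : (T.Q : ℝ) ^ (b * (n + 1)) ≠ 0 := by positivity
  have h2 : (T.Q : ℝ) ^ cw r m a b ≠ 0 := by positivity
  field_simp
  ring

/-! ### numbers of tensors -/

private theorem CTot_X (c : ℕ) : (T.Q : ℝ) ^ c ≤ T.C0 * T.h c := by
  exact_mod_cast T.h_low c

private theorem CTot_hup (c : ℕ) : (T.h c : ℝ) ≤ (T.Q : ℝ) ^ (c + 1) := by
  exact_mod_cast T.h_up c

private theorem CTot_n1 {n r m a b g : ℕ} {x : Vc n O} (hx : x ∈ T.GG n b g)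
    (ha : 2 * g + T.c1 ≤ a) :
    (T.n1 (r * m) x a : ℝ) ≤
      T.C0 * ((T.Box n (r * m) a).card : ℝ) / (T.Q : ℝ) ^ (a + r * m * b) := by
  have hQ : (0 : ℝ) < T.Q := by linarith [T.CTot_Q]
  have h1 := T.n1_eq (r * m) hx (a := a) (by omega)
  rw [← T.card_Box] at h1
  have h2 : (T.n1 (r * m) x a : ℝ) * T.h (a + r * m * b) = ((T.Box n (r * m) a).card : ℝ) := by
    exact_mod_cast h1
  rw [le_div_iff₀ (by positivity), ← h2]
  calc (T.n1 (r * m) x a : ℝ) * (T.Q : ℝ) ^ (a + r * m * b)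
      ≤ (T.n1 (r * m) x a : ℝ) * (T.C0 * T.h (a + r * m * b)) :=
        mul_le_mul_of_nonneg_left (T.CTot_X _) (Nat.cast_nonneg _)
    _ = _ := by ring

private theorem CTot_n2 {n r m a b g : ℕ} (hr : 2 ≤ r) (hm : 1 ≤ m) {x y : Vc n O}
    (hx : x ∈ T.GG n b g) (hy : y ∈ T.GG n b g) (hxy : ¬ Prp x y) (ha : 2 * g + T.c1 ≤ a) :
    (T.n2 (r * m) x y a : ℝ) ≤
      (T.C0 : ℝ) ^ 2 * ((T.Box n (r * m) a).card : ℝ) * T.nD b x y /
        ((T.Q : ℝ) ^ (a + r * m * b)) ^ 2 := by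
  have hQ : (0 : ℝ) < T.Q := by linarith [T.CTot_Q]
  have hd : 2 ≤ r * m := le_trans hr (Nat.le_mul_of_pos_right r hm)
  have h1 := T.n2_le hd hx hy hxy ha
  rw [← T.card_Box] at h1
  have h2 : (T.n2 (r * m) x y a : ℝ) * (T.h (a + r * m * b) : ℝ) ^ 2 ≤
      ((T.Box n (r * m) a).card : ℝ) * T.nD b x y := by
    exact_mod_cast h1
  rw [le_div_iff₀ (by positivity)]
  have h3 : ((T.Q : ℝ) ^ (a + r * m * b)) ^ 2 ≤ (T.C0 * T.h (a + r * m * b)) ^ 2 := by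
    have := T.CTot_X (a + r * m * b)
    gcongr
  calc (T.n2 (r * m) x y a : ℝ) * ((T.Q : ℝ) ^ (a + r * m * b)) ^ 2
      ≤ (T.n2 (r * m) x y a : ℝ) * (T.C0 * T.h (a + r * m * b)) ^ 2 :=
        mul_le_mul_of_nonneg_left h3 (Nat.cast_nonneg _)
    _ = (T.C0 : ℝ) ^ 2 * ((T.n2 (r * m) x y a : ℝ) * (T.h (a + r * m * b) : ℝ) ^ 2) := by ring
    _ ≤ (T.C0 : ℝ) ^ 2 * (((T.Box n (r * m) a).card : ℝ) * T.nD b x y) :=
        mul_le_mul_of_nonneg_left h2 (by positivity)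
    _ = _ := by ring

/-- one point `x` -/
private theorem CTot_sum {n r m a b g : ℕ} (hr : 2 ≤ r) (hm : 1 ≤ m) (ha : 2 * g + T.c1 ≤ a)
    {x : Vc n O} (hx : x ∈ T.GG n b g) (S : Vc n O → ℝ) {U : Finset (Vc n O)}
    (hU : U ⊆ T.GG n b g) (P0 : ℝ) (hP0 : 0 ≤ P0)
    (h1 : ∀ y ∈ T.GG n b g, Prp x y → S y ≤ (T.n1 (r * m) x a : ℝ) * P0)
    (h2 : ∀ y ∈ T.GG n b g, ¬ Prp x y → S y ≤ 2 * ((T.n2 (r * m) x y a : ℝ) *
      T.h (cw r m a b) *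
      (T.rD r (jw r a) b x y * (1 + T.Q * ((T.Q : ℝ) ^ cw r m a b / T.nD b x y))))) :
    ∑ y ∈ U, S y ≤
      T.Q * (T.C0 * ((T.Box n (r * m) a).card : ℝ) / (T.Q : ℝ) ^ (a + r * m * b)) * P0 +
      2 * (T.C0 : ℝ) ^ 2 * ((T.Box n (r * m) a).card : ℝ) * (T.Q : ℝ) ^ (cw r m a b + 1) /
        ((T.Q : ℝ) ^ (a + r * m * b)) ^ 2 *
        ∑ y ∈ U.filter (fun y => ¬ Prp x y), T.fC r (jw r a) (cw r m a b) b x y := by
  have hQ : (0 : ℝ) < T.Q := by linarith [T.CTot_Q]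
  rw [← Finset.sum_filter_add_sum_filter_not U (fun y => Prp x y)]
  refine add_le_add ?_ ?_
  · calc ∑ y ∈ U.filter (fun y => Prp x y), S y
        ≤ ∑ _y ∈ U.filter (fun y => Prp x y), (T.n1 (r * m) x a : ℝ) * P0 :=
          Finset.sum_le_sum fun y hy => h1 y (hU (Finset.mem_filter.1 hy).1)
            (Finset.mem_filter.1 hy).2
      _ = ((U.filter fun y => Prp x y).card : ℝ) * ((T.n1 (r * m) x a : ℝ) * P0) := by
          rw [Finset.sum_const, nsmul_eq_mul]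
      _ ≤ (T.Q : ℝ) * ((T.n1 (r * m) x a : ℝ) * P0) := by
          refine mul_le_mul_of_nonneg_right ?_ (mul_nonneg (Nat.cast_nonneg _) hP0)
          have h3 := ((Finset.card_le_card (Finset.filter_subset_filter _ hU)).trans
            (T.prp_cnt hx)).trans (T.h_up 0)
          rw [zero_add, pow_one] at h3
          exact_mod_cast h3
      _ = (T.Q : ℝ) * (T.n1 (r * m) x a : ℝ) * P0 := by ring
      _ ≤ _ := by
          have h4 := T.CTot_n1 (r := r) (m := m) hx ha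
          gcongr
  · rw [Finset.mul_sum]
    refine Finset.sum_le_sum fun y hy => ?_
    obtain ⟨hy, hxy⟩ := Finset.mem_filter.1 hy
    have hy := hU hy
    refine (h2 y hy hxy).trans ?_
    have h3 := T.CTot_n2 hr hm hx hy hxy ha
    have h4 := T.CTot_hup (cw r m a b)
    have h5 : (0 : ℝ) ≤ T.rD r (jw r a) b x y *
        (1 + T.Q * ((T.Q : ℝ) ^ cw r m a b / T.nD b x y)) := by
      unfold rD
      positivity
    calc 2 * ((T.n2 (r * m) x y a : ℝ) * T.h (cw r m a b) *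
          (T.rD r (jw r a) b x y * (1 + T.Q * ((T.Q : ℝ) ^ cw r m a b / T.nD b x y))))
        ≤ 2 * (((T.C0 : ℝ) ^ 2 * ((T.Box n (r * m) a).card : ℝ) * T.nD b x y /
          ((T.Q : ℝ) ^ (a + r * m * b)) ^ 2) * (T.Q : ℝ) ^ (cw r m a b + 1) *
          (T.rD r (jw r a) b x y * (1 + T.Q * ((T.Q : ℝ) ^ cw r m a b / T.nD b x y)))) := by
          gcongr
      _ = _ := by
          unfold fC
          ring

private theorem CTot_GG (n b g : ℕ) :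
    ((T.GG n b g).card : ℝ) ≤ (T.Q : ℝ) ^ (b * (n + 1)) * (T.Q : ℝ) ^ (n + 1) := by
  have h1 : (T.GG n b g).card ≤ (T.VB n b).card := Finset.card_filter_le _ _
  rw [T.card_VB] at h1
  have h2 : T.h b ^ (n + 1) ≤ (T.Q ^ (b + 1)) ^ (n + 1) := Nat.pow_le_pow_left (T.h_up b) _
  have h3 : ((T.GG n b g).card : ℝ) ≤ ((T.Q : ℝ) ^ (b + 1)) ^ (n + 1) := by
    exact_mod_cast h1.trans h2
  refine h3.trans (le_of_eq ?_)
  rw [← pow_mul, ← pow_add]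
  congr 1
  ring

private theorem CTot_MS {r m a b w : ℕ} (h : T.C1 * NW O P w ≤ T.Q ^ (a + r * m * b)) :
    1 / ((T.MS w (a + r * m * b)).card : ℝ) ≤
      T.C0 * NW O P w / (T.Q : ℝ) ^ (a + r * m * b) := by
  have hQ : (0 : ℝ) < T.Q := by linarith [T.CTot_Q]
  have h1 : (T.MS w (a + r * m * b)).card * NW O P w = T.h (a + r * m * b) :=
    T.card_M (WD_ne_bot (T.fewO w)) (WD_ne_bot (T.fewP w)) h
  have h2 : 0 < (T.MS w (a + r * m * b)).card := by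
    rcases Nat.eq_zero_or_pos (T.MS w (a + r * m * b)).card with h0 | h0
    · rw [h0, zero_mul] at h1
      exact absurd h1.symm (T.h_pos _).ne'
    · exact h0
  have h2' : (0 : ℝ) < ((T.MS w (a + r * m * b)).card : ℝ) := by exact_mod_cast h2
  rw [div_le_div_iff₀ h2' (by positivity), one_mul]
  have h3 : ((T.MS w (a + r * m * b)).card : ℝ) * NW O P w = T.h (a + r * m * b) := by
    exact_mod_cast h1
  calc (T.Q : ℝ) ^ (a + r * m * b) ≤ T.C0 * T.h (a + r * m * b) := T.CTot_X _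
    _ = _ := by
      rw [← h3]
      ring

private theorem CTot_zero (w c : ℕ) : (0 : O) ∈ T.MS w c := by
  refine Finset.mem_filter.2 ⟨T.zero_mem_H c, Ideal.zero_mem _, ?_⟩
  rw [T.tw_zero]
  exact Ideal.zero_mem _

theorem varTotC [Infinite O] [Infinite P] (n r m : ℕ) (hn : 2 ≤ n) (hr : 2 ≤ r) (hm : 1 ≤ m) :
    ∃ C : ℝ, 1 ≤ C ∧ ∀ a b g w : ℕ, 2 * g + T.c1 ≤ a →
      T.C1 * NW O P w ≤ T.Q ^ (a + r * m * b) →
      T.QvC r m n a b g w ≤ C * ((T.Box n (r * m) a).card : ℝ) *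
        (((T.Q : ℝ) ^ (b * (n + 1)) * (T.Q : ℝ) ^ cw r m a b / (T.Q : ℝ) ^ (a + r * m * b)) *
          (1 + (T.Q : ℝ) ^ cw r m a b * NW O P w / (T.Q : ℝ) ^ (a + r * m * b)) +
        ((T.Q : ℝ) ^ (b * (n + 1)) * (T.Q : ℝ) ^ cw r m a b / (T.Q : ℝ) ^ (a + r * m * b)) ^ 2 *
          T.brC n r m a b g w) := by
  obtain ⟨C, hC, hps⟩ := T.psBadC n r hn (by omega)
  have hQ2 := T.CTot_Q
  have hQ : (0 : ℝ) < T.Q := by linarith
  have hQ1 : (1 : ℝ) ≤ T.Q := by linarith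
  have hC0 := T.CTot_C0
  have hrR : (1 : ℝ) ≤ r := by
    have : 1 ≤ r := by omega
    exact_mod_cast this
  have hd : 2 ≤ r * m := le_trans hr (Nat.le_mul_of_pos_right r hm)
  refine ⟨(T.Q : ℝ) ^ (n + 1) * (r * T.Q ^ 3 * T.C0 ^ 2) +
    (T.Q : ℝ) ^ (n + 1) * (2 * T.C0 ^ 2 * T.Q * C), ?_, fun a b g w ha hw => ?_⟩
  · have h1 : (1 : ℝ) ≤ (T.Q : ℝ) ^ (n + 1) := one_le_pow₀ hQ1
    have h2 : (1 : ℝ) ≤ r * (T.Q : ℝ) ^ 3 * T.C0 ^ 2 :=
      one_le_mul_of_one_le_of_one_le (one_le_mul_of_one_le_of_one_le hrR (one_le_pow₀ hQ1))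
        (one_le_pow₀ hC0)
    have h3 : (1 : ℝ) ≤ (T.Q : ℝ) ^ (n + 1) * (r * T.Q ^ 3 * T.C0 ^ 2) :=
      one_le_mul_of_one_le_of_one_le h1 h2
    have h4 : (0 : ℝ) ≤ (T.Q : ℝ) ^ (n + 1) * (2 * T.C0 ^ 2 * T.Q * C) := by positivity
    linarith
  have hv := T.varBoundC (r := r) (m := m) (n := n) (a := a) (b := b) (g := g) (w := w)
    (T.CTot_zero w _) (fun x hx y hy hxy h1 h2 μ hμ μ' hμ' z z' =>
      T.sl_inv hd hx hy hxy ha h1 h2 hμ hμ' z z')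
  set X : ℝ := (T.Q : ℝ) ^ (a + r * m * b) with hX
  have hX0 : 0 < X := by positivity
  set Y : ℝ := (T.Q : ℝ) ^ (b * (n + 1)) with hY
  have hY0 : 0 < Y := by positivity
  set Z : ℝ := (T.Q : ℝ) ^ cw r m a b with hZ
  have hZ0 : 0 < Z := by positivity
  set V : ℝ := ((T.Box n (r * m) a).card : ℝ) with hV
  have hV0 : 0 ≤ V := Nat.cast_nonneg _
  set N : ℝ := (NW O P w : ℝ) with hN
  have hN0 : 0 ≤ N := Nat.cast_nonneg _
  set B : ℝ := T.brC n r m a b g w with hB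
  have hB0 : 0 ≤ B := T.CTot_br_nonneg n r m a b g w
  have hhc : (T.h (cw r m a b) : ℝ) ≤ Z * T.Q := by
    have := T.CTot_hup (cw r m a b)
    rwa [pow_succ] at this
  have hhc0 : (0 : ℝ) ≤ T.h (cw r m a b) := Nat.cast_nonneg _
  have hM := T.CTot_MS hw
  rw [← hX, ← hN] at hM
  set P0 : ℝ := r * T.h (cw r m a b) +
    (T.h (cw r m a b) : ℝ) ^ 2 / ((T.MS w (a + r * m * b)).card : ℝ) with hP0
  have hP00 : 0 ≤ P0 := by positivity
  have hP0le : P0 ≤ r * (Z * T.Q) + (Z * T.Q) ^ 2 * (T.C0 * N / X) := by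
    rw [hP0, div_eq_mul_one_div ((T.h (cw r m a b) : ℝ) ^ 2)]
    gcongr
  have hone : ∀ x ∈ T.GG n b g, ∑ y ∈ (T.GG n b g).filter (fun y => Prp x y ∨
      ¬ (WD O w ≤ Dd x y ∧ WD P w ≤ Dd (T.vtw b x) (T.vtw b y))),
        (T.A1 r m a b x y + T.A2 r m a b w x y) ≤
      T.Q * (T.C0 * V / X) * (r * (Z * T.Q) + (Z * T.Q) ^ 2 * (T.C0 * N / X)) +
      2 * (T.C0 : ℝ) ^ 2 * V * (Z * T.Q) / X ^ 2 * (C * (Y * Z * B)) := by
    intro x hx
    have h1 := T.CTot_sum hr hm ha hx (fun y => T.A1 r m a b x y + T.A2 r m a b w x y)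
      (U := (T.GG n b g).filter (fun y => Prp x y ∨
        ¬ (WD O w ≤ Dd x y ∧ WD P w ≤ Dd (T.vtw b x) (T.vtw b y))))
      (Finset.filter_subset _ _) P0 hP00
      (fun y hy hxy => by
        have h3 := T.A1_prp (m := m) (a := a) (by omega : 1 ≤ r) hx hy hxy
        have h4 := T.A2_prp (m := m) (a := a) (w := w) (by omega : 1 ≤ r) hx hy hxy
        calc T.A1 r m a b x y + T.A2 r m a b w x y ≤ _ := add_le_add h3 h4
          _ = _ := by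
            rw [hP0]
            ring)
      (fun y hy hxy => by
        have h3 := T.A1_le (a := a) (by omega : 1 ≤ r) hm hx hy hxy
        have h4 := T.A2_le (a := a) (w := w) (by omega : 1 ≤ r) hm hx hy hxy
        calc T.A1 r m a b x y + T.A2 r m a b w x y ≤ _ := add_le_add h3 h4
          _ = _ := by ring)
    have h5 := hps b g w (cw r m a b) (jw r a) (jw_le r a) x hx
    rw [T.CTot_br] at h5
    have e1 : ((T.GG n b g).filter (fun y => Prp x y ∨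
        ¬ (WD O w ≤ Dd x y ∧ WD P w ≤ Dd (T.vtw b x) (T.vtw b y)))).filter
        (fun y => ¬ Prp x y) = (T.GG n b g).filter (fun y => ¬ Prp x y ∧
        ¬ (WD O w ≤ Dd x y ∧ WD P w ≤ Dd (T.vtw b x) (T.vtw b y))) := by
      ext y
      rw [Finset.mem_filter, Finset.mem_filter, Finset.mem_filter]
      tauto
    rw [e1] at h1
    rw [← hX, ← hV, pow_succ (T.Q : ℝ) (cw r m a b), ← hZ] at h1
    rw [← hY, ← hZ, ← hB] at h5
    refine h1.trans (add_le_add ?_ ?_)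
    · gcongr
    · exact mul_le_mul_of_nonneg_left h5 (by positivity)
  have hsum := hv.trans (Finset.sum_le_sum hone)
  rw [Finset.sum_const, nsmul_eq_mul] at hsum
  refine hsum.trans ?_
  have hG := T.CTot_GG n b g
  rw [← hY] at hG
  have hR0 : 0 ≤ T.Q * (T.C0 * V / X) * (r * (Z * T.Q) + (Z * T.Q) ^ 2 * (T.C0 * N / X)) +
      2 * (T.C0 : ℝ) ^ 2 * V * (Z * T.Q) / X ^ 2 * (C * (Y * Z * B)) := by positivity
  refine (mul_le_mul_of_nonneg_right hG hR0).trans ?_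
  -- the algebra
  have k1 : Y * (T.Q : ℝ) ^ (n + 1) * (T.Q * (T.C0 * V / X) * (r * (Z * T.Q) +
        (Z * T.Q) ^ 2 * (T.C0 * N / X)) +
      2 * (T.C0 : ℝ) ^ 2 * V * (Z * T.Q) / X ^ 2 * (C * (Y * Z * B))) =
      (T.Q : ℝ) ^ (n + 1) * V * ((Y * Z / X) * (T.Q ^ 2 * T.C0 * r + T.Q ^ 3 * T.C0 ^ 2 * (Z * N / X))) +
      (T.Q : ℝ) ^ (n + 1) * (2 * T.C0 ^ 2 * T.Q * C) * V * ((Y * Z / X) ^ 2 * B) := by
    field_simp
  have k2 : (T.Q : ℝ) ^ 2 * T.C0 * r + T.Q ^ 3 * T.C0 ^ 2 * (Z * N / X) ≤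
      (r * T.Q ^ 3 * T.C0 ^ 2) * (1 + Z * N / X) := by
    have q1 : (T.Q : ℝ) ^ 2 * T.C0 * r ≤ r * T.Q ^ 3 * T.C0 ^ 2 := by
      have q2 : (T.Q : ℝ) ^ 2 ≤ T.Q ^ 3 := pow_le_pow_right₀ hQ1 (by norm_num)
      have q3 : (T.C0 : ℝ) ≤ T.C0 ^ 2 := by nlinarith
      calc (T.Q : ℝ) ^ 2 * T.C0 * r ≤ T.Q ^ 3 * T.C0 ^ 2 * r := by gcongr
        _ = _ := by ring
    have q4 : (T.Q : ℝ) ^ 3 * T.C0 ^ 2 ≤ r * T.Q ^ 3 * T.C0 ^ 2 := by
      have q5 : (0 : ℝ) ≤ (T.Q : ℝ) ^ 3 * T.C0 ^ 2 := by positivity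
      nlinarith
    have q6 : (0 : ℝ) ≤ Z * N / X := by positivity
    calc (T.Q : ℝ) ^ 2 * T.C0 * r + T.Q ^ 3 * T.C0 ^ 2 * (Z * N / X)
        ≤ r * T.Q ^ 3 * T.C0 ^ 2 + r * T.Q ^ 3 * T.C0 ^ 2 * (Z * N / X) :=
          add_le_add q1 (mul_le_mul_of_nonneg_right q4 q6)
      _ = _ := by ring
  rw [k1]
  have k3 : (T.Q : ℝ) ^ (n + 1) * V * ((Y * Z / X) * (T.Q ^ 2 * T.C0 * r +
      T.Q ^ 3 * T.C0 ^ 2 * (Z * N / X))) ≤
      (T.Q : ℝ) ^ (n + 1) * V * ((Y * Z / X) * ((r * T.Q ^ 3 * T.C0 ^ 2) * (1 + Z * N / X))) := by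
    gcongr
  have k4 : (0 : ℝ) ≤ (T.Q : ℝ) ^ (n + 1) * (r * T.Q ^ 3 * T.C0 ^ 2) * V *
      ((Y * Z / X) ^ 2 * B) := by positivity
  have k5 : (0 : ℝ) ≤ (T.Q : ℝ) ^ (n + 1) * (2 * T.C0 ^ 2 * T.Q * C) * V *
      ((Y * Z / X) * (1 + Z * N / X)) := by positivity
  calc _ ≤ (T.Q : ℝ) ^ (n + 1) * V * ((Y * Z / X) * ((r * T.Q ^ 3 * T.C0 ^ 2) * (1 + Z * N / X))) +
      (T.Q : ℝ) ^ (n + 1) * (2 * T.C0 ^ 2 * T.Q * C) * V * ((Y * Z / X) ^ 2 * B) :=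
        add_le_add k3 le_rfl
    _ ≤ (T.Q : ℝ) ^ (n + 1) * V * ((Y * Z / X) * ((r * T.Q ^ 3 * T.C0 ^ 2) * (1 + Z * N / X))) +
      (T.Q : ℝ) ^ (n + 1) * (2 * T.C0 ^ 2 * T.Q * C) * V * ((Y * Z / X) ^ 2 * B) +
      ((T.Q : ℝ) ^ (n + 1) * (r * T.Q ^ 3 * T.C0 ^ 2) * V * ((Y * Z / X) ^ 2 * B) +
      (T.Q : ℝ) ^ (n + 1) * (2 * T.C0 ^ 2 * T.Q * C) * V * ((Y * Z / X) * (1 + Z * N / X))) := by
        linarith
    _ = _ := by ring

/-! ### moments -/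

omit [IsDedekindDomain O] [IsFractionRing O K] [IsDedekindDomain P] [IsFractionRing P K] in
private theorem CTot_N {n r m a b g : ℕ} (F : Ten n (r * m) O) :
    (T.NnC r m a b g F : ℝ) =
      ∑ x ∈ T.GG n b g, ∑ w ∈ T.WS r m a b, if ev F x = w ^ r then (1 : ℝ) else 0 := by
  unfold NnC
  rw [Finset.card_filter, Finset.sum_product]
  push_cast
  rfl

omit [IsDedekindDomain O] [IsFractionRing O K] [IsDedekindDomain P] [IsFractionRing P K] in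
private theorem CTot_sl {n r m a : ℕ} (x y : Vc n O) (z z' : O) :
    (T.sl (r * m) a x y z z' : ℝ) = ∑ F ∈ T.Box n (r * m) a,
      (if ev F x = z then (1 : ℝ) else 0) * (if ev F y = z' then (1 : ℝ) else 0) := by
  unfold sl
  rw [Finset.card_filter]
  push_cast
  refine Finset.sum_congr rfl fun F _ => ?_
  by_cases h1 : ev F x = z
  · by_cases h2 : ev F y = z'
    · rw [if_pos ⟨h1, h2⟩, if_pos h1, if_pos h2, one_mul]
    · rw [if_neg fun h => h2 h.2, if_neg h2, mul_zero]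
  · rw [if_neg fun h => h1 h.1, if_neg h1, zero_mul]

omit [IsDedekindDomain O] [IsFractionRing O K] [IsDedekindDomain P] [IsFractionRing P K] in
/-- the second moment -/
private theorem CTot_mom {n r m a b g : ℕ} :
    ∑ F ∈ T.Box n (r * m) a, (T.NnC r m a b g F : ℝ) ^ 2 =
      ∑ x ∈ T.GG n b g, ∑ y ∈ T.GG n b g, T.A1 r m a b x y := by
  have h1 : ∀ F ∈ T.Box n (r * m) a, (T.NnC r m a b g F : ℝ) ^ 2 =
      ∑ x ∈ T.GG n b g, ∑ y ∈ T.GG n b g, ∑ w1 ∈ T.WS r m a b, ∑ w2 ∈ T.WS r m a b,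
        (if ev F x = w1 ^ r then (1 : ℝ) else 0) * (if ev F y = w2 ^ r then (1 : ℝ) else 0) := by
    intro F _
    rw [T.CTot_N, pow_two, Finset.sum_mul_sum]
    refine Finset.sum_congr rfl fun x _ => Finset.sum_congr rfl fun y _ => ?_
    rw [Finset.sum_mul_sum]
  rw [Finset.sum_congr rfl h1, Finset.sum_comm]
  refine Finset.sum_congr rfl fun x _ => ?_
  rw [Finset.sum_comm]
  refine Finset.sum_congr rfl fun y _ => ?_
  rw [Finset.sum_comm]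
  unfold A1
  refine Finset.sum_congr rfl fun w1 _ => ?_
  rw [Finset.sum_comm]
  exact Finset.sum_congr rfl fun w2 _ => (T.CTot_sl x y _ _).symm

theorem momTotC [Infinite O] [Infinite P] (n r m : ℕ) (hn : 2 ≤ n) (hr : 2 ≤ r) (hm : 1 ≤ m) :
    ∃ C : ℝ, 1 ≤ C ∧ ∀ a b g : ℕ, 2 * g + T.c1 ≤ a →
      ∑ F ∈ T.Box n (r * m) a, (T.NnC r m a b g F : ℝ) ^ 2 ≤
        C * ((T.Box n (r * m) a).card : ℝ) *
        ((T.Q : ℝ) ^ (b * (n + 1)) * (T.Q : ℝ) ^ cw r m a b / (T.Q : ℝ) ^ (a + r * m * b) +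
        ((T.Q : ℝ) ^ (b * (n + 1)) * (T.Q : ℝ) ^ cw r m a b / (T.Q : ℝ) ^ (a + r * m * b)) ^ 2 *
          (1 + T.brC n r m a b g 0)) := by
  obtain ⟨C, hC, hps⟩ := T.psAllC n r hn (by omega)
  have hQ2 := T.CTot_Q
  have hQ : (0 : ℝ) < T.Q := by linarith
  have hQ1 : (1 : ℝ) ≤ T.Q := by linarith
  have hC0 := T.CTot_C0
  have hrR : (1 : ℝ) ≤ r := by
    have : 1 ≤ r := by omega
    exact_mod_cast this
  refine ⟨(T.Q : ℝ) ^ (n + 1) * (T.Q ^ 2 * T.C0 * r) +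
    (T.Q : ℝ) ^ (n + 1) * (2 * T.C0 ^ 2 * T.Q * C), ?_, fun a b g ha => ?_⟩
  · have h1 : (1 : ℝ) ≤ (T.Q : ℝ) ^ (n + 1) := one_le_pow₀ hQ1
    have h2 : (1 : ℝ) ≤ (T.Q : ℝ) ^ 2 * T.C0 * r :=
      one_le_mul_of_one_le_of_one_le (one_le_mul_of_one_le_of_one_le (one_le_pow₀ hQ1) hC0) hrR
    have h3 : (1 : ℝ) ≤ (T.Q : ℝ) ^ (n + 1) * (T.Q ^ 2 * T.C0 * r) :=
      one_le_mul_of_one_le_of_one_le h1 h2
    have h4 : (0 : ℝ) ≤ (T.Q : ℝ) ^ (n + 1) * (2 * T.C0 ^ 2 * T.Q * C) := by positivity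
    linarith
  rw [T.CTot_mom]
  set X : ℝ := (T.Q : ℝ) ^ (a + r * m * b) with hX
  have hX0 : 0 < X := by positivity
  set Y : ℝ := (T.Q : ℝ) ^ (b * (n + 1)) with hY
  have hY0 : 0 < Y := by positivity
  set Z : ℝ := (T.Q : ℝ) ^ cw r m a b with hZ
  have hZ0 : 0 < Z := by positivity
  set V : ℝ := ((T.Box n (r * m) a).card : ℝ) with hV
  have hV0 : 0 ≤ V := Nat.cast_nonneg _
  set B : ℝ := T.brC n r m a b g 0 with hB
  have hB0 : 0 ≤ B := T.CTot_br_nonneg n r m a b g 0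
  have hhc : (T.h (cw r m a b) : ℝ) ≤ Z * T.Q := by
    have := T.CTot_hup (cw r m a b)
    rwa [pow_succ] at this
  have hhc0 : (0 : ℝ) ≤ T.h (cw r m a b) := Nat.cast_nonneg _
  have hone : ∀ x ∈ T.GG n b g, ∑ y ∈ T.GG n b g, T.A1 r m a b x y ≤
      T.Q * (T.C0 * V / X) * (r * (Z * T.Q)) +
      2 * (T.C0 : ℝ) ^ 2 * V * (Z * T.Q) / X ^ 2 * (C * (Y * Z * B)) := by
    intro x hx
    have h1 := T.CTot_sum hr hm ha hx (fun y => T.A1 r m a b x y) (Finset.Subset.refl _)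
      (r * T.h (cw r m a b)) (by positivity)
      (fun y hy hxy => T.A1_prp (m := m) (a := a) (by omega : 1 ≤ r) hx hy hxy)
      (fun y hy hxy => by
        have h3 := T.A1_le (a := a) (by omega : 1 ≤ r) hm hx hy hxy
        refine h3.trans ?_
        have h4 : (0 : ℝ) ≤ (T.n2 (r * m) x y a : ℝ) * T.h (cw r m a b) *
            (T.rD r (jw r a) b x y * (1 + T.Q * ((T.Q : ℝ) ^ cw r m a b / T.nD b x y))) := by
          unfold rD
          positivity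
        linarith)
    have h5 := hps b g (cw r m a b) (jw r a) (jw_le r a) x hx
    have h6 := T.CTot_br n r m a b g 0
    have e3 : ((0 : ℕ) : ℝ) + 1 = 1 := by norm_num
    rw [e3, Real.one_rpow, mul_one] at h6
    rw [h6] at h5
    rw [← hX, ← hV, pow_succ (T.Q : ℝ) (cw r m a b), ← hZ] at h1
    rw [← hY, ← hZ, ← hB] at h5
    refine h1.trans (add_le_add ?_ ?_)
    · gcongr
    · exact mul_le_mul_of_nonneg_left h5 (by positivity)
  have hsum := Finset.sum_le_sum hone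
  rw [Finset.sum_const, nsmul_eq_mul] at hsum
  refine hsum.trans ?_
  have hG := T.CTot_GG n b g
  rw [← hY] at hG
  have hR0 : 0 ≤ T.Q * (T.C0 * V / X) * (r * (Z * T.Q)) +
      2 * (T.C0 : ℝ) ^ 2 * V * (Z * T.Q) / X ^ 2 * (C * (Y * Z * B)) := by positivity
  refine (mul_le_mul_of_nonneg_right hG hR0).trans ?_
  have k1 : Y * (T.Q : ℝ) ^ (n + 1) * (T.Q * (T.C0 * V / X) * (r * (Z * T.Q)) +
      2 * (T.C0 : ℝ) ^ 2 * V * (Z * T.Q) / X ^ 2 * (C * (Y * Z * B))) =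
      (T.Q : ℝ) ^ (n + 1) * (T.Q ^ 2 * T.C0 * r) * V * (Y * Z / X) +
      (T.Q : ℝ) ^ (n + 1) * (2 * T.C0 ^ 2 * T.Q * C) * V * ((Y * Z / X) ^ 2 * B) := by
    field_simp
  rw [k1]
  have k4 : (0 : ℝ) ≤ (T.Q : ℝ) ^ (n + 1) * (T.Q ^ 2 * T.C0 * r) * V *
      ((Y * Z / X) ^ 2 * (1 + B)) := by positivity
  have k5 : (0 : ℝ) ≤ (T.Q : ℝ) ^ (n + 1) * (2 * T.C0 ^ 2 * T.Q * C) * V *
      (Y * Z / X + (Y * Z / X) ^ 2) := by positivity
  calc _ ≤ (T.Q : ℝ) ^ (n + 1) * (T.Q ^ 2 * T.C0 * r) * V * (Y * Z / X) +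
      (T.Q : ℝ) ^ (n + 1) * (2 * T.C0 ^ 2 * T.Q * C) * V * ((Y * Z / X) ^ 2 * B) +
      ((T.Q : ℝ) ^ (n + 1) * (T.Q ^ 2 * T.C0 * r) * V * ((Y * Z / X) ^ 2 * (1 + B)) +
      (T.Q : ℝ) ^ (n + 1) * (2 * T.C0 ^ 2 * T.Q * C) * V * (Y * Z / X + (Y * Z / X) ^ 2)) := by
        linarith
    _ = _ := by ring

/-- the fibres of the evaluation -/
private theorem CTot_fib {n d a b g : ℕ} (ha : g + T.c1 ≤ a) {x : Vc n O} (hx : x ∈ T.GG n b g)
    {z : O} (hz : z ∈ T.H (a + d * b)) :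
    ((T.Box n d a).filter fun F => ev F x = z).card = T.n1 d x a := by
  let φ : Ten n d O →+ O :=
    { toFun := fun G => ev G x
      map_zero' := by simp [Pool.Agent.Lib.MP_1ad228_ntF.ev]
      map_add' := fun G G' => by
        simp [Pool.Agent.Lib.MP_1ad228_ntF.ev, add_mul, Finset.sum_add_distrib] }
  obtain ⟨G0, hG0, hG0z⟩ := T.ev_surj d hx ha hz
  have h1 := fin_fib (T.Box n d a) (T.mem_Box.2 fun _ => T.zero_mem_H a)
    (fun F hF G hG => T.mem_Box.2 fun i => T.sub_mem_H (T.mem_Box.1 hF i) (T.mem_Box.1 hG i)) φ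
    G0 hG0
  have h2 : φ G0 = z := hG0z
  rw [h2] at h1
  exact h1

/-- First moment of `NnC`. -/
theorem momOneC (n r m : ℕ) (hr : 2 ≤ r) (hm : 1 ≤ m) :
    ∀ a b g : ℕ, g + T.c1 ≤ a →
      (∑ F ∈ T.Box n (r * m) a, T.NnC r m a b g F) * T.h (a + r * m * b) =
        (T.Box n (r * m) a).card * ((T.GG n b g).card * (T.WS r m a b).card) := by
  intro a b g ha
  have h1 : ∀ F ∈ T.Box n (r * m) a, T.NnC r m a b g F =
      ∑ x ∈ T.GG n b g, ∑ w ∈ T.WS r m a b, if ev F x = w ^ r then 1 else 0 := by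
    intro F _
    unfold NnC
    rw [Finset.card_filter, Finset.sum_product]
  have h2 : ∀ x ∈ T.GG n b g, ∀ w ∈ T.WS r m a b,
      (∑ F ∈ T.Box n (r * m) a, if ev F x = w ^ r then 1 else 0) * T.h (a + r * m * b) =
        (T.Box n (r * m) a).card := by
    intro x hx w hw
    have h3 : w ^ r ∈ T.H (a + r * m * b) := (Finset.mem_filter.1 hw).2
    rw [← Finset.card_filter, T.CTot_fib ha hx h3, T.n1_eq (r * m) hx ha, T.card_Box]
  rw [Finset.sum_congr rfl h1, Finset.sum_comm, Finset.sum_mul]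
  have h4 : ∀ x ∈ T.GG n b g, (∑ F ∈ T.Box n (r * m) a, ∑ w ∈ T.WS r m a b,
      if ev F x = w ^ r then 1 else 0) * T.h (a + r * m * b) =
      (T.WS r m a b).card * (T.Box n (r * m) a).card := by
    intro x hx
    rw [Finset.sum_comm, Finset.sum_mul, Finset.sum_congr rfl (h2 x hx), Finset.sum_const,
      smul_eq_mul]
  rw [Finset.sum_congr rfl h4, Finset.sum_const, smul_eq_mul]
  ring

end TC

end Pool.Agent.Lib.MP_1ad228_ntZ
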