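import Pool.Agent.Lib.MP_1ad228_ntZC.CDefs
import Pool.Agent.Lib.MP_1ad228_ntZC.CTot

/-!
LEAF CPar.  The parameters.  `N0 = 16 n^2 (n+3)`, `b = N0 k`, `g = b/n + n^2 k`, `l = b/n - n k`, `ι = n + 1 - (r-1) m ≥ 1`.
parC: `k` least with `(r-1) a + r M0 ≤ r b ι` (for `a` large `k ≥ max k1 1`, and `k - 1` fails: `r b ι < (r-1) a + r M0 + r ι N0`).  `r (b (n+1) + cw - a - r m b) = r b ι - (r-1) a + jw` (cw_eq), `0 < jw ≤ r`: third and fourth statement.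
`2 g + c1 ≤ a`: `(r-1) a ≥ r b ι - r M0 - r ι N0`; `n ≥ 3`: `a ≥ b - r M0 - r ι N0 ≥ 2 g + c1` as `b - 2 g = (16 n (n+3) (n-2) - 2 n^2) k ≥ k`; `n = 2`: `(r-1) m ≤ 2` so `r ≤ 3`, `2 a ≥ 3 b - const`, `b = 320 k`, `2 g = 328 k`.
brC_small: `(r-1) cw ≥ b (n+1) - M1` (from `r cw = a + r m b + jw` and the hypothesis), also `cw ≥ m b ≥ b`.  Exponents of brC divided by `k`: first `≤ b/4 - b`; `n ≥ 3` third: `(n+3) n (36 + 20 n - 16 n^2) + n^3 + 9 n^2/4 < -1` (with `cw ≥ b`),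
fourth: `(n+3) n (20 + 20 n - 16 n^2) + n^3 + 5 n^2/4 < -1`; `n = 2` (`r ≤ 3`, `cw ≥ (3 b - M1)/2`): third `457 k - cw ≤ 457 k - 480 k + M1`, fourth `-27 k`.  So all are `≤ -k + M1`, and `Q ≥ 2`.
-/

namespace Pool.Agent.Lib.MP_1ad228_ntZ

open Classical

/-- The step of the parameter `b`. -/
def N0 (n : ℕ) : ℕ := 16 * n ^ 2 * (n + 3)

/-- The size of `x`. -/
def bP (n k : ℕ) : ℕ := N0 n * k

/-- The size of the orthogonal vectors. -/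
def gP (n k : ℕ) : ℕ := (16 * n * (n + 3) + n ^ 2) * k

/-- The size of the short vector of a point which is not good. -/
def lP (n k : ℕ) : ℕ := (16 * n * (n + 3) - n) * k

private theorem CPar_N0_pos {n : ℕ} (hn : 2 ≤ n) : 1 ≤ N0 n := by
  unfold N0
  have h1 : 1 ≤ n ^ 2 := Nat.one_le_pow _ _ (by omega)
  nlinarith

/-- The part of `parC` about `2 g + c1`. -/
private theorem CPar_g {n q k a c c1 B ι : ℕ} (hn : 2 ≤ n) (hq : 1 ≤ q) (hqn : q ≤ n) (hι : 1 ≤ ι)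
    (hB : B = 16 * n ^ 2 * (n + 3) * k) (h : (q + 1) * (B * ι) ≤ q * a + c) (hk : c + c1 ≤ k) :
    2 * ((16 * n * (n + 3) + n ^ 2) * k) + c1 ≤ a := by
  obtain ⟨G, hG⟩ : ∃ G, G = 16 * n * (n + 3) * k := ⟨_, rfl⟩
  have hBG : B = n * G := by rw [hB, hG]; ring
  have h1 : (q + 1) * B ≤ q * (a + c) := by
    have h2 : B * 1 ≤ B * ι := Nat.mul_le_mul_left B hι
    have h3 : (q + 1) * (B * 1) ≤ (q + 1) * (B * ι) := Nat.mul_le_mul_left _ h2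
    have h4 : c ≤ q * c := Nat.le_mul_of_pos_left c (by omega)
    calc (q + 1) * B = (q + 1) * (B * 1) := by ring
      _ ≤ q * a + c := h3.trans h
      _ ≤ q * a + q * c := Nat.add_le_add_left h4 _
      _ = q * (a + c) := by ring
  have h5 : q * ((n + 1) * B) ≤ q * (n * (a + c)) := by
    have h6 : q * B ≤ n * B := Nat.mul_le_mul_right B hqn
    have h7 : n * ((q + 1) * B) ≤ n * (q * (a + c)) := Nat.mul_le_mul_left n h1
    calc q * ((n + 1) * B) = n * (q * B) + q * B := by ring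
      _ ≤ n * (q * B) + n * B := Nat.add_le_add_left h6 _
      _ = n * ((q + 1) * B) := by ring
      _ ≤ n * (q * (a + c)) := h7
      _ = q * (n * (a + c)) := by ring
  have h8 : (n + 1) * B ≤ n * (a + c) := Nat.le_of_mul_le_mul_left h5 (by omega)
  have h9 : n * ((n + 1) * G) ≤ n * (a + c) := by
    calc n * ((n + 1) * G) = (n + 1) * B := by rw [hBG]; ring
      _ ≤ n * (a + c) := h8
  have h10 : (n + 1) * G ≤ a + c := Nat.le_of_mul_le_mul_left h9 (by omega)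
  obtain ⟨j, rfl⟩ : ∃ j, n = j + 2 := ⟨n - 2, by omega⟩
  have h11 : 2 * ((16 * (j + 2) * ((j + 2) + 3) + (j + 2) ^ 2) * k) + k ≤ ((j + 2) + 1) * G := by
    rw [hG]
    have h12 : 2 * (16 * (j + 2) * ((j + 2) + 3) + (j + 2) ^ 2) + 1 ≤
        ((j + 2) + 1) * (16 * (j + 2) * ((j + 2) + 3)) := by
      nlinarith [Nat.zero_le (j ^ 3), Nat.zero_le (j ^ 2), Nat.zero_le j]
    have h13 := Nat.mul_le_mul_right k h12
    calc 2 * ((16 * (j + 2) * ((j + 2) + 3) + (j + 2) ^ 2) * k) + k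
        = (2 * (16 * (j + 2) * ((j + 2) + 3) + (j + 2) ^ 2) + 1) * k := by ring
      _ ≤ ((j + 2) + 1) * (16 * (j + 2) * ((j + 2) + 3)) * k := h13
      _ = ((j + 2) + 1) * (16 * (j + 2) * ((j + 2) + 3) * k) := by ring
  omega

/-- The main part of `parC`. -/
private theorem CPar_main {n q m : ℕ} (hn : 2 ≤ n) (hq : 1 ≤ q) (hm : 1 ≤ m) (hmn : q * m ≤ n)
    (M0 k1 c1 : ℕ) : ∃ a1 : ℕ, ∀ a : ℕ, a1 ≤ a → ∃ k : ℕ, k1 ≤ k ∧ 2 * gP n k + c1 ≤ a ∧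
      (q + 1) * (bP n k * (n + 1 - q * m)) ≤
        q * a + ((q + 1) * M0 + (q + 1) * N0 n * (n + 1 - q * m)) ∧
      a + (q + 1) * m * bP n k + M0 ≤ bP n k * (n + 1) + cw (q + 1) m a (bP n k) ∧
      bP n k * (n + 1) + cw (q + 1) m a (bP n k) ≤
        a + (q + 1) * m * bP n k + (M0 + N0 n * (n + 1 - q * m) + 1) := by
  obtain ⟨ι, hι, hι1⟩ : ∃ ι, n + 1 = ι + q * m ∧ 1 ≤ ι := ⟨n + 1 - q * m, by omega, by omega⟩
  have hsub : n + 1 - q * m = ι := by omega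
  rw [hsub]
  have hqn : q ≤ n := le_trans (Nat.le_mul_of_pos_right q (by omega)) hmn
  have hN := CPar_N0_pos hn
  obtain ⟨c, hc⟩ : ∃ c, c = (q + 1) * M0 + (q + 1) * N0 n * ι := ⟨_, rfl⟩
  obtain ⟨k2, hk2⟩ : ∃ k2, k2 = k1 + c + c1 + 1 := ⟨_, rfl⟩
  refine ⟨(q + 1) * (bP n k2 * ι) + 1, ?_⟩
  intro a ha
  have hex : ∃ k, q * a + (q + 1) * M0 ≤ (q + 1) * (bP n k * ι) := by
    refine ⟨q * a + (q + 1) * M0, ?_⟩
    unfold bP
    have h1 : 1 ≤ (q + 1) * N0 n * ι := by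
      have := Nat.mul_le_mul (Nat.mul_le_mul (show 1 ≤ q + 1 by omega) hN) hι1
      omega
    calc q * a + (q + 1) * M0 = 1 * (q * a + (q + 1) * M0) := by ring
      _ ≤ ((q + 1) * N0 n * ι) * (q * a + (q + 1) * M0) := Nat.mul_le_mul_right _ h1
      _ = (q + 1) * (N0 n * (q * a + (q + 1) * M0) * ι) := by ring
  classical
  obtain ⟨k, hk, hmin⟩ : ∃ k, q * a + (q + 1) * M0 ≤ (q + 1) * (bP n k * ι) ∧
      ∀ k', k' < k → ¬ (q * a + (q + 1) * M0 ≤ (q + 1) * (bP n k' * ι)) :=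
    ⟨Nat.find hex, Nat.find_spec hex, fun k' h => Nat.find_min hex h⟩
  have hkk : k2 ≤ k := by
    by_contra h1
    rw [not_le] at h1
    have h2 : bP n k ≤ bP n k2 := Nat.mul_le_mul_left _ h1.le
    have h3 : (q + 1) * (bP n k * ι) ≤ (q + 1) * (bP n k2 * ι) :=
      Nat.mul_le_mul_left _ (Nat.mul_le_mul_right _ h2)
    have h4 : a ≤ q * a := Nat.le_mul_of_pos_left a (by omega)
    omega
  obtain ⟨k', rfl⟩ : ∃ k', k = k' + 1 := ⟨k - 1, by omega⟩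
  have hk'1 := hmin k' (by omega)
  rw [not_le] at hk'1
  have hBs : bP n (k' + 1) = bP n k' + N0 n := by unfold bP; ring
  have hup : (q + 1) * (bP n (k' + 1) * ι) ≤ q * a + c := by
    rw [hBs, hc]
    have h1 : (q + 1) * ((bP n k' + N0 n) * ι) = (q + 1) * (bP n k' * ι) + (q + 1) * N0 n * ι := by
      ring
    rw [h1]
    omega
  have hcw := cw_eq (r := q + 1) (by omega) m a (bP n (k' + 1))
  have hjl := jw_le (q + 1) a
  obtain ⟨W, hW⟩ : ∃ W, W = cw (q + 1) m a (bP n (k' + 1)) := ⟨_, rfl⟩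
  obtain ⟨B, hB⟩ : ∃ B, B = bP n (k' + 1) := ⟨_, rfl⟩
  obtain ⟨J, hJ⟩ : ∃ J, J = jw (q + 1) a := ⟨_, rfl⟩
  rw [← hW, ← hB, ← hJ] at hcw
  rw [← hJ] at hjl
  rw [← hB] at hk hup
  refine ⟨k' + 1, by omega, ?_, ?_, ?_, ?_⟩
  · unfold gP
    exact CPar_g hn hq hqn hι1 (by rw [hB]; rfl) hup (by omega)
  · rw [← hB, ← hc]
    exact hup
  · rw [← hW, ← hB]
    refine Nat.le_of_mul_le_mul_left (c := q + 1) ?_ (by omega)
    rw [hι]
    nlinarith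
  · rw [← hW, ← hB]
    refine Nat.le_of_mul_le_mul_left (c := q + 1) ?_ (by omega)
    rw [hι]
    rw [hc] at hup
    nlinarith

namespace TC
variable {K O P : Type} [Field K] [CommRing O] [IsDedekindDomain O] [Algebra O K]
  [IsFractionRing O K] [CommRing P] [IsDedekindDomain P] [Algebra P K]
  [IsFractionRing P K] (T : TC K O P)

include T in
theorem parC (n r m : ℕ) (hn : 2 ≤ n) (hr : 2 ≤ r) (hm : 1 ≤ m) (hmn : (r - 1) * m ≤ n)
    (M0 k1 : ℕ) : ∃ a1 : ℕ, ∀ a : ℕ, a1 ≤ a → ∃ k : ℕ, k1 ≤ k ∧ 2 * gP n k + T.c1 ≤ a ∧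
      r * (bP n k * (n + 1 - (r - 1) * m)) ≤
        (r - 1) * a + (r * M0 + r * N0 n * (n + 1 - (r - 1) * m)) ∧
      a + r * m * bP n k + M0 ≤ bP n k * (n + 1) + cw r m a (bP n k) ∧
      bP n k * (n + 1) + cw r m a (bP n k) ≤
        a + r * m * bP n k + (M0 + N0 n * (n + 1 - (r - 1) * m) + 1) := by
  obtain ⟨q, rfl⟩ : ∃ q, r = q + 1 := ⟨r - 1, by omega⟩
  rw [Nat.add_sub_cancel] at hmn ⊢
  exact CPar_main hn (by omega) hm hmn M0 k1 T.c1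

theorem brC_small (n r m : ℕ) (hn : 2 ≤ n) (hr : 2 ≤ r) (hm : 1 ≤ m) (hmn : (r - 1) * m ≤ n)
    (M1 : ℕ) (θ : ℝ) (hθ : 0 < θ) : ∃ k0 : ℕ, ∀ a k w : ℕ, k0 ≤ k →
      bP n k * (n + 1) + cw r m a (bP n k) ≤ a + r * m * bP n k + M1 →
      T.brC n r m a (bP n k) (gP n k) w ≤ 3 * θ + ((w : ℝ) + 1) ^ (-(3 / 4) : ℝ) := by
  have hQ : (2 : ℝ) ≤ T.Q := by exact_mod_cast T.two_le
  have hQ0 : (0 : ℝ) < T.Q := by linarith
  have hQM : (0 : ℝ) < (T.Q : ℝ) ^ M1 := pow_pos hQ0 _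
  obtain ⟨k0, hk0⟩ : ∃ k0 : ℕ, (1 / 2 : ℝ) ^ k0 < θ / (T.Q : ℝ) ^ M1 :=
    exists_pow_lt_of_lt_one (div_pos hθ hQM) (by norm_num)
  refine ⟨k0, ?_⟩
  intro a k w hk hyp
  -- a power with small exponent
  have key : ∀ e : ℝ, e ≤ M1 - k → (T.Q : ℝ) ^ e ≤ θ := by
    intro e he
    have h1 : (T.Q : ℝ) ^ e ≤ (T.Q : ℝ) ^ ((M1 : ℝ) - k) :=
      Real.rpow_le_rpow_of_exponent_le (by linarith) he
    have h2 : (T.Q : ℝ) ^ ((M1 : ℝ) - k) = (T.Q : ℝ) ^ M1 * ((T.Q : ℝ) ^ k)⁻¹ := by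
      rw [Real.rpow_sub hQ0, Real.rpow_natCast, Real.rpow_natCast, div_eq_mul_inv]
    have h3 : ((T.Q : ℝ) ^ k)⁻¹ ≤ (1 / 2 : ℝ) ^ k := by
      rw [one_div, inv_pow]
      exact inv_anti₀ (pow_pos (by norm_num) k) (pow_le_pow_left₀ (by norm_num) hQ k)
    have h4 : (1 / 2 : ℝ) ^ k ≤ (1 / 2 : ℝ) ^ k0 :=
      pow_le_pow_of_le_one (by norm_num) (by norm_num) hk
    calc (T.Q : ℝ) ^ e ≤ (T.Q : ℝ) ^ M1 * ((T.Q : ℝ) ^ k)⁻¹ := h1.trans h2.le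
      _ ≤ (T.Q : ℝ) ^ M1 * (θ / (T.Q : ℝ) ^ M1) :=
        mul_le_mul_of_nonneg_left ((h3.trans h4).trans hk0.le) hQM.le
      _ = θ := mul_div_cancel₀ θ hQM.ne'
  -- the size of `w`
  obtain ⟨W, hW⟩ : ∃ W, W = cw r m a (bP n k) := ⟨_, rfl⟩
  have hWb : bP n k ≤ W := by
    rw [hW]
    unfold cw
    have h1 : bP n k ≤ m * bP n k := Nat.le_mul_of_pos_left _ (by omega)
    exact h1.trans (Nat.le_add_left _ _)
  have hWG : (n + 1) * (16 * n * (n + 3) * k) ≤ W + M1 := by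
    have h1 := cw_eq (r := r) (by omega) m a (bP n k)
    rw [← hW] at h1 hyp
    obtain ⟨q, rfl⟩ : ∃ q, r = q + 1 := ⟨r - 1, by omega⟩
    rw [Nat.add_sub_cancel] at hmn
    have hqn : q ≤ n := le_trans (Nat.le_mul_of_pos_right q (by omega)) hmn
    have h2 : bP n k * (n + 1) ≤ n * W + M1 := by
      have h3 : q * W ≤ n * W := Nat.mul_le_mul_right W hqn
      have h4 : (q + 1) * W = q * W + W := by ring
      omega
    have h5 : n * ((n + 1) * (16 * n * (n + 3) * k)) ≤ n * (W + M1) := by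
      have h6 : M1 ≤ n * M1 := Nat.le_mul_of_pos_left _ (by omega)
      calc n * ((n + 1) * (16 * n * (n + 3) * k)) = bP n k * (n + 1) := by
            unfold bP N0
            ring
        _ ≤ n * W + M1 := h2
        _ ≤ n * W + n * M1 := Nat.add_le_add_left h6 _
        _ = n * (W + M1) := by ring
    exact Nat.le_of_mul_le_mul_left h5 (by omega)
  unfold brC
  rw [← hW]
  have hn' : (2 : ℝ) ≤ n := by exact_mod_cast hn
  have hkR : (0 : ℝ) ≤ k := Nat.cast_nonneg k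
  have hM1R : (0 : ℝ) ≤ M1 := Nat.cast_nonneg M1
  have hWbR : (bP n k : ℝ) ≤ W := by exact_mod_cast hWb
  have hWGR : ((n : ℝ) + 1) * (16 * n * (n + 3) * k) ≤ W + M1 := by exact_mod_cast hWG
  have hbR : (bP n k : ℝ) = 16 * (n : ℝ) ^ 2 * (n + 3) * k := by
    unfold bP N0
    push_cast
    ring
  have hgR : (gP n k : ℝ) = (16 * (n : ℝ) * (n + 3) + (n : ℝ) ^ 2) * k := by
    unfold gP
    push_cast
    ring
  have hpoly : 16 * (n : ℝ) * (n + 3) * (5 / 4 + 5 / 4 * n - (n : ℝ) ^ 2) + (n : ℝ) ^ 3 +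
      9 / 4 * (n : ℝ) ^ 2 + 1 ≤ 0 := by
    obtain ⟨j, hj⟩ : ∃ j : ℝ, j = n - 2 := ⟨_, rfl⟩
    have hj0 : 0 ≤ j := by rw [hj]; linarith
    have hnj : (n : ℝ) = j + 2 := by rw [hj]; ring
    rw [hnj]
    have h2 := pow_nonneg hj0 2
    have h3 := pow_nonneg hj0 3
    have h4 := pow_nonneg hj0 4
    nlinarith
  have hpk := mul_nonneg hkR (neg_nonneg.2 hpoly)
  have hnn : (0 : ℝ) ≤ k * (n : ℝ) ^ 2 := mul_nonneg hkR (sq_nonneg _)
  have e1 : (bP n k : ℝ) / 4 - W ≤ M1 - k := by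
    have h1 : (k : ℝ) * 2 ≤ bP n k := by
      rw [hbR]
      have h2 : (2 : ℝ) ≤ 16 * (n : ℝ) ^ 2 * (n + 3) := by nlinarith
      nlinarith
    linarith
  have e3 : (gP n k : ℝ) * n + 9 / 4 * ((gP n k : ℝ) + bP n k) - (bP n k : ℝ) * (n + 1) - W ≤
      M1 - k := by
    rw [hgR, hbR]
    nlinarith
  have e4 : (gP n k : ℝ) * n + 5 / 4 * ((gP n k : ℝ) + bP n k) - (bP n k : ℝ) * (n + 1) ≤
      M1 - k := by
    rw [hgR, hbR]
    nlinarith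
  have k1 := key _ e1
  have k3 := key _ e3
  have k4 := key _ e4
  linarith

end TC

end Pool.Agent.Lib.MP_1ad228_ntZ
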