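import Pool.Agent.Lib.MP_1ad228_ntZC.CLow
import Pool.Agent.Lib.MP_1ad228_ntZC.CPar
import Pool.Agent.Lib.MP_1ad228_ntZ.HG

/-!
LEAF CPred.  Lower bound for the prediction.  `b = bP n k`, `g = gP n k`, `l = lP n k`, `c = cw r m a b`, `j = jw r a`.
notGoodK: notGood with `l + c1 ≤ b`, `l ≤ g`, `C0^(n+1) Q^(b+1) < Q^(g + (n-1) l)`: `g + (n-1) l = b + (n^2 - n (n-1)) k = b + n k`; `(b + l) n = b (n+1) - n^2 k`.
predC: low_cntC with `N2 = nI (WD O w) * nI (sJ j (WD P w)) = NW * Q^j ≤ NW * Q^r`: with `S1 S2 ≥ τ N2^(n+1)`, `(h b)^(n+1) ≥ (Q^b/C0)^(n+1)` (h_low), `w1` with `4 C C0^(n+1) ≤ w1 + 1` and `k` large (depending on `w`): the bracket is `≥ Q^(b(n+1))/(2 C0^(n+1) N2^(n+1))`;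
the number of points which are not good is `≤ τ Q^(b(n+1))/(4 C0^(n+1) N2)` for `k` large (depending on `w`, `τ`).  So the numerator of LlC is `≥ τ Q^(b(n+1)) h c/(4 C0^(n+1) N2)`.  `#MS = h(a + r m b)/NW` (card_M, `C1 NW ≤ Q^b ≤ Q^(a + r m b)`), `h (a + r m b) ≤ Q^(a + r m b + 1)` (h_up),
`h c ≥ Q^c/C0`: `κ = 1/(4 C0^(n+2) Q^(r+1))`.
-/

namespace Pool.Agent.Lib.MP_1ad228_ntZ

open Classical

private theorem CPred_par (n k : ℕ) (hn : 2 ≤ n) :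
    gP n k + (n - 1) * lP n k = bP n k + n * k ∧ lP n k ≤ gP n k ∧ lP n k + k ≤ bP n k ∧
      (bP n k + lP n k) * n + n ^ 2 * k = bP n k * (n + 1) := by
  obtain ⟨u, rfl⟩ : ∃ u, n = u + 2 := ⟨n - 2, by omega⟩
  have h1 : lP (u + 2) k = (16 * (u + 2) * (u + 4) + 15 * (u + 2)) * k := by
    unfold lP
    congr 1
    have : 16 * (u + 2) * (u + 2 + 3) = 16 * (u + 2) * (u + 4) + 15 * (u + 2) + (u + 2) := by ring
    omega
  have h2 : u + 2 - 1 = u + 1 := by omega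
  rw [h1, h2]
  unfold gP bP N0
  refine ⟨by ring, ?_, ?_, by ring⟩
  · refine Nat.mul_le_mul_right k ?_
    nlinarith
  · have h3 : (16 * (u + 2) * (u + 4) + 15 * (u + 2)) * k + k = (16 * (u + 2) * (u + 4) + 15 * (u + 2) + 1) * k := by
      ring
    rw [h3]
    refine Nat.mul_le_mul_right k ?_
    nlinarith [Nat.zero_le (u ^ 3), Nat.zero_le (u ^ 2)]

private theorem CPred_real {n r : ℕ} {S hb hc B E D N2 NW MSc num ng C C0 Q τ w : ℝ}
    (hC0 : 0 < C0) (hQ : 1 ≤ Q) (hτ : 0 < τ) (hw0 : 0 ≤ w) (hB : 0 < B) (hE : 0 < E) (hD : 0 < D)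
    (hN2 : 0 < N2) (hM : 0 < MSc) (hhc : 0 ≤ hc)
    (h1 : S * ((hb ^ (n + 1) / N2 ^ (n + 1) - C * ((B / N2) ^ (n + 1) / (w + 1) + B)) * (hc / N2)) - ng * hc ≤ num)
    (hS : τ * N2 ^ (n + 1) ≤ S) (hbl : B ≤ C0 * hb) (hcl : E ≤ C0 * hc)
    (hw : 4 * C * C0 ^ (n + 1) ≤ w + 1) (hk1 : 4 * C * (C0 * N2) ^ (n + 1) * B ≤ B ^ (n + 1))
    (hk2 : ng * (4 * C0 ^ (n + 1) * N2) ≤ τ * B ^ (n + 1))
    (hMS : MSc * NW ≤ D * Q) (hNN : N2 ≤ NW * Q ^ r) :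
    1 / (4 * C0 ^ (n + 2) * Q ^ (r + 1)) * τ * (B ^ (n + 1) * E / D) ≤ num / MSc := by
  have m1 : (B / C0) ^ (n + 1) / N2 ^ (n + 1) ≤ hb ^ (n + 1) / N2 ^ (n + 1) := by
    refine div_le_div_of_nonneg_right (pow_le_pow_left₀ (by positivity) ?_ _) (by positivity)
    rw [div_le_iff₀ hC0]
    linarith
  have m2 : C * ((B / N2) ^ (n + 1) / (w + 1)) ≤ (1 / 4) * ((B / C0) ^ (n + 1) / N2 ^ (n + 1)) := by
    have e1 : (1 / 4) * ((B / C0) ^ (n + 1) / N2 ^ (n + 1)) = (B / N2) ^ (n + 1) / (4 * C0 ^ (n + 1)) := by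
      rw [div_pow, div_pow]
      field_simp
    rw [e1, ← mul_div_assoc, div_le_div_iff₀ (by positivity) (by positivity)]
    have : 0 ≤ (B / N2) ^ (n + 1) := by positivity
    nlinarith [mul_le_mul_of_nonneg_left hw this]
  have m3 : C * B ≤ (1 / 4) * ((B / C0) ^ (n + 1) / N2 ^ (n + 1)) := by
    have e1 : (1 / 4) * ((B / C0) ^ (n + 1) / N2 ^ (n + 1)) = B ^ (n + 1) / (4 * (C0 * N2) ^ (n + 1)) := by
      rw [div_pow, mul_pow]
      field_simp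
    rw [e1, le_div_iff₀ (by positivity)]
    linarith
  have m4 : (1 / 2) * ((B / C0) ^ (n + 1) / N2 ^ (n + 1)) ≤
      hb ^ (n + 1) / N2 ^ (n + 1) - C * ((B / N2) ^ (n + 1) / (w + 1) + B) := by
    rw [mul_add]
    linarith
  have hX : 0 < (B / C0) ^ (n + 1) / N2 ^ (n + 1) := by positivity
  have m5 : τ / 2 * (B / C0) ^ (n + 1) ≤
      S * (hb ^ (n + 1) / N2 ^ (n + 1) - C * ((B / N2) ^ (n + 1) / (w + 1) + B)) := by
    have e1 : τ / 2 * (B / C0) ^ (n + 1) =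
        (τ * N2 ^ (n + 1)) * ((1 / 2) * ((B / C0) ^ (n + 1) / N2 ^ (n + 1))) := by
      field_simp
    rw [e1]
    exact mul_le_mul hS m4 (by positivity) (le_trans (by positivity) hS)
  have m6 : ng ≤ τ / 4 * (B / C0) ^ (n + 1) / N2 := by
    have e1 : τ / 4 * (B / C0) ^ (n + 1) / N2 = τ * B ^ (n + 1) / (4 * C0 ^ (n + 1) * N2) := by
      rw [div_pow]
      field_simp
    rw [e1, le_div_iff₀ (by positivity)]
    exact hk2
  have m7 : τ / 4 * (B / C0) ^ (n + 1) / N2 * hc ≤ num := by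
    refine le_trans ?_ h1
    have e1 : S * ((hb ^ (n + 1) / N2 ^ (n + 1) - C * ((B / N2) ^ (n + 1) / (w + 1) + B)) * (hc / N2)) =
        (S * (hb ^ (n + 1) / N2 ^ (n + 1) - C * ((B / N2) ^ (n + 1) / (w + 1) + B))) / N2 * hc := by
      ring
    rw [e1]
    have e2 : τ / 4 * (B / C0) ^ (n + 1) / N2 * hc =
        (τ / 2 * (B / C0) ^ (n + 1)) / N2 * hc - τ / 4 * (B / C0) ^ (n + 1) / N2 * hc := by
      ring
    rw [e2]
    refine sub_le_sub ?_ (mul_le_mul_of_nonneg_right m6 hhc)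
    exact mul_le_mul_of_nonneg_right (div_le_div_of_nonneg_right m5 hN2.le) hhc
  have m8 : N2 * MSc ≤ D * Q ^ (r + 1) := by
    calc N2 * MSc ≤ NW * Q ^ r * MSc := mul_le_mul_of_nonneg_right hNN hM.le
      _ = Q ^ r * (MSc * NW) := by ring
      _ ≤ Q ^ r * (D * Q) := mul_le_mul_of_nonneg_left hMS (by positivity)
      _ = D * Q ^ (r + 1) := by ring
  calc 1 / (4 * C0 ^ (n + 2) * Q ^ (r + 1)) * τ * (B ^ (n + 1) * E / D)
      = (τ / 4 * (B / C0) ^ (n + 1) * (E / C0)) / (D * Q ^ (r + 1)) := by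
        rw [div_pow]
        have : C0 ^ (n + 2) = C0 ^ (n + 1) * C0 := by ring
        rw [this]
        field_simp
    _ ≤ (τ / 4 * (B / C0) ^ (n + 1) * (E / C0)) / (N2 * MSc) :=
        div_le_div_of_nonneg_left (by positivity) (by positivity) m8
    _ ≤ (τ / 4 * (B / C0) ^ (n + 1) * hc) / (N2 * MSc) := by
        refine div_le_div_of_nonneg_right (mul_le_mul_of_nonneg_left ?_ (by positivity)) (by positivity)
        rw [div_le_iff₀ hC0]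
        linarith
    _ = (τ / 4 * (B / C0) ^ (n + 1) / N2 * hc) / MSc := by
        field_simp
    _ ≤ num / MSc := div_le_div_of_nonneg_right m7 hM.le

private theorem CPred_k {q k : ℕ} (hq : 2 ≤ q) {e : ℕ} (h : k ≤ e) : (k : ℝ) ≤ (q : ℝ) ^ e := by
  have h1 : e < q ^ e := Nat.lt_pow_self (by omega)
  exact_mod_cast (h.trans h1.le)

namespace TC
variable {K O P : Type} [Field K] [CommRing O] [IsDedekindDomain O] [Algebra O K]
  [IsFractionRing O K] [CommRing P] [IsDedekindDomain P] [Algebra P K]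
  [IsFractionRing P K] (T : TC K O P)

/-- The expected number of pairs. -/
noncomputable def EC (n r m a b : ℕ) : ℝ :=
  (T.Q : ℝ) ^ (b * (n + 1)) * (T.Q : ℝ) ^ cw r m a b / (T.Q : ℝ) ^ (a + r * m * b)

theorem notGoodK [IsPrincipalIdealRing P] (n : ℕ) (hn : 2 ≤ n) : ∃ C : ℝ, 1 ≤ C ∧ ∃ k0 : ℕ,
    ∀ k : ℕ, k0 ≤ k →
      (((T.VB n (bP n k)).filter fun x => ¬ T.Good (gP n k) x).card : ℝ) * (T.Q : ℝ) ^ (n ^ 2 * k) ≤
        C * (T.Q : ℝ) ^ (bP n k * (n + 1)) := by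
  obtain ⟨C, hC, h⟩ := T.notGood n hn
  have hQ := T.two_le
  refine ⟨C, hC, max T.c1 (T.C0 ^ (n + 1) * T.Q), fun k hk => ?_⟩
  obtain ⟨p1, p2, p3, p4⟩ := CPred_par n k hn
  have hk1 : T.c1 ≤ k := (le_max_left _ _).trans hk
  have hk2 : T.C0 ^ (n + 1) * T.Q ≤ k := (le_max_right _ _).trans hk
  have h1 := h (bP n k) (gP n k) (lP n k) (by omega) p2 ?_
  · calc (((T.VB n (bP n k)).filter fun x => ¬ T.Good (gP n k) x).card : ℝ) * (T.Q : ℝ) ^ (n ^ 2 * k)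
        ≤ C * (T.Q : ℝ) ^ ((bP n k + lP n k) * n) * (T.Q : ℝ) ^ (n ^ 2 * k) :=
          mul_le_mul_of_nonneg_right h1 (by positivity)
      _ = C * (T.Q : ℝ) ^ (bP n k * (n + 1)) := by
          rw [mul_assoc, ← pow_add, p4]
  · rw [p1]
    have h2 : k < T.Q ^ (n * k) := by
      refine (Nat.lt_pow_self (n := k) (by omega : 1 < T.Q)).trans_le (Nat.pow_le_pow_right (by omega) ?_)
      nlinarith
    calc T.C0 ^ (n + 1) * T.Q ^ (bP n k + 1) = T.Q ^ bP n k * (T.C0 ^ (n + 1) * T.Q) := by ring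
      _ < T.Q ^ bP n k * T.Q ^ (n * k) :=
          Nat.mul_lt_mul_of_pos_left (hk2.trans_lt h2) (Nat.pow_pos (by omega))
      _ = T.Q ^ (bP n k + n * k) := (pow_add _ _ _).symm

theorem predC [IsPrincipalIdealRing P] (hs : ∀ p : Ideal P, p.IsPrime → p ≠ ⊥ → T.s ∈ p)
    (n r m : ℕ) (hn : 2 ≤ n) (hr : 2 ≤ r) (hm : 1 ≤ m) :
    ∃ κ : ℝ, 0 < κ ∧ ∃ w1 : ℕ, ∀ w : ℕ, w1 ≤ w → ∀ τ : ℝ, 0 < τ → ∃ k1 : ℕ, ∀ k : ℕ, k1 ≤ k →
      ∀ (a : ℕ) (F : Ten n (r * m) O), F ∈ T.Box n (r * m) a →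
        τ * ((nI (WD O w) * nI (T.sJ (jw r a) (WD P w)) : ℕ) : ℝ) ^ (n + 1) ≤
          (smSI r 1 (WD O w) F : ℝ) *
            smSI r (T.s ^ jw r a) (T.sJ (jw r a) (WD P w)) (T.ttw a F) →
        κ * τ * T.EC n r m a (bP n k) ≤ T.LlC r m a (bP n k) (gP n k) w F := by
  obtain ⟨C, hC, hlow⟩ := T.low_cntC n r m (by omega) (by omega) hm hs
  obtain ⟨C', hC', k0, hng⟩ := T.notGoodK n hn
  have hQ2 := T.two_le
  have hQ : (1 : ℝ) ≤ T.Q := by exact_mod_cast (by omega : 1 ≤ T.Q)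
  have hC0 : (0 : ℝ) < T.C0 := by exact_mod_cast T.C0_pos
  obtain ⟨w1, hw1⟩ := exists_nat_ge (4 * C * (T.C0 : ℝ) ^ (n + 1))
  refine ⟨1 / (4 * (T.C0 : ℝ) ^ (n + 2) * (T.Q : ℝ) ^ (r + 1)), by positivity, max T.Q w1, fun w hw τ hτ => ?_⟩
  have hwQ : T.Q ≤ w := (le_max_left _ _).trans hw
  have hw2 : 4 * C * (T.C0 : ℝ) ^ (n + 1) ≤ (w : ℝ) + 1 := by
    have : (w1 : ℝ) ≤ (w : ℝ) := by exact_mod_cast (le_max_right T.Q w1).trans hw
    linarith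
  have hNWp := T.low_NWpos w
  have hNW : (0 : ℝ) < (NW O P w : ℝ) := by exact_mod_cast hNWp
  set NN : ℕ := NW O P w * T.Q ^ r with hNN
  have hNNp : 0 < NN := Nat.mul_pos hNWp (Nat.pow_pos (by omega))
  have hNNr : (0 : ℝ) < (NN : ℝ) := by exact_mod_cast hNNp
  obtain ⟨b1, hb1⟩ := exists_nat_ge ((T.C1 : ℝ) * NN)
  obtain ⟨b2, hb2⟩ := exists_nat_ge (4 * C * ((T.C0 : ℝ) * NN) ^ (n + 1))
  obtain ⟨b3, hb3⟩ := exists_nat_ge (C' * (4 * (T.C0 : ℝ) ^ (n + 1) * NN) / τ)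
  refine ⟨max (max k0 b1) (max b2 b3), fun k hk a F hF hS => ?_⟩
  have hkk0 : k0 ≤ k := ((le_max_left k0 b1).trans (le_max_left _ _)).trans hk
  have hkb1 : b1 ≤ k := ((le_max_right k0 b1).trans (le_max_left _ _)).trans hk
  have hkb2 : b2 ≤ k := ((le_max_left b2 b3).trans (le_max_right _ _)).trans hk
  have hkb3 : b3 ≤ k := ((le_max_right b2 b3).trans (le_max_right _ _)).trans hk
  obtain ⟨-, -, p3, -⟩ := CPred_par n k hn
  have hkb : k ≤ bP n k := by omega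
  have hspan : Ideal.span {T.s} ≠ (⊥ : Ideal P) := by
    rw [Ne, Ideal.span_singleton_eq_bot]
    exact T.s_ne'
  have hJ : nI (T.sJ (jw r a) (WD P w)) = T.Q ^ jw r a * nI (WD P w) := by
    unfold sJ
    rw [nI_mul T.finP (by rw [← Ideal.zero_eq_bot]; exact pow_ne_zero _ (by rw [Ideal.zero_eq_bot]; exact hspan))
      (WD_ne_bot (T.fewP w)), nI_pow T.finP hspan, T.nrm_s]
  set N2 : ℕ := nI (WD O w) * nI (T.sJ (jw r a) (WD P w)) with hN2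
  have hN2e : N2 = NW O P w * T.Q ^ jw r a := by
    rw [hN2, hJ]
    unfold NW
    ring
  have hN2p : 0 < N2 := by
    rw [hN2e]
    exact Nat.mul_pos hNWp (Nat.pow_pos (by omega))
  have hN2r : (0 : ℝ) < (N2 : ℝ) := by exact_mod_cast hN2p
  have hN2le : N2 ≤ NN := by
    rw [hN2e, hNN]
    exact Nat.mul_le_mul_left _ (Nat.pow_le_pow_right (by omega) (jw_le r a))
  have hN2ler : (N2 : ℝ) ≤ NN := by exact_mod_cast hN2le
  have hQk : ∀ e : ℕ, k ≤ e → (k : ℝ) ≤ (T.Q : ℝ) ^ e := fun e he => CPred_k hQ2 he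
  have hC1 : T.C1 * NN ≤ T.Q ^ bP n k := by
    have h1 : (T.C1 : ℝ) * NN ≤ (T.Q : ℝ) ^ bP n k := by
      have : (b1 : ℝ) ≤ k := by exact_mod_cast hkb1
      linarith [hQk _ hkb]
    exact_mod_cast h1
  have hl := hlow w a (bP n k) (gP n k) N2 F hwQ rfl ((Nat.mul_le_mul_left _ hN2le).trans hC1) hF
  have hMSe : (T.MS w (a + r * m * bP n k)).card * NW O P w = T.h (a + r * m * bP n k) := by
    refine T.card_M (WD_ne_bot (T.fewO w)) (WD_ne_bot (T.fewP w)) ?_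
    change T.C1 * NW O P w ≤ _
    have h1 : NW O P w ≤ NN := Nat.le_mul_of_pos_right _ (Nat.pow_pos (by omega))
    have h2 : bP n k ≤ a + r * m * bP n k := by
      have : 1 * bP n k ≤ r * m * bP n k := Nat.mul_le_mul_right _ (Nat.mul_pos (by omega) (by omega))
      omega
    exact ((Nat.mul_le_mul_left _ h1).trans hC1).trans (Nat.pow_le_pow_right (by omega) h2)
  have hMSp : 0 < (T.MS w (a + r * m * bP n k)).card := by
    rcases Nat.eq_zero_or_pos (T.MS w (a + r * m * bP n k)).card with h0 | h0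
    · rw [h0, zero_mul] at hMSe
      have := T.h_pos (a + r * m * bP n k)
      omega
    · exact h0
  unfold EC LlC
  have hB : (T.Q : ℝ) ^ (bP n k * (n + 1)) = ((T.Q : ℝ) ^ bP n k) ^ (n + 1) := pow_mul _ _ _
  rw [hB]
  refine CPred_real (n := n) (r := r) (hb := (T.h (bP n k) : ℝ)) (hc := (T.h (cw r m a (bP n k)) : ℝ))
    (N2 := (N2 : ℝ)) (NW := (NW O P w : ℝ))
    (ng := (((T.VB n (bP n k)).filter fun x => ¬ T.Good (gP n k) x).card : ℝ)) (C := C) (w := (w : ℝ)) (τ := τ)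
    hC0 hQ hτ (by positivity) (by positivity) (by positivity) (by positivity) hN2r (by exact_mod_cast hMSp)
    (by positivity) hl hS ?_ ?_ hw2 ?_ ?_ ?_ ?_
  · exact_mod_cast T.h_low (bP n k)
  · exact_mod_cast T.h_low (cw r m a (bP n k))
  · -- `4 C (C0 N2)^(n+1) B ≤ B^(n+1)`
    have h1 : 4 * C * ((T.C0 : ℝ) * N2) ^ (n + 1) ≤ 4 * C * ((T.C0 : ℝ) * NN) ^ (n + 1) := by
      refine mul_le_mul_of_nonneg_left (pow_le_pow_left₀ (by positivity) ?_ _) (by linarith)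
      exact mul_le_mul_of_nonneg_left hN2ler hC0.le
    have h2 : 4 * C * ((T.C0 : ℝ) * N2) ^ (n + 1) ≤ (T.Q : ℝ) ^ bP n k := by
      have : (b2 : ℝ) ≤ k := by exact_mod_cast hkb2
      linarith [hQk _ hkb]
    have hBp : (0 : ℝ) < (T.Q : ℝ) ^ bP n k := by positivity
    have h3 : (T.Q : ℝ) ^ bP n k * (T.Q : ℝ) ^ bP n k ≤ ((T.Q : ℝ) ^ bP n k) ^ (n + 1) := by
      rw [← sq]
      exact pow_le_pow_right₀ (one_le_pow₀ hQ) (by omega)
    exact (mul_le_mul_of_nonneg_right h2 hBp.le).trans h3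
  · -- not good
    have h1 := hng k hkk0
    rw [hB] at h1
    have hBp : (0 : ℝ) < ((T.Q : ℝ) ^ bP n k) ^ (n + 1) := by positivity
    have hkn : k ≤ n ^ 2 * k := Nat.le_mul_of_pos_left _ (by positivity)
    have h2 : C' * (4 * (T.C0 : ℝ) ^ (n + 1) * NN) ≤ τ * (T.Q : ℝ) ^ (n ^ 2 * k) := by
      have h3 : C' * (4 * (T.C0 : ℝ) ^ (n + 1) * NN) / τ ≤ (T.Q : ℝ) ^ (n ^ 2 * k) := by
        have : (b3 : ℝ) ≤ k := by exact_mod_cast hkb3
        linarith [hQk _ hkn]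
      rw [div_le_iff₀ hτ] at h3
      linarith
    have hR : (0 : ℝ) < (T.Q : ℝ) ^ (n ^ 2 * k) := by positivity
    set G : ℝ := (((T.VB n (bP n k)).filter fun x => ¬ T.Good (gP n k) x).card : ℝ) with hG
    have hG0 : 0 ≤ G := by positivity
    have hCN : (4 * (T.C0 : ℝ) ^ (n + 1) * N2) ≤ (4 * (T.C0 : ℝ) ^ (n + 1) * NN) :=
      mul_le_mul_of_nonneg_left hN2ler (by positivity)
    have h4 : G * (4 * (T.C0 : ℝ) ^ (n + 1) * NN) * (T.Q : ℝ) ^ (n ^ 2 * k) ≤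
        τ * ((T.Q : ℝ) ^ bP n k) ^ (n + 1) * (T.Q : ℝ) ^ (n ^ 2 * k) := by
      calc G * (4 * (T.C0 : ℝ) ^ (n + 1) * NN) * (T.Q : ℝ) ^ (n ^ 2 * k)
          = (G * (T.Q : ℝ) ^ (n ^ 2 * k)) * (4 * (T.C0 : ℝ) ^ (n + 1) * NN) := by ring
        _ ≤ (C' * ((T.Q : ℝ) ^ bP n k) ^ (n + 1)) * (4 * (T.C0 : ℝ) ^ (n + 1) * NN) :=
            mul_le_mul_of_nonneg_right h1 (by positivity)
        _ = (C' * (4 * (T.C0 : ℝ) ^ (n + 1) * NN)) * ((T.Q : ℝ) ^ bP n k) ^ (n + 1) := by ring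
        _ ≤ (τ * (T.Q : ℝ) ^ (n ^ 2 * k)) * ((T.Q : ℝ) ^ bP n k) ^ (n + 1) :=
            mul_le_mul_of_nonneg_right h2 hBp.le
        _ = τ * ((T.Q : ℝ) ^ bP n k) ^ (n + 1) * (T.Q : ℝ) ^ (n ^ 2 * k) := by ring
    exact (mul_le_mul_of_nonneg_left hCN hG0).trans (le_of_mul_le_mul_right h4 hR)
  · -- MS
    have h1 : (T.MS w (a + r * m * bP n k)).card * NW O P w ≤ T.Q ^ (a + r * m * bP n k) * T.Q := by
      rw [hMSe, ← pow_succ]
      exact T.h_up _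
    exact_mod_cast h1
  · have h1 : N2 ≤ NW O P w * T.Q ^ r := hN2le
    exact_mod_cast h1

end TC

end Pool.Agent.Lib.MP_1ad228_ntZ
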