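import Pool.Agent.Lib.MP_1ad228_ntZC.CDn
import Pool.Agent.Lib.MP_1ad228_ntZC.CPred

/-!
LEAF CMain.  Almost all everywhere locally soluble cyclic covers have a small point.
PROOF.  densC with `ε/2`: `τ, w0`; predC: `κ, w1`; varTotC: `C`.  `η = ε (κ τ)^2/(16 C)`; `w ≥ w0, w1` with `(w+1)^(-3/4) ≤ η`; `M0` with `Q^M0 ≥ 1/η`; `M = r M0 + r N0 ι`, `M1 = M0 + N0 ι + 1`; `k1` of predC, `k0` of brC_small (`M1`, `θ = η`); parC with `M0`, `k0 + k1`.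
`E = EC ≥ Q^M0`, so `E ≤ η E^2`.  `Q^c NW/Q^(a + r m b) ≤ 1` for `a` large (`r c = a + r m b + j`, `2 c ≤ a + r m b + 2`..), so `QvC ≤ C V (2 E + 4 η E^2) ≤ 6 η C V E^2`.
Chebyshev: the `F` in the box with `NnC = 0` and `S1 S2 ≥ τ N2^(n+1)` have `(NnC - LlC)^2 ≥ (κ τ E)^2`, so there are at most `6 η C V/(κ τ)^2 ≤ (ε/2) V` of them.  A soluble `F` without a point as in MainC has `NnC = 0` (a test pair is a point: `x ≠ 0` as `Uni x`, `r b ι ≤ (r-1) a + M`), and either lies in the set of densC or in this set.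
-/

namespace Pool.Agent.Lib.MP_1ad228_ntZ

open Classical

/-- A modulus level at which the tail is small. -/
private theorem CMain_w (η : ℝ) (hη : 0 < η) (w0 : ℕ) :
    ∃ w : ℕ, w0 ≤ w ∧ ((w : ℝ) + 1) ^ (-(3 / 4) : ℝ) ≤ η := by
  have h1 : Filter.Tendsto (fun x : ℝ => x ^ (-(3 / 4) : ℝ)) Filter.atTop (nhds 0) :=
    tendsto_rpow_neg_atTop (by norm_num)
  have h2 : Filter.Tendsto (fun w : ℕ => ((w : ℝ) + 1)) Filter.atTop Filter.atTop :=
    Filter.tendsto_atTop_add_const_right _ _ tendsto_natCast_atTop_atTop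
  have h3 := (h1.comp h2).eventually (gt_mem_nhds hη)
  obtain ⟨w, hw⟩ := (h3.and (Filter.eventually_ge_atTop w0)).exists
  exact ⟨w, hw.2, hw.1.le⟩

/-- The final inequality. -/
private theorem CMain_fin {C V E η ε κ τ p q br : ℝ} (hC : 1 ≤ C) (hV : 0 ≤ V) (hE : 0 < E)
    (hη : η = ε * (κ * τ) ^ 2 / (12 * C)) (hκ : 0 < κ) (hτ : 0 < τ) (hEη : 1 ≤ η * E)
    (hbr : br ≤ 4 * η) (hq0 : 0 ≤ q) (hq : q ≤ 1)
    (h : p * (κ * τ * E) ^ 2 ≤ C * V * (E * (1 + q) + E ^ 2 * br)) : p ≤ ε / 2 * V := by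
  have hκτ : 0 < (κ * τ) ^ 2 := by positivity
  have h1 : E * (1 + q) ≤ 2 * η * E ^ 2 := by
    have h2 : E * (1 + q) ≤ E * 2 := mul_le_mul_of_nonneg_left (by linarith) hE.le
    have h3 : E * 2 * 1 ≤ E * 2 * (η * E) := mul_le_mul_of_nonneg_left hEη (by positivity)
    calc E * (1 + q) ≤ E * 2 := h2
      _ = E * 2 * 1 := by ring
      _ ≤ E * 2 * (η * E) := h3
      _ = 2 * η * E ^ 2 := by ring
  have h2 : E ^ 2 * br ≤ E ^ 2 * (4 * η) := mul_le_mul_of_nonneg_left hbr (by positivity)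
  have h3 : C * V * (E * (1 + q) + E ^ 2 * br) ≤ C * V * (6 * η * E ^ 2) :=
    mul_le_mul_of_nonneg_left (by linarith) (by positivity)
  have h4 : 12 * C * η = ε * (κ * τ) ^ 2 := by
    rw [hη]
    field_simp
  have h5 : C * V * (6 * η * E ^ 2) = (ε / 2 * V) * (κ * τ * E) ^ 2 := by
    have : C * V * (6 * η * E ^ 2) = (12 * C * η) * (V * E ^ 2 / 2) := by ring
    rw [this, h4]
    ring
  have h6 : p * (κ * τ * E) ^ 2 ≤ (ε / 2 * V) * (κ * τ * E) ^ 2 := by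
    rw [← h5]
    exact h.trans h3
  exact le_of_mul_le_mul_right h6 (by positivity)

namespace TC
variable {K O P : Type} [Field K] [CommRing O] [IsDedekindDomain O] [Algebra O K]
  [IsFractionRing O K] [CommRing P] [IsDedekindDomain P] [Algebra P K]
  [IsFractionRing P K] (T : TC K O P)

/-- A test pair is a point. -/
private theorem CMain_pt {n r m a b g : ℕ} {F : Ten n (r * m) O} (h : T.NnC r m a b g F ≠ 0) :
    ∃ (x : Vc n O) (w : O), x ≠ 0 ∧ x ∈ T.VB n b ∧ ev F x = w ^ r := by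
  unfold TC.NnC at h
  obtain ⟨p, hp⟩ := Finset.card_pos.mp (Nat.pos_of_ne_zero h)
  rw [Finset.mem_filter, Finset.mem_product] at hp
  refine ⟨p.1, p.2, ?_, (T.mem_GG.mp hp.1.1).1, hp.2⟩
  intro h0
  obtain ⟨u, hu⟩ := (T.mem_GG.mp hp.1.1).2.1
  have h1 : lin u p.1 = 0 := by
    rw [h0]
    unfold Pool.Agent.Lib.MP_219881_nt.lin
    exact Finset.sum_eq_zero fun i _ => by rw [Pi.zero_apply, mul_zero]
  rw [h1] at hu
  exact zero_ne_one hu

/-- Chebyshev. -/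
private theorem CMain_cheb {n r m a b g w : ℕ} (S : Finset (Ten n (r * m) O))
    (hS : S ⊆ T.Box n (r * m) a) {θ : ℝ} (hθ : 0 ≤ θ) (h0 : ∀ F ∈ S, T.NnC r m a b g F = 0)
    (h1 : ∀ F ∈ S, θ ≤ T.LlC r m a b g w F) :
    (S.card : ℝ) * θ ^ 2 ≤ T.QvC r m n a b g w := by
  unfold TC.QvC
  calc (S.card : ℝ) * θ ^ 2 = ∑ F ∈ S, θ ^ 2 := by rw [Finset.sum_const, nsmul_eq_mul]
    _ ≤ ∑ F ∈ S, ((T.NnC r m a b g F : ℝ) - T.LlC r m a b g w F) ^ 2 := by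
        refine Finset.sum_le_sum fun F hF => ?_
        rw [h0 F hF, Nat.cast_zero, zero_sub, neg_sq]
        exact pow_le_pow_left₀ hθ (h1 F hF) 2
    _ ≤ _ := Finset.sum_le_sum_of_subset_of_nonneg hS fun F _ _ => sq_nonneg _

theorem mainC [Infinite O] [Infinite P] [IsPrincipalIdealRing P]
    (hs : ∀ p : Ideal P, p.IsPrime → p ≠ ⊥ → T.s ∈ p) (n r m : ℕ) (hn : 2 ≤ n) (hr : 2 ≤ r)
    (hm : 1 ≤ m) (hmn : (r - 1) * m ≤ n) (hK : (r : K) ≠ 0) : T.MainC n r m := by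
  intro ε hε
  have hQ2 := T.two_le
  have hQ : (2 : ℝ) ≤ (T.Q : ℝ) := by exact_mod_cast hQ2
  have hQ0 : (0 : ℝ) < (T.Q : ℝ) := by linarith
  have hQ1 : (1 : ℝ) ≤ (T.Q : ℝ) := by linarith
  obtain ⟨τ, hτ, w0, hd⟩ := T.densC n r m hn hr hm hK (ε / 2) (by linarith)
  obtain ⟨κ, hκ, w1, hp⟩ := T.predC hs n r m hn hr hm
  obtain ⟨C, hC, hv⟩ := T.varTotC n r m hn hr hm
  have hC0 : 0 < C := by linarith
  obtain ⟨η, hη⟩ : ∃ η : ℝ, η = ε * (κ * τ) ^ 2 / (12 * C) := ⟨_, rfl⟩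
  have hη0 : 0 < η := by rw [hη]; positivity
  obtain ⟨w, hw, hwη⟩ := CMain_w η hη0 (w0 + w1)
  obtain ⟨M0, hM0⟩ : ∃ M0 : ℕ, 1 ≤ η * (T.Q : ℝ) ^ M0 := by
    obtain ⟨s, hs⟩ := pow_unbounded_of_one_lt (1 / η) (by linarith : (1 : ℝ) < (T.Q : ℝ))
    refine ⟨s, ?_⟩
    rw [div_lt_iff₀ hη0] at hs
    linarith
  obtain ⟨k1, hk1⟩ := hp w (by omega) τ hτ
  obtain ⟨k0, hk0⟩ := T.brC_small n r m hn hr hm hmn
    (M0 + N0 n * (n + 1 - (r - 1) * m) + 1) η hη0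
  obtain ⟨a1, ha1⟩ := T.parC n r m hn hr hm hmn M0 (k0 + k1)
  obtain ⟨a2, ha2⟩ := hd w (by omega)
  refine ⟨r * M0 + r * N0 n * (n + 1 - (r - 1) * m),
    a1 + a2 + T.C1 * NW O P w + 2 * NW O P w + 4, fun a ha => ?_⟩
  obtain ⟨k, hkk, h2g, hb1, hE1, hE2⟩ := ha1 a (by omega)
  have hdens := ha2 a (by omega)
  have hbr := hk0 a k w (by omega) hE2
  have hpred := hk1 k (by omega) a
  -- the size of the modulus
  have hcw : cw r m a (bP n k) + NW O P w ≤ a + r * m * bP n k := by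
    have e0 : cw r m a (bP n k) = a / r + 1 + m * bP n k := rfl
    have e1 : a / r ≤ a / 2 := Nat.div_le_div_left hr (by norm_num)
    have e2 : m * bP n k ≤ r * m * bP n k :=
      Nat.mul_le_mul_right _ (Nat.le_mul_of_pos_left _ (by omega))
    rw [e0]
    omega
  have hC1 : T.C1 * NW O P w ≤ T.Q ^ (a + r * m * bP n k) := by
    have e1 : a + r * m * bP n k < T.Q ^ (a + r * m * bP n k) := Nat.lt_pow_self (by omega)
    omega
  have hvar := hv a (bP n k) (gP n k) w h2g hC1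
  have hq0 : 0 ≤ (T.Q : ℝ) ^ cw r m a (bP n k) * (NW O P w : ℝ) /
      (T.Q : ℝ) ^ (a + r * m * bP n k) := by positivity
  have hq : (T.Q : ℝ) ^ cw r m a (bP n k) * (NW O P w : ℝ) /
      (T.Q : ℝ) ^ (a + r * m * bP n k) ≤ 1 := by
    rw [div_le_one (pow_pos hQ0 _)]
    have e1 : (NW O P w : ℝ) ≤ (T.Q : ℝ) ^ NW O P w := by
      have : NW O P w < T.Q ^ NW O P w := Nat.lt_pow_self (by omega)
      exact_mod_cast this.le
    calc (T.Q : ℝ) ^ cw r m a (bP n k) * (NW O P w : ℝ)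
        ≤ (T.Q : ℝ) ^ cw r m a (bP n k) * (T.Q : ℝ) ^ NW O P w :=
          mul_le_mul_of_nonneg_left e1 (by positivity)
      _ = (T.Q : ℝ) ^ (cw r m a (bP n k) + NW O P w) := (pow_add _ _ _).symm
      _ ≤ (T.Q : ℝ) ^ (a + r * m * bP n k) := pow_le_pow_right₀ hQ1 hcw
  -- the expected number of pairs
  have hEE : (T.Q : ℝ) ^ M0 ≤ T.EC n r m a (bP n k) := by
    unfold TC.EC
    rw [le_div_iff₀ (pow_pos hQ0 _), ← pow_add, ← pow_add]
    exact pow_le_pow_right₀ hQ1 (by omega)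
  have hE0 : 0 < T.EC n r m a (bP n k) := lt_of_lt_of_le (pow_pos hQ0 _) hEE
  have hEη : 1 ≤ η * T.EC n r m a (bP n k) :=
    hM0.trans (mul_le_mul_of_nonneg_left hEE hη0.le)
  -- the two sets
  set X1 := (T.Box n (r * m) a).filter fun F => PSolS r 1 F ∧ PSolS r (T.s ^ jw r a) (T.ttw a F) ∧
        (smSI r 1 (WD O w) F : ℝ) *
            smSI r (T.s ^ jw r a) (T.sJ (jw r a) (WD P w)) (T.ttw a F) <
          τ * ((nI (WD O w) * nI (T.sJ (jw r a) (WD P w)) : ℕ) : ℝ) ^ (n + 1) with hX1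
  set X2 := (T.Box n (r * m) a).filter fun F => T.NnC r m a (bP n k) (gP n k) F = 0 ∧
        τ * ((nI (WD O w) * nI (T.sJ (jw r a) (WD P w)) : ℕ) : ℝ) ^ (n + 1) ≤
        (smSI r 1 (WD O w) F : ℝ) *
            smSI r (T.s ^ jw r a) (T.sJ (jw r a) (WD P w)) (T.ttw a F) with hX2
  have hcheb := T.CMain_cheb (n := n) (r := r) (m := m) (a := a) (b := bP n k) (g := gP n k)
    (w := w) X2 (Finset.filter_subset _ _) (θ := κ * τ * T.EC n r m a (bP n k)) (by positivity)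
    (fun F hF => (Finset.mem_filter.mp hF).2.1)
    (fun F hF => hpred F (Finset.mem_filter.mp hF).1 (Finset.mem_filter.mp hF).2.2)
  have hX2c : (X2.card : ℝ) ≤ ε / 2 * ((T.Box n (r * m) a).card : ℝ) :=
    CMain_fin hC (Nat.cast_nonneg _) hE0 hη hκ hτ hEη (by linarith) hq0 hq
      (hcheb.trans hvar)
  have hsub : ((T.Box n (r * m) a).filter fun F => PSolS r 1 F ∧
      PSolS r (T.s ^ jw r a) (T.ttw a F) ∧
        ¬ ∃ (b : ℕ) (x : Vc n O) (w : O), r * (b * (n + 1 - (r - 1) * m)) ≤ (r - 1) * a +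
          (r * M0 + r * N0 n * (n + 1 - (r - 1) * m)) ∧
          x ≠ 0 ∧ x ∈ T.VB n b ∧ ev F x = w ^ r) ⊆ X1 ∪ X2 := by
    intro F hF
    rw [Finset.mem_filter] at hF
    obtain ⟨hF1, hF2, hF3, hF4⟩ := hF
    rw [Finset.mem_union]
    by_cases hlt : (smSI r 1 (WD O w) F : ℝ) *
            smSI r (T.s ^ jw r a) (T.sJ (jw r a) (WD P w)) (T.ttw a F) <
          τ * ((nI (WD O w) * nI (T.sJ (jw r a) (WD P w)) : ℕ) : ℝ) ^ (n + 1)
    · left
      rw [hX1, Finset.mem_filter]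
      exact ⟨hF1, hF2, hF3, hlt⟩
    · right
      rw [hX2, Finset.mem_filter]
      refine ⟨hF1, ?_, not_lt.mp hlt⟩
      by_contra h0
      obtain ⟨x, y, hx0, hxb, hxy⟩ := T.CMain_pt h0
      exact hF4 ⟨bP n k, x, y, hb1, hx0, hxb, hxy⟩
  calc ((((T.Box n (r * m) a).filter fun F => PSolS r 1 F ∧
      PSolS r (T.s ^ jw r a) (T.ttw a F) ∧
        ¬ ∃ (b : ℕ) (x : Vc n O) (w : O), r * (b * (n + 1 - (r - 1) * m)) ≤ (r - 1) * a +
          (r * M0 + r * N0 n * (n + 1 - (r - 1) * m)) ∧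
          x ≠ 0 ∧ x ∈ T.VB n b ∧ ev F x = w ^ r).card : ℕ) : ℝ)
      ≤ ((X1 ∪ X2).card : ℝ) := by exact_mod_cast Finset.card_le_card hsub
    _ ≤ (X1.card : ℝ) + (X2.card : ℝ) := by exact_mod_cast Finset.card_union_le _ _
    _ ≤ ε / 2 * ((T.Box n (r * m) a).card : ℝ) + ε / 2 * ((T.Box n (r * m) a).card : ℝ) :=
        add_le_add hdens hX2c
    _ = ε * ((T.Box n (r * m) a).card : ℝ) := by ring

end TC

end Pool.Agent.Lib.MP_1ad228_ntZ
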