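import Pool.Agent.Lib.MP_1ad228_ntZC.CPred

/-!
LEAF CPos.  A positive proportion of the cyclic covers has a point.
PROOF.  parC with `M0 = 0`: `1 ≤ E = EC`.  many (Low.lean) and notGoodK: `#GG ≥ (c/2) Q^(b(n+1))` for `k` large.  card_WS, h_low: `#WS ≥ Q^cw/(C0 Q^r)`.  momOneC: `∑ NnC = V #GG #WS/h(a + r m b) ≥ c' V E` (h_up).
momTotC, brC_small (`w = 0`, `θ = 1`): `∑ NnC^2 ≤ C V (E + E^2 (1 + 4)) ≤ 6 C V E^2`.  Cauchy-Schwarz (`Finset.sum_mul_sq_le_sq_mul_sq` or `inner_mul_le_norm_mul_norm` on the `F` with `NnC ≠ 0`): `#{F : NnC ≠ 0} ≥ (c' V E)^2/(6 C V E^2) = δ V`.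
-/

namespace Pool.Agent.Lib.MP_1ad228_ntZ

open Classical

/-- Cauchy-Schwarz for the elements where `N` is not zero. -/
private theorem CPos_cs {α : Type*} (S : Finset α) (N : α → ℕ) (E c C : ℝ) (hE : 1 ≤ E)
    (hc : 0 < c) (hC : 1 ≤ C) (h1 : c * (S.card : ℝ) * E ≤ ∑ F ∈ S, (N F : ℝ))
    (h2 : ∑ F ∈ S, (N F : ℝ) ^ 2 ≤ 6 * C * (S.card : ℝ) * E ^ 2) :
    c ^ 2 / (6 * C) * (S.card : ℝ) ≤ ((S.filter fun F => N F ≠ 0).card : ℝ) := by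
  obtain ⟨V, hV⟩ : ∃ V : ℝ, V = (S.card : ℝ) := ⟨_, rfl⟩
  have hV0 : 0 ≤ V := by rw [hV]; exact Nat.cast_nonneg _
  rw [← hV] at h1 h2 ⊢
  rcases hV0.eq_or_lt with h0 | hVp
  · rw [← h0, mul_zero]
    exact Nat.cast_nonneg _
  have e1 : ∑ F ∈ S, (N F : ℝ) = ∑ F ∈ S.filter (fun F => N F ≠ 0), (N F : ℝ) := by
    rw [Finset.sum_filter]
    apply Finset.sum_congr rfl
    intro F _
    split_ifs with h
    · rfl
    · rw [not_not] at h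
      rw [h, Nat.cast_zero]
  have e2 : ∑ F ∈ S.filter (fun F => N F ≠ 0), (N F : ℝ) ^ 2 ≤ ∑ F ∈ S, (N F : ℝ) ^ 2 :=
    Finset.sum_le_sum_of_subset_of_nonneg (Finset.filter_subset _ _) fun _ _ _ => sq_nonneg _
  have e3 := sq_sum_le_card_mul_sum_sq (s := S.filter (fun F => N F ≠ 0)) (f := fun F => (N F : ℝ))
  rw [← e1] at e3
  obtain ⟨X, hX⟩ : ∃ X : ℝ, X = ((S.filter fun F => N F ≠ 0).card : ℝ) := ⟨_, rfl⟩
  rw [← hX] at e3 ⊢
  have hX0 : 0 ≤ X := by rw [hX]; exact Nat.cast_nonneg _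
  have e4 : (c * V * E) ^ 2 ≤ X * (6 * C * V * E ^ 2) := by
    have h3 : 0 ≤ c * V * E := by positivity
    calc (c * V * E) ^ 2 ≤ (∑ F ∈ S, (N F : ℝ)) ^ 2 := pow_le_pow_left₀ h3 h1 2
      _ ≤ X * ∑ F ∈ S.filter (fun F => N F ≠ 0), (N F : ℝ) ^ 2 := e3
      _ ≤ X * (6 * C * V * E ^ 2) := mul_le_mul_of_nonneg_left (e2.trans h2) hX0
  have hE0 : 0 < E := by linarith
  have hC0 : 0 < C := by linarith
  have hpos : 0 < V * E ^ 2 := by positivity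
  have e5 : (c ^ 2 * V) * (V * E ^ 2) ≤ (X * (6 * C)) * (V * E ^ 2) := by
    calc (c ^ 2 * V) * (V * E ^ 2) = (c * V * E) ^ 2 := by ring
      _ ≤ X * (6 * C * V * E ^ 2) := e4
      _ = (X * (6 * C)) * (V * E ^ 2) := by ring
  have e6 : c ^ 2 * V ≤ X * (6 * C) := le_of_mul_le_mul_right e5 hpos
  rw [div_mul_eq_mul_div, div_le_iff₀ (by positivity)]
  exact e6

private theorem CPos_pow (x : ℝ) : ∃ k : ℕ, x ≤ (2 : ℝ) ^ k := by
  obtain ⟨k, hk⟩ := pow_unbounded_of_one_lt x (show (1 : ℝ) < 2 by norm_num)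
  exact ⟨k, hk.le⟩

namespace TC
variable {K O P : Type} [Field K] [CommRing O] [IsDedekindDomain O] [Algebra O K]
  [IsFractionRing O K] [CommRing P] [IsDedekindDomain P] [Algebra P K]
  [IsFractionRing P K] (T : TC K O P)

theorem posC [Infinite O] [Infinite P] [IsPrincipalIdealRing P]
    (hs : ∀ p : Ideal P, p.IsPrime → p ≠ ⊥ → T.s ∈ p) (n r m : ℕ) (hn : 2 ≤ n) (hr : 2 ≤ r)
    (hm : 1 ≤ m) (hmn : (r - 1) * m ≤ n) : T.PosC n r m := by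
  have hQ : (2 : ℝ) ≤ T.Q := by exact_mod_cast T.two_le
  have hQ0 : (0 : ℝ) < T.Q := by linarith
  have hQ1 : (1 : ℝ) ≤ T.Q := by linarith
  have hC0 : (0 : ℝ) < T.C0 := by exact_mod_cast T.C0_pos
  obtain ⟨c, hc, b0, hmany⟩ := T.many n (by omega) hs
  obtain ⟨Cg, hCg, k1, hng⟩ := T.notGoodK n hn
  obtain ⟨C2, hC2, hmom⟩ := T.momTotC n r m hn hr hm
  have hone := T.momOneC n r m (by omega) hm
  obtain ⟨k2, hbr⟩ := T.brC_small n r m hn hr hm hmn (0 + N0 n * (n + 1 - (r - 1) * m) + 1) 1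
    one_pos
  obtain ⟨k3, hk3⟩ := CPos_pow (2 * Cg / c)
  obtain ⟨k4, hk4⟩ := CPos_pow ((T.C1 : ℝ) * (T.Q : ℝ) ^ r)
  obtain ⟨a1, ha1⟩ := T.parC n r m hn hr hm hmn 0 (b0 + k1 + k2 + k3 + k4)
  obtain ⟨c', hc'⟩ : ∃ c' : ℝ, c' = c / (2 * T.C0 * (T.Q : ℝ) ^ r * T.Q) := ⟨_, rfl⟩
  have hc'0 : 0 < c' := by rw [hc']; positivity
  refine ⟨c' ^ 2 / (6 * C2), by positivity, a1, ?_⟩
  intro a ha
  obtain ⟨k, hkK, hga, _, hE1, hE2⟩ := ha1 a ha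
  obtain ⟨b, hb⟩ : ∃ b, b = bP n k := ⟨_, rfl⟩
  obtain ⟨g, hg⟩ : ∃ g, g = gP n k := ⟨_, rfl⟩
  have hbk : k ≤ b := by
    rw [hb]
    unfold bP
    exact Nat.le_mul_of_pos_left k (by unfold N0; positivity)
  have hbr' := hbr a k 0 (by omega) hE2
  have hng' := hng k (by omega)
  rw [← hb] at hE1 hE2 hbr' hng'
  rw [← hg] at hga hbr' hng'
  have hcwb : b ≤ cw r m a b := by
    unfold cw
    have h1 : b ≤ m * b := Nat.le_mul_of_pos_left _ (by omega)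
    exact h1.trans (Nat.le_add_left _ _)
  -- powers of two
  have hpow : ∀ j i : ℕ, j ≤ i → (2 : ℝ) ^ j ≤ (T.Q : ℝ) ^ i := by
    intro j i hji
    calc (2 : ℝ) ^ j ≤ (T.Q : ℝ) ^ j := pow_le_pow_left₀ (by norm_num) hQ j
      _ ≤ (T.Q : ℝ) ^ i := pow_le_pow_right₀ hQ1 hji
  obtain ⟨Eb, hEb⟩ : ∃ Eb : ℝ, Eb = (T.Q : ℝ) ^ (b * (n + 1)) := ⟨_, rfl⟩
  obtain ⟨Ec, hEc⟩ : ∃ Ec : ℝ, Ec = (T.Q : ℝ) ^ cw r m a b := ⟨_, rfl⟩
  obtain ⟨Ea, hEa⟩ : ∃ Ea : ℝ, Ea = (T.Q : ℝ) ^ (a + r * m * b) := ⟨_, rfl⟩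
  have hEb0 : 0 < Eb := by rw [hEb]; positivity
  have hEc0 : 0 < Ec := by rw [hEc]; positivity
  have hEa0 : 0 < Ea := by rw [hEa]; positivity
  -- the number of test points
  have hGG : c / 2 * Eb ≤ ((T.GG n b g).card : ℝ) := by
    have h1 := hmany b g (by omega)
    rw [← hEb] at h1 hng'
    have h2 : 2 * Cg / c ≤ (T.Q : ℝ) ^ (n ^ 2 * k) := by
      apply hk3.trans
      apply hpow
      have h3 : k ≤ n ^ 2 * k := Nat.le_mul_of_pos_left k (by positivity)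
      omega
    obtain ⟨G, hG⟩ : ∃ G : ℝ, G = (((T.VB n b).filter fun x => ¬ T.Good g x).card : ℝ) := ⟨_, rfl⟩
    rw [← hG] at h1 hng'
    have hG0 : 0 ≤ G := by rw [hG]; exact Nat.cast_nonneg _
    have h4 : G * (2 * Cg / c) ≤ Cg * Eb := (mul_le_mul_of_nonneg_left h2 hG0).trans hng'
    have hCg0 : 0 < Cg := by linarith
    have h5 : G * (2 * Cg / c) = (G * 2 / c) * Cg := by ring
    rw [h5, mul_comm Cg Eb] at h4
    have h6 : G * 2 / c ≤ Eb := le_of_mul_le_mul_right h4 hCg0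
    rw [div_le_iff₀ hc] at h6
    linarith
  -- the number of `w`
  have hWS : Ec ≤ T.C0 * (((T.WS r m a b).card : ℝ) * (T.Q : ℝ) ^ r) := by
    have h1 : T.C1 * T.Q ^ r ≤ T.Q ^ cw r m a b := by
      have h2 : (T.C1 : ℝ) * (T.Q : ℝ) ^ r ≤ (T.Q : ℝ) ^ cw r m a b :=
        hk4.trans (hpow _ _ (by omega))
      exact_mod_cast h2
    have h3 := T.card_WS (by omega : 1 ≤ r) h1
    have h4 := T.h_low (cw r m a b)
    have h5 : T.Q ^ cw r m a b ≤ T.C0 * ((T.WS r m a b).card * T.Q ^ r) :=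
      h4.trans (Nat.mul_le_mul_left _ h3)
    rw [hEc]
    exact_mod_cast h5
  -- the first moment
  have hm1 : c' * ((T.Box n (r * m) a).card : ℝ) * (Eb * Ec / Ea) ≤
      ∑ F ∈ T.Box n (r * m) a, (T.NnC r m a b g F : ℝ) := by
    have h1 := hone a b g (by omega)
    obtain ⟨Sm, hSm⟩ : ∃ Sm : ℝ, Sm = ∑ F ∈ T.Box n (r * m) a, (T.NnC r m a b g F : ℝ) := ⟨_, rfl⟩
    have hSm0 : 0 ≤ Sm := by rw [hSm]; exact Finset.sum_nonneg fun _ _ => Nat.cast_nonneg _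
    have h2 : Sm * (T.h (a + r * m * b) : ℝ) = ((T.Box n (r * m) a).card : ℝ) *
        (((T.GG n b g).card : ℝ) * ((T.WS r m a b).card : ℝ)) := by
      rw [hSm]
      exact_mod_cast h1
    rw [← hSm]
    obtain ⟨V, hV⟩ : ∃ V : ℝ, V = ((T.Box n (r * m) a).card : ℝ) := ⟨_, rfl⟩
    have hV0 : 0 ≤ V := by rw [hV]; exact Nat.cast_nonneg _
    rw [← hV] at h2 ⊢
    have h3 : (T.h (a + r * m * b) : ℝ) ≤ Ea * T.Q := by
      rw [hEa, ← pow_succ]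
      exact_mod_cast T.h_up (a + r * m * b)
    have h4 : Ec / (T.C0 * (T.Q : ℝ) ^ r) ≤ ((T.WS r m a b).card : ℝ) := by
      rw [div_le_iff₀ (by positivity)]
      calc Ec ≤ T.C0 * (((T.WS r m a b).card : ℝ) * (T.Q : ℝ) ^ r) := hWS
        _ = ((T.WS r m a b).card : ℝ) * (T.C0 * (T.Q : ℝ) ^ r) := by ring
    have h5 : V * (c / 2 * Eb * (Ec / (T.C0 * (T.Q : ℝ) ^ r))) ≤ Sm * (Ea * T.Q) := by
      calc V * (c / 2 * Eb * (Ec / (T.C0 * (T.Q : ℝ) ^ r)))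
          ≤ V * (((T.GG n b g).card : ℝ) * ((T.WS r m a b).card : ℝ)) := by
            apply mul_le_mul_of_nonneg_left _ hV0
            exact mul_le_mul hGG h4 (by positivity) (Nat.cast_nonneg _)
        _ = Sm * (T.h (a + r * m * b) : ℝ) := h2.symm
        _ ≤ Sm * (Ea * T.Q) := mul_le_mul_of_nonneg_left h3 hSm0
    have h6 : c' * V * (Eb * Ec / Ea) * (Ea * T.Q) =
        V * (c / 2 * Eb * (Ec / (T.C0 * (T.Q : ℝ) ^ r))) := by
      rw [hc']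
      field_simp
    have h7 : c' * V * (Eb * Ec / Ea) * (Ea * T.Q) ≤ Sm * (Ea * T.Q) := by
      rw [h6]
      exact h5
    exact le_of_mul_le_mul_right h7 (by positivity)
  have hE : 1 ≤ Eb * Ec / Ea := by
    rw [le_div_iff₀ hEa0, one_mul, hEa, hEb, hEc, ← pow_add]
    apply pow_le_pow_right₀ hQ1
    omega
  -- the second moment
  have hm2 : ∑ F ∈ T.Box n (r * m) a, (T.NnC r m a b g F : ℝ) ^ 2 ≤
      6 * C2 * ((T.Box n (r * m) a).card : ℝ) * (Eb * Ec / Ea) ^ 2 := by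
    have h1 := hmom a b g hga
    rw [← hEb, ← hEc, ← hEa] at h1
    obtain ⟨E, hE'⟩ : ∃ E : ℝ, E = Eb * Ec / Ea := ⟨_, rfl⟩
    rw [← hE'] at h1 hE ⊢
    apply h1.trans
    have h2 : T.brC n r m a b g 0 ≤ 4 := by
      have h3 : (((0 : ℕ) : ℝ) + 1) ^ (-(3 / 4) : ℝ) = 1 := by
        rw [Nat.cast_zero, zero_add, Real.one_rpow]
      rw [h3] at hbr'
      linarith
    have h4 : E + E ^ 2 * (1 + T.brC n r m a b g 0) ≤ 6 * E ^ 2 := by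
      have h5 : E ^ 2 * (1 + T.brC n r m a b g 0) ≤ E ^ 2 * 5 :=
        mul_le_mul_of_nonneg_left (by linarith) (sq_nonneg E)
      nlinarith
    have h6 : (0 : ℝ) ≤ C2 * ((T.Box n (r * m) a).card : ℝ) :=
      mul_nonneg (by linarith) (Nat.cast_nonneg _)
    calc C2 * ((T.Box n (r * m) a).card : ℝ) * (E + E ^ 2 * (1 + T.brC n r m a b g 0))
        ≤ C2 * ((T.Box n (r * m) a).card : ℝ) * (6 * E ^ 2) := mul_le_mul_of_nonneg_left h4 h6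
      _ = 6 * C2 * ((T.Box n (r * m) a).card : ℝ) * E ^ 2 := by ring
  -- conclusion
  have hfin := CPos_cs (T.Box n (r * m) a) (fun F => T.NnC r m a b g F) (Eb * Ec / Ea) c' C2 hE hc'0
    hC2 hm1 hm2
  apply hfin.trans
  have hsub : ((T.Box n (r * m) a).filter fun F => T.NnC r m a b g F ≠ 0) ⊆
      (T.Box n (r * m) a).filter fun F => ∃ (x : Vc n O) (w : O), x ≠ 0 ∧ ev F x = w ^ r := by
    intro F hF
    rw [Finset.mem_filter] at hF ⊢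
    refine ⟨hF.1, ?_⟩
    have h1 := hF.2
    unfold NnC at h1
    rw [Finset.card_ne_zero] at h1
    obtain ⟨p, hp⟩ := h1
    rw [Finset.mem_filter, Finset.mem_product] at hp
    obtain ⟨⟨hp1, _⟩, hp3⟩ := hp
    refine ⟨p.1, p.2, ?_, hp3⟩
    intro h0
    have hU : Uni p.1 := (T.mem_GG.1 hp1).2.1
    obtain ⟨u, hu⟩ := hU
    rw [h0] at hu
    unfold Pool.Agent.Lib.MP_219881_nt.lin at hu
    simp at hu
  exact_mod_cast Finset.card_le_card hsub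

end TC

end Pool.Agent.Lib.MP_1ad228_ntZ
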