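import Pool.Agent.Lib.MP_1ad228_ntZC.FC_L
import Pool.Agent.Lib.MP_1ad228_ntZ.FM_X

/-! Cyclic covers: from the theorems on tensors to the theorems on forms. -/

namespace Pool.Agent.Lib.MP_1ad228_ntZ

open Classical

private theorem FC_F_ncard {K : Type} [Field K] {n d : ℕ} (L : Set K)
    (S : MvPolynomial (Fin (n + 1)) K → Prop) :
    ({f | (∀ _k : Fin 1, f _k ∈ FormsIn L n d) ∧ S (f 0)} :
      Set (Fin 1 → MvPolynomial (Fin (n + 1)) K)).ncard =
    ({f | f ∈ FormsIn L n d ∧ S f} : Set (MvPolynomial (Fin (n + 1)) K)).ncard := by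
  have h : ({f | (∀ _k : Fin 1, f _k ∈ FormsIn L n d) ∧ S (f 0)} :
      Set (Fin 1 → MvPolynomial (Fin (n + 1)) K)) =
      (fun f : MvPolynomial (Fin (n + 1)) K => fun _ : Fin 1 => f) ''
        {f | f ∈ FormsIn L n d ∧ S f} := by
    ext f
    constructor
    · rintro ⟨h1, h2⟩
      refine ⟨f 0, ⟨h1 0, h2⟩, ?_⟩
      funext k
      rw [Subsingleton.elim k 0]
    · rintro ⟨g, ⟨h1, h2⟩, rfl⟩
      exact ⟨fun _ => h1, h2⟩
  rw [h, Set.ncard_image_of_injective]
  intro f g hfg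
  exact congrFun hfg 0

namespace TC
variable {K O P : Type} [Field K] [CommRing O] [IsDedekindDomain O] [Algebra O K]
  [IsFractionRing O K] [CommRing P] [IsDedekindDomain P] [Algebra P K]
  [IsFractionRing P K] (T : TC K O P)

private theorem FC_F_box {n d c : ℕ} (S : Ten n d O → Prop) :
    ((T.TBox n (fun _ : Fin 1 => d) c).filter fun F => S (F 0)).card =
      ((T.Box n d c).filter S).card := by
  refine Finset.card_nbij' (fun F => F 0) (fun F => fun _ => F) ?_ ?_ ?_ ?_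
  · intro F hF
    obtain ⟨h1, h2⟩ := Finset.mem_filter.1 (Finset.mem_coe.1 hF)
    exact Finset.mem_coe.2 (Finset.mem_filter.2 ⟨T.mem_TBox.1 h1 0, h2⟩)
  · intro F hF
    obtain ⟨h1, h2⟩ := Finset.mem_filter.1 (Finset.mem_coe.1 hF)
    exact Finset.mem_coe.2 (Finset.mem_filter.2 ⟨T.mem_TBox.2 fun _ => h1, h2⟩)
  · intro F _
    funext k
    show F 0 = F k
    rw [Subsingleton.elim k 0]
  · intro F _
    rfl

theorem xferC (n d c : ℕ) (S : MvPolynomial (Fin (n + 1)) K → Prop) :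
    ((T.Box n d c).filter fun F => S (MvPolynomial.map (algebraMap O K) (poly F))).card =
      T.h c ^ LoT n (fun _ : Fin 1 => d) *
      ({f | f ∈ FormsIn (T.L c) n d ∧ S f} : Set (MvPolynomial (Fin (n + 1)) K)).ncard := by
  rw [← FC_F_ncard, ← FC_F_box]
  exact T.xferK n (fun _ : Fin 1 => d) c (fun f => S (f 0))

theorem cardB_pos (n d a : ℕ) : (0 : ℝ) < ((T.Box n d a).card : ℝ) := by
  rw [T.card_Box]
  have := T.h_pos a
  positivity

/-- Almost all forms are smooth. -/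
theorem nonSm1 {n d : ℕ} (hN : T.NonSmP n (fun _ : Fin 1 => d)) (ε : ℝ) (hε : 0 < ε) :
    ∃ a0 : ℕ, ∀ a : ℕ, a0 ≤ a → (((T.Box n d a).filter fun F =>
      ¬ SmoothK (MvPolynomial.map (algebraMap O K) (poly F))).card : ℝ) ≤
        ε * ((T.Box n d a).card : ℝ) := by
  obtain ⟨a0, h⟩ := hN ε hε
  refine ⟨a0, fun a ha => ?_⟩
  have h1 := h a ha
  have e1 : ((T.TBox n (fun _ : Fin 1 => d) a).filter fun F => ¬ SmoothCI (polyK K F)).card =
      ((T.Box n d a).filter fun F =>
        ¬ SmoothK (MvPolynomial.map (algebraMap O K) (poly F))).card := by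
    have e0 := T.FC_F_box (n := n) (d := d) (c := a)
      (fun F => ¬ SmoothK (MvPolynomial.map (algebraMap O K) (poly F)))
    refine Eq.trans (congrArg Finset.card ?_) (e0.trans (congrArg Finset.card ?_))
    · ext F
      simp only [Finset.mem_filter]
      rw [← smoothK_iff]
      have e2 : (fun _ : Fin 1 => MvPolynomial.map (algebraMap O K) (poly (F 0))) =
          polyK K F := by
        funext k
        rw [Subsingleton.elim k 0]
        rfl
      rw [e2]
    · ext F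
      simp only [Finset.mem_filter]
  have e3 : (T.TBox n (fun _ : Fin 1 => d) a).card = (T.Box n d a).card := by
    have h2 := T.FC_F_box (n := n) (d := d) (c := a) (fun _ => True)
    simpa using h2
  rw [e1, e3] at h1
  exact h1

/-- A positive proportion of the cyclic covers is smooth with a point. -/
theorem goodC (n r m : ℕ) (hP : T.PosC n r m) (hN : T.NonSmP n (fun _ : Fin 1 => r * m)) :
    ∃ δ : ℝ, 0 < δ ∧ ∃ a0 : ℕ, ∀ a : ℕ, a0 ≤ a → δ * ((T.Box n (r * m) a).card : ℝ) ≤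
      (T.h a : ℝ) ^ LoT n (fun _ : Fin 1 => r * m) *
      (({f | f ∈ FormsIn (T.L a) n (r * m) ∧ (SmoothK f ∧ CycSolR O r f ∧ CycSolR P r f)} :
        Set (MvPolynomial (Fin (n + 1)) K)).ncard : ℝ) := by
  obtain ⟨δ, hδ, a1, h1⟩ := hP
  obtain ⟨a2, h2⟩ := T.nonSm1 hN (δ / 2) (by positivity)
  refine ⟨δ / 2, by positivity, a1 + a2, fun a ha => ?_⟩
  have g1 := h1 a (by omega)
  have g2 := h2 a (by omega)
  have h3 := T.xferC n (r * m) a (fun f => SmoothK f ∧ CycSolR O r f ∧ CycSolR P r f)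
  have h3' : (((T.Box n (r * m) a).filter fun F =>
        SmoothK (MvPolynomial.map (algebraMap O K) (poly F)) ∧
        CycSolR O r (MvPolynomial.map (algebraMap O K) (poly F)) ∧
        CycSolR P r (MvPolynomial.map (algebraMap O K) (poly F))).card : ℝ) =
      (T.h a : ℝ) ^ LoT n (fun _ : Fin 1 => r * m) *
      (({f | f ∈ FormsIn (T.L a) n (r * m) ∧ (SmoothK f ∧ CycSolR O r f ∧ CycSolR P r f)} :
        Set (MvPolynomial (Fin (n + 1)) K)).ncard : ℝ) := by
    rw [← Nat.cast_pow, ← Nat.cast_mul, ← h3]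
    refine congrArg Nat.cast (congrArg Finset.card ?_)
    ext F
    simp only [Finset.mem_filter]
  rw [← h3']
  have hsub : ((T.Box n (r * m) a).filter fun F => ∃ (x : Vc n O) (w : O), x ≠ 0 ∧
      ev F x = w ^ r) ⊆
      ((T.Box n (r * m) a).filter fun F =>
        SmoothK (MvPolynomial.map (algebraMap O K) (poly F)) ∧
        CycSolR O r (MvPolynomial.map (algebraMap O K) (poly F)) ∧
        CycSolR P r (MvPolynomial.map (algebraMap O K) (poly F))) ∪
      ((T.Box n (r * m) a).filter fun F =>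
        ¬ SmoothK (MvPolynomial.map (algebraMap O K) (poly F))) := by
    intro F hF
    rw [Finset.mem_filter] at hF
    obtain ⟨hF, x, w, hx, hx0⟩ := hF
    rw [Finset.mem_union, Finset.mem_filter, Finset.mem_filter]
    by_cases hs : SmoothK (MvPolynomial.map (algebraMap O K) (poly F))
    · left
      have hinj : Function.Injective (algebraMap O K) := IsFractionRing.injective O K
      have hy : (fun i => algebraMap O K (x i)) ≠ 0 := by
        intro h0
        apply hx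
        funext i
        exact hinj ((congrFun h0 i).trans (map_zero _).symm)
      have hz : MvPolynomial.aeval (fun i => algebraMap O K (x i))
          (MvPolynomial.map (algebraMap O K) (poly F)) = algebraMap O K w ^ r := by
        rw [aevalK_poly]
        have h5 := Pool.Agent.Lib.MP_1ad228_ntF.ev_map (algebraMap O K) F x
        rw [hx0, map_pow] at h5
        exact h5
      exact ⟨hF, hs, cyc_of_pt O hy hz, cyc_of_pt P hy hz⟩
    · right
      exact ⟨hF, hs⟩
  have h4 := (Finset.card_le_card hsub).trans (Finset.card_union_le _ _)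
  have h4' : (((T.Box n (r * m) a).filter fun F => ∃ (x : Vc n O) (w : O), x ≠ 0 ∧
      ev F x = w ^ r).card : ℝ) ≤
      (((T.Box n (r * m) a).filter fun F =>
        SmoothK (MvPolynomial.map (algebraMap O K) (poly F)) ∧
        CycSolR O r (MvPolynomial.map (algebraMap O K) (poly F)) ∧
        CycSolR P r (MvPolynomial.map (algebraMap O K) (poly F))).card : ℝ) +
      (((T.Box n (r * m) a).filter fun F =>
        ¬ SmoothK (MvPolynomial.map (algebraMap O K) (poly F))).card : ℝ) := by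
    exact_mod_cast h4
  linarith

/-- Almost all everywhere locally soluble cyclic covers have a small point. -/
theorem final1C (n r m : ℕ) (hr : 1 ≤ r) (hM : T.MainC n r m) (hP : T.PosC n r m)
    (hN : T.NonSmP n (fun _ : Fin 1 => r * m)) (ε : ℝ) (hε : 0 < ε) :
    ∃ M a0 : ℕ, ∀ a : ℕ, a0 ≤ a →
    (({f | f ∈ FormsIn (T.L a) n (r * m) ∧ ((CycSolR O r f ∧ CycSolR P r f) ∧
        ¬ ∃ b : ℕ, r * (b * (n + 1 - (r - 1) * m)) ≤ (r - 1) * a + M ∧ PtIn (T.L b) r f)} :
      Set (MvPolynomial (Fin (n + 1)) K)).ncard : ℝ) ≤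
      ε * (({f | f ∈ FormsIn (T.L a) n (r * m) ∧ (SmoothK f ∧ CycSolR O r f ∧ CycSolR P r f)} :
        Set (MvPolynomial (Fin (n + 1)) K)).ncard : ℝ) := by
  obtain ⟨δ, hδ, a1, h1⟩ := T.goodC n r m hP hN
  obtain ⟨M, a2, h2⟩ := hM (ε * δ) (mul_pos hε hδ)
  refine ⟨M, a1 + a2, fun a ha => ?_⟩
  have g1 := h1 a (by omega)
  have g2 := h2 a (by omega)
  have h3 := T.xferC n (r * m) a (fun f => (CycSolR O r f ∧ CycSolR P r f) ∧
        ¬ ∃ b : ℕ, r * (b * (n + 1 - (r - 1) * m)) ≤ (r - 1) * a + M ∧ PtIn (T.L b) r f)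
  have hh : (0 : ℝ) < (T.h a : ℝ) ^ LoT n (fun _ : Fin 1 => r * m) := by
    have := T.h_pos a
    positivity
  refine le_of_mul_le_mul_left ?_ hh
  have h3' : (((T.Box n (r * m) a).filter fun F =>
        (CycSolR O r (MvPolynomial.map (algebraMap O K) (poly F)) ∧
          CycSolR P r (MvPolynomial.map (algebraMap O K) (poly F))) ∧
        ¬ ∃ b : ℕ, r * (b * (n + 1 - (r - 1) * m)) ≤ (r - 1) * a + M ∧
          PtIn (T.L b) r (MvPolynomial.map (algebraMap O K) (poly F))).card : ℝ) =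
      (T.h a : ℝ) ^ LoT n (fun _ : Fin 1 => r * m) *
      (({f | f ∈ FormsIn (T.L a) n (r * m) ∧ ((CycSolR O r f ∧ CycSolR P r f) ∧
        ¬ ∃ b : ℕ, r * (b * (n + 1 - (r - 1) * m)) ≤ (r - 1) * a + M ∧ PtIn (T.L b) r f)} :
      Set (MvPolynomial (Fin (n + 1)) K)).ncard : ℝ) := by
    rw [← Nat.cast_pow, ← Nat.cast_mul, ← h3]
    refine congrArg Nat.cast (congrArg Finset.card ?_)
    ext F
    simp only [Finset.mem_filter]
  rw [← h3']
  have hsub : ((T.Box n (r * m) a).filter fun F =>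
        (CycSolR O r (MvPolynomial.map (algebraMap O K) (poly F)) ∧
          CycSolR P r (MvPolynomial.map (algebraMap O K) (poly F))) ∧
        ¬ ∃ b : ℕ, r * (b * (n + 1 - (r - 1) * m)) ≤ (r - 1) * a + M ∧
          PtIn (T.L b) r (MvPolynomial.map (algebraMap O K) (poly F))) ⊆
      ((T.Box n (r * m) a).filter fun F => PSolS r 1 F ∧ PSolS r (T.s ^ jw r a) (T.ttw a F) ∧
        ¬ ∃ (b : ℕ) (x : Vc n O) (w : O), r * (b * (n + 1 - (r - 1) * m)) ≤ (r - 1) * a + M ∧
          x ≠ 0 ∧ x ∈ T.VB n b ∧ ev F x = w ^ r) := by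
    intro F hF
    rw [Finset.mem_filter] at hF ⊢
    obtain ⟨hF, ⟨hO, hPP⟩, hno⟩ := hF
    refine ⟨hF, psolO_of_cyc hr hO, T.psolP_of_cyc hr hF hPP, ?_⟩
    rintro ⟨b, x, w, hb, hx, hxb, hx0⟩
    exact hno ⟨b, hb, (T.ptIn_iff hr b F).2 ⟨x, w, hx, hxb, hx0⟩⟩
  have h4 : (((T.Box n (r * m) a).filter fun F =>
        (CycSolR O r (MvPolynomial.map (algebraMap O K) (poly F)) ∧
          CycSolR P r (MvPolynomial.map (algebraMap O K) (poly F))) ∧
        ¬ ∃ b : ℕ, r * (b * (n + 1 - (r - 1) * m)) ≤ (r - 1) * a + M ∧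
          PtIn (T.L b) r (MvPolynomial.map (algebraMap O K) (poly F))).card : ℝ) ≤
      (((T.Box n (r * m) a).filter fun F => PSolS r 1 F ∧ PSolS r (T.s ^ jw r a) (T.ttw a F) ∧
        ¬ ∃ (b : ℕ) (x : Vc n O) (w : O), r * (b * (n + 1 - (r - 1) * m)) ≤ (r - 1) * a + M ∧
          x ≠ 0 ∧ x ∈ T.VB n b ∧ ev F x = w ^ r).card : ℝ) := by
    exact_mod_cast Finset.card_le_card hsub
  calc _ ≤ ε * δ * ((T.Box n (r * m) a).card : ℝ) := h4.trans g2
    _ = ε * (δ * ((T.Box n (r * m) a).card : ℝ)) := by ring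
    _ ≤ ε * ((T.h a : ℝ) ^ LoT n (fun _ : Fin 1 => r * m) *
      (({f | f ∈ FormsIn (T.L a) n (r * m) ∧ (SmoothK f ∧ CycSolR O r f ∧ CycSolR P r f)} :
        Set (MvPolynomial (Fin (n + 1)) K)).ncard : ℝ)) :=
        mul_le_mul_of_nonneg_left g1 hε.le
    _ = _ := by ring

/-- A positive proportion of all forms is smooth with an everywhere locally soluble cover. -/
theorem final3C (n r m : ℕ) (hP : T.PosC n r m) (hN : T.NonSmP n (fun _ : Fin 1 => r * m)) :
    ∃ δ : ℝ, 0 < δ ∧ ∃ a0 : ℕ, ∀ a : ℕ, a0 ≤ a →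
    δ * (({f | f ∈ FormsIn (T.L a) n (r * m)} :
        Set (MvPolynomial (Fin (n + 1)) K)).ncard : ℝ) ≤
      (({f | f ∈ FormsIn (T.L a) n (r * m) ∧ (SmoothK f ∧ CycSolR O r f ∧ CycSolR P r f)} :
        Set (MvPolynomial (Fin (n + 1)) K)).ncard : ℝ) := by
  obtain ⟨δ, hδ, a1, h1⟩ := T.goodC n r m hP hN
  refine ⟨δ, hδ, a1, fun a ha => ?_⟩
  have g1 := h1 a ha
  have hh : (0 : ℝ) < (T.h a : ℝ) ^ LoT n (fun _ : Fin 1 => r * m) := by
    have := T.h_pos a
    positivity
  refine le_of_mul_le_mul_left ?_ hh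
  have h3 := T.xferC n (r * m) a (fun _ => True)
  simp only [and_true, Finset.filter_true] at h3
  have h3' : ((T.Box n (r * m) a).card : ℝ) =
      (T.h a : ℝ) ^ LoT n (fun _ : Fin 1 => r * m) *
      (({f | f ∈ FormsIn (T.L a) n (r * m)} :
        Set (MvPolynomial (Fin (n + 1)) K)).ncard : ℝ) := by
    exact_mod_cast h3
  rw [h3'] at g1
  refine le_trans (le_of_eq ?_) g1
  ring

end TC

end Pool.Agent.Lib.MP_1ad228_ntZ
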