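import Pool.Agent.Lib.MP_1ad228_ntZ.Low
import Pool.Agent.Lib.MP_1ad228_ntY.Defs

/-!
MP_1ad228_nt, Fano cyclic covers `w ^ r = f (x_0, .., x_n)`, `deg f = r m`, over global function fields (FF-CC): definitions.
Namespace of Lib/MP_1ad228_ntZ (the two chart library), names with C or S at the end.
`a` = size of the coefficients, `b` = size of `x`, `cw` = size of `w`, `r * cw = a + r m b + jw`, `0 < jw ≤ r`.
At infinity the equation becomes `s ^ jw * F' (x') = w' ^ r` with `F' = s ^ a F`, `x' = s ^ b x`, `w' = s ^ cw w`.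
-/

namespace Pool.Agent.Lib.MP_1ad228_ntZ

export Pool.Agent.Lib.MP_1ad228_ntY (rt smY)

open Classical

/-- Size of `w`. -/
def cw (r m a b : ℕ) : ℕ := a / r + 1 + m * b

/-- The defect at infinity. -/
def jw (r a : ℕ) : ℕ := r - a % r

theorem cw_eq {r : ℕ} (hr : 1 ≤ r) (m a b : ℕ) : r * cw r m a b = a + r * m * b + jw r a := by
  unfold cw jw
  have h1 := Nat.div_add_mod a r
  have h2 := Nat.mod_lt a hr
  have h3 : r * (a / r + 1 + m * b) = r * (a / r) + r + r * m * b := by ring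
  omega

theorem jw_pos {r : ℕ} (hr : 1 ≤ r) (a : ℕ) : 1 ≤ jw r a := by
  unfold jw
  have h2 := Nat.mod_lt a hr
  omega

theorem jw_le (r a : ℕ) : jw r a ≤ r := Nat.sub_le _ _

section ring
variable {R : Type} [CommRing R]

/-- Number of pairs `(x, w)`, `x` unimodular, with `σ a(x) = w ^ r`. -/
noncomputable def smS (r : ℕ) (σ : R) {n d : ℕ} (a : Ten n d R) : ℕ :=
  Nat.card {p : Vc n R × R // Uni p.1 ∧ σ * ev a p.1 = p.2 ^ r}

/-- Number of pairs modulo the ideal `I`. -/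
noncomputable def smSI (r : ℕ) (σ : R) {n d : ℕ} (I : Ideal R) (a : Ten n d R) : ℕ :=
  smS r (Ideal.Quotient.mk I σ) (tmap (Ideal.Quotient.mk I) a)

/-- Solubility of `σ a(x) = w ^ r` modulo all powers of all prime ideals. -/
def PSolS (r : ℕ) (σ : R) {n d : ℕ} (a : Ten n d R) : Prop :=
  ∀ p : Ideal R, p.IsPrime → p ≠ ⊥ → ∀ k : ℕ, ∃ (x : Vc n R) (w : R), (∃ i, x i ∉ p) ∧
    σ * ev a x - w ^ r ∈ p ^ k

end ring

namespace TC
variable {K O P : Type} [Field K] [CommRing O] [Algebra O K] [CommRing P] [Algebra P K]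
  (T : TC K O P)

/-- The admissible `w`. -/
noncomputable def WS (r m a b : ℕ) : Finset O :=
  (T.H (cw r m a b)).filter fun w => w ^ r ∈ T.H (a + r * m * b)

/-- Number of test pairs on the cyclic cover. -/
noncomputable def NnC (r m : ℕ) {n : ℕ} (a b g : ℕ) (F : Ten n (r * m) O) : ℕ :=
  (((T.GG n b g) ×ˢ (T.WS r m a b)).filter fun p => ev F p.1 = p.2 ^ r).card

/-- Local prediction. -/
noncomputable def LlC (r m : ℕ) {n : ℕ} (a b g w : ℕ) (F : Ten n (r * m) O) : ℝ :=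
  ((((T.GG n b g) ×ˢ (T.WS r m a b)).filter fun p =>
    ev F p.1 - p.2 ^ r ∈ T.MS w (a + r * m * b)).card : ℝ) / ((T.MS w (a + r * m * b)).card : ℝ)

/-- The variance. -/
noncomputable def QvC (r m n a b g w : ℕ) : ℝ :=
  ∑ F ∈ T.Box n (r * m) a, ((T.NnC r m a b g F : ℝ) - T.LlC r m a b g w F) ^ 2

/-- First sum of slices for a pair of points. -/
noncomputable def A1 (r m : ℕ) {n : ℕ} (a b : ℕ) (x y : Vc n O) : ℝ :=
  ∑ w1 ∈ T.WS r m a b, ∑ w2 ∈ T.WS r m a b, (T.sl (r * m) a x y (w1 ^ r) (w2 ^ r) : ℝ)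

/-- Second sum of slices for a pair of points. -/
noncomputable def A2 (r m : ℕ) {n : ℕ} (a b w : ℕ) (x y : Vc n O) : ℝ :=
  (1 / ((T.MS w (a + r * m * b)).card : ℝ)) ^ 2 *
    ∑ w1 ∈ T.WS r m a b, ∑ w2 ∈ T.WS r m a b, ∑ μ ∈ T.MS w (a + r * m * b),
      ∑ μ' ∈ T.MS w (a + r * m * b), (T.sl (r * m) a x y (w1 ^ r + μ) (w2 ^ r + μ') : ℝ)

/-- The ideal `s ^ j J`. -/
def sJ (j : ℕ) (J : Ideal P) : Ideal P := Ideal.span {T.s} ^ j * J

/-- The weight of a pair of points: numbers of `r`-th roots modulo the divisor of minors. -/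
noncomputable def rD (r j : ℕ) {n : ℕ} (b : ℕ) (x y : Vc n O) : ℝ :=
  (rt r (Dd x y) : ℝ) * rt r (T.sJ j (Dd (T.vtw b x) (T.vtw b y)))

/-- Almost all everywhere locally soluble cyclic covers have a small point. -/
def MainC (n r m : ℕ) : Prop :=
  ∀ ε : ℝ, 0 < ε → ∃ M a0 : ℕ, ∀ a : ℕ, a0 ≤ a →
    (((T.Box n (r * m) a).filter fun F => PSolS r 1 F ∧ PSolS r (T.s ^ jw r a) (T.ttw a F) ∧
        ¬ ∃ (b : ℕ) (x : Vc n O) (w : O), r * (b * (n + 1 - (r - 1) * m)) ≤ (r - 1) * a + M ∧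
          x ≠ 0 ∧ x ∈ T.VB n b ∧ ev F x = w ^ r).card : ℝ) ≤ ε * ((T.Box n (r * m) a).card : ℝ)

/-- A positive proportion of the cyclic covers has a point. -/
def PosC (n r m : ℕ) : Prop :=
  ∃ δ : ℝ, 0 < δ ∧ ∃ a0 : ℕ, ∀ a : ℕ, a0 ≤ a → δ * ((T.Box n (r * m) a).card : ℝ) ≤
    (((T.Box n (r * m) a).filter fun F => ∃ (x : Vc n O) (w : O), x ≠ 0 ∧
      ev F x = w ^ r).card : ℝ)

end TC

end Pool.Agent.Lib.MP_1ad228_ntZ
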