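import Pool.Agent.Lib.MP_1ad228_ntZC.CEul
import Pool.Agent.Lib.MP_1ad228_ntY.PMomDefY

/-!
LEAF CDel.  The sums over the ideals of a quotient without small prime factors.
Model with proof: Lib/MP_1ad228_ntY/PDelY.lean (`delY`); Lib/MP_1ad228_ntZ/LZ_Del.lean.
Instead of `rtTail`: for nonzero ideals `J'` with `nI J' > p0`: `rt r J' / (nI J')^2 = rt r J' (nI J')^(-5/4) (nI J')^(-3/4) ≤ rt r J' (nI J')^(-5/4) * (p0+1)^(-3/4)` and rtEuler; `(p0+1)^(-3/4) ≤ 2 / (sqrt p0 + 1)` (`Nat.sqrt p0 ≤ (p0+1)^(1/2)`).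
-/

namespace Pool.Agent.Lib.MP_1ad228_ntZ

open Classical
open Pool.Agent.Lib.MP_1ad228_ntY (IdY)

private theorem CDel_rt {R S : Type*} [CommRing R] [CommRing S] {I : Ideal R} {J : Ideal S} (r : ℕ)
    (e : R ⧸ I ≃+* S ⧸ J) : rt r I = rt r J := by
  have h : ∀ t : R ⧸ I, Nat.card {z : R ⧸ I // z ^ r = t} = Nat.card {z : S ⧸ J // z ^ r = e t} := by
    intro t
    refine Nat.card_congr (e.toEquiv.subtypeEquiv fun z => ?_)
    show z ^ r = t ↔ e z ^ r = e t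
    rw [← map_pow]
    exact e.injective.eq_iff.symm
  unfold Pool.Agent.Lib.MP_1ad228_ntY.rt
  congr 1
  ext k
  constructor
  · rintro ⟨t, rfl⟩
    exact ⟨e t, (h t).symm⟩
  · rintro ⟨s, rfl⟩
    refine ⟨e.symm s, ?_⟩
    show Nat.card {z : R ⧸ I // z ^ r = e.symm s} = Nat.card {z : S ⧸ J // z ^ r = s}
    rw [h, e.apply_symm_apply]

private theorem CDel_rt2 {R : Type} [CommRing R] (r : ℕ) (I : Ideal R) (J : Ideal (R ⧸ I)) :
    rt r J = rt r (J.comap (Ideal.Quotient.mk I)) ∧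
      Nat.card ((R ⧸ I) ⧸ J) = nI (J.comap (Ideal.Quotient.mk I)) := by
  have hsurj : Function.Surjective ((Ideal.Quotient.mk J).comp (Ideal.Quotient.mk I)) := by
    rw [RingHom.coe_comp]
    exact Ideal.Quotient.mk_surjective.comp Ideal.Quotient.mk_surjective
  have hker : RingHom.ker ((Ideal.Quotient.mk J).comp (Ideal.Quotient.mk I)) =
      J.comap (Ideal.Quotient.mk I) := by
    rw [← RingHom.comap_ker, Ideal.mk_ker]
  have e := RingHom.quotientKerEquivOfSurjective hsurj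
  rw [← hker]
  exact ⟨(CDel_rt r e).symm, (Nat.card_congr e.toEquiv).symm⟩

/-- The real inequality. -/
private theorem CDel_pow (p0 : ℕ) :
    ((p0 : ℝ) + 1) ^ (-(3 / 4) : ℝ) ≤ 2 / ((Nat.sqrt p0 : ℝ) + 1) := by
  have h0 : (0 : ℝ) ≤ p0 := Nat.cast_nonneg _
  have h1 : (1 : ℝ) ≤ (p0 : ℝ) + 1 := by linarith
  have h2 : (Nat.sqrt p0 : ℝ) ≤ ((p0 : ℝ) + 1) ^ (3 / 4 : ℝ) := by
    have h3 : (Nat.sqrt p0 : ℝ) ≤ Real.sqrt ((p0 : ℝ) + 1) := by
      refine Real.le_sqrt_of_sq_le ?_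
      have h4 : Nat.sqrt p0 ^ 2 ≤ p0 := Nat.sqrt_le' p0
      have h5 : ((Nat.sqrt p0 : ℝ)) ^ 2 ≤ p0 := by exact_mod_cast h4
      linarith
    refine h3.trans ?_
    rw [Real.sqrt_eq_rpow]
    exact Real.rpow_le_rpow_of_exponent_le h1 (by norm_num)
  have h3 : (1 : ℝ) ≤ ((p0 : ℝ) + 1) ^ (3 / 4 : ℝ) := Real.one_le_rpow h1 (by norm_num)
  have h4 : (0 : ℝ) < (Nat.sqrt p0 : ℝ) + 1 := by positivity
  rw [Real.rpow_neg (by linarith), inv_le_comm₀ (by linarith) (by positivity), inv_div, div_le_iff₀ two_pos]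
  linarith

theorem delS (R : Type) [CommRing R] [IsDedekindDomain R] [Infinite R] [FQ R] (r : ℕ)
    (hr : 1 ≤ r) : ∃ C : ℝ, 1 ≤ C ∧
    ∀ (p0 : ℕ) (I : Ideal R), I ≠ ⊥ →
      (∀ p : Ideal R, p.IsPrime → I ≤ p → p0 < nI p) →
      IdY (R ⧸ I) r (C / ((Nat.sqrt p0 : ℝ) + 1)) := by
  obtain ⟨C, hC1, hC⟩ := rtEuler R r hr
  refine ⟨2 * C, by linarith, fun p0 I hI h T hT => ?_⟩
  have hinj : Function.Injective (fun J : Ideal (R ⧸ I) => J.comap (Ideal.Quotient.mk I)) :=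
    Ideal.comap_injective_of_surjective _ Ideal.Quotient.mk_surjective
  have hIle : ∀ J : Ideal (R ⧸ I), I ≤ J.comap (Ideal.Quotient.mk I) := by
    intro J x hx
    rw [Ideal.mem_comap, Ideal.Quotient.eq_zero_iff_mem.2 hx]
    exact J.zero_mem
  have hsum : ∑ J ∈ T, (rt r J : ℝ) * (1 / (Nat.card ((R ⧸ I) ⧸ J) : ℝ)) ^ 2
      = ∑ J' ∈ T.image (fun J : Ideal (R ⧸ I) => J.comap (Ideal.Quotient.mk I)),
        (rt r J' : ℝ) / (nI J' : ℝ) ^ 2 := by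
    rw [Finset.sum_image fun a _ b _ hab => hinj hab]
    refine Finset.sum_congr rfl fun J _ => ?_
    rw [(CDel_rt2 r I J).1, (CDel_rt2 r I J).2, one_div, inv_pow, div_eq_mul_inv]
  rw [hsum]
  have hmem : ∀ J' ∈ T.image (fun J : Ideal (R ⧸ I) => J.comap (Ideal.Quotient.mk I)),
      J' ≠ ⊥ ∧ p0 + 1 ≤ nI J' := by
    intro J' hJ'
    obtain ⟨J, hJ, rfl⟩ := Finset.mem_image.1 hJ'
    have hne_top : J.comap (Ideal.Quotient.mk I) ≠ ⊤ := by
      intro h0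
      have h1 : J = ⊤ := by
        rw [Ideal.eq_top_iff_one]
        have h2 : (1 : R) ∈ J.comap (Ideal.Quotient.mk I) := by
          rw [h0]
          exact Submodule.mem_top
        rw [Ideal.mem_comap, map_one] at h2
        exact h2
      rw [h1] at hJ
      exact hT hJ
    have hne_bot : J.comap (Ideal.Quotient.mk I) ≠ ⊥ := by
      intro h0
      have h1 := hIle J
      rw [h0, le_bot_iff] at h1
      exact hI h1
    refine ⟨hne_bot, ?_⟩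
    obtain ⟨P, hP, hle⟩ := Ideal.exists_le_maximal _ hne_top
    have hIP : I ≤ P := (hIle J).trans hle
    have h1 : p0 < nI P := h P hP.isPrime hIP
    have h2 : nI P ≤ nI (J.comap (Ideal.Quotient.mk I)) := nI_mono (FQ.fin) hne_bot hle
    omega
  have hterm : ∀ J' ∈ T.image (fun J : Ideal (R ⧸ I) => J.comap (Ideal.Quotient.mk I)),
      (rt r J' : ℝ) / (nI J' : ℝ) ^ 2 ≤
        ((rt r J' : ℝ) * (nI J' : ℝ) ^ (-(5 / 4) : ℝ)) * ((p0 : ℝ) + 1) ^ (-(3 / 4) : ℝ) := by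
    intro J' hJ'
    obtain ⟨-, h2⟩ := hmem J' hJ'
    have h3 : (p0 : ℝ) + 1 ≤ nI J' := by exact_mod_cast h2
    have h0 : (0 : ℝ) ≤ p0 := Nat.cast_nonneg _
    have hN : (0 : ℝ) < nI J' := by linarith
    have h4 : ((nI J' : ℝ) ^ 2)⁻¹ = (nI J' : ℝ) ^ (-(5 / 4) : ℝ) * (nI J' : ℝ) ^ (-(3 / 4) : ℝ) := by
      rw [← Real.rpow_add hN, ← Real.rpow_natCast, ← Real.rpow_neg hN.le]
      norm_num
    have h5 : (nI J' : ℝ) ^ (-(3 / 4) : ℝ) ≤ ((p0 : ℝ) + 1) ^ (-(3 / 4) : ℝ) :=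
      Real.rpow_le_rpow_of_nonpos (by linarith) h3 (by norm_num)
    rw [div_eq_mul_inv, h4, mul_assoc]
    refine mul_le_mul_of_nonneg_left ?_ (Nat.cast_nonneg _)
    exact mul_le_mul_of_nonneg_left h5 (by positivity)
  have h1 := hC (T.image (fun J : Ideal (R ⧸ I) => J.comap (Ideal.Quotient.mk I)))
    fun J' hJ' => (hmem J' hJ').1
  refine (Finset.sum_le_sum hterm).trans ?_
  rw [← Finset.sum_mul]
  calc _ ≤ C * (2 / ((Nat.sqrt p0 : ℝ) + 1)) :=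
        mul_le_mul h1 (CDel_pow p0) (by positivity) (by linarith)
    _ = 2 * C / ((Nat.sqrt p0 : ℝ) + 1) := by ring

end Pool.Agent.Lib.MP_1ad228_ntZ
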