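import Pool.Agent.Lib.MP_1ad228_ntZC.CLoc
import Pool.Agent.Lib.MP_1ad228_ntZ.Equi
import Pool.Agent.Lib.MP_1ad228_ntZ.DvCnt

/-!
LEAF CDn.  The local densities in both charts, for the tensors in the box.
PROOF.  `T.FQO`, `T.FQP` are the instances of FQ.  locDensS for `O` with `σ = 1`, `ε/2`: `τ1, w1`; locDensS for `P` with `σ = s^j` for every `j ≤ r`, `ε/2`: `τ' j, w' j`; `τ = τ1 * min_(j ≤ r) τ' j`, `w0 = w1 + ∑_j w' j`.
`(r : K) ≠ 0` gives `(r : O) ≠ 0`, `(r : P) ≠ 0`; `s ≠ 0` (s_ne').  If the product is `< τ N^(n+1)` then `smSI r 1 (WD O w) F < τ1 (nI (WD O w))^(n+1)` or `smSI r (s^j) (sJ j (WD P w)) (ttw a F) < τ' j (nI ..)^(n+1)`.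
Each set is counted by equiO resp. equiP (tuples of length 1: `TBox n (fun _ : Fin 1 => r m) a ≃ Box n (r m) a` as PLocY_emb, PLocY_one of Lib/MP_1ad228_ntY/PLocY.lean; `VV n (fun _ : Fin 1 => d) = (n+1)^d`), for `S` = the set of locDensS, `a1` with `C1 * nI .. ≤ Q^a1` for `WD O w` and all
`sJ j (WD P w)`, `j ≤ r` (`nI (sJ j J) = Q^j nI J`: nI_mul, nI_pow, T.nrm_s).  `sJ j J ≤ J` (`Ideal.mul_le_left`), `sJ j J ≠ ⊥`.
-/

namespace Pool.Agent.Lib.MP_1ad228_ntZ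

open Classical

private theorem CDn_VV (n d : ℕ) : VV n (fun _ : Fin 1 => d) = (n + 1) ^ d := by
  unfold VV
  rw [Finset.sum_const, Finset.card_univ, Fintype.card_fin, one_smul]

/-- Tensors as tuples of length 1. -/
private theorem CDn_one {S : Type*} (n d : ℕ) (p : Ten n d S → Prop) :
    {G : Tup n (fun _ : Fin 1 => d) S | p (G 0)}.ncard = Nat.card {a : Ten n d S // p a} := by
  rw [← Nat.card_coe_set_eq]
  exact Nat.card_congr ((Equiv.funUnique (Fin 1) (Ten n d S)).subtypeEquiv fun _ => Iff.rfl)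

private theorem CDn_min (r : ℕ) (f : ℕ → ℝ) (hf : ∀ j, 0 < f j) :
    ∃ τ : ℝ, 0 < τ ∧ ∀ j ≤ r, τ ≤ f j := by
  induction r with
  | zero =>
    refine ⟨f 0, hf 0, fun j hj => ?_⟩
    rw [Nat.le_zero.1 hj]
  | succ r ih =>
    obtain ⟨τ, hτ, h⟩ := ih
    refine ⟨min τ (f (r + 1)), lt_min hτ (hf _), fun j hj => ?_⟩
    rcases Nat.le_succ_iff.1 hj with h1 | h1
    · exact (min_le_left _ _).trans (h j h1)
    · rw [h1]
      exact min_le_right _ _

private theorem CDn_real {A B N c ε : ℝ} (hN : 0 < N) (h : A * N = B * c) (hB : 0 ≤ B)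
    (hc : c ≤ ε * N) : A ≤ ε * B := by
  have h1 : A * N ≤ (ε * B) * N := by
    rw [h]
    calc B * c ≤ B * (ε * N) := mul_le_mul_of_nonneg_left hc hB
      _ = (ε * B) * N := by ring
  exact le_of_mul_le_mul_right h1 hN

private theorem CDn_fin {α : Type*} {S C : Finset α} {p q : α → Prop} {ip : DecidablePred p}
    {iq : DecidablePred q} {ε N : ℝ}
    (hA : ((@Finset.filter α p ip S).card : ℝ) ≤ ε / 2 * N)
    (hB : ((@Finset.filter α q iq S).card : ℝ) ≤ ε / 2 * N)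
    (h : ∀ F ∈ C, F ∈ S ∧ (p F ∨ q F)) : (C.card : ℝ) ≤ ε * N := by
  have h1 : C.card ≤ (@Finset.filter α p ip S).card + (@Finset.filter α q iq S).card := by
    refine (Finset.card_le_card (t := @Finset.filter α p ip S ∪ @Finset.filter α q iq S)
      fun F hF => Finset.mem_union.2 ?_).trans (Finset.card_union_le _ _)
    obtain ⟨h1, h2⟩ := h F hF
    rcases h2 with h2 | h2
    · exact Or.inl ((@Finset.mem_filter α p ip S F).2 ⟨h1, h2⟩)
    · exact Or.inr ((@Finset.mem_filter α q iq S F).2 ⟨h1, h2⟩)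
  have h2 : (C.card : ℝ) ≤ ((@Finset.filter α p ip S).card : ℝ) +
      (@Finset.filter α q iq S).card := by exact_mod_cast h1
  linarith

namespace TC
variable {K O P : Type} [Field K] [CommRing O] [IsDedekindDomain O] [Algebra O K]
  [IsFractionRing O K] [CommRing P] [IsDedekindDomain P] [Algebra P K]
  [IsFractionRing P K] (T : TC K O P)

omit [IsDedekindDomain O] [IsFractionRing O K] [IsDedekindDomain P] [IsFractionRing P K] in
private theorem CDn_card (n D a : ℕ) :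
    (T.TBox n (fun _ : Fin 1 => D) a).card = (T.Box n D a).card := by
  unfold TBox
  rw [Fintype.card_piFinset, Fin.prod_univ_one]

omit [IsDedekindDomain O] [IsFractionRing O K] [IsDedekindDomain P] [IsFractionRing P K] in
private theorem CDn_emb (n D a : ℕ) (q : Tup n (fun _ : Fin 1 => D) O → Prop) :
    ((T.Box n D a).filter fun F => q (fun _ => F)).card ≤
      ((T.TBox n (fun _ : Fin 1 => D) a).filter fun F => q F).card := by
  refine Finset.card_le_card_of_injOn (fun F => fun _ => F) ?_ ?_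
  · intro F hF
    have hF' := Finset.mem_filter.1 (Finset.mem_coe.1 hF)
    refine Finset.mem_coe.2 (Finset.mem_filter.2 ⟨?_, hF'.2⟩)
    exact Fintype.mem_piFinset.2 fun _ => hF'.1
  · intro F _ G _ hFG
    exact congrFun hFG 0

/-- Counting in the first chart. -/
private theorem CDn_O (n D a : ℕ) {I : Ideal O} (hI : I ≠ ⊥) (ha : T.C1 * nI I ≤ T.Q ^ a)
    (p : Ten n D (O ⧸ I) → Prop) (ε : ℝ)
    (h : (Nat.card {G : Ten n D (O ⧸ I) // p G} : ℝ) ≤ ε * (nI I : ℝ) ^ (n + 1) ^ D) :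
    (((T.Box n D a).filter fun F => p (tmap (Ideal.Quotient.mk I) F)).card : ℝ) ≤
      ε * ((T.Box n D a).card : ℝ) := by
  have h1 := T.equiO n (fun _ : Fin 1 => D) hI ha
    {G : Tup n (fun _ : Fin 1 => D) (O ⧸ I) | p (G 0)}
  rw [CDn_VV, CDn_one, T.CDn_card] at h1
  have h2 : ((T.Box n D a).filter fun F => p (tmap (Ideal.Quotient.mk I) F)).card ≤
      ((T.TBox n (fun _ : Fin 1 => D) a).filter fun F => red I F ∈
        {G : Tup n (fun _ : Fin 1 => D) (O ⧸ I) | p (G 0)}).card :=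
    T.CDn_emb n D a fun F => p (red I F 0)
  have h3 : (0 : ℝ) < (nI I : ℝ) := by exact_mod_cast nI_pos T.finO hI
  have h4 : (((T.Box n D a).filter fun F => p (tmap (Ideal.Quotient.mk I) F)).card : ℝ) ≤
      (((T.TBox n (fun _ : Fin 1 => D) a).filter fun F => red I F ∈
        {G : Tup n (fun _ : Fin 1 => D) (O ⧸ I) | p (G 0)}).card : ℝ) := by
    exact_mod_cast h2
  refine h4.trans (CDn_real (pow_pos h3 ((n + 1) ^ D)) ?_ (Nat.cast_nonneg _) h)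
  exact_mod_cast h1

/-- Counting in the second chart. -/
private theorem CDn_P (n D a : ℕ) {J : Ideal P} (hJ : J ≠ ⊥) (ha : T.C1 * nI J ≤ T.Q ^ a)
    (p : Ten n D (P ⧸ J) → Prop) (ε : ℝ)
    (h : (Nat.card {G : Ten n D (P ⧸ J) // p G} : ℝ) ≤ ε * (nI J : ℝ) ^ (n + 1) ^ D) :
    (((T.Box n D a).filter fun F => p (tmap (Ideal.Quotient.mk J) (T.ttw a F))).card : ℝ) ≤
      ε * ((T.Box n D a).card : ℝ) := by
  have h1 := T.equiP n (fun _ : Fin 1 => D) hJ ha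
    {G : Tup n (fun _ : Fin 1 => D) (P ⧸ J) | p (G 0)}
  rw [CDn_VV, CDn_one, T.CDn_card] at h1
  have h2 : ((T.Box n D a).filter fun F => p (tmap (Ideal.Quotient.mk J) (T.ttw a F))).card ≤
      ((T.TBox n (fun _ : Fin 1 => D) a).filter fun F => red J (T.ftw a F) ∈
        {G : Tup n (fun _ : Fin 1 => D) (P ⧸ J) | p (G 0)}).card :=
    T.CDn_emb n D a fun F => p (red J (T.ftw a F) 0)
  have h3 : (0 : ℝ) < (nI J : ℝ) := by exact_mod_cast nI_pos T.finP hJ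
  have h4 : (((T.Box n D a).filter fun F =>
        p (tmap (Ideal.Quotient.mk J) (T.ttw a F))).card : ℝ) ≤
      (((T.TBox n (fun _ : Fin 1 => D) a).filter fun F => red J (T.ftw a F) ∈
        {G : Tup n (fun _ : Fin 1 => D) (P ⧸ J) | p (G 0)}).card : ℝ) := by
    exact_mod_cast h2
  refine h4.trans (CDn_real (pow_pos h3 ((n + 1) ^ D)) ?_ (Nat.cast_nonneg _) h)
  exact_mod_cast h1

theorem densC [Infinite O] [Infinite P] (n r m : ℕ) (hn : 2 ≤ n) (hr : 2 ≤ r) (hm : 1 ≤ m)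
    (hK : (r : K) ≠ 0) (ε : ℝ) (hε : 0 < ε) :
    ∃ τ : ℝ, 0 < τ ∧ ∃ w0 : ℕ, ∀ w : ℕ, w0 ≤ w → ∃ a1 : ℕ, ∀ a : ℕ, a1 ≤ a →
      (((T.Box n (r * m) a).filter fun F => PSolS r 1 F ∧ PSolS r (T.s ^ jw r a) (T.ttw a F) ∧
        (smSI r 1 (WD O w) F : ℝ) *
            smSI r (T.s ^ jw r a) (T.sJ (jw r a) (WD P w)) (T.ttw a F) <
          τ * ((nI (WD O w) * nI (T.sJ (jw r a) (WD P w)) : ℕ) : ℝ) ^ (n + 1)).card : ℝ) ≤
        ε * ((T.Box n (r * m) a).card : ℝ) := by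
  have := T.FQO
  have := T.FQP
  have hO : (r : O) ≠ 0 := by
    intro h
    apply hK
    rw [← map_natCast (algebraMap O K), h, map_zero]
  have hP : (r : P) ≠ 0 := by
    intro h
    apply hK
    rw [← map_natCast (algebraMap P K), h, map_zero]
  have hs := T.s_ne'
  have hε2 : 0 < ε / 2 := by linarith
  obtain ⟨τ1, hτ1, w1, h1⟩ := locDensS O r n m hr hn hm hO 1 one_ne_zero (ε / 2) hε2
  have hPj : ∀ j : ℕ, ∃ τ : ℝ, 0 < τ ∧ ∃ w0 : ℕ, ∀ w : ℕ, w0 ≤ w → ∀ I : Ideal P, I ≠ ⊥ →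
      I ≤ WD P w →
      (Nat.card {G : Ten n (r * m) (P ⧸ I) // (∃ F : Ten n (r * m) P,
          tmap (Ideal.Quotient.mk I) F = G ∧ PSolS r (T.s ^ j) F) ∧
          (smS r (Ideal.Quotient.mk I (T.s ^ j)) G : ℝ) < τ * (nI I : ℝ) ^ (n + 1)} : ℝ) ≤
        ε / 2 * (nI I : ℝ) ^ (n + 1) ^ (r * m) := fun j =>
    locDensS P r n m hr hn hm hP (T.s ^ j) (pow_ne_zero j hs) (ε / 2) hε2
  choose τ' hτ' w' h2 using hPj
  obtain ⟨τ0, hτ0, h3⟩ := CDn_min r τ' hτ'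
  refine ⟨τ1 * τ0, mul_pos hτ1 hτ0, w1 + ∑ j ∈ Finset.range (r + 1), w' j, fun w hw => ?_⟩
  have hWO : WD O w ≠ ⊥ := WD_ne_bot (T.fewO w)
  have hWP : WD P w ≠ ⊥ := WD_ne_bot (T.fewP w)
  have hJ : ∀ j, T.sJ j (WD P w) ≠ ⊥ := by
    intro j h
    unfold sJ at h
    rcases Ideal.mul_eq_bot.1 h with h4 | h4
    · have h5 : Ideal.span {T.s} ≠ (⊥ : Ideal P) := fun h6 =>
        hs (Ideal.span_singleton_eq_bot.1 h6)
      exact pow_ne_zero j h5 h4
    · exact hWP h4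
  have hJle : ∀ j, T.sJ j (WD P w) ≤ WD P w := fun j => Ideal.mul_le_right
  have hw' : ∀ j ≤ r, w' j ≤ w := by
    intro j hj
    have h4 : w' j ≤ ∑ j ∈ Finset.range (r + 1), w' j :=
      Finset.single_le_sum (f := w') (fun _ _ => Nat.zero_le _)
        (Finset.mem_range.2 (Nat.lt_succ_of_le hj))
    omega
  refine ⟨T.C1 * (nI (WD O w) + ∑ j ∈ Finset.range (r + 1), nI (T.sJ j (WD P w))),
    fun a ha => ?_⟩
  have hQ : ∀ N : ℕ, T.C1 * N ≤ a → T.C1 * N ≤ T.Q ^ a := fun N hN =>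
    hN.trans (Nat.lt_pow_self T.two_le).le
  have haO : T.C1 * nI (WD O w) ≤ T.Q ^ a :=
    hQ _ ((Nat.mul_le_mul_left _ (Nat.le_add_right _ _)).trans ha)
  have haP : ∀ j ≤ r, T.C1 * nI (T.sJ j (WD P w)) ≤ T.Q ^ a := by
    intro j hj
    refine hQ _ ((Nat.mul_le_mul_left _ ?_).trans ha)
    refine le_trans ?_ (Nat.le_add_left _ _)
    exact Finset.single_le_sum (f := fun j => nI (T.sJ j (WD P w))) (fun _ _ => Nat.zero_le _)
      (Finset.mem_range.2 (Nat.lt_succ_of_le hj))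
  have hj := jw_le r a
  generalize jw r a = j at hj ⊢
  have hA := T.CDn_O n (r * m) a hWO haO (fun G => (∃ F : Ten n (r * m) O,
          tmap (Ideal.Quotient.mk (WD O w)) F = G ∧ PSolS r 1 F) ∧
          (smS r (Ideal.Quotient.mk (WD O w) 1) G : ℝ) < τ1 * (nI (WD O w) : ℝ) ^ (n + 1))
    (ε / 2) (h1 w (by omega) (WD O w) hWO le_rfl)
  have hB := T.CDn_P n (r * m) a (hJ j) (haP j hj) (fun G => (∃ F : Ten n (r * m) P,
          tmap (Ideal.Quotient.mk (T.sJ j (WD P w))) F = G ∧ PSolS r (T.s ^ j) F) ∧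
          (smS r (Ideal.Quotient.mk (T.sJ j (WD P w)) (T.s ^ j)) G : ℝ) <
            τ' j * (nI (T.sJ j (WD P w)) : ℝ) ^ (n + 1))
    (ε / 2) (h2 j w (hw' j hj) _ (hJ j) (hJle j))
  refine CDn_fin hA hB fun F hF => ?_
  obtain ⟨hF1, hF2, hF3, hF4⟩ := Finset.mem_filter.1 hF
  refine ⟨hF1, ?_⟩
  by_contra hcon
  rw [not_or] at hcon
  obtain ⟨hc1, hc2⟩ := hcon
  have hd1 : τ1 * (nI (WD O w) : ℝ) ^ (n + 1) ≤ (smSI r 1 (WD O w) F : ℝ) := by
    by_contra hlt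
    exact hc1 ⟨⟨F, rfl, hF2⟩, not_le.1 hlt⟩
  have hd2 : τ' j * (nI (T.sJ j (WD P w)) : ℝ) ^ (n + 1) ≤
      (smSI r (T.s ^ j) (T.sJ j (WD P w)) (T.ttw a F) : ℝ) := by
    by_contra hlt
    exact hc2 ⟨⟨T.ttw a F, rfl, hF3⟩, not_le.1 hlt⟩
  refine absurd hF4 (not_lt.2 ?_)
  push_cast
  rw [mul_pow]
  have hp1 : (0 : ℝ) ≤ (nI (WD O w) : ℝ) ^ (n + 1) := by positivity
  have hp2 : (0 : ℝ) ≤ (nI (T.sJ j (WD P w)) : ℝ) ^ (n + 1) := by positivity
  calc τ1 * τ0 * ((nI (WD O w) : ℝ) ^ (n + 1) * (nI (T.sJ j (WD P w)) : ℝ) ^ (n + 1))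
      = (τ1 * (nI (WD O w) : ℝ) ^ (n + 1)) *
          (τ0 * (nI (T.sJ j (WD P w)) : ℝ) ^ (n + 1)) := by ring
    _ ≤ (smSI r 1 (WD O w) F : ℝ) * smSI r (T.s ^ j) (T.sJ j (WD P w)) (T.ttw a F) := by
      refine mul_le_mul hd1 ?_ (mul_nonneg hτ0.le hp2) (Nat.cast_nonneg _)
      exact (mul_le_mul_of_nonneg_right (h3 j hj) hp2).trans hd2

end TC

end Pool.Agent.Lib.MP_1ad228_ntZ
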