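import Pool.Agent.Lib.MP_1ad228_ntZC.CRoot
import Pool.Agent.Lib.MP_1ad228_ntZ.DvCnt

/-!
LEAF CEul.  Sums of `rt` over ideals and over pairs of ideals.  Model: Lib/MP_1ad228_ntY/RtSum.lean.
rtEuler: by rtUpS and eulerS with `φ p 0 = 1`, `φ p j = (r/q) q^(-j/4)` for `j ≥ 1`, `q = nI p` (`rt I * N(I)^(-5/4) ≤ ∏ φ_p(v_p(I))`): the sum is at most `∏_p (1 + (r/q) ∑_(j ≥ 1) q^(-j/4)) ≤ exp(C r ∑_p q^(-5/4))`, and `∑_p q^(-5/4)` over any finite set of nonzero ideals is bounded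
(dyadic ranges and `FQ.cnt`).  (For the model's `rtSum` with the bound `Q` for `N(I) ≤ Q^4` the Rankin factor was inserted; here we keep the sum with the exponent `-5/4`.)
rtPair: the sum over `S` is at most the product of the sums over the two projections of `S` (all terms `≥ 0`).
rtUpTo: `N^γ = N^(-5/4) N^(γ + 5/4) ≤ N^(-5/4) X^(γ + 5/4)`.  rtTailP: `N^(-2) = N^(-5/4) N^(-3/4)`, `N ≥ w + 1`.
-/

namespace Pool.Agent.Lib.MP_1ad228_ntZ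

open Classical

/-- The fourth root. -/
private noncomputable def CEul_x (a : ℝ) : ℝ := Real.sqrt (Real.sqrt a)

private theorem CEul_x0 (a : ℝ) : 0 ≤ CEul_x a := Real.sqrt_nonneg _

private theorem CEul_x4 {a : ℝ} (ha : 0 ≤ a) : CEul_x a ^ 4 = a := by
  have h1 : CEul_x a ^ 4 = ((Real.sqrt (Real.sqrt a)) ^ 2) ^ 2 := by
    unfold CEul_x
    ring
  rw [h1, Real.sq_sqrt (Real.sqrt_nonneg _), Real.sq_sqrt ha]

private theorem CEul_rpow {a : ℝ} (ha : 0 < a) : a ^ (-(5 / 4) : ℝ) = 1 / (a * CEul_x a) := by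
  have h1 : CEul_x a = a ^ (1 / 4 : ℝ) := by
    unfold CEul_x
    rw [Real.sqrt_eq_rpow, Real.sqrt_eq_rpow, ← Real.rpow_mul ha.le]
    norm_num
  rw [h1, Real.rpow_neg ha.le, one_div]
  congr 1
  have h2 : a * a ^ (1 / 4 : ℝ) = a ^ (1 : ℝ) * a ^ (1 / 4 : ℝ) := by rw [Real.rpow_one]
  rw [h2, ← Real.rpow_add ha]
  norm_num

section dede
variable {R : Type} [CommRing R] [IsDedekindDomain R] [FQ R]

private theorem CEul_norm {I : Ideal R} (hI : I ≠ ⊥) : nI I ≠ 0 :=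
  (nI_pos (FQ.fin (R := R)) hI).ne'

variable (R) in
/-- The sum of `N ^ (- 5 / 4)`. -/
private theorem CEul_P : ∃ C : ℝ, 0 ≤ C ∧ ∀ T : Finset (Ideal R), (∀ P ∈ T, P ≠ ⊥) →
    ∑ P ∈ T, 1 / ((nI P : ℝ) * CEul_x (nI P)) ≤ C := by
  obtain ⟨C8, h8, H8⟩ := FQ.cnt (R := R)
  refine ⟨32 * C8, by linarith, fun T hT => ?_⟩
  obtain ⟨M, hM⟩ : ∃ M : ℕ, ∀ P ∈ T, Nat.log 16 (nI P) ∈ Finset.range M :=
    ⟨T.sup (fun P => Nat.log 16 (nI P)) + 1, fun P hP => Finset.mem_range.2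
      (Nat.lt_succ_of_le (Finset.le_sup (f := fun P => Nat.log 16 (nI P)) hP))⟩
  rw [← Finset.sum_fiberwise_of_maps_to hM]
  have h1 : ∀ i ∈ Finset.range M, ∑ P ∈ T.filter (fun P => Nat.log 16 (nI P) = i),
      1 / ((nI P : ℝ) * CEul_x (nI P)) ≤ 16 * C8 * (1 / 2) ^ i := by
    intro i _
    have h2 : ∀ P ∈ T.filter (fun P => Nat.log 16 (nI P) = i),
        1 / ((nI P : ℝ) * CEul_x (nI P)) ≤ 1 / ((16 : ℝ) ^ i * 2 ^ i) := by
      intro P hP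
      obtain ⟨hP1, hP2⟩ := Finset.mem_filter.1 hP
      have h3 : 16 ^ i ≤ nI P := by
        rw [← hP2]
        exact Nat.pow_log_le_self 16 (CEul_norm (hT P hP1))
      have h4 : (16 : ℝ) ^ i ≤ (nI P : ℝ) := by exact_mod_cast h3
      have h5 : (2 : ℝ) ^ i ≤ CEul_x (nI P) := by
        rw [← pow_le_pow_iff_left₀ (by positivity) (CEul_x0 _) (by norm_num : (4 : ℕ) ≠ 0),
          CEul_x4 (Nat.cast_nonneg _), ← pow_mul, mul_comm i 4, pow_mul]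
        norm_num
        exact h4
      exact one_div_le_one_div_of_le (by positivity) (mul_le_mul h4 h5 (by positivity) (by positivity))
    refine (Finset.sum_le_card_nsmul _ _ _ h2).trans ?_
    rw [nsmul_eq_mul]
    have h6 : ((T.filter (fun P => Nat.log 16 (nI P) = i)).card : ℝ) ≤ C8 * 16 ^ (i + 1) := by
      refine H8 (16 ^ (i + 1)) (one_le_pow₀ (by norm_num)) _ fun P hP => ⟨hT P (Finset.mem_filter.1 hP).1, ?_⟩
      have h7 := Nat.lt_pow_succ_log_self (b := 16) (by norm_num) (nI P)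
      rw [(Finset.mem_filter.1 hP).2] at h7
      exact_mod_cast h7.le
    calc ((T.filter (fun P => Nat.log 16 (nI P) = i)).card : ℝ) * (1 / (16 ^ i * 2 ^ i))
        ≤ (C8 * 16 ^ (i + 1)) * (1 / (16 ^ i * 2 ^ i)) := mul_le_mul_of_nonneg_right h6 (by positivity)
      _ = 16 * C8 * (1 / 2) ^ i := by
          rw [pow_succ, one_div_pow]
          field_simp
  refine (Finset.sum_le_sum h1).trans ?_
  rw [← Finset.mul_sum]
  have h9 := sum_geometric_two_le M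
  calc 16 * C8 * ∑ i ∈ Finset.range M, (1 / (2 : ℝ)) ^ i ≤ 16 * C8 * 2 :=
        mul_le_mul_of_nonneg_left h9 (by linarith)
    _ = 32 * C8 := by ring

/-- The function of the Euler product. -/
private noncomputable def CEul_f (r : ℕ) (P : Ideal R) (j : ℕ) : ℝ :=
  if j = 0 then 1 else ((r : ℝ) / nI P) / CEul_x (nI P) ^ j

omit [IsDedekindDomain R] [FQ R] in
private theorem CEul_f0 (r : ℕ) (P : Ideal R) (j : ℕ) : 0 ≤ CEul_f r P j := by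
  unfold CEul_f
  split_ifs
  · norm_num
  · exact div_nonneg (div_nonneg (Nat.cast_nonneg _) (Nat.cast_nonneg _)) (pow_nonneg (CEul_x0 _) _)

private theorem CEul_q {P : Ideal R} (hP : P.IsPrime ∧ P ≠ ⊥) : 2 ≤ nI P :=
  two_le_nI (FQ.fin (R := R)) hP.2 hP.1.ne_top

private theorem CEul_x7 {P : Ideal R} (hP : P.IsPrime ∧ P ≠ ⊥) : 7 / 6 ≤ CEul_x (nI P) := by
  have h1 : (2 : ℝ) ≤ nI P := by exact_mod_cast CEul_q hP
  rw [← pow_le_pow_iff_left₀ (by positivity) (CEul_x0 _) (by norm_num : (4 : ℕ) ≠ 0),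
    CEul_x4 (Nat.cast_nonneg _)]
  norm_num
  linarith

omit R in
private theorem CEul_geom {y : ℝ} (h0 : 0 ≤ y) (h1 : y ≤ 6 / 7) (J : ℕ) :
    ∑ j ∈ Finset.range J, y ^ j ≤ 7 := by
  have h2 := geom_sum_mul_neg y J
  have h3 : 0 ≤ ∑ j ∈ Finset.range J, y ^ j := Finset.sum_nonneg fun j _ => pow_nonneg h0 j
  have h4 : 0 ≤ y ^ J := pow_nonneg h0 J
  nlinarith

private theorem CEul_fac (r : ℕ) {P : Ideal R} (hP : P.IsPrime ∧ P ≠ ⊥) (J : ℕ) :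
    ∑ j ∈ Finset.range (J + 1), CEul_f r P j ≤
      Real.exp (7 * r * (1 / ((nI P : ℝ) * CEul_x (nI P)))) := by
  have hx := CEul_x7 hP
  have hq : (2 : ℝ) ≤ nI P := by exact_mod_cast CEul_q hP
  set x : ℝ := CEul_x (nI P) with hxd
  set q : ℝ := (nI P : ℝ) with hqd
  have hx0 : 0 < x := by linarith
  have h1 : ∑ j ∈ Finset.range (J + 1), CEul_f r P j =
      1 + (r / q) / x * ∑ j ∈ Finset.range J, (1 / x) ^ j := by
    rw [Finset.sum_range_succ', Finset.mul_sum, add_comm]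
    congr 1
    refine Finset.sum_congr rfl fun j _ => ?_
    unfold CEul_f
    rw [if_neg (Nat.succ_ne_zero j), ← hxd, ← hqd, one_div_pow, pow_succ]
    field_simp
  have h2 : ∑ j ∈ Finset.range J, (1 / x) ^ j ≤ 7 := by
    refine CEul_geom (by positivity) ?_ J
    rw [div_le_iff₀ hx0]
    linarith
  rw [h1]
  have h3 : (r / q) / x * ∑ j ∈ Finset.range J, (1 / x) ^ j ≤ (r / q) / x * 7 :=
    mul_le_mul_of_nonneg_left h2 (by positivity)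
  have h4 : (r / q) / x * 7 = 7 * r * (1 / (q * x)) := by
    field_simp
  have h5 := Real.add_one_le_exp (7 * r * (1 / (q * x)))
  linarith

private theorem CEul_one {r : ℕ} (hr : 1 ≤ r) {I : Ideal R} (hI : I ≠ ⊥) (T : Finset (Ideal R))
    (hT : ∀ P ∈ T, P.IsPrime ∧ P ≠ ⊥)
    (hIT : ∀ P : Ideal R, P.IsPrime → P ≠ ⊥ → I ≤ P → P ∈ T) :
    (rt r I : ℝ) * (nI I : ℝ) ^ (-(5 / 4) : ℝ) ≤ ∏ P ∈ T, CEul_f r P (vR P I) := by
  obtain ⟨h1, h2⟩ := rtUpS (FQ.fin (R := R)) hr hI T hT hIT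
  have hNI : (0 : ℝ) < nI I := by exact_mod_cast nI_pos (FQ.fin (R := R)) hI
  have hX0 : 0 < ∏ P ∈ T, CEul_x (nI P) ^ vR P I :=
    Finset.prod_pos fun P hP => pow_pos (by linarith [CEul_x7 (hT P hP)]) _
  have hX : CEul_x (nI I) = ∏ P ∈ T, CEul_x (nI P) ^ vR P I := by
    rw [← pow_left_inj₀ (CEul_x0 _) hX0.le (by norm_num : (4 : ℕ) ≠ 0), CEul_x4 (Nat.cast_nonneg _),
      ← Finset.prod_pow, h1]
    refine Finset.prod_congr rfl fun P _ => ?_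
    rw [← pow_mul, mul_comm, pow_mul, CEul_x4 (Nat.cast_nonneg _)]
  have hN0 : 0 < ∏ P ∈ T, (nI P : ℝ) ^ vR P I := by
    rw [← h1]
    exact hNI
  set g : Ideal R → ℝ := fun P => if vR P I = 0 then 1
      else (r : ℝ) * (nI P : ℝ) ^ (vR P I - 1) with hg
  have h3 : ∏ P ∈ T, CEul_f r P (vR P I) = (∏ P ∈ T, g P) /
      ((∏ P ∈ T, (nI P : ℝ) ^ vR P I) * ∏ P ∈ T, CEul_x (nI P) ^ vR P I) := by
    rw [← Finset.prod_mul_distrib, ← Finset.prod_div_distrib]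
    refine Finset.prod_congr rfl fun P hP => ?_
    have hx := CEul_x7 (hT P hP)
    have hq : (2 : ℝ) ≤ nI P := by exact_mod_cast CEul_q (hT P hP)
    have hx0 : 0 < CEul_x (nI P) := by linarith
    have hq0 : (0 : ℝ) < nI P := by linarith
    unfold CEul_f
    simp only [hg]
    split_ifs with hv
    · rw [hv]
      norm_num
    · obtain ⟨k, hk⟩ := Nat.exists_eq_succ_of_ne_zero hv
      rw [hk, Nat.succ_sub_one, Nat.succ_eq_add_one, pow_succ (nI P : ℝ) k]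
      field_simp
  rw [h3, CEul_rpow hNI, hX, h1, mul_one_div]
  exact div_le_div_of_nonneg_right h2 (mul_pos hN0 hX0).le

end dede

theorem rtEuler (R : Type) [CommRing R] [IsDedekindDomain R] [Infinite R] [FQ R] (r : ℕ)
    (hr : 1 ≤ r) : ∃ C : ℝ, 1 ≤ C ∧ ∀ S : Finset (Ideal R), (∀ I ∈ S, I ≠ ⊥) →
    ∑ I ∈ S, (rt r I : ℝ) * (nI I : ℝ) ^ (-(5 / 4) : ℝ) ≤ C := by
  obtain ⟨C, hC0, hC⟩ := CEul_P R
  refine ⟨Real.exp (7 * r * C), Real.one_le_exp (by positivity), fun S hS => ?_⟩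
  set T : Finset (Ideal R) :=
    S.biUnion (fun I => (UniqueFactorizationMonoid.normalizedFactors I).toFinset) with hTd
  have hT : ∀ P ∈ T, P.IsPrime ∧ P ≠ ⊥ := by
    intro P hP
    obtain ⟨I, hI, hPI⟩ := Finset.mem_biUnion.1 hP
    have h1 := (Ideal.mem_normalizedFactors_iff (hS I hI)).1 (Multiset.mem_toFinset.1 hPI)
    refine ⟨h1.1, fun h => hS I hI ?_⟩
    rw [h] at h1
    exact le_bot_iff.1 h1.2
  have hST : ∀ I ∈ S, ∀ P : Ideal R, P.IsPrime → P ≠ ⊥ → I ≤ P → P ∈ T := by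
    intro I hI P hP _ hIP
    exact Finset.mem_biUnion.2 ⟨I, hI, Multiset.mem_toFinset.2
      ((Ideal.mem_normalizedFactors_iff (hS I hI)).2 ⟨hP, hIP⟩)⟩
  set J : ℕ := ∑ I ∈ S, ∑ P ∈ T, vR P I with hJd
  have hJ : ∀ I ∈ S, ∀ P ∈ T, vR P I ≤ J := by
    intro I hI P hP
    refine le_trans (Finset.single_le_sum (f := fun P => vR P I) (fun _ _ => Nat.zero_le _) hP) ?_
    exact Finset.single_le_sum (f := fun I => ∑ P ∈ T, vR P I) (fun _ _ => Nat.zero_le _) hI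
  calc ∑ I ∈ S, (rt r I : ℝ) * (nI I : ℝ) ^ (-(5 / 4) : ℝ)
      ≤ ∑ I ∈ S, ∏ P ∈ T, CEul_f r P (vR P I) :=
        Finset.sum_le_sum fun I hI => CEul_one hr (hS I hI) T hT (hST I hI)
    _ ≤ ∏ P ∈ T, ∑ j ∈ Finset.range (J + 1), CEul_f r P j :=
        eulerS S T J hS hT hST hJ (CEul_f r) (CEul_f0 r)
    _ ≤ ∏ P ∈ T, Real.exp (7 * r * (1 / ((nI P : ℝ) * CEul_x (nI P)))) :=
        Finset.prod_le_prod (fun P _ => Finset.sum_nonneg fun j _ => CEul_f0 r P j)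
          (fun P hP => CEul_fac r (hT P hP) J)
    _ = Real.exp (7 * r * ∑ P ∈ T, 1 / ((nI P : ℝ) * CEul_x (nI P))) := by
        rw [← Real.exp_sum, ← Finset.mul_sum]
    _ ≤ Real.exp (7 * r * C) :=
        Real.exp_le_exp.2 (mul_le_mul_of_nonneg_left
          (hC T fun P hP => (hT P hP).2) (by positivity))

namespace TC
variable {K O P : Type} [Field K] [CommRing O] [IsDedekindDomain O] [Algebra O K]
  [IsFractionRing O K] [CommRing P] [IsDedekindDomain P] [Algebra P K]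
  [IsFractionRing P K] (T : TC K O P)

include T in
theorem rtPair [Infinite O] [Infinite P] (r : ℕ) (hr : 1 ≤ r) : ∃ C : ℝ, 1 ≤ C ∧
    ∀ S : Finset (Ideal O × Ideal P), (∀ p ∈ S, p.1 ≠ ⊥ ∧ p.2 ≠ ⊥) →
    ∑ p ∈ S, (rt r p.1 : ℝ) * rt r p.2 * ((nI p.1 : ℝ) * nI p.2) ^ (-(5 / 4) : ℝ) ≤ C := by
  have hO : FQ O := T.FQO
  have hP : FQ P := T.FQP
  obtain ⟨C1, h1, H1⟩ := rtEuler O r hr
  obtain ⟨C2, h2, H2⟩ := rtEuler P r hr
  refine ⟨C1 * C2, by nlinarith, fun S hS => ?_⟩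
  have hsub : S ⊆ S.image Prod.fst ×ˢ S.image Prod.snd := by
    intro p hp
    exact Finset.mem_product.2 ⟨Finset.mem_image_of_mem _ hp, Finset.mem_image_of_mem _ hp⟩
  have hA : ∀ I ∈ S.image Prod.fst, I ≠ ⊥ := by
    intro I hI
    obtain ⟨p, hp, rfl⟩ := Finset.mem_image.1 hI
    exact (hS p hp).1
  have hB : ∀ I ∈ S.image Prod.snd, I ≠ ⊥ := by
    intro I hI
    obtain ⟨p, hp, rfl⟩ := Finset.mem_image.1 hI
    exact (hS p hp).2
  have hn1 : 0 ≤ ∑ I ∈ S.image Prod.fst, (rt r I : ℝ) * (nI I : ℝ) ^ (-(5 / 4) : ℝ) :=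
    Finset.sum_nonneg fun I _ => by positivity
  calc ∑ p ∈ S, (rt r p.1 : ℝ) * rt r p.2 * ((nI p.1 : ℝ) * nI p.2) ^ (-(5 / 4) : ℝ)
      ≤ ∑ p ∈ S.image Prod.fst ×ˢ S.image Prod.snd,
          (rt r p.1 : ℝ) * rt r p.2 * ((nI p.1 : ℝ) * nI p.2) ^ (-(5 / 4) : ℝ) :=
        Finset.sum_le_sum_of_subset_of_nonneg hsub fun p _ _ => by positivity
    _ = (∑ I ∈ S.image Prod.fst, (rt r I : ℝ) * (nI I : ℝ) ^ (-(5 / 4) : ℝ)) *
          ∑ I ∈ S.image Prod.snd, (rt r I : ℝ) * (nI I : ℝ) ^ (-(5 / 4) : ℝ) := by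
        rw [Finset.sum_product, Finset.sum_mul]
        refine Finset.sum_congr rfl fun I _ => ?_
        rw [Finset.mul_sum]
        refine Finset.sum_congr rfl fun J _ => ?_
        rw [Real.mul_rpow (Nat.cast_nonneg _) (Nat.cast_nonneg _)]
        ring
    _ ≤ C1 * C2 := mul_le_mul (H1 _ hA) (H2 _ hB) (Finset.sum_nonneg fun I _ => by positivity)
        (by linarith)

include T in
theorem rtUpTo [Infinite O] [Infinite P] (r : ℕ) (hr : 1 ≤ r) (γ : ℝ) (hγ : -(5 / 4) ≤ γ) :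
    ∃ C : ℝ, 1 ≤ C ∧ ∀ X : ℝ, 1 ≤ X → ∀ S : Finset (Ideal O × Ideal P),
    (∀ p ∈ S, p.1 ≠ ⊥ ∧ p.2 ≠ ⊥ ∧ (nI p.1 : ℝ) * nI p.2 ≤ X) →
    ∑ p ∈ S, (rt r p.1 : ℝ) * rt r p.2 * ((nI p.1 : ℝ) * nI p.2) ^ γ ≤ C * X ^ (γ + 5 / 4) := by
  obtain ⟨C, hC1, hC⟩ := T.rtPair r hr
  refine ⟨C, hC1, fun X hX S hS => ?_⟩
  have hX0 : 0 ≤ X ^ (γ + 5 / 4) := Real.rpow_nonneg (by linarith) _
  have h1 := mul_le_mul_of_nonneg_right (hC S fun p hp => ⟨(hS p hp).1, (hS p hp).2.1⟩) hX0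
  refine le_trans ?_ h1
  rw [Finset.sum_mul]
  refine Finset.sum_le_sum fun p hp => ?_
  obtain ⟨g1, g2, g3⟩ := hS p hp
  have hN : (0 : ℝ) < (nI p.1 : ℝ) * nI p.2 := by
    have a1 := nI_pos T.finO g1
    have a2 := nI_pos T.finP g2
    positivity
  have h2 : ((nI p.1 : ℝ) * nI p.2) ^ γ =
      ((nI p.1 : ℝ) * nI p.2) ^ (-(5 / 4) : ℝ) * ((nI p.1 : ℝ) * nI p.2) ^ (γ + 5 / 4) := by
    rw [← Real.rpow_add hN]
    congr 1
    ring
  have h3 : ((nI p.1 : ℝ) * nI p.2) ^ (γ + 5 / 4) ≤ X ^ (γ + 5 / 4) :=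
    Real.rpow_le_rpow hN.le g3 (by linarith)
  rw [h2, ← mul_assoc]
  exact mul_le_mul_of_nonneg_left h3 (by positivity)

include T in
theorem rtTailP [Infinite O] [Infinite P] (r : ℕ) (hr : 1 ≤ r) : ∃ C : ℝ, 1 ≤ C ∧
    ∀ (w : ℕ) (S : Finset (Ideal O × Ideal P)),
    (∀ p ∈ S, p.1 ≠ ⊥ ∧ p.2 ≠ ⊥ ∧ (w : ℝ) < (nI p.1 : ℝ) * nI p.2) →
    ∑ p ∈ S, (rt r p.1 : ℝ) * rt r p.2 / ((nI p.1 : ℝ) * nI p.2) ^ 2 ≤
      C * ((w : ℝ) + 1) ^ (-(3 / 4) : ℝ) := by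
  obtain ⟨C, hC1, hC⟩ := T.rtPair r hr
  refine ⟨C, hC1, fun w S hS => ?_⟩
  have hw : (0 : ℝ) < (w : ℝ) + 1 := by positivity
  have hX0 : 0 ≤ ((w : ℝ) + 1) ^ (-(3 / 4) : ℝ) := Real.rpow_nonneg hw.le _
  have h1 := mul_le_mul_of_nonneg_right (hC S fun p hp => ⟨(hS p hp).1, (hS p hp).2.1⟩) hX0
  refine le_trans ?_ h1
  rw [Finset.sum_mul]
  refine Finset.sum_le_sum fun p hp => ?_
  obtain ⟨g1, g2, g3⟩ := hS p hp
  have hN : (0 : ℝ) < (nI p.1 : ℝ) * nI p.2 := by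
    have a1 := nI_pos T.finO g1
    have a2 := nI_pos T.finP g2
    positivity
  have hle : (w : ℝ) + 1 ≤ (nI p.1 : ℝ) * nI p.2 := by
    have h2 : w < nI p.1 * nI p.2 := by exact_mod_cast g3
    have h3 : w + 1 ≤ nI p.1 * nI p.2 := h2
    exact_mod_cast h3
  have h2 : 1 / ((nI p.1 : ℝ) * nI p.2) ^ 2 =
      ((nI p.1 : ℝ) * nI p.2) ^ (-(5 / 4) : ℝ) * ((nI p.1 : ℝ) * nI p.2) ^ (-(3 / 4) : ℝ) := by
    rw [← Real.rpow_add hN]
    have h3 : (-(5 / 4) : ℝ) + (-(3 / 4)) = -((2 : ℕ) : ℝ) := by norm_num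
    rw [h3, Real.rpow_neg hN.le, Real.rpow_natCast, one_div]
  have h3 : ((nI p.1 : ℝ) * nI p.2) ^ (-(3 / 4) : ℝ) ≤ ((w : ℝ) + 1) ^ (-(3 / 4) : ℝ) :=
    Real.rpow_le_rpow_of_nonpos hw hle (by norm_num)
  rw [← mul_one_div, h2, ← mul_assoc]
  exact mul_le_mul_of_nonneg_left h3 (by positivity)

end TC

end Pool.Agent.Lib.MP_1ad228_ntZ
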