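import Pool.Agent.Lib.MP_1ad228_ntZC.CHens
import Pool.Agent.Lib.MP_1ad228_ntZC.CCrt
import Pool.Agent.Lib.MP_1ad228_ntZC.CDel
import Pool.Agent.Lib.MP_1ad228_ntY.PChebY
import Pool.Agent.Lib.MP_1ad228_ntZ.LocDens

/-!
LEAF CLoc.  The local densities.  Models with proof: Lib/MP_1ad228_ntZ/LZ_Dens.lean (complete intersections, same ring `R`, modulus `I`), Lib/MP_1ad228_ntY/PLocY.lean (cyclic covers over number fields).
PROOF.  `p0 = s0 ^ 2` with `16 C/(sqrt p0 + 1) ≤ ε/2`, `≤ 1/8` (`C` of delS) and `p0 ≥ nI (span {σ})`; `T` = the nonzero primes of norm `≤ p0` (this contains the primes which contain `σ`).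
`e` with `(n+1) (#T) 2^(-e) ≤ ε/2`; `c p` of hensS (`j = e`) for `p ∈ T`; `τ = 1/2 ∏_(p ∈ T) nI p ^ (-(n+1) c_p)`, `w0 = p0 + e + ∑ c_p`.
For `I ≤ WD R w`: `I ≤ p ^ w` for `p ∈ T` (WD_le of LocDens.lean), LZ_split: `I = ∏ p ^ k_p * J`, `c_p ≤ w ≤ k_p`, `J` has only prime factors of norm `> p0` which do not contain `σ`: `mk J σ` is a unit.
Classes `G` which satisfy: (i) `G mod J` has `smS r (mk J σ) ≥ nI J^(n+1)/2`: by unitS and the bijection `G ↦ σ G` (`σ` unit) and chebPY the exceptions are at most `16 δ nI J^((n+1)^(r m))`, lifted to `R ⧸ I`;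
(ii) `¬ ExcR` of `G mod p ^ e`, `p ∈ T`.
Then as PLocY_lower (mulS, prodS, hensS): `smS r (mk I σ) G = smSI r σ I F ≥ τ (nI I)^(n+1)`.
-/

namespace Pool.Agent.Lib.MP_1ad228_ntZ

open Classical

private theorem CLoc_VV (n d : ℕ) : VV n (fun _ : Fin 1 => d) = (n + 1) ^ d := by
  unfold VV
  rw [Finset.sum_const, Finset.card_univ, Fintype.card_fin, one_smul]

/-- Class modulo `J` of a class modulo `I ≤ J`. -/
private noncomputable def CLoc_rd {R : Type} [CommRing R] {n d : ℕ} {I J : Ideal R} (h : I ≤ J)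
    (G : Ten n d (R ⧸ I)) : Ten n d (R ⧸ J) :=
  tmap (Ideal.Quotient.factor h) G

private theorem CLoc_rd_mk {R : Type} [CommRing R] {n d : ℕ} {I J : Ideal R} (h : I ≤ J)
    (F : Ten n d R) : CLoc_rd h (tmap (Ideal.Quotient.mk I) F) = tmap (Ideal.Quotient.mk J) F := by
  funext s
  exact Ideal.Quotient.factor_mk h (F s)

private theorem CLoc_cls {R : Type} [CommRing R] {I J : Ideal R} {n d : ℕ} (h : I ≤ J)
    [Finite (R ⧸ I)] (p : Ten n d (R ⧸ J) → Prop) :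
    Nat.card {G : Ten n d (R ⧸ I) // p (CLoc_rd h G)} * nI J ^ (n + 1) ^ d =
      Nat.card {G : Ten n d (R ⧸ J) // p G} * nI I ^ (n + 1) ^ d := by
  have hf : Finite (R ⧸ J) := Finite.of_surjective _ (Ideal.Quotient.factor_surjective h)
  let φ : Ten n d (R ⧸ I) →+ Ten n d (R ⧸ J) :=
    { toFun := fun G => CLoc_rd h G
      map_zero' := by
        funext s
        exact map_zero (Ideal.Quotient.factor h)
      map_add' := fun G G' => by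
        funext s
        exact map_add (Ideal.Quotient.factor h) (G s) (G' s) }
  have hφ : Function.Surjective φ := by
    intro G
    choose u hu using Ideal.Quotient.factor_surjective h
    refine ⟨fun s => u (G s), ?_⟩
    funext s
    exact hu (G s)
  have h1 := LZ.card_pre φ hφ p
  rw [LZ.card_TenR n d (R ⧸ J), LZ.card_TenR n d (R ⧸ I)] at h1
  exact h1

private theorem CLoc_up {R : Type} [CommRing R] {I J : Ideal R} {n d : ℕ} (h : I ≤ J)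
    [Finite (R ⧸ I)] (hJ : 0 < nI J) (p : Ten n d (R ⧸ J) → Prop) {c : ℝ}
    (hc : (Nat.card {G : Ten n d (R ⧸ J) // p G} : ℝ) ≤ c * (nI J : ℝ) ^ (n + 1) ^ d) :
    (Nat.card {G : Ten n d (R ⧸ I) // p (CLoc_rd h G)} : ℝ) ≤ c * (nI I : ℝ) ^ (n + 1) ^ d := by
  have h1 := CLoc_cls h p
  have h5 : (Nat.card {G : Ten n d (R ⧸ I) // p (CLoc_rd h G)} : ℝ) * (nI J : ℝ) ^ (n + 1) ^ d =
      (Nat.card {G : Ten n d (R ⧸ J) // p G} : ℝ) * (nI I : ℝ) ^ (n + 1) ^ d := by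
    exact_mod_cast h1
  have hN : (0 : ℝ) < (nI J : ℝ) ^ (n + 1) ^ d := by
    have : (0 : ℝ) < (nI J : ℝ) := by exact_mod_cast hJ
    positivity
  refine le_of_mul_le_mul_right ?_ hN
  rw [h5]
  calc (Nat.card {G : Ten n d (R ⧸ J) // p G} : ℝ) * (nI I : ℝ) ^ (n + 1) ^ d
      ≤ (c * (nI J : ℝ) ^ (n + 1) ^ d) * (nI I : ℝ) ^ (n + 1) ^ d :=
        mul_le_mul_of_nonneg_right hc (by positivity)
    _ = c * (nI I : ℝ) ^ (n + 1) ^ d * (nI J : ℝ) ^ (n + 1) ^ d := by ring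

/-- Counting for the singular classes. -/
private theorem CLoc_exc {R : Type} [CommRing R] [IsDedekindDomain R] [Infinite R]
    (hq : LZ.FinQ R) (n d : ℕ) (hd : 1 ≤ d)
    (I P : Ideal R) (hI : I ≠ ⊥) (hP0 : P ≠ ⊥) (e : ℕ) (h : I ≤ P ^ e) :
    (Nat.card {G : Ten n d (R ⧸ I) //
      ExcR (d := fun _ : Fin 1 => d) (fun _ => CLoc_rd h G)} : ℝ) ≤
      ((n : ℝ) + 1) / (nI P : ℝ) ^ e * (nI I : ℝ) ^ (n + 1) ^ d := by
  have hPe : P ^ e ≠ ⊥ := pow_ne_zero e hP0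
  have hfI : Finite (R ⧸ I) := hq I hI
  have hfin : Finite (R ⧸ P ^ e) := hq _ hPe
  have hN : (0 : ℝ) < (nI (P ^ e) : ℝ) := by exact_mod_cast hq.pos hPe
  have hNe : (nI (P ^ e) : ℝ) = (nI P : ℝ) ^ e := by
    rw [LZ.nI_pow]
    push_cast
    rfl
  refine CLoc_up h (hq.pos hPe) (fun G => ExcR (d := fun _ : Fin 1 => d) (fun _ => G)) ?_
  have h3 := Pool.Agent.Lib.MP_1ad228_ntN.LD_exc n (fun _ : Fin 1 => d) (fun _ => hd) (R ⧸ P ^ e)
  rw [← LZ.nI_def, one_mul, CLoc_VV] at h3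
  have h4 : Nat.card {F : Tup n (fun _ : Fin 1 => d) (R ⧸ P ^ e) // ExcR F} =
      Nat.card {G : Ten n d (R ⧸ P ^ e) // ExcR (d := fun _ : Fin 1 => d) (fun _ => G)} := by
    refine Nat.card_congr ((Equiv.funUnique (Fin 1) (Ten n d (R ⧸ P ^ e))).subtypeEquiv fun F => ?_)
    have hF : F = fun _ => F 0 := by
      funext i
      rw [Subsingleton.elim i 0]
    show ExcR F ↔ ExcR (d := fun _ : Fin 1 => d) (fun _ => F 0)
    rw [← hF]
  rw [h4] at h3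
  have h5 : (Nat.card {G : Ten n d (R ⧸ P ^ e) //
      ExcR (d := fun _ : Fin 1 => d) (fun _ => G)} : ℝ) * (nI (P ^ e) : ℝ) ≤
        ((n : ℝ) + 1) * (nI (P ^ e) : ℝ) ^ (n + 1) ^ d := by
    exact_mod_cast h3
  rw [← hNe, div_mul_eq_mul_div, le_div_iff₀ hN]
  exact h5

/-- Counting for the classes with few zeros. -/
private theorem CLoc_few {R : Type} [CommRing R] [IsDedekindDomain R] [Infinite R]
    (hq : LZ.FinQ R) (r n m : ℕ) (hr : 1 ≤ r) (hn : 2 ≤ n) (hm : 1 ≤ m) (σ : R)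
    (I J : Ideal R) (hI : I ≠ ⊥) (hJ : J ≠ ⊥) (h : I ≤ J)
    (hσ : IsUnit (Ideal.Quotient.mk J σ)) {δ : ℝ}
    (hδ : Pool.Agent.Lib.MP_1ad228_ntY.IdY (R ⧸ J) r δ) (hδ8 : δ ≤ 1 / 8) :
    (Nat.card {G : Ten n (r * m) (R ⧸ I) //
      (smS r (Ideal.Quotient.mk J σ) (CLoc_rd h G) : ℝ) ≤ (nI J : ℝ) ^ (n + 1) / 2} : ℝ) ≤
        16 * δ * (nI I : ℝ) ^ (n + 1) ^ (r * m) := by
  have hfI : Finite (R ⧸ I) := hq I hI
  have hfin : Finite (R ⧸ J) := hq _ hJ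
  refine CLoc_up h (hq.pos hJ)
    (fun G => (smS r (Ideal.Quotient.mk J σ) G : ℝ) ≤ (nI J : ℝ) ^ (n + 1) / 2) ?_
  have h3 := Pool.Agent.Lib.MP_1ad228_ntY.chebPY hr hn hm (R ⧸ J) hδ hδ8
  rw [← LZ.nI_def] at h3
  obtain ⟨u, hu⟩ := hσ
  have h4 : Nat.card {G : Ten n (r * m) (R ⧸ J) //
      (smS r (Ideal.Quotient.mk J σ) G : ℝ) ≤ (nI J : ℝ) ^ (n + 1) / 2} =
      Nat.card {a : Ten n (r * m) (R ⧸ J) // (smY r a : ℝ) ≤ (nI J : ℝ) ^ (n + 1) / 2} := by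
    refine Nat.card_congr ((Equiv.piCongrRight fun _ => Units.mulLeft u).subtypeEquiv fun G => ?_)
    have h5 : smS r (Ideal.Quotient.mk J σ) G = smY r (fun s => Ideal.Quotient.mk J σ * G s) :=
      unitS r _ G
    rw [h5, ← hu]
    exact Iff.rfl
  rw [h4]
  exact h3

/-- Lower bound for the number of zeros outside the exceptional sets. -/
private theorem CLoc_lower {R : Type} [CommRing R] [IsDedekindDomain R] [Infinite R]
    (hq : LZ.FinQ R) {r n m : ℕ} (σ : R) (T : Finset (Ideal R))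
    (hT : ∀ P ∈ T, P.IsPrime ∧ P ≠ ⊥) (k c : Ideal R → ℕ) (I J : Ideal R) (hJ : J ≠ ⊥)
    (hJT : ∀ P ∈ T, ¬ J ≤ P) (hI : I = (∏ P ∈ T, P ^ k P) * J)
    (hk : ∀ P ∈ T, c P ≤ k P) (a : Ten n (r * m) R)
    (h1 : ∀ P ∈ T, nI P ^ ((n + 1) * (k P - c P)) ≤ smSI r σ (P ^ k P) a)
    (h2 : (nI J : ℝ) ^ (n + 1) / 2 < (smSI r σ J a : ℝ)) :
    (1 / 2 * ∏ P ∈ T, (1 / ((nI P : ℝ) ^ ((n + 1) * c P)))) *
        (nI I : ℝ) ^ (n + 1) ≤ (smSI r σ I a : ℝ) := by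
  have hNP : ∀ P ∈ T, (0 : ℝ) < (nI P : ℝ) := by
    intro P hP
    exact_mod_cast hq.pos (hT P hP).2
  have hprod0 : (∏ P ∈ T, P ^ k P) ≠ ⊥ := by
    have : (∏ P ∈ T, P ^ k P) ≠ 0 :=
      Finset.prod_ne_zero_iff.2 fun P hP => pow_ne_zero _ (hT P hP).2
    exact this
  have hmul := mulS hq r σ (∏ P ∈ T, P ^ k P) J hprod0 hJ (LZ.LZ_cop2 T hT k J hJT) a
  have hprod := prodS hq r σ T (fun P => P ^ k P) (fun P hP => pow_ne_zero _ (hT P hP).2)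
    (fun P hP Q hQ hPQ => LZ.LZ_cop (hT P hP).1 (hT P hP).2 (hT Q hQ).1 (hT Q hQ).2 hPQ _ _) a
  have hloc : ∏ P ∈ T, nI P ^ ((n + 1) * (k P - c P)) ≤
      ∏ P ∈ T, smSI r σ (P ^ k P) a := Finset.prod_le_prod' fun P hP => h1 P hP
  have hnat : (∏ P ∈ T, nI P ^ ((n + 1) * (k P - c P))) *
      smSI r σ J a ≤ smSI r σ I a := by
    rw [hI]
    exact (Nat.mul_le_mul_right _ (hloc.trans hprod)).trans hmul
  have hall : (∏ P ∈ T, (nI P : ℝ) ^ ((n + 1) * (k P - c P))) *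
      (smSI r σ J a : ℝ) ≤ (smSI r σ I a : ℝ) := by
    exact_mod_cast hnat
  have hcast : (nI I : ℝ) = (∏ P ∈ T, (nI P : ℝ) ^ k P) * (nI J : ℝ) := by
    have h3 : nI I = (∏ P ∈ T, nI P ^ k P) * nI J := by
      rw [hI, LZ.nI_mul, LZ.nI_prod]
      simp only [LZ.nI_pow]
    exact_mod_cast h3
  have hrr : ∀ P ∈ T,
      (1 / ((nI P : ℝ) ^ ((n + 1) * c P))) * ((nI P : ℝ) ^ k P) ^ (n + 1) =
        (nI P : ℝ) ^ ((n + 1) * (k P - c P)) := by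
    intro P hP
    have hp0 := hNP P hP
    rw [one_div, inv_mul_eq_div, div_eq_iff (pow_pos hp0 _).ne', ← pow_mul, ← pow_add]
    obtain ⟨v, hv⟩ : ∃ v, k P = c P + v := ⟨k P - c P, by have := hk P hP; omega⟩
    rw [hv, Nat.add_sub_cancel_left]
    congr 1
    ring
  have hstep : (1 / 2 * ∏ P ∈ T, (1 / ((nI P : ℝ) ^ ((n + 1) * c P)))) *
        (nI I : ℝ) ^ (n + 1) =
      (∏ P ∈ T, (nI P : ℝ) ^ ((n + 1) * (k P - c P))) * ((nI J : ℝ) ^ (n + 1) / 2) := by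
    rw [hcast, mul_pow, ← Finset.prod_pow, ← Finset.prod_congr rfl hrr,
      Finset.prod_mul_distrib]
    ring
  rw [hstep]
  have hpos : 0 ≤ (∏ P ∈ T, (nI P : ℝ) ^ ((n + 1) * (k P - c P))) :=
    Finset.prod_nonneg fun _ _ => pow_nonneg (Nat.cast_nonneg _) _
  exact (mul_le_mul_of_nonneg_left h2.le hpos).trans hall

/-- The element `σ` is a unit modulo `J`. -/
private theorem CLoc_unit {R : Type} [CommRing R] [IsDedekindDomain R] (σ : R) (J : Ideal R)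
    (hJ : J ≠ ⊥) (h : ∀ Q : Ideal R, Q.IsPrime → Q ≠ ⊥ → J ≤ Q → σ ∉ Q) :
    IsUnit (Ideal.Quotient.mk J σ) := by
  have htop : Ideal.span {σ} ⊔ J = ⊤ := by
    by_contra hne
    obtain ⟨Q, hQ, hle⟩ := Ideal.exists_le_maximal _ hne
    have hJQ : J ≤ Q := le_sup_right.trans hle
    have hQ0 : Q ≠ ⊥ := by
      intro h0
      rw [h0] at hJQ
      exact hJ (le_bot_iff.1 hJQ)
    exact h Q hQ.isPrime hQ0 hJQ (hle (Ideal.mem_sup_left (Ideal.mem_span_singleton_self σ)))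
  have h1 : (1 : R) ∈ Ideal.span {σ} ⊔ J := by
    rw [htop]
    exact Submodule.mem_top
  obtain ⟨x, hx, y, hy, hxy⟩ := Submodule.mem_sup.1 h1
  obtain ⟨z, rfl⟩ := Ideal.mem_span_singleton'.1 hx
  refine IsUnit.of_mul_eq_one (Ideal.Quotient.mk J z) ?_
  rw [← map_mul, mul_comm]
  have h2 : z * σ = 1 - y := eq_sub_of_add_eq hxy
  rw [h2, map_sub, Ideal.Quotient.eq_zero_iff_mem.2 hy, sub_zero, map_one]

theorem locDensS (R : Type) [CommRing R] [IsDedekindDomain R] [Infinite R] [FQ R] (r n m : ℕ)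
    (hr : 2 ≤ r) (hn : 2 ≤ n) (hm : 1 ≤ m) (hr0 : (r : R) ≠ 0) (σ : R) (hσ : σ ≠ 0) (ε : ℝ)
    (hε : 0 < ε) :
    ∃ τ : ℝ, 0 < τ ∧ ∃ w0 : ℕ, ∀ w : ℕ, w0 ≤ w → ∀ I : Ideal R, I ≠ ⊥ → I ≤ WD R w →
      (Nat.card {G : Ten n (r * m) (R ⧸ I) // (∃ F : Ten n (r * m) R,
          tmap (Ideal.Quotient.mk I) F = G ∧ PSolS r σ F) ∧
          (smS r (Ideal.Quotient.mk I σ) G : ℝ) < τ * (nI I : ℝ) ^ (n + 1)} : ℝ) ≤
        ε * (nI I : ℝ) ^ (n + 1) ^ (r * m) := by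
  have hq : LZ.FinQ R := LZ.finQ_of_FQ
  obtain ⟨C2, hC2', hdel⟩ := delS R r (by omega)
  have hC2 : 0 < C2 := by linarith
  obtain ⟨s1, hs1⟩ := exists_nat_gt (C2 * 8 + 32 * C2 / ε)
  obtain ⟨s0, hs0⟩ : ∃ s0 : ℕ, s0 = s1 + nI (Ideal.span {σ}) := ⟨_, rfl⟩
  have hs0r : C2 * 8 + 32 * C2 / ε < (s0 : ℝ) := by
    have h1 : (s1 : ℝ) ≤ (s0 : ℝ) := by
      rw [hs0]
      push_cast
      linarith [(Nat.cast_nonneg (nI (Ideal.span {σ})) : (0 : ℝ) ≤ _)]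
    linarith
  obtain ⟨p0, hp0⟩ : ∃ p0 : ℕ, p0 = s0 ^ 2 := ⟨_, rfl⟩
  have hsq : Nat.sqrt p0 = s0 := by rw [hp0, Nat.sqrt_eq']
  have hσp0 : nI (Ideal.span {σ}) ≤ p0 := by
    have h1 : s0 ≤ s0 ^ 2 := by nlinarith
    omega
  have hp0pos : (0 : ℝ) < (s0 : ℝ) + 1 := by positivity
  have hq1 : 0 < 32 * C2 / ε := by positivity
  have h8 : C2 / ((Nat.sqrt p0 : ℝ) + 1) ≤ 1 / 8 := by
    rw [hsq, div_le_div_iff₀ hp0pos (by norm_num)]
    linarith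
  have h16 : 16 * (C2 / ((Nat.sqrt p0 : ℝ) + 1)) ≤ ε / 2 := by
    have h1 : 32 * C2 / ε ≤ (s0 : ℝ) + 1 := by linarith
    rw [div_le_iff₀ hε] at h1
    have h2 : 16 * (C2 / ((Nat.sqrt p0 : ℝ) + 1)) = (16 * C2) / (s0 + 1) := by
      rw [hsq]
      ring
    rw [h2, div_le_div_iff₀ hp0pos (by norm_num)]
    linarith
  have hTfin : {P : Ideal R | P.IsPrime ∧ P ≠ ⊥ ∧ nI P ≤ p0}.Finite :=
    (LZ.ideals_finite (R := R) p0).subset fun P hP => ⟨hP.2.1, hP.2.2⟩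
  obtain ⟨T, hTdef⟩ : ∃ T : Finset (Ideal R), T = hTfin.toFinset := ⟨_, rfl⟩
  have hTmem : ∀ P : Ideal R, P ∈ T ↔ P.IsPrime ∧ P ≠ ⊥ ∧ nI P ≤ p0 := by
    intro P
    rw [hTdef, Set.Finite.mem_toFinset]
    rfl
  have hT : ∀ P ∈ T, P.IsPrime ∧ P ≠ ⊥ := fun P hP =>
    ⟨((hTmem P).1 hP).1, ((hTmem P).1 hP).2.1⟩
  have hN2 : ∀ P ∈ T, 2 ≤ nI P := by
    intro P hP
    have h0 : 0 < nI P := hq.pos (hT P hP).2
    have h1 : nI P ≠ 1 := by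
      intro h
      exact (hT P hP).1.ne_top (LZ.nI_eq_one.1 h)
    omega
  obtain ⟨e1, he1⟩ := pow_unbounded_of_one_lt
    (2 * ((n : ℝ) + 1) * ((T.card : ℝ) + 1) / ε) (by norm_num : (1 : ℝ) < 2)
  obtain ⟨e, hedef⟩ : ∃ e : ℕ, e = e1 + 1 := ⟨_, rfl⟩
  have he : 1 ≤ e := by omega
  have he2 : 2 * ((n : ℝ) + 1) * ((T.card : ℝ) + 1) / ε ≤ 2 ^ e := by
    refine he1.le.trans ?_
    exact pow_le_pow_right₀ (by norm_num) (by omega)
  have hhens : ∀ P : Ideal R, P ∈ T → ∃ c : ℕ, ∀ w : ℕ, c ≤ w →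
      ∀ a : Ten n (r * m) R,
      (∀ i : ℕ, ∃ (x : Vc n R) (y : R), (∃ l, x l ∉ P) ∧ σ * ev a x - y ^ r ∈ P ^ i) →
      ¬ ExcR (red (d := fun _ : Fin 1 => r * m) (P ^ e) fun _ => a) →
      nI P ^ ((n + 1) * (w - c)) ≤ smSI r σ (P ^ w) a :=
    fun P hP => hensS hq hr hm hr0 σ hσ P (hT P hP).1 (hT P hP).2 e he
  choose! c hc using hhens
  obtain ⟨τ, hτdef⟩ : ∃ τ : ℝ, τ = 1 / 2 * ∏ P ∈ T, (1 / ((nI P : ℝ) ^ ((n + 1) * c P))) :=
    ⟨_, rfl⟩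
  refine ⟨τ, ?_, (∑ P ∈ T, c P) + p0 + e, fun w hw I hI hIw => ?_⟩
  · rw [hτdef]
    refine mul_pos (by norm_num) (Finset.prod_pos fun P hP => ?_)
    have hp0 : (0 : ℝ) < (nI P : ℝ) := by
      have := hN2 P hP
      exact_mod_cast (by omega : 0 < nI P)
    positivity
  have hfI : Finite (R ⧸ I) := hq I hI
  have hw0 : p0 ≤ w := by omega
  have hwe : e ≤ w := by omega
  have hwc : ∀ P ∈ T, c P ≤ w := fun P hP => by
    have : c P ≤ ∑ P ∈ T, c P := Finset.single_le_sum (f := c) (fun _ _ => Nat.zero_le _) hP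
    omega
  have hIP : ∀ P ∈ T, I ≤ P ^ w := fun P hP =>
    hIw.trans (LZ.WD_le w P (hT P hP).2 (((hTmem P).1 hP).2.2.trans hw0))
  have hPe : ∀ P ∈ T, I ≤ P ^ e := fun P hP => (hIP P hP).trans (Ideal.pow_le_pow_right hwe)
  obtain ⟨k, J, hIJ, hJ, hJT, hmax⟩ := LZ.LZ_split I hI T hT
  have hk : ∀ P ∈ T, c P ≤ k P := fun P hP => by
    have h1 := hmax P hP w (hIP P hP)
    have h2 := hwc P hP
    omega
  have hle : I ≤ J := by
    rw [hIJ]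
    exact Ideal.mul_le_right
  have hJp : ∀ Q : Ideal R, Q.IsPrime → J ≤ Q → p0 < nI Q := by
    intro Q hQ hJQ
    by_contra hcon
    have hQ0 : Q ≠ ⊥ := by
      intro h
      rw [h] at hJQ
      exact hJ (le_bot_iff.1 hJQ)
    exact hJT Q ((hTmem Q).2 ⟨hQ, hQ0, not_lt.1 hcon⟩) hJQ
  have hu : IsUnit (Ideal.Quotient.mk J σ) := by
    refine CLoc_unit σ J hJ fun Q hQ hQ0 hJQ hσQ => ?_
    have h1 : Ideal.span {σ} ≤ Q := (Ideal.span_singleton_le_iff_mem Q).2 hσQ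
    have h2 : (Ideal.span {σ} : Ideal R) ≠ ⊥ := by
      rw [Ne, Ideal.span_singleton_eq_bot]
      exact hσ
    have h3 : nI Q ≤ nI (Ideal.span {σ}) := Nat.le_of_dvd (hq.pos h2) (LZ.nI_dvd h1)
    have h4 := hJp Q hQ hJQ
    omega
  have : Fintype (R ⧸ I) := Fintype.ofFinite _
  have : Fintype (Ten n (r * m) (R ⧸ I)) := Fintype.ofFinite _
  set B := (Finset.univ : Finset (Ten n (r * m) (R ⧸ I))).filter
    (fun G => (∃ F : Ten n (r * m) R, tmap (Ideal.Quotient.mk I) F = G ∧ PSolS r σ F) ∧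
        (smS r (Ideal.Quotient.mk I σ) G : ℝ) < τ * (nI I : ℝ) ^ (n + 1)) with hB
  let B1 := (Finset.univ : Finset (Ten n (r * m) (R ⧸ I))).filter
    (fun G => (smS r (Ideal.Quotient.mk J σ) (CLoc_rd hle G) : ℝ) ≤ (nI J : ℝ) ^ (n + 1) / 2)
  let B2 : Ideal R → Finset (Ten n (r * m) (R ⧸ I)) := fun P =>
    if h : I ≤ P ^ e then (Finset.univ : Finset (Ten n (r * m) (R ⧸ I))).filter
      (fun G => ExcR (d := fun _ : Fin 1 => r * m) (fun _ => CLoc_rd h G)) else ∅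
  have hsub : B ⊆ B1 ∪ T.biUnion B2 := by
    intro G hG
    obtain ⟨-, ⟨F, hFG, hsol⟩, hlt⟩ := Finset.mem_filter.1 hG
    rw [Finset.mem_union, Finset.mem_biUnion]
    by_contra hcon
    rw [not_or] at hcon
    have h2 : (nI J : ℝ) ^ (n + 1) / 2 < (smSI r σ J F : ℝ) := by
      by_contra h
      refine hcon.1 (Finset.mem_filter.2 ⟨Finset.mem_univ _, ?_⟩)
      rw [← hFG, CLoc_rd_mk]
      exact not_lt.1 h
    have h1 : ∀ P ∈ T, ¬ ExcR (red (d := fun _ : Fin 1 => r * m) (P ^ e) fun _ => F) := by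
      intro P hP h
      refine hcon.2 ⟨P, hP, ?_⟩
      show G ∈ (if h : I ≤ P ^ e then (Finset.univ : Finset (Ten n (r * m) (R ⧸ I))).filter
        (fun G => ExcR (d := fun _ : Fin 1 => r * m) (fun _ => CLoc_rd h G)) else ∅)
      rw [dif_pos (hPe P hP), Finset.mem_filter]
      refine ⟨Finset.mem_univ _, ?_⟩
      have h6 : (fun _ : Fin 1 => CLoc_rd (hPe P hP) G) =
          fun _ : Fin 1 => tmap (Ideal.Quotient.mk (P ^ e)) F := by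
        funext _
        rw [← hFG, CLoc_rd_mk]
      show ExcR (d := fun _ : Fin 1 => r * m) (fun _ : Fin 1 => CLoc_rd (hPe P hP) G)
      rw [h6]
      exact h
    have h3 := CLoc_lower hq σ T hT k c I J hJ hJT hIJ hk F
      (fun P hP => hc P hP (k P) (hk P hP) F (hsol P (hT P hP).1 (hT P hP).2) (h1 P hP)) h2
    have h4 : smSI r σ I F = smS r (Ideal.Quotient.mk I σ) G := by
      rw [← hFG]
      rfl
    rw [h4, ← hτdef] at h3
    exact absurd h3 (not_le.2 hlt)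
  have hc1 : (B1.card : ℝ) ≤
      16 * (C2 / ((Nat.sqrt p0 : ℝ) + 1)) * (nI I : ℝ) ^ (n + 1) ^ (r * m) := by
    have h1 := CLoc_few hq r n m (by omega) hn hm σ I J hI hJ hle hu (hdel p0 J hJ hJp) h8
    rw [Nat.card_eq_fintype_card, Fintype.card_subtype] at h1
    exact h1
  have hc2 : ∀ P ∈ T, ((B2 P).card : ℝ) ≤
      ((n : ℝ) + 1) / (nI P : ℝ) ^ e * (nI I : ℝ) ^ (n + 1) ^ (r * m) := by
    intro P hP
    have h1 := CLoc_exc hq n (r * m) (Nat.mul_pos (by omega) hm) I P hI (hT P hP).2 e (hPe P hP)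
    rw [Nat.card_eq_fintype_card, Fintype.card_subtype] at h1
    have h2 : B2 P = (Finset.univ : Finset (Ten n (r * m) (R ⧸ I))).filter
      (fun G => ExcR (d := fun _ : Fin 1 => r * m) (fun _ => CLoc_rd (hPe P hP) G)) :=
        dif_pos (hPe P hP)
    rw [h2]
    exact h1
  rw [Nat.card_eq_fintype_card, Fintype.card_subtype]
  have h5 : (B.card : ℝ) ≤ (B1.card : ℝ) + ∑ P ∈ T, ((B2 P).card : ℝ) := by
    have h1 := (Finset.card_le_card hsub).trans (Finset.card_union_le _ _)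
    have h2 := h1.trans (Nat.add_le_add_left Finset.card_biUnion_le _)
    exact_mod_cast h2
  refine h5.trans ?_
  have hV : (0 : ℝ) ≤ (nI I : ℝ) ^ (n + 1) ^ (r * m) := by positivity
  have h6 := Finset.sum_le_sum hc2
  have h7 : ∑ P ∈ T, ((n : ℝ) + 1) / (nI P : ℝ) ^ e * (nI I : ℝ) ^ (n + 1) ^ (r * m) =
      ((n : ℝ) + 1) * (∑ P ∈ T, 1 / (nI P : ℝ) ^ e) * (nI I : ℝ) ^ (n + 1) ^ (r * m) := by
    rw [Finset.mul_sum, Finset.sum_mul]
    refine Finset.sum_congr rfl fun P _ => ?_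
    ring
  rw [h7] at h6
  have h3 : ∀ P ∈ T, 1 / (nI P : ℝ) ^ e ≤ 1 / 2 ^ e := by
    intro P hP
    have hpe : (2 : ℝ) ^ e ≤ (nI P : ℝ) ^ e := by
      gcongr
      exact_mod_cast hN2 P hP
    exact one_div_le_one_div_of_le (by positivity) hpe
  have h4 : ∑ P ∈ T, 1 / (nI P : ℝ) ^ e ≤ (T.card : ℝ) * (1 / 2 ^ e) := by
    refine (Finset.sum_le_sum h3).trans ?_
    rw [Finset.sum_const, nsmul_eq_mul]
  have h9 : ((n : ℝ) + 1) * ((T.card : ℝ) * (1 / 2 ^ e)) ≤ ε / 2 := by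
    rw [div_le_iff₀ hε] at he2
    have h2e : (0 : ℝ) < 2 ^ e := by positivity
    rw [mul_one_div, ← mul_div_assoc, div_le_iff₀ h2e]
    have h6 : (0 : ℝ) ≤ (n : ℝ) + 1 := by positivity
    nlinarith
  have h10 : (0 : ℝ) ≤ (n : ℝ) + 1 := by positivity
  have h11 := mul_le_mul_of_nonneg_left h4 h10
  have h12 : (16 * (C2 / ((Nat.sqrt p0 : ℝ) + 1)) +
      ((n : ℝ) + 1) * ∑ P ∈ T, 1 / (nI P : ℝ) ^ e) ≤ ε := by linarith
  calc (B1.card : ℝ) + ∑ P ∈ T, ((B2 P).card : ℝ)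
      ≤ 16 * (C2 / ((Nat.sqrt p0 : ℝ) + 1)) * (nI I : ℝ) ^ (n + 1) ^ (r * m) +
        ((n : ℝ) + 1) * (∑ P ∈ T, 1 / (nI P : ℝ) ^ e) * (nI I : ℝ) ^ (n + 1) ^ (r * m) :=
        add_le_add hc1 h6
    _ = (16 * (C2 / ((Nat.sqrt p0 : ℝ) + 1)) +
      ((n : ℝ) + 1) * ∑ P ∈ T, 1 / (nI P : ℝ) ^ e) * (nI I : ℝ) ^ (n + 1) ^ (r * m) := by ring
    _ ≤ ε * (nI I : ℝ) ^ (n + 1) ^ (r * m) := mul_le_mul_of_nonneg_right h12 hV

end Pool.Agent.Lib.MP_1ad228_ntZ
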