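import Pool.Agent.Lib.MP_1ad228_ntZC.CPair
import Pool.Agent.Lib.MP_1ad228_ntZ.Low

/-!
LEAF CLow.  Lower bounds for the number of test pairs with local conditions.
nonUniG: the proof of nonUni (Cls.lean) with a general ideal `J` of `P` in place of `WD P w`.
low_cntC: `j = jw r a`, `c = cw r m a b`, `J = sJ j (WD P w)`, `N2 = nI (WD O w) * nI J`.  For every pair of solution classes `(ξ, ω)` modulo `WD O w` (`ev F ξ ≡ ω^r`) and `(ξ', ω')` modulo `J` (`s^j F'(ξ') ≡ ω'^r`) take the `x ∈ VB n b` with `x ≡ ξ`, `vtw b x ≡ ξ'` and the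
`w1 ∈ H c` with `w1 ≡ ω`, `tw c w1 ≡ ω'`: exactly `(h b)^(n+1)/N2^(n+1)` and `h c / N2` of them (class_eq; `C1 N2 ≤ Q^b`, `b ≤ c` as `m ≥ 1`).  Then `(tw c w1)^r = s^j (F'(x') + δ)` with `δ ∈ WD P w`, so `w1^r ∈ H (a + r m b)` (H_down from `w1^r ∈ H (r c)`, cw_eq)
with twist `F'(x') + δ`: `w1 ∈ WS` and `ev F x - w1^r ∈ MS`.  Subtract the `x` which are not unimodular in `O` (nonUniG; `lin u ξ ≡ 1`), and the `x` which are not good (at most `h c` values `w1` each); unimodular in `P`: as uniP (`J ≤ WD P w`).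
card_WS: with `F' (x')` arbitrary: the `w1 ∈ H c` with `tw c w1 ∈ (s)^r`: `h c / Q^r` of them lie in WS.
-/

namespace Pool.Agent.Lib.MP_1ad228_ntZ

open Classical

/-- A vector which is not unimodular has its entries in a maximal ideal. -/
private theorem CLow_max {R : Type} [CommRing R] {n : ℕ} (x : Vc n R) (h : ¬ Uni x) :
    ∃ p : Ideal R, p.IsMaximal ∧ ∀ l, x l ∈ p := by
  have h1 : Ideal.span (Set.range x) ≠ ⊤ := by
    intro ht
    apply h
    have h1 : (1 : R) ∈ Ideal.span (Set.range x) := by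
      rw [ht]
      trivial
    obtain ⟨c, hc⟩ := Ideal.mem_span_range_iff_exists_fun.mp h1
    exact ⟨c, hc⟩
  obtain ⟨p, hp, hle⟩ := Ideal.exists_le_maximal _ h1
  exact ⟨p, hp, fun l => hle (Ideal.subset_span ⟨l, rfl⟩)⟩

private theorem CLow_not_le {R : Type} [CommRing R] {n : ℕ} {x ξ u : Vc n R} {W p : Ideal R}
    (hu : lin u ξ - 1 ∈ W) (h1 : ∀ l, x l - ξ l ∈ W) (hp : p.IsMaximal) (h2 : ∀ l, x l ∈ p) :
    ¬ W ≤ p := by
  intro hW
  have h3 : ∀ l, ξ l ∈ p := by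
    intro l
    have h4 : ξ l = x l - (x l - ξ l) := by ring
    rw [h4]
    exact p.sub_mem (h2 l) (hW (h1 l))
  have h6 : lin u ξ ∈ p := p.sum_mem fun l _ => p.mul_mem_left _ (h3 l)
  have h7 : (1 : R) ∈ p := by
    have h8 : (1 : R) = lin u ξ - (lin u ξ - 1) := by ring
    rw [h8]
    exact p.sub_mem h6 (hW hu)
  exact hp.ne_top ((Ideal.eq_top_iff_one p).2 h7)

private theorem CLow_pow (n : ℕ) (t : ℝ) (ht : 0 ≤ t) :
    (1 + t) ^ (n + 1) ≤ 2 ^ (n + 1) * (1 + t ^ (n + 1)) := by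
  rcases le_total 1 t with h | h
  · have h1 : (1 + t) ^ (n + 1) ≤ (2 * t) ^ (n + 1) := pow_le_pow_left₀ (by linarith) (by linarith) _
    rw [mul_pow] at h1
    have h2 : (0 : ℝ) ≤ 2 ^ (n + 1) := by positivity
    linarith
  · have h1 : (1 + t) ^ (n + 1) ≤ 2 ^ (n + 1) := pow_le_pow_left₀ (by linarith) (by linarith) _
    have h2 : (0 : ℝ) ≤ 2 ^ (n + 1) * t ^ (n + 1) := by positivity
    linarith

namespace TC
variable {K O P : Type} [Field K] [CommRing O] [IsDedekindDomain O] [Algebra O K]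
  [IsFractionRing O K] [CommRing P] [IsDedekindDomain P] [Algebra P K]
  [IsFractionRing P K] (T : TC K O P)

/-- The points of a class with entries in the maximal ideal `p`. -/
private theorem CLow_p (n : ℕ) (hn : 1 ≤ n) {w b : ℕ} {p : Ideal O} (hp : p.IsMaximal)
    (hp0 : p ≠ ⊥) (hW : ¬ WD O w ≤ p) {J : Ideal P} (hJ : J ≠ ⊥) (ξ : Vc n O) (ξ' : Vc n P) :
    (((T.VB n b).filter fun x => ((∀ i, x i - ξ i ∈ WD O w) ∧ ∀ i, T.vtw b x i - ξ' i ∈ J) ∧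
      ∀ l, x l ∈ p).card : ℝ) ≤
      (2 ^ (n + 1) * (T.Q : ℝ) ^ (n + 1)) *
        (1 + ((T.Q : ℝ) ^ b / ((nI (WD O w) : ℝ) * nI J)) ^ (n + 1) * (1 / (nI p : ℝ) ^ 2)) := by
  have hQ1 : (1 : ℝ) ≤ T.Q := by
    have := T.two_le
    exact_mod_cast (by omega : 1 ≤ T.Q)
  have hW0 := WD_ne_bot (T.fewO w)
  have hNW1 : (0 : ℝ) < (nI (WD O w) : ℝ) := by exact_mod_cast nI_pos T.finO hW0
  have hNJ : (0 : ℝ) < (nI J : ℝ) := by exact_mod_cast nI_pos T.finP hJ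
  have hNW : (0 : ℝ) < (nI (WD O w) : ℝ) * nI J := mul_pos hNW1 hNJ
  have hN1 : (1 : ℝ) ≤ (nI p : ℝ) := by exact_mod_cast nI_pos T.finO hp0
  have hN0 : (0 : ℝ) < (nI p : ℝ) := by linarith
  set XP := (T.VB n b).filter fun x => ((∀ i, x i - ξ i ∈ WD O w) ∧ ∀ i, T.vtw b x i - ξ' i ∈ J) ∧
      ∀ l, x l ∈ p with hXP
  have hsup : p ⊔ WD O w = ⊤ := by
    refine hp.out.2 _ (lt_of_le_of_ne le_sup_left fun he => hW ?_)
    rw [he]
    exact le_sup_right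
  have hco : IsCoprime p (WD O w) := Ideal.isCoprime_iff_sup_eq.2 hsup
  have hmul : p ⊓ WD O w = p * WD O w := (Ideal.mul_eq_inf_of_isCoprime hco).symm
  have hI0 : p * WD O w ≠ ⊥ := by
    rw [Ne, Ideal.mul_eq_bot]
    rintro (h | h)
    · exact hp0 h
    · exact hW0 h
  have hIN : ((nI (p * WD O w) : ℕ) : ℝ) * (nI J : ℝ) =
      (nI p : ℝ) * ((nI (WD O w) : ℝ) * nI J) := by
    rw [nI_mul T.finO hp0 hW0]
    push_cast
    ring
  set NN : ℝ := (nI (WD O w) : ℝ) * nI J with hNN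
  set tt : ℝ := T.Q * ((T.Q : ℝ) ^ b / ((nI p : ℝ) * NN)) with htt
  have htt0 : 0 ≤ tt := by positivity
  have hcoord : ∀ l, ((XP.image fun x => x l).card : ℝ) ≤ 1 + tt := by
    intro l
    rcases Finset.eq_empty_or_nonempty XP with he | ⟨x0, hx0⟩
    · rw [he]
      simp only [Finset.image_empty, Finset.card_empty, Nat.cast_zero]
      linarith
    · have h1 : (XP.image fun x => x l) ⊆ (T.H b).filter fun z => z - x0 l ∈ p * WD O w ∧
          T.tw b z - T.tw b (x0 l) ∈ J := by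
        intro z hz
        rw [Finset.mem_image] at hz
        obtain ⟨x, hx, rfl⟩ := hz
        rw [hXP, Finset.mem_filter, mem_VB] at hx hx0
        rw [Finset.mem_filter]
        refine ⟨hx.1 l, ?_, ?_⟩
        · rw [← hmul]
          refine ⟨p.sub_mem (hx.2.2 l) (hx0.2.2 l), ?_⟩
          have h1 : x l - x0 l = (x l - ξ l) - (x0 l - ξ l) := by ring
          rw [h1]
          exact (WD O w).sub_mem (hx.2.1.1 l) (hx0.2.1.1 l)
        · have h1 : T.tw b (x l) - T.tw b (x0 l) = (T.vtw b x l - ξ' l) - (T.vtw b x0 l - ξ' l) := by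
            unfold vtw
            ring
          rw [h1]
          exact J.sub_mem (hx.2.1.2 l) (hx0.2.1.2 l)
      have h2 := T.class_up b hI0 hJ (x0 l) (T.tw b (x0 l))
      rw [hIN] at h2
      exact le_trans (by exact_mod_cast Finset.card_le_card h1) h2
  have hsub : XP ⊆ Fintype.piFinset fun l : Fin (n + 1) => XP.image fun x => x l := by
    intro x hx
    rw [Fintype.mem_piFinset]
    intro l
    exact Finset.mem_image_of_mem _ hx
  have h1 : (XP.card : ℝ) ≤ (1 + tt) ^ (n + 1) := by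
    calc (XP.card : ℝ) ≤ ((Fintype.piFinset fun l : Fin (n + 1) => XP.image fun x => x l).card : ℝ) := by
          exact_mod_cast Finset.card_le_card hsub
      _ = ∏ l : Fin (n + 1), ((XP.image fun x => x l).card : ℝ) := by
          rw [Fintype.card_piFinset]
          push_cast
          rfl
      _ ≤ ∏ _l : Fin (n + 1), (1 + tt) :=
          Finset.prod_le_prod (fun _ _ => Nat.cast_nonneg _) fun l _ => hcoord l
      _ = _ := by rw [Finset.prod_const, Finset.card_univ, Fintype.card_fin]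
  have h2 := CLow_pow n tt htt0
  have h3 : tt ^ (n + 1) ≤ (T.Q : ℝ) ^ (n + 1) *
      (((T.Q : ℝ) ^ b / NN) ^ (n + 1) * (1 / (nI p : ℝ) ^ 2)) := by
    have e1 : tt ^ (n + 1) = (T.Q : ℝ) ^ (n + 1) *
        (((T.Q : ℝ) ^ b / NN) ^ (n + 1) * (1 / (nI p : ℝ) ^ (n + 1))) := by
      rw [htt, mul_pow, div_pow, mul_pow, div_pow]
      field_simp
    rw [e1]
    have e2 : 1 / (nI p : ℝ) ^ (n + 1) ≤ 1 / (nI p : ℝ) ^ 2 :=
      one_div_le_one_div_of_le (by positivity) (pow_le_pow_right₀ hN1 (by omega))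
    exact mul_le_mul_of_nonneg_left (mul_le_mul_of_nonneg_left e2 (by positivity)) (by positivity)
  have h4 : (1 : ℝ) ≤ (T.Q : ℝ) ^ (n + 1) := one_le_pow₀ hQ1
  have h5 : 1 + tt ^ (n + 1) ≤ (T.Q : ℝ) ^ (n + 1) *
      (1 + ((T.Q : ℝ) ^ b / NN) ^ (n + 1) * (1 / (nI p : ℝ) ^ 2)) := by
    rw [mul_add, mul_one]
    exact add_le_add h4 h3
  calc (XP.card : ℝ) ≤ (1 + tt) ^ (n + 1) := h1
    _ ≤ 2 ^ (n + 1) * (1 + tt ^ (n + 1)) := h2
    _ ≤ 2 ^ (n + 1) * ((T.Q : ℝ) ^ (n + 1) *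
      (1 + ((T.Q : ℝ) ^ b / NN) ^ (n + 1) * (1 / (nI p : ℝ) ^ 2))) :=
        mul_le_mul_of_nonneg_left h5 (by positivity)
    _ = _ := by ring

theorem nonUniG (n : ℕ) (hn : 1 ≤ n) : ∃ C : ℝ, 1 ≤ C ∧ ∀ (w b : ℕ) (J : Ideal P) (ξ u : Vc n O)
    (ξ' : Vc n P), J ≠ ⊥ → lin u ξ - 1 ∈ WD O w →
    (((T.VB n b).filter fun x => ((∀ i, x i - ξ i ∈ WD O w) ∧ ∀ i, T.vtw b x i - ξ' i ∈ J) ∧
        ¬ Uni x).card : ℝ) ≤
      C * (((T.Q : ℝ) ^ b / ((nI (WD O w) : ℝ) * nI J)) ^ (n + 1) / (w + 1) + (T.Q : ℝ) ^ b) := by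
  obtain ⟨Cc, hCc, hcnt⟩ := T.dvCount
  obtain ⟨Ct, hCt, htail⟩ := T.dvTail
  have hQ1 : (1 : ℝ) ≤ T.Q := by
    have := T.two_le
    exact_mod_cast (by omega : 1 ≤ T.Q)
  set C1 : ℝ := 2 ^ (n + 1) * (T.Q : ℝ) ^ (n + 1) with hC1
  have hC1' : 1 ≤ C1 := by
    rw [hC1]
    exact one_le_mul_of_one_le_of_one_le (one_le_pow₀ (by norm_num)) (one_le_pow₀ hQ1)
  have hC10 : 0 ≤ C1 := by linarith
  refine ⟨1 + C1 * (Cc + Ct), ?_, ?_⟩
  · have : 0 ≤ C1 * (Cc + Ct) := mul_nonneg hC10 (by linarith)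
    linarith
  intro w b J ξ u ξ' hJ hu
  have hQb : (1 : ℝ) ≤ (T.Q : ℝ) ^ b := one_le_pow₀ hQ1
  set A : ℝ := ((T.Q : ℝ) ^ b / ((nI (WD O w) : ℝ) * nI J)) ^ (n + 1) with hA
  have hA0 : 0 ≤ A := by positivity
  set F := (T.VB n b).filter fun x => ((∀ i, x i - ξ i ∈ WD O w) ∧ ∀ i, T.vtw b x i - ξ' i ∈ J) ∧
    (x ≠ 0 ∧ ¬ Uni x) with hF
  have hex : ∀ x ∈ F, ∃ p : Ideal O, (p.IsMaximal ∧ p ≠ ⊥ ∧ ¬ WD O w ≤ p ∧
      w < nI p ∧ nI p ≤ T.Q ^ b) ∧ ∀ l, x l ∈ p := by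
    intro x hx
    rw [hF, Finset.mem_filter, mem_VB] at hx
    obtain ⟨hxV, ⟨hx1, hx2⟩, hx0, hxU⟩ := hx
    obtain ⟨p, hp, hpx⟩ := CLow_max x hxU
    obtain ⟨l, hl⟩ : ∃ l, x l ≠ 0 := by
      by_contra hcon
      push Not at hcon
      exact hx0 (funext hcon)
    have hp0 : p ≠ ⊥ := by
      intro h0
      have h3 := hpx l
      rw [h0, Ideal.mem_bot] at h3
      exact hl h3
    have h1 := CLow_not_le hu hx1 hp hpx
    refine ⟨p, ⟨hp, hp0, h1, ?_, ?_⟩, hpx⟩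
    · by_contra hcon
      exact h1 (WD_le T.finO (T.fewO w) hp0 (not_lt.1 hcon))
    · have h2 := T.prod_le b (x l) (T.tw b (x l)) hl (T.tw_spec (hxV l)) p ⊤ (hpx l)
        Submodule.mem_top
      rwa [nI_top, mul_one] at h2
  choose! p hp using hex
  set PS := F.image p with hPS
  have hgood : ∀ q ∈ PS, q.IsMaximal ∧ q ≠ ⊥ ∧ ¬ WD O w ≤ q ∧ w < nI q ∧ nI q ≤ T.Q ^ b := by
    intro q hq
    rw [hPS, Finset.mem_image] at hq
    obtain ⟨x, hx, rfl⟩ := hq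
    exact (hp x hx).1
  have hsub : F ⊆ PS.biUnion fun q => (T.VB n b).filter fun x =>
      ((∀ i, x i - ξ i ∈ WD O w) ∧ ∀ i, T.vtw b x i - ξ' i ∈ J) ∧ ∀ l, x l ∈ q := by
    intro x hx
    rw [Finset.mem_biUnion]
    refine ⟨p x, Finset.mem_image_of_mem _ hx, ?_⟩
    have h1 := (hp x hx).2
    rw [hF, Finset.mem_filter] at hx
    rw [Finset.mem_filter]
    exact ⟨hx.1, hx.2.1, h1⟩
  have h1 : (F.card : ℝ) ≤ ∑ q ∈ PS, (((T.VB n b).filter fun x =>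
      ((∀ i, x i - ξ i ∈ WD O w) ∧ ∀ i, T.vtw b x i - ξ' i ∈ J) ∧ ∀ l, x l ∈ q).card : ℝ) := by
    exact_mod_cast (Finset.card_le_card hsub).trans Finset.card_biUnion_le
  have h2 : ∀ q ∈ PS, (((T.VB n b).filter fun x =>
      ((∀ i, x i - ξ i ∈ WD O w) ∧ ∀ i, T.vtw b x i - ξ' i ∈ J) ∧ ∀ l, x l ∈ q).card : ℝ) ≤
      C1 * (1 + A * (1 / (nI q : ℝ) ^ 2)) := by
    intro q hq
    obtain ⟨q1, q2, q3, -, -⟩ := hgood q hq
    exact T.CLow_p n hn q1 q2 q3 hJ ξ ξ'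
  -- pairs with the unit ideal
  have htop : (⊤ : Ideal P) ≠ ⊥ := top_ne_bot
  have hinj : Set.InjOn (fun q : Ideal O => (q, (⊤ : Ideal P))) PS := fun q _ q' _ h =>
    (Prod.mk.inj h).1
  set S : Finset (Ideal O × Ideal P) := PS.image fun q => (q, (⊤ : Ideal P)) with hS
  have hScard : S.card = PS.card := Finset.card_image_of_injOn hinj
  have hSmem : ∀ s ∈ S, s.1 ∈ PS ∧ s.2 = ⊤ := by
    intro s hs
    rw [hS, Finset.mem_image] at hs
    obtain ⟨q, hq, rfl⟩ := hs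
    exact ⟨hq, rfl⟩
  have h3 : (PS.card : ℝ) ≤ Cc * (T.Q : ℝ) ^ b := by
    rw [← hScard]
    refine hcnt _ hQb S fun s hs => ?_
    obtain ⟨hs1, hs2⟩ := hSmem s hs
    obtain ⟨-, q2, -, -, q5⟩ := hgood _ hs1
    refine ⟨q2, by rw [hs2]; exact htop, ?_⟩
    rw [hs2, nI_top, Nat.cast_one, mul_one]
    exact_mod_cast q5
  have h4 : ∑ q ∈ PS, 1 / (nI q : ℝ) ^ 2 ≤ Ct / (w + 1) := by
    have h5 := htail w S (fun s hs => by
      obtain ⟨hs1, hs2⟩ := hSmem s hs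
      obtain ⟨-, q2, -, q4, -⟩ := hgood _ hs1
      refine ⟨q2, by rw [hs2]; exact htop, ?_⟩
      rw [hs2, nI_top, Nat.cast_one, mul_one]
      exact_mod_cast q4)
    rw [hS, Finset.sum_image hinj] at h5
    simpa only [nI_top, Nat.cast_one, mul_one] using h5
  have h6 : (F.card : ℝ) ≤ C1 * (Cc * (T.Q : ℝ) ^ b + A * (Ct / (w + 1))) := by
    refine h1.trans ((Finset.sum_le_sum h2).trans ?_)
    rw [← Finset.mul_sum, Finset.sum_add_distrib, Finset.sum_const, nsmul_eq_mul, mul_one,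
      ← Finset.mul_sum]
    exact mul_le_mul_of_nonneg_left (add_le_add h3 (mul_le_mul_of_nonneg_left h4 hA0)) hC10
  have h7 : (((T.VB n b).filter fun x => ((∀ i, x i - ξ i ∈ WD O w) ∧
      ∀ i, T.vtw b x i - ξ' i ∈ J) ∧ ¬ Uni x).card : ℝ) ≤ 1 + F.card := by
    have h8 : ((T.VB n b).filter fun x => ((∀ i, x i - ξ i ∈ WD O w) ∧
      ∀ i, T.vtw b x i - ξ' i ∈ J) ∧ ¬ Uni x) ⊆ {0} ∪ F := by
      intro x hx
      rw [Finset.mem_filter] at hx
      rw [Finset.mem_union, Finset.mem_singleton]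
      by_cases h0 : x = 0
      · exact Or.inl h0
      · right
        rw [hF, Finset.mem_filter]
        exact ⟨hx.1, hx.2.1, h0, hx.2.2⟩
    have h9 := (Finset.card_le_card h8).trans (Finset.card_union_le _ _)
    rw [Finset.card_singleton] at h9
    exact_mod_cast h9
  have hw1 : (0 : ℝ) < (w : ℝ) + 1 := by positivity
  have h10 : 0 ≤ A / ((w : ℝ) + 1) := by positivity
  have h11 : C1 * (Cc * (T.Q : ℝ) ^ b + A * (Ct / (w + 1))) =
      C1 * Cc * (T.Q : ℝ) ^ b + C1 * Ct * (A / (w + 1)) := by ring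
  have h12 : (1 + C1 * (Cc + Ct)) * (A / ((w : ℝ) + 1) + (T.Q : ℝ) ^ b) =
      (T.Q : ℝ) ^ b + C1 * Cc * (T.Q : ℝ) ^ b + C1 * Ct * (A / (w + 1)) + (A / (w + 1) +
        C1 * Cc * (A / (w + 1)) + C1 * Ct * (T.Q : ℝ) ^ b) := by ring
  have h13 : 0 ≤ A / ((w : ℝ) + 1) + C1 * Cc * (A / (w + 1)) + C1 * Ct * (T.Q : ℝ) ^ b := by
    have e1 : 0 ≤ C1 * Cc := mul_nonneg hC10 (by linarith)
    have e2 : 0 ≤ C1 * Ct := mul_nonneg hC10 (by linarith)
    have e3 := mul_nonneg e1 h10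
    have e4 := mul_nonneg e2 (by linarith : (0 : ℝ) ≤ (T.Q : ℝ) ^ b)
    linarith
  rw [h12]
  rw [h11] at h6
  linarith

private theorem CLow_sJ_ne {j : ℕ} {J : Ideal P} (hJ : J ≠ ⊥) : T.sJ j J ≠ ⊥ := by
  unfold sJ
  rw [Ne, Ideal.mul_eq_bot]
  rintro (h | h)
  · have h2 : Ideal.span {T.s} ≠ (⊥ : Ideal P) := by
      rw [Ne, Ideal.span_singleton_eq_bot]
      exact T.s_ne'
    exact pow_ne_zero j h2 h
  · exact hJ h

private theorem CLow_tw_pow {c : ℕ} {z : O} (hz : z ∈ T.H c) (k : ℕ) :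
    z ^ k ∈ T.H (k * c) ∧ T.tw (k * c) (z ^ k) = T.tw c z ^ k := by
  induction k with
  | zero =>
    rw [pow_zero, pow_zero, Nat.zero_mul]
    exact ⟨T.one_mem_H, T.tw_one⟩
  | succ k ih =>
    rw [pow_succ, pow_succ, Nat.succ_mul]
    exact ⟨T.mul_mem_H ih.1 hz, by rw [T.tw_mul ih.1 hz, ih.2]⟩

/-- If the `r`-th power of the twist is divisible by `s ^ jw`, then `z ^ r` lies in `H (a + r m b)`. -/
private theorem CLow_down {r m a b : ℕ} (hr : 1 ≤ r) {z : O} (hz : z ∈ T.H (cw r m a b)) {p : P}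
    (hp : T.tw (cw r m a b) z ^ r = T.s ^ jw r a * p) :
    z ^ r ∈ T.H (a + r * m * b) ∧ T.tw (a + r * m * b) (z ^ r) = p := by
  obtain ⟨h1, h2⟩ := T.CLow_tw_pow hz r
  have h3 := cw_eq hr m a b
  have h4 : a + r * m * b ≤ r * cw r m a b := by omega
  have h5 : r * cw r m a b - (a + r * m * b) = jw r a := by omega
  refine T.H_down h4 h1 ?_
  rw [h5, h2, hp]

private theorem CLow_cls {n : ℕ} {w b : ℕ} {J : Ideal P} (hJ : J ≠ ⊥)
    (h : T.C1 * (nI (WD O w) * nI J) ≤ T.Q ^ b) (ξ : Vc n O) (ξ' : Vc n P) :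
    ((T.VB n b).filter fun x => (∀ i, x i - ξ i ∈ WD O w) ∧ ∀ i, T.vtw b x i - ξ' i ∈ J).card *
      (nI (WD O w) * nI J) ^ (n + 1) = T.h b ^ (n + 1) := by
  have h1 : ((T.VB n b).filter fun x => (∀ i, x i - ξ i ∈ WD O w) ∧ ∀ i, T.vtw b x i - ξ' i ∈ J) =
      Fintype.piFinset fun i : Fin (n + 1) =>
      (T.H b).filter fun z => z - ξ i ∈ WD O w ∧ T.tw b z - ξ' i ∈ J := by
    ext x
    rw [Finset.mem_filter, mem_VB, Fintype.mem_piFinset]
    constructor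
    · rintro ⟨h1, h2, h3⟩ i
      exact Finset.mem_filter.2 ⟨h1 i, h2 i, h3 i⟩
    · intro h1
      exact ⟨fun i => (Finset.mem_filter.1 (h1 i)).1, fun i => (Finset.mem_filter.1 (h1 i)).2.1,
        fun i => (Finset.mem_filter.1 (h1 i)).2.2⟩
  have h2 : ∀ i : Fin (n + 1), ((T.H b).filter fun z => z - ξ i ∈ WD O w ∧
      T.tw b z - ξ' i ∈ J).card * (nI (WD O w) * nI J) = T.h b := fun i =>
    T.class_eq (WD_ne_bot (T.fewO w)) hJ h (ξ i) (ξ' i)
  rw [h1, Fintype.card_piFinset]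
  have h3 : (nI (WD O w) * nI J) ^ (n + 1) = ∏ _i : Fin (n + 1), (nI (WD O w) * nI J) := by
    rw [Finset.prod_const, Finset.card_univ, Fintype.card_fin]
  have h4 : T.h b ^ (n + 1) = ∏ _i : Fin (n + 1), T.h b := by
    rw [Finset.prod_const, Finset.card_univ, Fintype.card_fin]
  rw [h3, h4, ← Finset.prod_mul_distrib]
  exact Finset.prod_congr rfl fun i _ => h2 i

/-- Pairs of the class of a pair of local zeros satisfy the local conditions. -/
private theorem CLow_ev {n r m w a b : ℕ} (hr : 1 ≤ r) {F : Ten n (r * m) O}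
    (hF : F ∈ T.Box n (r * m) a) {ξ : Vc n O} {ω : O} {ξ' : Vc n P} {ω' : P}
    (hξ : Ideal.Quotient.mk (WD O w) 1 * ev (tmap (Ideal.Quotient.mk (WD O w)) F)
      (fun j => Ideal.Quotient.mk (WD O w) (ξ j)) = Ideal.Quotient.mk (WD O w) ω ^ r)
    (hξ' : Ideal.Quotient.mk (T.sJ (jw r a) (WD P w)) (T.s ^ jw r a) *
      ev (tmap (Ideal.Quotient.mk (T.sJ (jw r a) (WD P w))) (T.ttw a F))
      (fun j => Ideal.Quotient.mk (T.sJ (jw r a) (WD P w)) (ξ' j)) =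
        Ideal.Quotient.mk (T.sJ (jw r a) (WD P w)) ω' ^ r)
    {x : Vc n O} (hx : x ∈ T.VB n b) (hx1 : ∀ i, x i - ξ i ∈ WD O w)
    (hx2 : ∀ i, T.vtw b x i - ξ' i ∈ T.sJ (jw r a) (WD P w)) {z : O}
    (hz : z ∈ T.H (cw r m a b)) (hz1 : z - ω ∈ WD O w)
    (hz2 : T.tw (cw r m a b) z - ω' ∈ T.sJ (jw r a) (WD P w)) :
    z ∈ T.WS r m a b ∧ ev F x - z ^ r ∈ T.MS w (a + r * m * b) := by
  have e1 : (fun j => Ideal.Quotient.mk (WD O w) (x j)) =
      fun j => Ideal.Quotient.mk (WD O w) (ξ j) :=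
    funext fun j => (Ideal.Quotient.mk_eq_mk_iff_sub_mem _ _).2 (hx1 j)
  have e2 : (fun j => Ideal.Quotient.mk (T.sJ (jw r a) (WD P w)) (T.vtw b x j)) =
      fun j => Ideal.Quotient.mk (T.sJ (jw r a) (WD P w)) (ξ' j) :=
    funext fun j => (Ideal.Quotient.mk_eq_mk_iff_sub_mem _ _).2 (hx2 j)
  have e3 : Ideal.Quotient.mk (WD O w) z = Ideal.Quotient.mk (WD O w) ω :=
    (Ideal.Quotient.mk_eq_mk_iff_sub_mem _ _).2 hz1
  have e4 : Ideal.Quotient.mk (T.sJ (jw r a) (WD P w)) (T.tw (cw r m a b) z) =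
      Ideal.Quotient.mk (T.sJ (jw r a) (WD P w)) ω' :=
    (Ideal.Quotient.mk_eq_mk_iff_sub_mem _ _).2 hz2
  -- in `O`
  have h1 : ev F x - z ^ r ∈ WD O w := by
    rw [← Ideal.Quotient.eq_zero_iff_mem, map_sub, map_pow, e3, ← hξ, map_one, one_mul, ← e1]
    have h := ev_map (Ideal.Quotient.mk (WD O w)) F x
    have h2 : ev (tmap (Ideal.Quotient.mk (WD O w)) F) (fun j => Ideal.Quotient.mk (WD O w) (x j)) =
        Ideal.Quotient.mk (WD O w) (ev F x) := h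
    rw [h2, sub_self]
  -- in `P`
  have h2 : T.tw (cw r m a b) z ^ r - T.s ^ jw r a * ev (T.ttw a F) (T.vtw b x) ∈
      T.sJ (jw r a) (WD P w) := by
    rw [← Ideal.Quotient.eq_zero_iff_mem, map_sub, map_pow, e4, ← hξ', map_mul, ← e2]
    have h : ev (tmap (Ideal.Quotient.mk (T.sJ (jw r a) (WD P w))) (T.ttw a F))
        (fun j => Ideal.Quotient.mk (T.sJ (jw r a) (WD P w)) (T.vtw b x j)) =
        Ideal.Quotient.mk (T.sJ (jw r a) (WD P w)) (ev (T.ttw a F) (T.vtw b x)) :=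
      ev_map (Ideal.Quotient.mk (T.sJ (jw r a) (WD P w))) (T.ttw a F) (T.vtw b x)
    rw [h, sub_self]
  unfold sJ at h2
  rw [Ideal.span_singleton_pow, Ideal.mem_span_singleton_mul] at h2
  obtain ⟨δ, hδ, hδ2⟩ := h2
  have h3 : T.tw (cw r m a b) z ^ r = T.s ^ jw r a * (ev (T.ttw a F) (T.vtw b x) + δ) := by
    rw [mul_add, hδ2]
    ring
  obtain ⟨h4, h5⟩ := T.CLow_down hr hz h3
  refine ⟨?_, ?_⟩
  · unfold WS
    rw [Finset.mem_filter]
    exact ⟨hz, h4⟩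
  · have h6 := T.ev_mem hF hx
    unfold MS
    rw [mem_M]
    refine ⟨T.sub_mem_H h6 h4, h1, ?_⟩
    rw [T.tw_sub h6 h4, T.tw_ev hF hx, h5]
    have h7 : ev (T.ttw a F) (T.vtw b x) - (ev (T.ttw a F) (T.vtw b x) + δ) = -δ := by ring
    rw [h7]
    exact (WD P w).neg_mem hδ

theorem low_cntC (n r m : ℕ) (hn : 1 ≤ n) (hr : 1 ≤ r) (hm : 1 ≤ m)
    (hs : ∀ p : Ideal P, p.IsPrime → p ≠ ⊥ → T.s ∈ p) : ∃ C : ℝ, 1 ≤ C ∧
    ∀ (w a b g N2 : ℕ) (F : Ten n (r * m) O), T.Q ≤ w →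
      N2 = nI (WD O w) * nI (T.sJ (jw r a) (WD P w)) → T.C1 * N2 ≤ T.Q ^ b →
      F ∈ T.Box n (r * m) a →
      ((smSI r 1 (WD O w) F : ℝ) *
          smSI r (T.s ^ jw r a) (T.sJ (jw r a) (WD P w)) (T.ttw a F)) *
        (((T.h b : ℝ) ^ (n + 1) / (N2 : ℝ) ^ (n + 1) -
          C * (((T.Q : ℝ) ^ b / (N2 : ℝ)) ^ (n + 1) / (w + 1) + (T.Q : ℝ) ^ b)) *
          ((T.h (cw r m a b) : ℝ) / N2)) -
        ((T.VB n b).filter fun x => ¬ T.Good g x).card * T.h (cw r m a b) ≤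
      ((((T.GG n b g) ×ˢ (T.WS r m a b)).filter fun p =>
        ev F p.1 - p.2 ^ r ∈ T.MS w (a + r * m * b)).card : ℝ) := by
  obtain ⟨C, hC, hnon⟩ := T.nonUniG n hn
  refine ⟨C, hC, fun w a b g N2 F hw hN2 hb hF => ?_⟩
  have hW0 : WD O w ≠ ⊥ := WD_ne_bot (T.fewO w)
  have hJ0 : T.sJ (jw r a) (WD P w) ≠ ⊥ := T.CLow_sJ_ne (WD_ne_bot (T.fewP w))
  have : Finite (O ⧸ WD O w) := T.finO _ hW0
  have : Finite (P ⧸ T.sJ (jw r a) (WD P w)) := T.finP _ hJ0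
  obtain ⟨J, hJ⟩ : ∃ J, J = T.sJ (jw r a) (WD P w) := ⟨_, rfl⟩
  have hJle : J ≤ WD P w := by
    rw [hJ]
    unfold sJ
    exact Ideal.mul_le.2 fun x _ y hy => Ideal.mul_mem_left _ x hy
  have hbc : b ≤ cw r m a b := by
    unfold cw
    exact (Nat.le_mul_of_pos_left b hm).trans (Nat.le_add_left _ _)
  have hcC : T.C1 * N2 ≤ T.Q ^ cw r m a b :=
    hb.trans (Nat.pow_le_pow_right (by have := T.two_le; omega) hbc)
  have hNpos : 0 < N2 := by
    rw [hN2]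
    exact Nat.mul_pos (nI_pos T.finO hW0) (nI_pos T.finP hJ0)
  have hNR : (0 : ℝ) < (N2 : ℝ) := by exact_mod_cast hNpos
  set Z := {z : Vc n (O ⧸ WD O w) × (O ⧸ WD O w) // Uni z.1 ∧
    Ideal.Quotient.mk (WD O w) 1 * ev (tmap (Ideal.Quotient.mk (WD O w)) F) z.1 = z.2 ^ r} with hZ
  set Z' := {z : Vc n (P ⧸ T.sJ (jw r a) (WD P w)) × (P ⧸ T.sJ (jw r a) (WD P w)) // Uni z.1 ∧
    Ideal.Quotient.mk (T.sJ (jw r a) (WD P w)) (T.s ^ jw r a) *
      ev (tmap (Ideal.Quotient.mk (T.sJ (jw r a) (WD P w))) (T.ttw a F)) z.1 = z.2 ^ r} with hZ'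
  let _ : Fintype Z := Fintype.ofFinite _
  let _ : Fintype Z' := Fintype.ofFinite _
  have c1 : (smSI r 1 (WD O w) F : ℝ) = (Fintype.card Z : ℝ) := by
    unfold smSI smS
    rw [Nat.card_eq_fintype_card]
  have c2 : (smSI r (T.s ^ jw r a) (T.sJ (jw r a) (WD P w)) (T.ttw a F) : ℝ) =
      (Fintype.card Z' : ℝ) := by
    unfold smSI smS
    rw [Nat.card_eq_fintype_card]
  choose ξ hξ using fun (z : Z) (i : Fin (n + 1)) =>
    Ideal.Quotient.mk_surjective (I := WD O w) (z.1.1 i)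
  choose ω hω using fun (z : Z) => Ideal.Quotient.mk_surjective (I := WD O w) z.1.2
  choose ξ' hξ' using fun (z : Z') (i : Fin (n + 1)) =>
    Ideal.Quotient.mk_surjective (I := T.sJ (jw r a) (WD P w)) (z.1.1 i)
  choose ω' hω' using fun (z : Z') =>
    Ideal.Quotient.mk_surjective (I := T.sJ (jw r a) (WD P w)) z.1.2
  have e1 : ∀ z : Z, (fun j => Ideal.Quotient.mk (WD O w) (ξ z j)) = z.1.1 :=
    fun z => funext fun j => hξ z j
  have e2 : ∀ z : Z', (fun j => Ideal.Quotient.mk (T.sJ (jw r a) (WD P w)) (ξ' z j)) = z.1.1 :=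
    fun z => funext fun j => hξ' z j
  -- the classes
  set X : Z × Z' → Finset (Vc n O) := fun q => (T.VB n b).filter fun x =>
    (∀ i, x i - ξ q.1 i ∈ WD O w) ∧ ∀ i, T.vtw b x i - ξ' q.2 i ∈ T.sJ (jw r a) (WD P w) with hX
  set Y : Z × Z' → Finset O := fun q => (T.H (cw r m a b)).filter fun z =>
    z - ω q.1 ∈ WD O w ∧ T.tw (cw r m a b) z - ω' q.2 ∈ T.sJ (jw r a) (WD P w) with hY
  have hXc : ∀ q, ((X q).card : ℝ) = (T.h b : ℝ) ^ (n + 1) / (N2 : ℝ) ^ (n + 1) := by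
    intro q
    rw [eq_div_iff (by positivity), hN2]
    have h1 := T.CLow_cls hJ0 (by rw [← hN2]; exact hb) (ξ q.1) (ξ' q.2)
    exact_mod_cast h1
  have hYc : ∀ q, ((Y q).card : ℝ) = (T.h (cw r m a b) : ℝ) / N2 := by
    intro q
    rw [eq_div_iff hNR.ne', hN2]
    have h1 := T.class_eq hW0 hJ0 (by rw [← hN2]; exact hcC) (ω q.1) (ω' q.2)
    exact_mod_cast h1
  set D : Z × Z' → Finset (Vc n O × O) := fun q => X q ×ˢ Y q with hD
  have hdisj : ∀ q q' : Z × Z', q ≠ q' → Disjoint (D q) (D q') := by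
    intro q q' hqq
    rw [Finset.disjoint_left]
    rintro ⟨x, z⟩ hx hx'
    apply hqq
    simp only [hD, Finset.mem_product, hX, hY, Finset.mem_filter] at hx hx'
    refine Prod.ext (Subtype.ext (Prod.ext (funext fun i => ?_) ?_))
      (Subtype.ext (Prod.ext (funext fun i => ?_) ?_))
    · rw [← hξ q.1 i, ← hξ q'.1 i]
      rw [Ideal.Quotient.mk_eq_mk_iff_sub_mem]
      have := (WD O w).sub_mem (hx'.1.2.1 i) (hx.1.2.1 i)
      have h3 : ξ q.1 i - ξ q'.1 i = x i - ξ q'.1 i - (x i - ξ q.1 i) := by ring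
      rw [h3]; exact this
    · rw [← hω q.1, ← hω q'.1]
      rw [Ideal.Quotient.mk_eq_mk_iff_sub_mem]
      have := (WD O w).sub_mem hx'.2.2.1 hx.2.2.1
      have h3 : ω q.1 - ω q'.1 = z - ω q'.1 - (z - ω q.1) := by ring
      rw [h3]; exact this
    · rw [← hξ' q.2 i, ← hξ' q'.2 i]
      rw [Ideal.Quotient.mk_eq_mk_iff_sub_mem]
      have := (T.sJ (jw r a) (WD P w)).sub_mem (hx'.1.2.2 i) (hx.1.2.2 i)
      have h3 : ξ' q.2 i - ξ' q'.2 i = T.vtw b x i - ξ' q'.2 i - (T.vtw b x i - ξ' q.2 i) := by ring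
      rw [h3]; exact this
    · rw [← hω' q.2, ← hω' q'.2]
      rw [Ideal.Quotient.mk_eq_mk_iff_sub_mem]
      have := (T.sJ (jw r a) (WD P w)).sub_mem hx'.2.2.2 hx.2.2.2
      have h3 : ω' q.2 - ω' q'.2 = T.tw (cw r m a b) z - ω' q'.2 -
          (T.tw (cw r m a b) z - ω' q.2) := by ring
      rw [h3]; exact this
  set A := ((T.GG n b g) ×ˢ (T.WS r m a b)).filter fun p =>
        ev F p.1 - p.2 ^ r ∈ T.MS w (a + r * m * b) with hA
  set B := ((T.VB n b).filter fun x => ¬ T.Good g x) ×ˢ T.H (cw r m a b) with hB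
  have hBc : (B.card : ℝ) = ((T.VB n b).filter fun x => ¬ T.Good g x).card *
      T.h (cw r m a b) := by
    rw [hB, Finset.card_product]
    push_cast
    rfl
  have hsum : ∀ E : Finset (Vc n O × O), ∑ q : Z × Z', ((D q ∩ E).card : ℝ) ≤ (E.card : ℝ) := by
    intro E
    have h1 : (Finset.univ.biUnion fun q : Z × Z' => D q ∩ E).card =
        ∑ q : Z × Z', (D q ∩ E).card := by
      refine Finset.card_biUnion fun q _ q' _ hqq => ?_
      exact (hdisj q q' hqq).mono Finset.inter_subset_left Finset.inter_subset_left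
    have h2 : (Finset.univ.biUnion fun q : Z × Z' => D q ∩ E).card ≤ E.card := by
      refine Finset.card_le_card fun x hx => ?_
      rw [Finset.mem_biUnion] at hx
      obtain ⟨q, _, hq⟩ := hx
      exact (Finset.mem_inter.1 hq).2
    rw [h1] at h2
    exact_mod_cast h2
  have hone : ∀ q : Z × Z', ((T.h b : ℝ) ^ (n + 1) / (N2 : ℝ) ^ (n + 1) -
      C * (((T.Q : ℝ) ^ b / (N2 : ℝ)) ^ (n + 1) / (w + 1) + (T.Q : ℝ) ^ b)) *
          ((T.h (cw r m a b) : ℝ) / N2) ≤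
      ((D q ∩ A).card : ℝ) + ((D q ∩ B).card : ℝ) := by
    intro q
    obtain ⟨u, hu⟩ := low_uniLift (WD O w) (ξ q.1) (by rw [e1]; exact q.1.2.1)
    obtain ⟨u', hu'⟩ := low_uniLift (T.sJ (jw r a) (WD P w)) (ξ' q.2)
      (by rw [e2]; exact q.2.2.1)
    have hu'' : lin u' (ξ' q.2) - 1 ∈ WD P w := by
      rw [← hJ] at hu'
      exact hJle hu'
    set E := (T.VB n b).filter fun x => ((∀ i, x i - ξ q.1 i ∈ WD O w) ∧
      ∀ i, T.vtw b x i - ξ' q.2 i ∈ T.sJ (jw r a) (WD P w)) ∧ ¬ Uni x with hE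
    have h1 : (E.card : ℝ) ≤ C * (((T.Q : ℝ) ^ b / (N2 : ℝ)) ^ (n + 1) / (w + 1) +
        (T.Q : ℝ) ^ b) := by
      have h2 := hnon w b (T.sJ (jw r a) (WD P w)) (ξ q.1) u (ξ' q.2) hJ0 hu
      rw [hN2]
      push_cast
      exact h2
    have h2 : (D q).card ≤ (D q ∩ A).card + (D q ∩ B).card + (E ×ˢ Y q).card := by
      have : D q ⊆ ((D q ∩ A) ∪ (D q ∩ B)) ∪ (E ×ˢ Y q) := by
        rintro ⟨x, z⟩ hx
        rw [Finset.mem_union, Finset.mem_union]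
        have hx' := hx
        simp only [hD, Finset.mem_product, hX, hY, Finset.mem_filter] at hx'
        obtain ⟨⟨hxV, hx1, hx2⟩, hzH, hz1, hz2⟩ := hx'
        by_cases hU : Uni x
        · left
          by_cases hG : T.Good g x
          · left
            refine Finset.mem_inter.2 ⟨hx, ?_⟩
            have hxC : x ∈ T.Cls w b (ξ q.1) (ξ' q.2) := by
              rw [low_memCls]
              refine ⟨hxV, hx1, fun i => ?_⟩
              have := hx2 i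
              rw [← hJ] at this
              exact hJle this
            obtain ⟨h3, h4⟩ := T.CLow_ev (w := w) hr hF (ξ := ξ q.1) (ω := ω q.1) (ξ' := ξ' q.2)
              (ω' := ω' q.2) (by rw [e1, hω]; exact q.1.2.2) (by rw [e2, hω']; exact q.2.2.2)
              hxV hx1 hx2 hzH hz1 hz2
            rw [hA, Finset.mem_filter, Finset.mem_product]
            refine ⟨⟨?_, h3⟩, h4⟩
            unfold GG
            rw [Finset.mem_filter]
            exact ⟨hxV, hU, T.uniP hw hs hu'' hxC, hG⟩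
          · right
            refine Finset.mem_inter.2 ⟨hx, ?_⟩
            rw [hB, Finset.mem_product, Finset.mem_filter]
            exact ⟨⟨hxV, hG⟩, hzH⟩
        · right
          rw [Finset.mem_product, hE, Finset.mem_filter]
          refine ⟨⟨hxV, ⟨hx1, hx2⟩, hU⟩, ?_⟩
          rw [hD, Finset.mem_product] at hx
          exact hx.2
      exact (Finset.card_le_card this).trans ((Finset.card_union_le _ _).trans
        (Nat.add_le_add_right (Finset.card_union_le _ _) _))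
    have h3 : ((D q).card : ℝ) = (T.h b : ℝ) ^ (n + 1) / (N2 : ℝ) ^ (n + 1) *
        ((T.h (cw r m a b) : ℝ) / N2) := by
      rw [hD, Finset.card_product, Nat.cast_mul, hXc, hYc]
    have h4 : ((E ×ˢ Y q).card : ℝ) = (E.card : ℝ) * ((T.h (cw r m a b) : ℝ) / N2) := by
      rw [Finset.card_product, Nat.cast_mul, hYc]
    have h5 : ((D q).card : ℝ) ≤ ((D q ∩ A).card : ℝ) + ((D q ∩ B).card : ℝ) +
        ((E ×ˢ Y q).card : ℝ) := by exact_mod_cast h2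
    have h6 : (E.card : ℝ) * ((T.h (cw r m a b) : ℝ) / N2) ≤
        C * (((T.Q : ℝ) ^ b / (N2 : ℝ)) ^ (n + 1) / (w + 1) + (T.Q : ℝ) ^ b) *
          ((T.h (cw r m a b) : ℝ) / N2) := mul_le_mul_of_nonneg_right h1 (by positivity)
    rw [h3, h4] at h5
    rw [sub_mul]
    linarith
  have htot := Finset.sum_le_sum fun q (_ : q ∈ (Finset.univ : Finset (Z × Z'))) => hone q
  rw [Finset.sum_add_distrib, Finset.sum_const, Finset.card_univ, Fintype.card_prod,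
    nsmul_eq_mul, Nat.cast_mul] at htot
  have hA' := hsum A
  have hB' := hsum B
  rw [hBc] at hB'
  rw [c1, c2]
  linarith

theorem card_WS {r m a b : ℕ} (hr : 1 ≤ r) (h : T.C1 * T.Q ^ r ≤ T.Q ^ cw r m a b) :
    T.h (cw r m a b) ≤ (T.WS r m a b).card * T.Q ^ r := by
  have hs0 : Ideal.span {T.s} ≠ (⊥ : Ideal P) := by
    rw [Ne, Ideal.span_singleton_eq_bot]
    exact T.s_ne'
  have hJ0 : Ideal.span {T.s} ^ r ≠ (⊥ : Ideal P) := pow_ne_zero r hs0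
  have hN : nI (⊤ : Ideal O) * nI (Ideal.span {T.s} ^ r) = T.Q ^ r := by
    rw [nI_top, one_mul, nI_pow T.finP hs0, T.nrm_s]
  have h1 := T.card_M (c := cw r m a b) (I := ⊤) (J := Ideal.span {T.s} ^ r) top_ne_bot hJ0
    (by rw [hN]; exact h)
  rw [hN] at h1
  rw [← h1]
  refine Nat.mul_le_mul_right _ (Finset.card_le_card fun z hz => ?_)
  rw [mem_M] at hz
  obtain ⟨hz1, -, hz3⟩ := hz
  rw [Ideal.span_singleton_pow, Ideal.mem_span_singleton] at hz3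
  obtain ⟨p, hp⟩ := hz3
  have h2 : jw r a ≤ r * r := (jw_le r a).trans (Nat.le_mul_of_pos_left r hr)
  have h3 : T.tw (cw r m a b) z ^ r = T.s ^ jw r a * (T.s ^ (r * r - jw r a) * p ^ r) := by
    rw [hp, mul_pow, ← pow_mul, ← mul_assoc, ← pow_add, Nat.add_sub_cancel' h2]
  unfold WS
  rw [Finset.mem_filter]
  exact ⟨hz1, (T.CLow_down hr hz1 h3).1⟩

end TC

end Pool.Agent.Lib.MP_1ad228_ntZ
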