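import Pool.Agent.Lib.MP_1ad228_ntZC.CDefs
import Pool.Agent.Lib.MP_1ad228_ntZ.FA

/-!
LEAF CRoot.  The number of `r`-th roots modulo an ideal of a Dedekind domain with finite quotients.
Port of Lib/MP_1ad228_ntY/RtUp.lean and EulerI.lean (`𝓞 K` replaced by `R`, `Ideal.absNorm` by `nI`, multiplicativity: nI_mul, nI_pow of Lib/MP_1ad228_ntZ/Nrm.lean).
-/

namespace Pool.Agent.Lib.MP_1ad228_ntZ

open Classical

/-- The preimage of a set under a surjective homomorphism of finite groups. -/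
private theorem CRoot_fib {G H : Type*} [AddCommGroup G] [AddCommGroup H] [Finite G] (f : G →+ H)
    (hf : Function.Surjective f) (p : H → Prop) :
    Nat.card {z : G // p (f z)} = Nat.card {y : H // p y} * Nat.card f.ker := by
  rw [← Nat.card_prod]
  obtain ⟨s, hs⟩ := hf.hasRightInverse
  refine Nat.card_congr
    { toFun := fun z => (⟨f z.1, z.2⟩, ⟨z.1 - s (f z.1), ?_⟩)
      invFun := fun w => ⟨s w.1.1 + w.2.1, ?_⟩
      left_inv := ?_
      right_inv := ?_ }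
  · rw [AddMonoidHom.mem_ker, map_sub, hs, sub_self]
  · rw [map_add, hs, (AddMonoidHom.mem_ker).1 w.2.2, add_zero]
    exact w.1.2
  · intro z
    apply Subtype.ext
    simp
  · intro w
    have h2 : f w.2.1 = 0 := (AddMonoidHom.mem_ker).1 w.2.2
    have h1 : f (s w.1.1 + w.2.1) = w.1.1 := by rw [map_add, hs, h2, add_zero]
    refine Prod.ext (Subtype.ext ?_) (Subtype.ext ?_)
    · exact h1
    · change s w.1.1 + w.2.1 - s (f (s w.1.1 + w.2.1)) = w.2.1
      rw [h1]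
      abel

section dede
variable {R : Type} [CommRing R] [IsDedekindDomain R]

/-- The exponent of the prime ideal `p` in `I`. -/
noncomputable def vR (p I : Ideal R) : ℕ :=
  (UniqueFactorizationMonoid.normalizedFactors I).count p

omit [IsDedekindDomain R] in
private theorem CRoot_bdd (hfin : ∀ I : Ideal R, I ≠ ⊥ → Finite (R ⧸ I)) {r : ℕ} {I : Ideal R}
    (hI : I ≠ ⊥) : BddAbove (Set.range fun t : R ⧸ I => Nat.card {z : R ⧸ I // z ^ r = t}) := by
  have := hfin I hI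
  exact (Set.finite_range _).bddAbove

theorem rtLeS (hfin : ∀ I : Ideal R, I ≠ ⊥ → Finite (R ⧸ I)) {r : ℕ} {I : Ideal R} (hI : I ≠ ⊥)
    (t : R ⧸ I) : Nat.card {z : R ⧸ I // z ^ r = t} ≤ rt r I := by
  exact le_csSup (CRoot_bdd hfin hI) ⟨t, rfl⟩

omit [IsDedekindDomain R] in
private theorem CRoot_ex (hfin : ∀ I : Ideal R, I ≠ ⊥ → Finite (R ⧸ I)) (r : ℕ) {I : Ideal R}
    (hI : I ≠ ⊥) : ∃ t : R ⧸ I, Nat.card {z : R ⧸ I // z ^ r = t} = rt r I :=
  Nat.sSup_mem (Set.range_nonempty _) (CRoot_bdd hfin (r := r) hI)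

theorem rtPosS (hfin : ∀ I : Ideal R, I ≠ ⊥ → Finite (R ⧸ I)) {r : ℕ} (hr : 1 ≤ r) {I : Ideal R}
    (hI : I ≠ ⊥) : 1 ≤ rt r I := by
  have := hfin I hI
  refine le_trans ?_ (rtLeS hfin (r := r) hI 0)
  have : Nonempty {z : R ⧸ I // z ^ r = 0} := ⟨⟨0, zero_pow (by omega)⟩⟩
  exact Nat.one_le_iff_ne_zero.2 Nat.card_pos.ne'

/-- The map between the quotients as a homomorphism of groups. -/
private noncomputable def CRoot_pi {I J : Ideal R} (h : I ≤ J) : R ⧸ I →+ R ⧸ J :=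
  (Ideal.Quotient.factor h).toAddMonoidHom

omit [IsDedekindDomain R] in
private theorem CRoot_pi_pow {I J : Ideal R} (h : I ≤ J) (z : R ⧸ I) (r : ℕ) :
    CRoot_pi h (z ^ r) = CRoot_pi h z ^ r := map_pow (Ideal.Quotient.factor h) z r

omit [IsDedekindDomain R] in
private theorem CRoot_pi_surj {I J : Ideal R} (h : I ≤ J) : Function.Surjective (CRoot_pi h) :=
  Ideal.Quotient.factor_surjective h

omit [IsDedekindDomain R] in
private theorem CRoot_ker (hfin : ∀ I : Ideal R, I ≠ ⊥ → Finite (R ⧸ I)) {I J : Ideal R}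
    (hI : I ≠ ⊥) (h : I ≤ J) : nI I = nI J * Nat.card (CRoot_pi h).ker := by
  have := hfin I hI
  have h1 := CRoot_fib (CRoot_pi h) (CRoot_pi_surj h) (fun _ => True)
  rw [Nat.card_congr (Equiv.subtypeUnivEquiv fun _ => trivial),
    Nat.card_congr (Equiv.subtypeUnivEquiv fun _ => trivial)] at h1
  exact h1

theorem rtMonoS (hfin : ∀ I : Ideal R, I ≠ ⊥ → Finite (R ⧸ I)) {r : ℕ} {I J : Ideal R}
    (hI : I ≠ ⊥) (h : I ≤ J) : rt r J ≤ rt r I := by
  have hJ : J ≠ ⊥ := by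
    rintro rfl
    exact hI (le_bot_iff.1 h)
  have := hfin I hI
  have := hfin J hJ
  obtain ⟨t₀, ht₀⟩ := CRoot_ex hfin r hJ
  have h1 := CRoot_fib (CRoot_pi h) (CRoot_pi_surj h) (fun y => y ^ r = t₀)
  have h2 := CRoot_fib (CRoot_pi h) (CRoot_pi_surj h) (fun y => y = t₀)
  rw [ht₀] at h1
  have hone : Nat.card {y : R ⧸ J // y = t₀} = 1 := by
    rw [Nat.card_eq_one_iff_unique]
    exact ⟨⟨fun a b => Subtype.ext (a.2.trans b.2.symm)⟩, ⟨⟨t₀, rfl⟩⟩⟩
  rw [hone, one_mul] at h2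
  -- the fibres of `z ↦ z ^ r`
  let S : Type := {z : R ⧸ I // CRoot_pi h z ^ r = t₀}
  let U : Type := {z : R ⧸ I // CRoot_pi h z = t₀}
  let g : S → U := fun z => ⟨z.1 ^ r, by rw [CRoot_pi_pow]; exact z.2⟩
  have : Finite S := Subtype.finite
  have : Finite U := Subtype.finite
  have hfU : Fintype U := Fintype.ofFinite U
  have h3 : Nat.card S ≤ Nat.card U * rt r I := by
    have e : S ≃ Σ u : U, {z : S // g z = u} := (Equiv.sigmaFiberEquiv g).symm
    rw [Nat.card_congr e, Nat.card_sigma, Nat.card_eq_fintype_card (α := U), ← Finset.card_univ, ← smul_eq_mul]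
    refine Finset.sum_le_card_nsmul _ _ _ fun u _ => ?_
    refine le_trans ?_ (rtLeS hfin (r := r) hI u.1)
    refine Nat.card_le_card_of_injective
      (fun z : {z : S // g z = u} => (⟨z.1.1, congrArg Subtype.val z.2⟩ : {z : R ⧸ I // z ^ r = u.1})) ?_
    intro a b hab
    apply Subtype.ext
    apply Subtype.ext
    exact Subtype.mk.inj hab
  have h4 : rt r J * Nat.card (CRoot_pi h).ker ≤ Nat.card (CRoot_pi h).ker * rt r I := by
    rw [← h1]
    calc Nat.card {z : R ⧸ I // CRoot_pi h z ^ r = t₀} ≤ Nat.card U * rt r I := h3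
      _ = Nat.card (CRoot_pi h).ker * rt r I := by rw [← h2]
  rw [mul_comm] at h4
  exact Nat.le_of_mul_le_mul_left h4 Nat.card_pos

private theorem CRoot_prod {I : Ideal R} (hI : I ≠ ⊥) (T : Finset (Ideal R))
    (hIT : ∀ P : Ideal R, P.IsPrime → P ≠ ⊥ → I ≤ P → P ∈ T) :
    I = ∏ P ∈ T, P ^ vR P I := by
  have hsub : (UniqueFactorizationMonoid.normalizedFactors I).toFinset ⊆ T := by
    intro P hP
    rw [Multiset.mem_toFinset] at hP
    have hp := UniqueFactorizationMonoid.prime_of_normalized_factor P hP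
    exact hIT P (Ideal.isPrime_of_prime hp) hp.ne_zero
      (Ideal.dvd_iff_le.1 (UniqueFactorizationMonoid.dvd_of_mem_normalizedFactors hP))
  calc I = (UniqueFactorizationMonoid.normalizedFactors I).prod :=
        (Ideal.prod_normalizedFactors_eq_self hI).symm
    _ = ∏ P ∈ T, P ^ vR P I := Finset.prod_multiset_count_of_subset _ T hsub

/-- The roots modulo a squarefree ideal. -/
private theorem CRoot_rad (hfin : ∀ I : Ideal R, I ≠ ⊥ → Finite (R ⧸ I)) {r : ℕ} (hr : 1 ≤ r)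
    (T : Finset (Ideal R)) (hT : ∀ P ∈ T, P.IsPrime ∧ P ≠ ⊥) (t : R ⧸ (∏ P ∈ T, P)) :
    Nat.card {z : R ⧸ (∏ P ∈ T, P) // z ^ r = t} ≤ r ^ T.card := by
  have hle : ∀ P : T, (∏ P ∈ T, P) ≤ P.1 := fun P => Ideal.dvd_iff_le.1 (Finset.dvd_prod_of_mem _ P.2)
  have hroots : ∀ P : T, ∀ c : R ⧸ P.1, Finite {u : R ⧸ P.1 // u ^ r = c} ∧
      Nat.card {u : R ⧸ P.1 // u ^ r = c} ≤ r := by
    intro P c
    have := hfin P.1 (hT P.1 P.2).2
    have := (hT P.1 P.2).1
    have : IsDomain (R ⧸ P.1) := Ideal.Quotient.isDomain P.1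
    refine ⟨inferInstance, ?_⟩
    have h1 : ∀ u : {u : R ⧸ P.1 // u ^ r = c}, u.1 ∈ (Polynomial.nthRoots r c).toFinset := by
      intro u
      rw [Multiset.mem_toFinset, Polynomial.mem_nthRoots (by omega)]
      exact u.2
    have h2 : Nat.card {u : R ⧸ P.1 // u ^ r = c} ≤ Nat.card (Polynomial.nthRoots r c).toFinset :=
      Nat.card_le_card_of_injective (fun u => (⟨u.1, h1 u⟩ : (Polynomial.nthRoots r c).toFinset))
        (fun a b hab => Subtype.ext (Subtype.mk.inj hab))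
    refine h2.trans ?_
    rw [Nat.card_eq_fintype_card, Fintype.card_coe]
    exact (Multiset.toFinset_card_le _).trans (Polynomial.card_nthRoots r c)
  have hfin2 : ∀ P : T, Finite {u : R ⧸ P.1 // u ^ r = CRoot_pi (hle P) t} := fun P => (hroots P _).1
  have hinj : Nat.card {z : R ⧸ (∏ P ∈ T, P) // z ^ r = t} ≤
      Nat.card ((P : T) → {u : R ⧸ P.1 // u ^ r = CRoot_pi (hle P) t}) := by
    refine Nat.card_le_card_of_injective (fun z P => ⟨CRoot_pi (hle P) z.1, by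
      rw [← CRoot_pi_pow, z.2]⟩) ?_
    intro a b hab
    apply Subtype.ext
    obtain ⟨x, hx⟩ := Ideal.Quotient.mk_surjective a.1
    obtain ⟨y, hy⟩ := Ideal.Quotient.mk_surjective b.1
    rw [← hx, ← hy, Ideal.Quotient.eq]
    have h1 : ∀ P ∈ T, x - y ∈ P := by
      intro P hP
      have h2 := congrArg Subtype.val (congrFun hab ⟨P, hP⟩)
      change Ideal.Quotient.factor (hle ⟨P, hP⟩) a.1 = Ideal.Quotient.factor (hle ⟨P, hP⟩) b.1 at h2
      rw [← hx, ← hy, Ideal.Quotient.factor_mk, Ideal.Quotient.factor_mk, Ideal.Quotient.eq] at h2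
      exact h2
    have h3 := IsDedekindDomain.inf_pow_eq_prod_of_prime T (fun P : Ideal R => P) (fun _ => 1)
      (fun P hP => Ideal.prime_of_isPrime (hT P hP).2 (hT P hP).1) (fun _ _ _ _ h => h)
    simp only [pow_one] at h3
    rw [← h3, Submodule.mem_finsetInf]
    exact h1
  refine hinj.trans ?_
  rw [Nat.card_pi]
  refine (Finset.prod_le_pow_card _ _ r fun P _ => (hroots P _).2).trans (le_of_eq ?_)
  rw [Finset.card_univ, Fintype.card_coe]

/-- Norms of products of powers. -/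
private theorem CRoot_norm (hfin : ∀ I : Ideal R, I ≠ ⊥ → Finite (R ⧸ I)) (T : Finset (Ideal R))
    (hT : ∀ P ∈ T, P ≠ ⊥) (e : Ideal R → ℕ) :
    (∏ P ∈ T, P ^ e P) ≠ ⊥ ∧ nI (∏ P ∈ T, P ^ e P) = ∏ P ∈ T, nI P ^ e P := by
  induction T using Finset.induction_on with
  | empty =>
    rw [Finset.prod_empty, Finset.prod_empty, Ideal.one_eq_top]
    exact ⟨top_ne_bot, nI_top⟩
  | insert P T hP ih =>
    obtain ⟨h1, h2⟩ := ih fun Q hQ => hT Q (Finset.mem_insert_of_mem hQ)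
    have h3 : P ≠ ⊥ := hT P (Finset.mem_insert_self P T)
    have h4 : P ^ e P ≠ ⊥ := by
      rw [← Ideal.zero_eq_bot] at h3 ⊢
      exact pow_ne_zero _ h3
    rw [Finset.prod_insert hP, Finset.prod_insert hP]
    refine ⟨?_, ?_⟩
    · rw [← Ideal.zero_eq_bot] at h1 h4 ⊢
      exact mul_ne_zero h4 h1
    · rw [nI_mul hfin h4 h1, nI_pow hfin h3, h2]

theorem rtUpS (hfin : ∀ I : Ideal R, I ≠ ⊥ → Finite (R ⧸ I)) {r : ℕ} (hr : 1 ≤ r) {I : Ideal R}
    (hI : I ≠ ⊥) (S : Finset (Ideal R)) (hS : ∀ p ∈ S, p.IsPrime ∧ p ≠ ⊥)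
    (hIS : ∀ p : Ideal R, p.IsPrime → p ≠ ⊥ → I ≤ p → p ∈ S) :
    (nI I : ℝ) = ∏ p ∈ S, (nI p : ℝ) ^ vR p I ∧
    (rt r I : ℝ) ≤ ∏ p ∈ S, (if vR p I = 0 then 1
      else (r : ℝ) * (nI p : ℝ) ^ (vR p I - 1)) := by
  have hprod := CRoot_prod hI S hIS
  have hnorm : nI I = ∏ P ∈ S, nI P ^ vR P I := by
    calc nI I = nI (∏ P ∈ S, P ^ vR P I) := by rw [← hprod]
      _ = _ := (CRoot_norm hfin S (fun P hP => (hS P hP).2) fun P => vR P I).2
  refine ⟨by rw [hnorm]; push_cast; rfl, ?_⟩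
  set T' : Finset (Ideal R) := S.filter (fun P => vR P I ≠ 0) with hT'
  set Q : Ideal R := ∏ P ∈ T', P with hR
  have hT'T : ∀ P ∈ T', P.IsPrime ∧ P ≠ ⊥ := fun P hP => hS P (Finset.mem_filter.1 hP).1
  have hIR : I ≤ Q := by
    rw [← Ideal.dvd_iff_le]
    have h1 : Q ∣ ∏ P ∈ T', P ^ vR P I :=
      Finset.prod_dvd_prod_of_dvd _ _ fun P hP => dvd_pow_self P (Finset.mem_filter.1 hP).2
    have h2 : (∏ P ∈ T', P ^ vR P I) ∣ ∏ P ∈ S, P ^ vR P I :=
      Finset.prod_dvd_prod_of_subset _ _ _ (Finset.filter_subset _ _)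
    rw [← hprod] at h2
    exact h1.trans h2
  have hR0 : Q ≠ ⊥ := by
    intro h
    apply hI
    rw [h] at hIR
    exact le_bot_iff.1 hIR
  have := hfin I hI
  have hbound : rt r I ≤ r ^ T'.card * Nat.card (CRoot_pi hIR).ker := by
    obtain ⟨t, ht⟩ := CRoot_ex hfin r hI
    rw [← ht]
    have h1 := CRoot_fib (CRoot_pi hIR) (CRoot_pi_surj hIR) (fun y => y ^ r = CRoot_pi hIR t)
    have h2 : Nat.card {z : R ⧸ I // z ^ r = t} ≤
        Nat.card {z : R ⧸ I // CRoot_pi hIR z ^ r = CRoot_pi hIR t} :=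
      Nat.card_le_card_of_injective (fun z => ⟨z.1, by rw [← CRoot_pi_pow, z.2]⟩)
        (fun a b hab => Subtype.ext (Subtype.mk.inj hab))
    refine h2.trans ?_
    rw [h1]
    exact Nat.mul_le_mul_right _ (CRoot_rad hfin hr T' hT'T _)
  have hker := CRoot_ker hfin hI hIR
  have hNR : nI Q = ∏ P ∈ T', nI P := by
    have h1 := (CRoot_norm hfin T' (fun P hP => (hT'T P hP).2) fun _ => 1).2
    simp only [pow_one] at h1
    rw [hR, h1]
  have hNpos : ∀ P ∈ S, 0 < nI P := fun P hP => nI_pos hfin (hS P hP).2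
  have hNI : nI I = ∏ P ∈ T', nI P ^ vR P I := by
    rw [hnorm]
    symm
    apply Finset.prod_subset (Finset.filter_subset _ _)
    intro P hP hP'
    have h1 : vR P I = 0 := by
      by_contra h2
      exact hP' (Finset.mem_filter.2 ⟨hP, h2⟩)
    rw [h1, pow_zero]
  have hk : Nat.card (CRoot_pi hIR).ker = ∏ P ∈ T', nI P ^ (vR P I - 1) := by
    have h1 : (∏ P ∈ T', nI P) * Nat.card (CRoot_pi hIR).ker =
        (∏ P ∈ T', nI P) * ∏ P ∈ T', nI P ^ (vR P I - 1) := by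
      rw [← hNR, ← hker, hNI, hNR, ← Finset.prod_mul_distrib]
      refine Finset.prod_congr rfl fun P hP => ?_
      have h2 : vR P I ≠ 0 := (Finset.mem_filter.1 hP).2
      rw [← pow_succ']
      congr 1
      omega
    have h3 : 0 < ∏ P ∈ T', nI P :=
      Finset.prod_pos fun P hP => hNpos P (Finset.mem_filter.1 hP).1
    exact Nat.eq_of_mul_eq_mul_left h3 h1
  have hfin3 : ((r ^ T'.card * Nat.card (CRoot_pi hIR).ker : ℕ) : ℝ) =
      ∏ P ∈ S, (if vR P I = 0 then 1 else (r : ℝ) * (nI P : ℝ) ^ (vR P I - 1)) := by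
    rw [hk]
    push_cast
    rw [← Finset.prod_const, ← Finset.prod_mul_distrib, hT', Finset.prod_filter]
    refine Finset.prod_congr rfl fun P _ => ?_
    by_cases h : vR P I = 0
    · simp [h]
    · simp [h]
  rw [← hfin3]
  exact_mod_cast hbound

private theorem CRoot_inj (T : Finset (Ideal R)) {I I' : Ideal R} (hI : I ≠ ⊥) (hI' : I' ≠ ⊥)
    (h : ∀ P : Ideal R, P.IsPrime → P ≠ ⊥ → I ≤ P → P ∈ T)
    (h' : ∀ P : Ideal R, P.IsPrime → P ≠ ⊥ → I' ≤ P → P ∈ T)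
    (e : ∀ P ∈ T, vR P I = vR P I') : I = I' := by
  have key : ∀ {L : Ideal R}, L ≠ ⊥ →
      (∀ P : Ideal R, P.IsPrime → P ≠ ⊥ → L ≤ P → P ∈ T) →
      ∀ Q, Q ∉ T → vR Q L = 0 := by
    intro L hL hLT Q hQ
    unfold vR
    rw [Multiset.count_eq_zero]
    intro hQ'
    have hpr := UniqueFactorizationMonoid.prime_of_normalized_factor Q hQ'
    exact hQ (hLT Q (Ideal.isPrime_of_prime hpr) hpr.ne_zero
      (Ideal.le_of_dvd (UniqueFactorizationMonoid.dvd_of_mem_normalizedFactors hQ')))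
  have hm : UniqueFactorizationMonoid.normalizedFactors I
      = UniqueFactorizationMonoid.normalizedFactors I' := by
    refine Multiset.ext.2 (fun Q => ?_)
    by_cases hQ : Q ∈ T
    · exact e Q hQ
    · exact (key hI h Q hQ).trans (key hI' h' Q hQ).symm
  rw [← Ideal.prod_normalizedFactors_eq_self hI, hm, Ideal.prod_normalizedFactors_eq_self hI']

theorem eulerS (S U : Finset (Ideal R)) (J : ℕ) (hS : ∀ I ∈ S, I ≠ ⊥)
    (hU : ∀ p ∈ U, p.IsPrime ∧ p ≠ ⊥)
    (hSU : ∀ I ∈ S, ∀ p : Ideal R, p.IsPrime → p ≠ ⊥ → I ≤ p → p ∈ U)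
    (hJ : ∀ I ∈ S, ∀ p ∈ U, vR p I ≤ J) (φ : Ideal R → ℕ → ℝ) (h0 : ∀ p j, 0 ≤ φ p j) :
    ∑ I ∈ S, ∏ p ∈ U, φ p (vR p I) ≤ ∏ p ∈ U, ∑ j ∈ Finset.range (J + 1), φ p j := by
  rw [Finset.prod_sum]
  have hinj : Set.InjOn (fun (I : Ideal R) => fun (P : Ideal R) (_ : P ∈ U) => vR P I)
      (S : Set (Ideal R)) := by
    intro I hI I' hI' e
    refine CRoot_inj U (hS I hI) (hS I' hI') (hSU I hI) (hSU I' hI') (fun P hP => ?_)
    exact congrFun (congrFun e P) hP
  have hsub : S.image (fun (I : Ideal R) => fun (P : Ideal R) (_ : P ∈ U) => vR P I)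
      ⊆ U.pi (fun _ => Finset.range (J + 1)) := by
    intro p hp
    obtain ⟨I, hI, rfl⟩ := Finset.mem_image.1 hp
    refine Finset.mem_pi.2 (fun P hP => ?_)
    exact Finset.mem_range.2 (Nat.lt_succ_of_le (hJ I hI P hP))
  calc ∑ I ∈ S, ∏ P ∈ U, φ P (vR P I)
      = ∑ p ∈ S.image (fun (I : Ideal R) => fun (P : Ideal R) (_ : P ∈ U) => vR P I),
          ∏ x ∈ U.attach, φ x.1 (p x.1 x.2) := by
        rw [Finset.sum_image hinj]
        exact Finset.sum_congr rfl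
          (fun I _ => (Finset.prod_attach U (fun P => φ P (vR P I))).symm)
    _ ≤ _ := Finset.sum_le_sum_of_subset_of_nonneg hsub
        (fun p _ _ => Finset.prod_nonneg (fun x _ => h0 _ _))

end dede

end Pool.Agent.Lib.MP_1ad228_ntZ
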