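import Pool.Agent.Lib.MP_1ad228_ntZC.CDefs

/-!
LEAF CVar.  The variance.  Model: Lib/MP_1ad228_ntZ/Var.lean (helper82).
`N(F) - L(F) = ∑_{x ∈ GG} φ_x(F)`, `φ_x(F) = ∑_{w1 ∈ WS} ([ev F x = w1^r] - [ev F x - w1^r ∈ MS]/#MS)`.  `∑_F φ_x φ_y = A1 - B1 - B2 + A2`, `B1 = (1/#MS) ∑_{w1,w2,μ} sl (w1^r + μ) (w2^r)`, `B2` symmetric, all `≥ 0`, so `≤ A1 + A2`; for a good pair the
invariance `hinv` gives `A1 = B1 = B2 = A2`, so the sum is `0`.
-/

namespace Pool.Agent.Lib.MP_1ad228_ntZ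

open Classical

namespace TC
variable {K O P : Type} [Field K] [CommRing O] [Algebra O K] [CommRing P] [Algebra P K]
  (T : TC K O P)

/-- Indicator of `ev a x = m`. -/
private noncomputable def CVar_D {n d : ℕ} (x : Vc n O) (m : O) (a : Ten n d O) : ℝ :=
  if ev a x = m then 1 else 0

private theorem CVar_sl {n : ℕ} (d c : ℕ) (x y : Vc n O) (m m' : O) :
    (T.sl d c x y m m' : ℝ) = ∑ a ∈ T.Box n d c, CVar_D x m a * CVar_D y m' a := by
  unfold TC.sl CVar_D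
  rw [Finset.card_filter, Nat.cast_sum]
  refine Finset.sum_congr rfl fun a _ => ?_
  by_cases h1 : ev a x = m
  · by_cases h2 : ev a y = m'
    · rw [if_pos ⟨h1, h2⟩, if_pos h1, if_pos h2]; norm_num
    · rw [if_neg (fun h => h2 h.2), if_neg h2]; norm_num
  · rw [if_neg (fun h => h1 h.1), if_neg h1]; norm_num

private theorem CVar_gen {n : ℕ} (d c : ℕ) (x y : Vc n O) {α β : Type} (S : Finset α)
    (S' : Finset β) (p : α → O) (q : β → O) :
    ∑ F ∈ T.Box n d c, (∑ i ∈ S, CVar_D x (p i) F) * (∑ j ∈ S', CVar_D y (q j) F) =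
      ∑ i ∈ S, ∑ j ∈ S', (T.sl d c x y (p i) (q j) : ℝ) := by
  simp only [CVar_sl, Finset.sum_mul_sum]
  rw [Finset.sum_comm]
  exact Finset.sum_congr rfl fun i _ => Finset.sum_comm

/-- The contribution of one point. -/
private noncomputable def CVar_P {n d : ℕ} (r : ℕ) (W M : Finset O) (x : Vc n O)
    (F : Ten n d O) : ℝ :=
  (∑ w ∈ W, CVar_D x (w ^ r) F) -
    (1 / (M.card : ℝ)) * ∑ p ∈ W ×ˢ M, CVar_D x (p.1 ^ r + p.2) F

/-- Contribution of a pair of points. -/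
private noncomputable def CVar_E {n : ℕ} (d c r : ℕ) (W M : Finset O) (x y : Vc n O) : ℝ :=
  ∑ F ∈ T.Box n d c, CVar_P r W M x F * CVar_P r W M y F

private theorem CVar_E_eq {n : ℕ} (d c r : ℕ) (W M : Finset O) (x y : Vc n O) :
    T.CVar_E d c r W M x y =
      (∑ w1 ∈ W, ∑ w2 ∈ W, (T.sl d c x y (w1 ^ r) (w2 ^ r) : ℝ))
      - (1 / (M.card : ℝ)) * ∑ p ∈ W ×ˢ M, ∑ w2 ∈ W, (T.sl d c x y (p.1 ^ r + p.2) (w2 ^ r) : ℝ)
      - (1 / (M.card : ℝ)) * ∑ w1 ∈ W, ∑ p ∈ W ×ˢ M, (T.sl d c x y (w1 ^ r) (p.1 ^ r + p.2) : ℝ)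
      + (1 / (M.card : ℝ)) ^ 2 * ∑ p ∈ W ×ˢ M, ∑ q ∈ W ×ˢ M,
          (T.sl d c x y (p.1 ^ r + p.2) (q.1 ^ r + q.2) : ℝ) := by
  rw [← T.CVar_gen d c x y W W (fun w => w ^ r) (fun w => w ^ r),
    ← T.CVar_gen d c x y (W ×ˢ M) W (fun p => p.1 ^ r + p.2) (fun w => w ^ r),
    ← T.CVar_gen d c x y W (W ×ˢ M) (fun w => w ^ r) (fun p => p.1 ^ r + p.2),
    ← T.CVar_gen d c x y (W ×ˢ M) (W ×ˢ M) (fun p => p.1 ^ r + p.2) (fun p => p.1 ^ r + p.2)]
  unfold CVar_E CVar_P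
  rw [Finset.mul_sum, Finset.mul_sum, Finset.mul_sum, ← Finset.sum_sub_distrib,
    ← Finset.sum_sub_distrib, ← Finset.sum_add_distrib]
  refine Finset.sum_congr rfl fun F _ => ?_
  ring

omit [CommRing O] in
private theorem CVar_quad (W M : Finset O) (f : O → O → O → O → ℝ) :
    ∑ p ∈ W ×ˢ M, ∑ q ∈ W ×ˢ M, f p.1 p.2 q.1 q.2 =
      ∑ w1 ∈ W, ∑ w2 ∈ W, ∑ μ ∈ M, ∑ μ' ∈ M, f w1 μ w2 μ' := by
  rw [Finset.sum_product]
  refine Finset.sum_congr rfl fun w1 _ => ?_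
  rw [Finset.sum_comm, Finset.sum_product]
  refine Finset.sum_congr rfl fun w2 _ => ?_
  rw [Finset.sum_comm]

private theorem CVar_expand {r m n a b g w : ℕ} :
    T.QvC r m n a b g w = ∑ x ∈ T.GG n b g, ∑ y ∈ T.GG n b g,
      T.CVar_E (r * m) a r (T.WS r m a b) (T.MS w (a + r * m * b)) x y := by
  have hN : ∀ F : Ten n (r * m) O, (T.NnC r m a b g F : ℝ) =
      ∑ x ∈ T.GG n b g, ∑ w1 ∈ T.WS r m a b, CVar_D x (w1 ^ r) F := by
    intro F
    unfold TC.NnC CVar_D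
    rw [Finset.card_filter, Nat.cast_sum, Finset.sum_product]
    refine Finset.sum_congr rfl fun x _ => Finset.sum_congr rfl fun w1 _ => ?_
    by_cases h : ev F x = w1 ^ r
    · rw [if_pos h, if_pos h, Nat.cast_one]
    · rw [if_neg h, if_neg h, Nat.cast_zero]
  have hL : ∀ F : Ten n (r * m) O, T.LlC r m a b g w F =
      ∑ x ∈ T.GG n b g, (1 / ((T.MS w (a + r * m * b)).card : ℝ)) *
        ∑ p ∈ (T.WS r m a b) ×ˢ (T.MS w (a + r * m * b)), CVar_D x (p.1 ^ r + p.2) F := by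
    intro F
    unfold TC.LlC CVar_D
    rw [Finset.card_filter, Nat.cast_sum, Finset.sum_product, ← Finset.mul_sum, div_eq_mul_inv,
      mul_comm, one_div]
    congr 1
    refine Finset.sum_congr rfl fun x _ => ?_
    rw [Finset.sum_product]
    refine Finset.sum_congr rfl fun w1 _ => ?_
    have h1 : ∀ μ : O, (ev F x = w1 ^ r + μ) = (ev F x - w1 ^ r = μ) := fun μ =>
      propext sub_eq_iff_eq_add'.symm
    simp only [h1]
    rw [Finset.sum_ite_eq]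
    by_cases h : ev F x - w1 ^ r ∈ T.MS w (a + r * m * b)
    · rw [if_pos h, if_pos h, Nat.cast_one]
    · rw [if_neg h, if_neg h, Nat.cast_zero]
  have hQ : ∀ F : Ten n (r * m) O, ((T.NnC r m a b g F : ℝ) - T.LlC r m a b g w F) ^ 2
      = ∑ x ∈ T.GG n b g, ∑ y ∈ T.GG n b g,
        CVar_P r (T.WS r m a b) (T.MS w (a + r * m * b)) x F *
          CVar_P r (T.WS r m a b) (T.MS w (a + r * m * b)) y F := by
    intro F
    rw [hN, hL, ← Finset.sum_sub_distrib, sq, Finset.sum_mul_sum]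
    rfl
  unfold TC.QvC
  rw [Finset.sum_congr rfl fun F _ => hQ F, Finset.sum_comm]
  refine Finset.sum_congr rfl fun x _ => ?_
  rw [Finset.sum_comm]
  rfl

theorem varBoundC {r m n a b g w : ℕ} (hz : (0 : O) ∈ T.MS w (a + r * m * b))
    (hinv : ∀ x ∈ T.GG n b g, ∀ y ∈ T.GG n b g, ¬ Prp x y → WD O w ≤ Dd x y →
      WD P w ≤ Dd (T.vtw b x) (T.vtw b y) → ∀ μ ∈ T.MS w (a + r * m * b),
      ∀ μ' ∈ T.MS w (a + r * m * b), ∀ z z' : O,
        T.sl (r * m) a x y (z + μ) (z' + μ') = T.sl (r * m) a x y z z') :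
    T.QvC r m n a b g w ≤ ∑ x ∈ T.GG n b g, ∑ y ∈ (T.GG n b g).filter (fun y => Prp x y ∨
      ¬ (WD O w ≤ Dd x y ∧ WD P w ≤ Dd (T.vtw b x) (T.vtw b y))),
        (T.A1 r m a b x y + T.A2 r m a b w x y) := by
  rw [CVar_expand]
  refine Finset.sum_le_sum fun x hx => ?_
  rw [Finset.sum_filter]
  refine Finset.sum_le_sum fun y hy => ?_
  have hA2 : T.A2 r m a b w x y = (1 / ((T.MS w (a + r * m * b)).card : ℝ)) ^ 2 *
      ∑ p ∈ (T.WS r m a b) ×ˢ (T.MS w (a + r * m * b)),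
        ∑ q ∈ (T.WS r m a b) ×ˢ (T.MS w (a + r * m * b)),
          (T.sl (r * m) a x y (p.1 ^ r + p.2) (q.1 ^ r + q.2) : ℝ) := by
    rw [CVar_quad _ _ fun w1 μ w2 μ' => (T.sl (r * m) a x y (w1 ^ r + μ) (w2 ^ r + μ') : ℝ)]
    rfl
  have hA1 : T.A1 r m a b x y = ∑ w1 ∈ T.WS r m a b, ∑ w2 ∈ T.WS r m a b,
      (T.sl (r * m) a x y (w1 ^ r) (w2 ^ r) : ℝ) := rfl
  rw [CVar_E_eq, ← hA1, ← hA2]
  by_cases h : Prp x y ∨ ¬ (WD O w ≤ Dd x y ∧ WD P w ≤ Dd (T.vtw b x) (T.vtw b y))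
  · rw [if_pos h]
    have h1 : 0 ≤ (1 / ((T.MS w (a + r * m * b)).card : ℝ)) *
        ∑ p ∈ (T.WS r m a b) ×ˢ (T.MS w (a + r * m * b)), ∑ w2 ∈ T.WS r m a b,
          (T.sl (r * m) a x y (p.1 ^ r + p.2) (w2 ^ r) : ℝ) := by positivity
    have h2 : 0 ≤ (1 / ((T.MS w (a + r * m * b)).card : ℝ)) *
        ∑ w1 ∈ T.WS r m a b, ∑ p ∈ (T.WS r m a b) ×ˢ (T.MS w (a + r * m * b)),
          (T.sl (r * m) a x y (w1 ^ r) (p.1 ^ r + p.2) : ℝ) := by positivity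
    linarith
  · rw [if_neg h]
    push Not at h
    have hi := hinv x hx y hy h.1 h.2.1 h.2.2
    have hc : ((T.MS w (a + r * m * b)).card : ℝ) ≠ 0 := by
      have : 0 < (T.MS w (a + r * m * b)).card := Finset.card_pos.2 ⟨0, hz⟩
      exact_mod_cast this.ne'
    have e1 : ∑ p ∈ (T.WS r m a b) ×ˢ (T.MS w (a + r * m * b)), ∑ w2 ∈ T.WS r m a b,
        (T.sl (r * m) a x y (p.1 ^ r + p.2) (w2 ^ r) : ℝ) =
        ((T.MS w (a + r * m * b)).card : ℝ) * T.A1 r m a b x y := by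
      rw [Finset.sum_product, hA1, Finset.mul_sum]
      refine Finset.sum_congr rfl fun w1 _ => ?_
      rw [← nsmul_eq_mul, ← Finset.sum_const]
      refine Finset.sum_congr rfl fun μ hμ => Finset.sum_congr rfl fun w2 _ => ?_
      have := hi μ hμ 0 hz (w1 ^ r) (w2 ^ r)
      rw [add_zero] at this
      rw [this]
    have e2 : ∑ w1 ∈ T.WS r m a b, ∑ p ∈ (T.WS r m a b) ×ˢ (T.MS w (a + r * m * b)),
        (T.sl (r * m) a x y (w1 ^ r) (p.1 ^ r + p.2) : ℝ) =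
        ((T.MS w (a + r * m * b)).card : ℝ) * T.A1 r m a b x y := by
      rw [hA1, Finset.mul_sum]
      refine Finset.sum_congr rfl fun w1 _ => ?_
      rw [Finset.sum_product, Finset.mul_sum]
      refine Finset.sum_congr rfl fun w2 _ => ?_
      rw [← nsmul_eq_mul, ← Finset.sum_const]
      refine Finset.sum_congr rfl fun μ hμ => ?_
      have := hi 0 hz μ hμ (w1 ^ r) (w2 ^ r)
      rw [add_zero] at this
      rw [this]
    have e3 : T.A2 r m a b w x y = T.A1 r m a b x y := by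
      unfold TC.A2 TC.A1
      rw [Finset.mul_sum]
      refine Finset.sum_congr rfl fun w1 _ => ?_
      rw [Finset.mul_sum]
      refine Finset.sum_congr rfl fun w2 _ => ?_
      have h5 : ∑ μ ∈ T.MS w (a + r * m * b), ∑ μ' ∈ T.MS w (a + r * m * b),
          (T.sl (r * m) a x y (w1 ^ r + μ) (w2 ^ r + μ') : ℝ) =
          ((T.MS w (a + r * m * b)).card : ℝ) * (((T.MS w (a + r * m * b)).card : ℝ) *
            (T.sl (r * m) a x y (w1 ^ r) (w2 ^ r) : ℝ)) := by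
        rw [← nsmul_eq_mul, ← Finset.sum_const]
        refine Finset.sum_congr rfl fun μ hμ => ?_
        rw [← nsmul_eq_mul, ← Finset.sum_const]
        refine Finset.sum_congr rfl fun μ' hμ' => ?_
        rw [hi μ hμ μ' hμ']
      rw [h5]
      field_simp
    rw [e1, e2, e3, one_div, inv_mul_cancel_left₀ hc]
    linarith

end TC

end Pool.Agent.Lib.MP_1ad228_ntZ
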