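import Pool.Agent.Lib.MP_1ad228_ntZ.FormsGen

/-! Cyclic covers `w ^ r = f (x)` of projective space over a field: the definitions of the final statement. -/

namespace Pool.Agent.Lib.MP_1ad228_ntZ

open IsDedekindDomain

variable {K : Type} [Field K]

/-- The form `f` defines a smooth hypersurface (over the algebraic closure of `K`). -/
def SmoothK {n : ℕ} (f : MvPolynomial (Fin (n + 1)) K) : Prop :=
  ∀ x : Fin (n + 1) → AlgebraicClosure K, x ≠ 0 → MvPolynomial.aeval x f = 0 →
    ∃ i, MvPolynomial.aeval x (MvPolynomial.pderiv i f) ≠ 0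

/-- The cyclic cover `w ^ r = f (x)` has a point with `x ≠ 0` over the completion of `K` at every
nonzero prime ideal of the Dedekind domain `R` with field of fractions `K`. -/
def CycSolR (R : Type) [CommRing R] [IsDedekindDomain R] [Algebra R K] [IsFractionRing R K]
    (r : ℕ) {n : ℕ} (f : MvPolynomial (Fin (n + 1)) K) : Prop :=
  ∀ v : HeightOneSpectrum R, ∃ (x : Fin (n + 1) → v.adicCompletion K) (w : v.adicCompletion K),
    x ≠ 0 ∧ MvPolynomial.aeval x f = w ^ r

/-- The cyclic cover `w ^ r = f (x)` has a point over `K` with `x ≠ 0` and all coordinates of `x`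
in the set `L`. -/
def PtIn (L : Set K) (r : ℕ) {n : ℕ} (f : MvPolynomial (Fin (n + 1)) K) : Prop :=
  ∃ (x : Fin (n + 1) → K) (w : K), x ≠ 0 ∧ (∀ i, x i ∈ L) ∧ MvPolynomial.aeval x f = w ^ r

end Pool.Agent.Lib.MP_1ad228_ntZ
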